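import Mathlib

/-! # MP_00644e_an, definitions (row 0, no proofs)

The construction. `G0` is Green's function of the complement of `[-1,1]` with pole at infinity,
`om` the conformal map of that complement onto the unit disc (`‖om v‖ = exp (-G0 v)`,
`om (cos s) = exp (i s)` for `Im s > 0`).  A stage is a polynomial `F` of degree `N`, a composition of
maps `v ↦ (1+q) T_{2^r}(v)`, with `E = F⁻¹[-1,1] ⊆ [-1,1]`, Green's function `g = G0 ∘ F / N` and the
inverse branches `B i` of `F`, holomorphic on the slit plane `Sc c`.  The chart `Z i s = B i (cos s)`,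
`0 < Im s < H`, unfolds the two sides of the `i`-th component of `E` (period `2π` in `Re s`). -/

set_option autoImplicit false

open Complex Metric Set Filter Topology MeasureTheory InnerProductSpace ComplexConjugate

noncomputable section

namespace Pool.Agent.NH

/-- Half the sum of the distances to the foci `1` and `-1`. -/
def A0 (v : ℂ) : ℝ := (‖v - 1‖ + ‖v + 1‖) / 2

/-- Green's function of the complement of `[-1,1]` with pole at infinity: `arcosh (A0 v)`. -/
def G0 (v : ℂ) : ℝ := Real.log (A0 v + Real.sqrt (A0 v ^ 2 - 1))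

/-- The segment `[-1,1]` as a subset of `ℂ`. -/
def seg : Set ℂ := {v | v.im = 0 ∧ |v.re| ≤ 1}

/-- The inverse Joukowski map onto the unit disc, `v - sqrt (v^2 - 1)`, holomorphic off `seg`. -/
def om (v : ℂ) : ℂ := v * (1 - (1 - 1 / v ^ 2) ^ (1 / 2 : ℂ))

/-- The plane slit along the real `v` with `c ≤ |v|`. -/
def Sc (c : ℝ) : Set ℂ := {v | v.im ≠ 0 ∨ |v.re| < c}

/-- `cheb r` is the Chebyshev polynomial `T_{2^r}`: `cheb r (cos x) = cos (2^r x)`. -/
def cheb : ℕ → ℂ → ℂ
  | 0, v => v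
  | (r + 1), v => 2 * (cheb r v) ^ 2 - 1

/-- The two inverse branches of `v ↦ 2 v^2 - 1`. -/
def hb (b : Bool) (v : ℂ) : ℂ := (if b then 1 else -1) * ((v + 1) / 2) ^ (1 / 2 : ℂ)

/-- The `2^r` inverse branches of `cheb r`. -/
def ibr : (r : ℕ) → (Fin r → Bool) → ℂ → ℂ
  | 0, _, v => v
  | (r + 1), σ, v => ibr r (fun i => σ i.castSucc) (hb (σ (Fin.last r)) v)

/-- Geometric data of a stage. -/
structure Geo where
  /-- the polynomial map -/
  F : ℂ → ℂ
  /-- its degree -/
  N : ℝ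
  /-- the branches are holomorphic on `Sc c` -/
  c : ℝ
  /-- index set of the branches -/
  ι : Type
  /-- it is finite -/
  fin : Fintype ι
  /-- the inverse branches -/
  B : ι → ℂ → ℂ

attribute [instance] Geo.fin

namespace Geo

variable (G : Geo)

/-- The compact set `E = F⁻¹[-1,1]`. -/
def E : Set ℂ := {v | G.F v ∈ seg}

/-- Green's function of the complement of `E` with pole at infinity. -/
def g (v : ℂ) : ℝ := G0 (G.F v) / G.N

/-- The height of the strip charts. -/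
def H : ℝ := G0 (G.c : ℂ)

/-- The strip chart of the component `i`. -/
def Z (i : G.ι) (s : ℂ) : ℂ := G.B i (Complex.cos s)

/-- What is needed about the geometry. -/
structure OK : Prop where
  hN : 1 ≤ G.N
  hc : 1 < G.c
  ne : Nonempty G.ι
  diff : Differentiable ℂ G.F
  low : ∀ v, G.N * G0 v ≤ G0 (G.F v)
  up : ∃ C : ℝ, ∀ v, G0 (G.F v) ≤ G.N * G0 v + C
  real : ∀ v, G.F (conj v) = conj (G.F v)
  Bdiff : ∀ i, DifferentiableOn ℂ (G.B i) (Sc G.c)
  FB : ∀ i, ∀ v ∈ Sc G.c, G.F (G.B i v) = v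
  compl : ∀ v, G.F v ∈ Sc G.c → ∃ i, G.B i (G.F v) = v
  disj : ∀ i j, ∀ v ∈ Sc G.c, G.B i v = G.B j v → i = j
  Bconj : ∀ i, ∀ v ∈ Sc G.c, G.B i (conj v) = conj (G.B i v)
  Bside : ∀ i, (∀ v : ℂ, 0 < v.im → 0 < (G.B i v).im) ∨ (∀ v : ℂ, 0 < v.im → (G.B i v).im < 0)

/-- The next stage: `F' = (1+q) T_{2^r}(F)`. -/
def step (q : ℝ) (r : ℕ) : Geo where
  F := fun v => (1 + q : ℝ) * cheb r (G.F v)
  N := 2 ^ r * G.N
  c := 1 + q
  ι := G.ι × (Fin r → Bool)
  fin := inferInstance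
  B := fun i v => G.B i.1 (ibr r i.2 (v / (1 + q : ℝ)))

end Geo

/-- Stage zero: `F = id`, `E = [-1,1]`. -/
def geo0 : Geo where
  F := fun v => v
  N := 1
  c := 2
  ι := Unit
  fin := inferInstance
  B := fun _ v => v

/-- Value of a real polynomial at a complex point. -/
def ev (A : Polynomial ℝ) (w : ℂ) : ℂ := Polynomial.aeval w A

/-- The pattern `Re A(ω) + Im B(ω)`, `ω = om (F v)`. -/
def Geo.pat (G : Geo) (A B : Polynomial ℝ) (v : ℂ) : ℝ :=
  (ev A (om (G.F v))).re + (ev B (om (G.F v))).im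

/-- Poisson integral of `b` (odd extension to the lower half plane): `(1/π) Im ∫ b(t)/(t-v) dt`. -/
def Pb (b : ℝ → ℝ) (v : ℂ) : ℝ := (∫ t : ℝ, (b t : ℂ) / ((t : ℂ) - v)).im / Real.pi

/-- Admissible continuous parts: continuous on the plane, harmonic off `E`, bounded by `M`. -/
structure EOK (E : Set ℂ) (e : ℂ → ℝ) (M : ℝ) : Prop where
  cont : Continuous e
  harm : HarmonicOnNhd e Eᶜ
  bdd : ∀ v, |e v| ≤ M

/-- Admissible densities: continuous, zero off `E`, bounded by `M`. -/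
structure BOK (E : Set ℂ) (b : ℝ → ℝ) (M : ℝ) : Prop where
  cont : Continuous b
  supp : ∀ t : ℝ, (t : ℂ) ∉ E → b t = 0
  bdd : ∀ t, |b t| ≤ M

/-- Positive harmonic functions on the complement of `E`, with value `L` at infinity. -/
structure PosH (E : Set ℂ) (K : ℂ → ℝ) (L : ℝ) : Prop where
  harm : HarmonicOnNhd K Eᶜ
  pos : ∀ v ∉ E, 0 < K v
  lim : Tendsto K (Bornology.cobounded ℂ) (𝓝 L)

/-- Local sub-mean-value property. -/
def LocSub (u : ℂ → ℝ) (U : Set ℂ) : Prop :=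
  ∀ z ∈ U, ∃ ρ > 0, ∀ r ∈ Ioo 0 ρ, u z ≤ Real.circleAverage u z r

/-- Local super-mean-value property. -/
def LocSuper (u : ℂ → ℝ) (U : Set ℂ) : Prop :=
  ∀ z ∈ U, ∃ ρ > 0, ∀ r ∈ Ioo 0 ρ, Real.circleAverage u z r ≤ u z

end Pool.Agent.NH
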