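import Pool.Agent.Lib.MP_00644e_an.Defs

/-! # Row T2: maximum principles

PROOF of `max_principle`. `u` attains its maximum `m` over the compact set `closure U`. Suppose `m > M`. The set
`A = {z ∈ closure U | u z = m}` is compact, nonempty and contained in `U` (frontier values are `≤ M`); choose
`z₁ ∈ A` with maximal real part. For small `r`: `m = u z₁ ≤ circleAverage u z₁ r ≤ m`, `u ≤ m` on the circle and
`u` is continuous there, hence `u = m` on the circle, in particular at `z₁ + r`: contradiction.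
`locSub_of_harmonic`: Mathlib mean value property `HarmonicOnNhd.circleAverage_eq`.
`max_principle_ext`: for `δ > 0` apply `max_principle` to `u - δ γ` on `W ∩ ball 0 R`, `R` large: on
`frontier W` it is `≤ M` (`γ ≥ 0`), on `‖z‖ = R` it is `≤ C - δ γ ≤ M` because `γ → ∞`. Let `δ → 0`. -/

set_option autoImplicit false

open Complex Metric Set Filter Topology MeasureTheory InnerProductSpace ComplexConjugate

noncomputable section

namespace Pool.Agent.NH

/-- strict inequality of circle averages -/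
private theorem T2_avg_lt {u : ℂ → ℝ} {z : ℂ} {r m : ℝ} (hr : 0 < r)
    (hc : ContinuousOn u (sphere z r)) (hm : ∀ w ∈ sphere z r, u w ≤ m) (hlt : u (z + r) < m) :
    Real.circleAverage u z r < m := by
  have hpi : (0 : ℝ) < 2 * Real.pi := by positivity
  have h1 : ∀ θ : ℝ, circleMap z r θ ∈ sphere z r := fun θ => circleMap_mem_sphere z hr.le θ
  have h2 : Continuous fun θ : ℝ => u (circleMap z r θ) :=
    hc.comp_continuous (continuous_circleMap z r) h1
  have h3 : (∫ θ in (0 : ℝ)..2 * Real.pi, u (circleMap z r θ)) <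
      ∫ θ in (0 : ℝ)..2 * Real.pi, m := by
    refine intervalIntegral.integral_lt_integral_of_continuousOn_of_le_of_exists_lt hpi
      h2.continuousOn continuousOn_const (fun θ _ => hm _ (h1 θ)) ⟨0, ⟨le_rfl, hpi.le⟩, ?_⟩
    have h4 : circleMap z r 0 = z + r := by simp [circleMap]
    rw [h4]
    exact hlt
  rw [intervalIntegral.integral_const, smul_eq_mul, sub_zero] at h3
  rw [Real.circleAverage_def, smul_eq_mul]
  calc (2 * Real.pi)⁻¹ * ∫ θ in (0 : ℝ)..2 * Real.pi, u (circleMap z r θ)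
      < (2 * Real.pi)⁻¹ * (2 * Real.pi * m) := by
        exact mul_lt_mul_of_pos_left h3 (inv_pos.2 hpi)
    _ = m := by field_simp

theorem max_principle {U : Set ℂ} (hU : IsOpen U) (hb : Bornology.IsBounded U) {u : ℂ → ℝ}
    (hc : ContinuousOn u (closure U)) (hs : LocSub u U) {M : ℝ} (hM : ∀ z ∈ frontier U, u z ≤ M) :
    ∀ z ∈ U, u z ≤ M := by
  intro z hz
  by_contra hlt
  rw [not_le] at hlt
  have hK : IsCompact (closure U) := hb.isCompact_closure
  obtain ⟨z0, hz0, hmax⟩ := hK.exists_isMaxOn ⟨z, subset_closure hz⟩ hc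
  have hmax' : ∀ w ∈ closure U, u w ≤ u z0 := hmax
  have hm : M < u z0 := lt_of_lt_of_le hlt (hmax' z (subset_closure hz))
  have hA : IsCompact (closure U ∩ u ⁻¹' {u z0}) :=
    hK.of_isClosed_subset (hc.preimage_isClosed_of_isClosed isClosed_closure isClosed_singleton)
      inter_subset_left
  obtain ⟨z1, hz1, hre⟩ := hA.exists_isMaxOn ⟨z0, hz0, rfl⟩ Complex.continuous_re.continuousOn
  have hre' : ∀ w ∈ closure U ∩ u ⁻¹' {u z0}, w.re ≤ z1.re := hre
  have hu1 : u z1 = u z0 := hz1.2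
  have hzU : z1 ∈ U := by
    by_contra hnot
    have h1 : z1 ∈ frontier U := by
      rw [hU.frontier_eq]
      exact ⟨hz1.1, hnot⟩
    have h2 := hM z1 h1
    rw [hu1] at h2
    linarith
  obtain ⟨ρ, hρ, hsub⟩ := hs z1 hzU
  obtain ⟨ρ', hρ', hball⟩ := Metric.isOpen_iff.1 hU z1 hzU
  set r : ℝ := min ρ ρ' / 2 with hr
  have hmin : 0 < min ρ ρ' := lt_min hρ hρ'
  have hr0 : 0 < r := by rw [hr]; linarith
  have hr1 : r < ρ := by
    have := min_le_left ρ ρ'
    rw [hr]; linarith
  have hr2 : r < ρ' := by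
    have := min_le_right ρ ρ'
    rw [hr]; linarith
  have hsph : sphere z1 r ⊆ U := fun w hw => hball (by
    rw [mem_ball, mem_sphere.1 hw]
    exact hr2)
  have hpt : z1 + (r : ℂ) ∈ sphere z1 r := by
    rw [mem_sphere, dist_eq_norm, add_sub_cancel_left, Complex.norm_real, Real.norm_eq_abs,
      abs_of_pos hr0]
  have h5 : u (z1 + (r : ℂ)) < u z0 := by
    refine lt_of_le_of_ne (hmax' _ (subset_closure (hsph hpt))) fun heq => ?_
    have h6 := hre' (z1 + (r : ℂ)) ⟨subset_closure (hsph hpt), heq⟩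
    rw [Complex.add_re, Complex.ofReal_re] at h6
    linarith
  have h7 := hsub r ⟨hr0, hr1⟩
  have h8 := T2_avg_lt hr0 (hc.mono (hsph.trans subset_closure))
    (fun w hw => hmax' w (subset_closure (hsph hw))) h5
  rw [hu1] at h7
  linarith

private theorem T2_mean {U : Set ℂ} {u : ℂ → ℝ} (h : HarmonicOnNhd u U) (hU : IsOpen U) :
    ∀ z ∈ U, ∃ ρ > 0, ∀ r ∈ Ioo 0 ρ, Real.circleAverage u z r = u z := by
  intro z hz
  obtain ⟨ρ, hρ, hball⟩ := Metric.isOpen_iff.1 hU z hz
  refine ⟨ρ, hρ, fun r hr => ?_⟩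
  refine InnerProductSpace.HarmonicOnNhd.circleAverage_eq (h.mono fun w hw => hball ?_)
  rw [mem_closedBall, abs_of_pos hr.1] at hw
  rw [mem_ball]
  exact lt_of_le_of_lt hw hr.2

theorem locSub_of_harmonic {U : Set ℂ} {u : ℂ → ℝ} (h : HarmonicOnNhd u U) (hU : IsOpen U) :
    LocSub u U := by
  intro z hz
  obtain ⟨ρ, hρ, h1⟩ := T2_mean h hU z hz
  exact ⟨ρ, hρ, fun r hr => (h1 r hr).ge⟩

theorem locSuper_of_harmonic {U : Set ℂ} {u : ℂ → ℝ} (h : HarmonicOnNhd u U) (hU : IsOpen U) :
    LocSuper u U := by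
  intro z hz
  obtain ⟨ρ, hρ, h1⟩ := T2_mean h hU z hz
  exact ⟨ρ, hρ, fun r hr => (h1 r hr).le⟩

/-- Maximum principle on an unbounded open set, with a barrier `γ` at infinity. -/
theorem max_principle_ext {W : Set ℂ} (hW : IsOpen W) {u γ : ℂ → ℝ}
    (hc : ContinuousOn u (closure W)) (hu : HarmonicOnNhd u W)
    (hγc : ContinuousOn γ (closure W)) (hγ : HarmonicOnNhd γ W) (hγ0 : ∀ z ∈ closure W, 0 ≤ γ z)
    (hγi : Tendsto γ (Bornology.cobounded ℂ) atTop) {C M : ℝ}
    (hC : ∀ᶠ z in Bornology.cobounded ℂ, z ∈ W → u z ≤ C)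
    (hM : ∀ z ∈ frontier W, u z ≤ M) : ∀ z ∈ W, u z ≤ M := by
  intro z hz
  have key : ∀ δ : ℝ, 0 < δ → u z - δ * γ z ≤ M := by
    intro δ hδ
    have h1 : ∀ᶠ w in Bornology.cobounded ℂ, (C - M) / δ ≤ γ w := hγi.eventually_ge_atTop _
    obtain ⟨R, hR⟩ : ∃ R : ℝ, ∀ w : ℂ, R ≤ ‖w‖ → (w ∈ W → u w ≤ C) ∧ (C - M) / δ ≤ γ w := by
      have h2 := hC.and h1
      rw [← comap_norm_atTop, Filter.eventually_comap] at h2
      obtain ⟨R, hR⟩ := Filter.eventually_atTop.1 h2
      exact ⟨R, fun w hw => hR ‖w‖ hw w rfl⟩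
    set R' : ℝ := max R (‖z‖ + 1) with hR'
    have hzR : ‖z‖ < R' := lt_of_lt_of_le (by linarith) (le_max_right R (‖z‖ + 1))
    have hUo : IsOpen (W ∩ ball (0 : ℂ) R') := hW.inter isOpen_ball
    have hcl : closure (W ∩ ball (0 : ℂ) R') ⊆ closure W := closure_mono inter_subset_left
    have hharm : HarmonicOnNhd (fun w => u w - δ * γ w) W := by
      have h3 := hu.sub (hγ.const_smul (c := δ))
      exact h3
    refine max_principle (u := fun w => u w - δ * γ w) hUo
      (Metric.isBounded_ball.subset inter_subset_right) ?_ ?_ ?_ z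
      ⟨hz, by rw [mem_ball, dist_zero_right]; exact hzR⟩
    · exact (hc.mono hcl).sub (continuousOn_const.mul (hγc.mono hcl))
    · exact locSub_of_harmonic (hharm.mono inter_subset_left) hUo
    · intro w hw
      rw [hUo.frontier_eq] at hw
      obtain ⟨hw1, hw2⟩ := hw
      have hγw := hγ0 w (hcl hw1)
      by_cases hwf : w ∈ frontier W
      · have h4 := hM w hwf
        have h5 := mul_nonneg hδ.le hγw
        linarith
      · have hwW : w ∈ W := by
          by_contra hnot
          exact hwf (by rw [hW.frontier_eq]; exact ⟨hcl hw1, hnot⟩)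
        have h6 : R' ≤ ‖w‖ := by
          by_contra hnot
          exact hw2 ⟨hwW, by rw [mem_ball, dist_zero_right]; exact not_le.1 hnot⟩
        obtain ⟨h7, h8⟩ := hR w ((le_max_left _ _).trans h6)
        have h9 := h7 hwW
        rw [div_le_iff₀ hδ] at h8
        have h10 : γ w * δ = δ * γ w := mul_comm _ _
        linarith
  have hγz := hγ0 z (subset_closure hz)
  by_contra hlt
  rw [not_le] at hlt
  have h1 := key ((u z - M) / (2 * (γ z + 1))) (by
    apply div_pos
    · linarith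
    · linarith)
  have h2 : (u z - M) / (2 * (γ z + 1)) * γ z ≤ (u z - M) / 2 := by
    rw [div_mul_eq_mul_div, div_le_div_iff₀ (by linarith) (by norm_num)]
    nlinarith
  linarith

end Pool.Agent.NH
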