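import Pool.Agent.Lib.MP_00644e_an.Defs

/-! # Row T1: the Dirichlet problem on a disc

PROOF. Put `h z = circleAverage (fun w => (herglotzRieszKernel c z w).re * φ w) c R` for `z ∈ ball c R` and
`h z = φ z` otherwise. Harmonic inside: `analyticOnNhd_circleAverage_herglotzRieszKernel_smul` (Mathlib,
`Mathlib/Analysis/Complex/Poisson.lean`) and `re_circleAverage_herglotzRieszKernel_smul`, then
`AnalyticAt.harmonicAt_re`. The kernel is positive. Continuity at a boundary point `ζ`: on the circle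
`|φ - φ ζ| ≤ ε + C q`, where `q z = 2 R² - 2 Re (z conj ζ)` is harmonic and equals `‖z - ζ‖²` on the circle;
by the Poisson formula the same bound holds for `h` on the disc, and `q ζ = 0`. -/

set_option autoImplicit false

open Complex Metric Set Filter Topology MeasureTheory InnerProductSpace ComplexConjugate

noncomputable section

namespace Pool.Agent.NH

/-- the comparison function -/
private def T1q (R : ℝ) (ζ z : ℂ) : ℝ := 2 * R ^ 2 - 2 * (z * conj ζ).re

private lemma T1q_sphere {R : ℝ} {ζ z : ℂ} (hζ : ζ ∈ sphere (0 : ℂ) R) (hz : z ∈ sphere (0 : ℂ) R) :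
    T1q R ζ z = ‖z - ζ‖ ^ 2 := by
  rw [mem_sphere_zero_iff_norm] at hζ hz
  rw [T1q, ← normSq_eq_norm_sq, normSq_sub, normSq_eq_norm_sq, normSq_eq_norm_sq, hζ, hz]
  ring

private lemma T1q_harm (R : ℝ) (ζ : ℂ) (a b : ℝ) (s : Set ℂ) :
    HarmonicOnNhd (fun z => a + b * T1q R ζ z) s := by
  intro x _
  have h1 : AnalyticAt ℂ (fun z : ℂ => (a : ℂ) + b * (2 * (R : ℂ) ^ 2 - 2 * (z * conj ζ))) x := by
    fun_prop
  have h2 := h1.harmonicAt_re
  refine (harmonicAt_congr_nhds (Filter.Eventually.of_forall fun z => ?_)).1 h2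
  simp [T1q, ← ofReal_pow]

private lemma T1_bound {R : ℝ} (φ : ℂ → ℝ)
    (hφ : ContinuousOn φ (sphere 0 R)) {ζ : ℂ} (hζ : ζ ∈ sphere (0 : ℂ) R) {ε : ℝ} (hε : 0 < ε) :
    ∃ C : ℝ, ∀ z ∈ sphere (0 : ℂ) R, |φ z - φ ζ| ≤ ε + C * T1q R ζ z := by
  obtain ⟨M, hM⟩ := (isCompact_sphere (0 : ℂ) R).exists_bound_of_continuousOn hφ
  obtain ⟨δ, hδ, hd⟩ := Metric.continuousWithinAt_iff.1 (hφ ζ hζ) ε hε
  have hM0 : 0 ≤ M := (norm_nonneg _).trans (hM ζ hζ)
  refine ⟨2 * M / δ ^ 2, fun z hz => ?_⟩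
  rw [T1q_sphere hζ hz]
  by_cases h : dist z ζ < δ
  · have h1 := hd hz h
    rw [Real.dist_eq] at h1
    have : 0 ≤ 2 * M / δ ^ 2 * ‖z - ζ‖ ^ 2 := by positivity
    linarith
  · have h1 : δ ≤ ‖z - ζ‖ := by rw [← dist_eq_norm]; exact not_lt.1 h
    have h2 : |φ z - φ ζ| ≤ 2 * M := by
      have e1 := hM z hz
      have e2 := hM ζ hζ
      rw [Real.norm_eq_abs] at e1 e2
      calc |φ z - φ ζ| ≤ |φ z| + |φ ζ| := abs_sub _ _
        _ ≤ 2 * M := by linarith
    have h3 : 2 * M ≤ 2 * M / δ ^ 2 * ‖z - ζ‖ ^ 2 := by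
      rw [div_mul_eq_mul_div, le_div_iff₀ (by positivity)]
      have : δ ^ 2 ≤ ‖z - ζ‖ ^ 2 := pow_le_pow_left₀ hδ.le h1 2
      exact mul_le_mul_of_nonneg_left this (by positivity)
    linarith

private lemma T1_core {R : ℝ} (hR : 0 < R) (φ : ℂ → ℝ) (hφ : ContinuousOn φ (sphere 0 R)) :
    ∃ (F : ℂ → ℂ) (h : ℂ → ℝ), AnalyticOnNhd ℂ F (ball 0 R) ∧ (∀ z ∈ ball (0 : ℂ) R, h z = (F z).re) ∧
      ContinuousOn h (closedBall 0 R) ∧ EqOn h φ (sphere 0 R) := by
  classical
  have hint : CircleIntegrable φ 0 R := hφ.circleIntegrable hR.le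
  have hintC : CircleIntegrable (fun ζ => (φ ζ : ℂ)) 0 R := by
    apply ContinuousOn.circleIntegrable hR.le
    exact continuous_ofReal.comp_continuousOn hφ
  set F : ℂ → ℂ := fun w ↦
    Real.circleAverage (fun ζ ↦ herglotzRieszKernel 0 w ζ • (φ ζ : ℂ)) 0 R with hF
  have hFan : AnalyticOnNhd ℂ F (ball 0 R) :=
    analyticOnNhd_circleAverage_herglotzRieszKernel_smul hintC
  have hFre : ∀ w ∈ ball (0 : ℂ) R, (F w).re =
      Real.circleAverage ((Complex.re ∘ herglotzRieszKernel 0 w) • φ) 0 R :=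
    fun w hw => re_circleAverage_herglotzRieszKernel_smul hint hw
  set h : ℂ → ℝ := fun z => if z ∈ ball (0 : ℂ) R then (F z).re else φ z with hh
  have hb : ∀ z ∈ ball (0 : ℂ) R, h z = (F z).re := fun z hz => by simp only [hh]; rw [if_pos hz]
  have hs : EqOn h φ (sphere 0 R) := fun z hz => by
    simp only [hh]
    rw [if_neg]
    intro h1
    rw [mem_ball_zero_iff] at h1
    rw [mem_sphere_zero_iff_norm] at hz
    linarith
  -- the kernel
  have hker : ∀ w ∈ ball (0 : ℂ) R, ContinuousOn (Complex.re ∘ herglotzRieszKernel 0 w)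
      (sphere 0 R) := fun w hw => by
    have := continuousOn_herglotzRieszKernel_sphere hw
    rw [abs_of_pos hR] at this
    exact continuous_re.comp_continuousOn this
  have hkpos : ∀ w ∈ ball (0 : ℂ) R, ∀ z ∈ sphere (0 : ℂ) R,
      0 ≤ (Complex.re ∘ herglotzRieszKernel 0 w) z := fun w hw z hz => by
    have h1 := le_re_herglotzRieszKernel hz hw
    rw [Function.comp_apply, herglotzRieszKernel_def]
    refine le_trans ?_ h1
    rw [mem_ball_zero_iff] at hw
    rw [sub_zero]
    have : 0 ≤ ‖w‖ := norm_nonneg w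
    apply div_nonneg <;> linarith
  have key : ∀ ζ ∈ sphere (0 : ℂ) R, ∀ ε > 0, ∃ C : ℝ, ∀ z ∈ closedBall (0 : ℂ) R,
      |h z - h ζ| ≤ ε + C * T1q R ζ z := by
    intro ζ hζ ε hε
    obtain ⟨C, hC⟩ := T1_bound φ hφ hζ hε
    refine ⟨C, fun z hz => ?_⟩
    rw [hs hζ]
    by_cases hzb : z ∈ ball (0 : ℂ) R
    · rw [hb z hzb, hFre z hzb]
      have hq : ∀ a b : ℝ, Real.circleAverage ((Complex.re ∘ herglotzRieszKernel 0 z) •
          (fun x => a + b * T1q R ζ x)) 0 R = a + b * T1q R ζ z := fun a b =>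
        (T1q_harm R ζ a b _).circleAverage_re_herglotzRieszKernel_smul hzb
      have hci : ∀ a b : ℝ, CircleIntegrable ((Complex.re ∘ herglotzRieszKernel 0 z) •
          (fun x => a + b * T1q R ζ x)) 0 R := fun a b => by
        apply ContinuousOn.circleIntegrable hR.le
        apply (hker z hzb).smul
        unfold T1q
        fun_prop
      have hcφ : CircleIntegrable ((Complex.re ∘ herglotzRieszKernel 0 z) • φ) 0 R := by
        apply ContinuousOn.circleIntegrable hR.le
        exact (hker z hzb).smul hφ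
      have up : Real.circleAverage ((Complex.re ∘ herglotzRieszKernel 0 z) • φ) 0 R ≤
          (φ ζ + ε) + C * T1q R ζ z := by
        rw [← hq (φ ζ + ε) C]
        apply Real.circleAverage_mono hcφ (hci _ _)
        intro x hx
        rw [abs_of_pos hR] at hx
        simp only [Pi.smul_apply', smul_eq_mul]
        apply mul_le_mul_of_nonneg_left _ (hkpos z hzb x hx)
        have := (abs_le.1 (hC x hx)).2
        linarith
      have lo : (φ ζ - ε) + (-C) * T1q R ζ z ≤
          Real.circleAverage ((Complex.re ∘ herglotzRieszKernel 0 z) • φ) 0 R := by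
        rw [← hq (φ ζ - ε) (-C)]
        apply Real.circleAverage_mono (hci _ _) hcφ
        intro x hx
        rw [abs_of_pos hR] at hx
        simp only [Pi.smul_apply', smul_eq_mul]
        apply mul_le_mul_of_nonneg_left _ (hkpos z hzb x hx)
        have := (abs_le.1 (hC x hx)).1
        linarith
      rw [abs_le]
      constructor <;> linarith
    · have hzs : z ∈ sphere (0 : ℂ) R := by
        rw [mem_sphere_zero_iff_norm]
        rw [mem_closedBall_zero_iff] at hz
        rw [mem_ball_zero_iff] at hzb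
        linarith
      rw [hs hzs]
      exact hC z hzs
  refine ⟨F, h, hFan, hb, ?_, hs⟩
  intro ζ hζ
  by_cases hζb : ζ ∈ ball (0 : ℂ) R
  · apply ContinuousAt.continuousWithinAt
    have h1 : ContinuousAt (fun z => (F z).re) ζ :=
      continuous_re.continuousAt.comp (hFan ζ hζb).continuousAt
    apply h1.congr
    filter_upwards [isOpen_ball.mem_nhds hζb] with z hz
    exact (hb z hz).symm
  · have hζs : ζ ∈ sphere (0 : ℂ) R := by
      rw [mem_sphere_zero_iff_norm]
      rw [mem_closedBall_zero_iff] at hζ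
      rw [mem_ball_zero_iff] at hζb
      linarith
    rw [Metric.continuousWithinAt_iff']
    intro ε hε
    obtain ⟨C, hC⟩ := key ζ hζs (ε / 2) (half_pos hε)
    have h1 : Tendsto (fun z => ε / 2 + C * T1q R ζ z) (𝓝[closedBall 0 R] ζ) (𝓝 (ε / 2)) := by
      have h2 : ContinuousWithinAt (fun z => ε / 2 + C * T1q R ζ z) (closedBall 0 R) ζ := by
        unfold T1q
        fun_prop
      have h3 : ε / 2 + C * T1q R ζ ζ = ε / 2 := by
        rw [T1q_sphere hζs hζs]; simp
      have h4 := h2.tendsto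
      rwa [h3] at h4
    filter_upwards [h1.eventually (gt_mem_nhds (half_lt_self hε)), self_mem_nhdsWithin] with z hz hzb
    rw [Real.dist_eq]
    exact (hC z hzb).trans_lt hz

theorem exists_dirichlet_ball (c : ℂ) {R : ℝ} (hR : 0 < R) (φ : ℂ → ℝ)
    (hφ : ContinuousOn φ (sphere c R)) :
    ∃ h : ℂ → ℝ, HarmonicContOnCl h (ball c R) ∧ EqOn h φ (sphere c R) := by
  have hmap : ∀ z ∈ sphere (0 : ℂ) R, z + c ∈ sphere c R := fun z hz => by
    rw [mem_sphere_zero_iff_norm] at hz
    rw [mem_sphere_iff_norm, add_sub_cancel_right, hz]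
  obtain ⟨F, h, hF, hb, hc, hs⟩ := T1_core hR (fun z => φ (z + c))
    (hφ.comp (by fun_prop) hmap)
  refine ⟨fun z => h (z - c), HarmonicContOnCl.mk_ball ?_ ?_, ?_⟩
  · intro x hx
    have hx' : x - c ∈ ball (0 : ℂ) R := by
      rw [mem_ball_iff_norm] at hx
      rwa [mem_ball_zero_iff]
    have h1 : AnalyticAt ℂ (fun z => F (z - c)) x := by
      have h2 : AnalyticAt ℂ (fun z : ℂ => z - c) x := by fun_prop
      exact AnalyticAt.fun_comp (hF _ hx') h2
    refine (harmonicAt_congr_nhds ?_).1 h1.harmonicAt_re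
    filter_upwards [isOpen_ball.mem_nhds hx] with z hz
    rw [hb]
    rw [mem_ball_iff_norm] at hz
    rwa [mem_ball_zero_iff]
  · refine hc.comp (by fun_prop) fun z hz => ?_
    rw [mem_closedBall_iff_norm] at hz
    rwa [mem_closedBall_zero_iff]
  · intro z hz
    have hz' : z - c ∈ sphere (0 : ℂ) R := by
      rw [mem_sphere_iff_norm] at hz
      rwa [mem_sphere_zero_iff_norm]
    simpa using hs hz'

end Pool.Agent.NH
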