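import Pool.Agent.Lib.MP_00644e_an.Defs

/-! # Row T3: Harnack's inequality on a ball, gradient estimate, composition with holomorphic maps

PROOFS. `harnack_ball`: Poisson formula on `ball c R'`, `r < R' < R` (`HarmonicOnNhd.circleAverage_re_herglotzRieszKernel_smul`,
kernel bounds `re_herglotzRieszKernel_le`, `le_re_herglotzRieszKernel`, mean value property), let `R' → R`.
`norm_fderiv_le`: `u = Re F` on the ball with `F` holomorphic (`HarmonicOnNhd.exists_analyticOnNhd_ball_re_eq`), `fderiv ℝ u c = Re (F'(c) ·)`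
so `‖fderiv ℝ u c‖ = ‖deriv F c‖`; Borel-Caratheodory (Mathlib) for `F - F c` on radius `R/2` (bound `4M`) and Cauchy's
estimate give `‖deriv F c‖ ≤ 8 M / R`.
`harmonicAt_comp`: near `φ z` `u = Re F`, so `u ∘ φ = Re (F ∘ φ)` near `z`. `norm_fderiv_comp`: chain rule; the real
derivative of a holomorphic map is multiplication by `deriv φ z`, a similarity of ratio `‖deriv φ z‖`. -/

set_option autoImplicit false

open Complex Metric Set Filter Topology MeasureTheory InnerProductSpace ComplexConjugate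

noncomputable section

namespace Pool.Agent.NH

private theorem T3_harnack {c : ℂ} {r R : ℝ} (hr : 0 ≤ r) (hrR : r < R) {u : ℂ → ℝ}
    (hu : HarmonicOnNhd u (closedBall c R)) (hp : ∀ z ∈ closedBall c R, 0 ≤ u z) {z : ℂ}
    (hz : z ∈ closedBall c r) :
    (R - r) / (R + r) * u c ≤ u z ∧ u z ≤ (R + r) / (R - r) * u c := by
  have hR : 0 < R := lt_of_le_of_lt hr hrR
  have hzR : z ∈ ball c R := by
    rw [mem_closedBall] at hz; rw [mem_ball]; linarith
  have hzn : ‖z - c‖ ≤ r := by rwa [mem_closedBall, dist_eq_norm] at hz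
  have hz0 : 0 ≤ ‖z - c‖ := norm_nonneg _
  have h1 := hu.circleAverage_re_herglotzRieszKernel_smul hzR
  have h2 : Real.circleAverage u c R = u c := by
    apply InnerProductSpace.HarmonicOnNhd.circleAverage_eq
    rwa [abs_of_pos hR]
  have huc : ContinuousOn u (sphere c R) := hu.continuousOn.mono sphere_subset_closedBall
  have hker : ContinuousOn (herglotzRieszKernel c z) (sphere c R) := by
    have := continuousOn_herglotzRieszKernel_sphere hzR
    rwa [abs_of_pos hR] at this
  have hker' : ContinuousOn ((re ∘ herglotzRieszKernel c z) • u) (sphere c R) :=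
    (Complex.continuous_re.comp_continuousOn hker).smul huc
  have hi1 : CircleIntegrable ((re ∘ herglotzRieszKernel c z) • u) c R := by
    apply ContinuousOn.circleIntegrable'
    rwa [abs_of_pos hR]
  have hi2 : ∀ K : ℝ, CircleIntegrable (fun w => K * u w) c R := fun K => by
    apply ContinuousOn.circleIntegrable'
    rw [abs_of_pos hR]
    exact continuousOn_const.mul huc
  have hav : ∀ K : ℝ, Real.circleAverage (fun w => K * u w) c R = K * u c := fun K => by
    rw [← h2]
    have := Real.circleAverage_fun_smul (a := K) (f := u) (c := c) (R := R)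
    simpa only [smul_eq_mul] using this
  constructor
  · rw [← hav, ← h1]
    apply Real.circleAverage_mono (hi2 _) hi1
    intro x hx
    rw [abs_of_pos hR] at hx
    have h3 := le_re_herglotzRieszKernel hx hzR
    have h4 := hp x (sphere_subset_closedBall hx)
    show _ ≤ (re ∘ herglotzRieszKernel c z) x * u x
    apply mul_le_mul_of_nonneg_right _ h4
    refine le_trans ?_ h3
    rw [div_le_div_iff₀ (by linarith) (by linarith)]
    nlinarith
  · rw [← hav, ← h1]
    apply Real.circleAverage_mono hi1 (hi2 _)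
    intro x hx
    rw [abs_of_pos hR] at hx
    have h3 := re_herglotzRieszKernel_le hx hzR
    have h4 := hp x (sphere_subset_closedBall hx)
    show (re ∘ herglotzRieszKernel c z) x * u x ≤ _
    apply mul_le_mul_of_nonneg_right _ h4
    refine le_trans h3 ?_
    rw [div_le_div_iff₀ (by linarith) (by linarith)]
    nlinarith

theorem harnack_ball {c : ℂ} {r R : ℝ} (hr : 0 ≤ r) (hrR : r < R) {u : ℂ → ℝ}
    (hu : HarmonicOnNhd u (ball c R)) (hp : ∀ z ∈ ball c R, 0 ≤ u z) {z : ℂ}
    (hz : z ∈ closedBall c r) :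
    (R - r) / (R + r) * u c ≤ u z ∧ u z ≤ (R + r) / (R - r) * u c := by
  have hev : ∀ᶠ R' in 𝓝[<] R, r < R' ∧ R' < R := by
    filter_upwards [Ioo_mem_nhdsLT hrR] with R' h using h
  have key : ∀ᶠ R' in 𝓝[<] R,
      (R' - r) / (R' + r) * u c ≤ u z ∧ u z ≤ (R' + r) / (R' - r) * u c := by
    filter_upwards [hev] with R' h
    exact T3_harnack hr h.1 (hu.mono (closedBall_subset_ball h.2))
      (fun w hw => hp w (closedBall_subset_ball h.2 hw)) hz
  have hR : 0 < R := lt_of_le_of_lt hr hrR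
  have hne : (𝓝[<] R).NeBot := nhdsLT_neBot_of_exists_lt ⟨r, hrR⟩
  have t1 : Tendsto (fun R' : ℝ => (R' - r) / (R' + r) * u c) (𝓝[<] R)
      (𝓝 ((R - r) / (R + r) * u c)) := by
    apply Tendsto.mono_left _ nhdsWithin_le_nhds
    apply ContinuousAt.tendsto (f := fun R' : ℝ => (R' - r) / (R' + r) * u c)
    apply ContinuousAt.mul _ continuousAt_const
    apply ContinuousAt.div (by fun_prop) (by fun_prop)
    linarith
  have t2 : Tendsto (fun R' : ℝ => (R' + r) / (R' - r) * u c) (𝓝[<] R)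
      (𝓝 ((R + r) / (R - r) * u c)) := by
    apply Tendsto.mono_left _ nhdsWithin_le_nhds
    apply ContinuousAt.tendsto (f := fun R' : ℝ => (R' + r) / (R' - r) * u c)
    apply ContinuousAt.mul _ continuousAt_const
    apply ContinuousAt.div (by fun_prop) (by fun_prop)
    have : 0 < R - r := by linarith
    exact this.ne'
  exact ⟨le_of_tendsto t1 (key.mono fun _ h => h.1), ge_of_tendsto t2 (key.mono fun _ h => h.2)⟩

theorem norm_fderiv_comp {u : ℂ → ℝ} {φ : ℂ → ℂ} {z : ℂ} (hu : DifferentiableAt ℝ u (φ z))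
    (hφ : DifferentiableAt ℂ φ z) :
    ‖fderiv ℝ (fun w => u (φ w)) z‖ = ‖fderiv ℝ u (φ z)‖ * ‖deriv φ z‖ := by
  have hφR : DifferentiableAt ℝ φ z := hφ.restrictScalars ℝ
  have h1 : fderiv ℝ (fun w => u (φ w)) z = (fderiv ℝ u (φ z)).comp (fderiv ℝ φ z) :=
    fderiv_comp z hu hφR
  have h2 : ∀ v : ℂ, fderiv ℝ φ z v = deriv φ z * v := by
    intro v
    rw [hφ.fderiv_restrictScalars ℝ]
    show fderiv ℂ φ z v = _
    rw [hφ.hasDerivAt.hasFDerivAt.fderiv]
    simp [mul_comm]
  rw [h1]
  set L := fderiv ℝ u (φ z)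
  set a := deriv φ z
  apply le_antisymm
  · refine (ContinuousLinearMap.opNorm_le_bound _ (by positivity) fun v => ?_)
    rw [ContinuousLinearMap.comp_apply, h2]
    calc ‖L (a * v)‖ ≤ ‖L‖ * ‖a * v‖ := L.le_opNorm _
      _ = ‖L‖ * ‖a‖ * ‖v‖ := by rw [norm_mul]; ring
  · rcases eq_or_ne a 0 with ha | ha
    · rw [ha]; simp
    have hpos : 0 < ‖a‖ := norm_pos_iff.2 ha
    rw [← le_div_iff₀ hpos]
    refine (ContinuousLinearMap.opNorm_le_bound _ (by positivity) fun v => ?_)
    have h3 : L v = (L.comp (fderiv ℝ φ z)) (a⁻¹ * v) := by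
      rw [ContinuousLinearMap.comp_apply, h2, ← mul_assoc, mul_inv_cancel₀ ha, one_mul]
    rw [h3]
    calc ‖(L.comp (fderiv ℝ φ z)) (a⁻¹ * v)‖ ≤ ‖L.comp (fderiv ℝ φ z)‖ * ‖a⁻¹ * v‖ :=
          (L.comp (fderiv ℝ φ z)).le_opNorm _
      _ = ‖L.comp (fderiv ℝ φ z)‖ / ‖a‖ * ‖v‖ := by rw [norm_mul, norm_inv]; ring

/-- The gradient of the real part of a holomorphic function. -/
theorem norm_fderiv_re {f : ℂ → ℂ} {z : ℂ} (hf : DifferentiableAt ℂ f z) :
    ‖fderiv ℝ (fun w => (f w).re) z‖ = ‖deriv f z‖ := by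
  have h := norm_fderiv_comp (u := fun w => w.re) (φ := f) (z := z)
    Complex.reCLM.differentiableAt hf
  have h1 : fderiv ℝ (fun w : ℂ => w.re) (f z) = Complex.reCLM := Complex.reCLM.fderiv
  rw [h, h1, Complex.reCLM_norm, one_mul]

theorem norm_fderiv_im {f : ℂ → ℂ} {z : ℂ} (hf : DifferentiableAt ℂ f z) :
    ‖fderiv ℝ (fun w => (f w).im) z‖ = ‖deriv f z‖ := by
  have h := norm_fderiv_comp (u := fun w => w.im) (φ := f) (z := z)
    Complex.imCLM.differentiableAt hf
  have h1 : fderiv ℝ (fun w : ℂ => w.im) (f z) = Complex.imCLM := Complex.imCLM.fderiv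
  rw [h, h1, Complex.imCLM_norm, one_mul]

/-- a harmonic function is the real part of a holomorphic function near each point -/
private theorem T3_local {u : ℂ → ℝ} {z : ℂ} (hu : HarmonicAt u z) :
    ∃ F : ℂ → ℂ, AnalyticAt ℂ F z ∧ u =ᶠ[𝓝 z] fun w => (F w).re := by
  obtain ⟨ε, hε, h⟩ := isOpen_iff.1 (isOpen_setOfPred_harmonicAt (f := u)) z hu
  obtain ⟨F, h1, h2⟩ := HarmonicOnNhd.exists_analyticOnNhd_ball_re_eq (f := u) (fun y hy => h hy)
  refine ⟨F, h1 z (mem_ball_self hε), ?_⟩
  filter_upwards [ball_mem_nhds z hε] with w hw using (h2 hw).symm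

theorem harmonicAt_comp {u : ℂ → ℝ} {φ : ℂ → ℂ} {z : ℂ} (hu : HarmonicAt u (φ z))
    (hφ : AnalyticAt ℂ φ z) : HarmonicAt (fun w => u (φ w)) z := by
  obtain ⟨F, h1, h2⟩ := T3_local hu
  have h3 : (fun w => u (φ w)) =ᶠ[𝓝 z] fun w => (F (φ w)).re :=
    hφ.continuousAt.eventually h2
  rw [harmonicAt_congr_nhds h3]
  exact (h1.comp hφ).harmonicAt_re

theorem norm_fderiv_le {c : ℂ} {R M : ℝ} (hR : 0 < R) {u : ℂ → ℝ}
    (hu : HarmonicOnNhd u (ball c R)) (hM : ∀ z ∈ ball c R, |u z| ≤ M) :
    ‖fderiv ℝ u c‖ ≤ 8 * M / R := by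
  obtain ⟨F, h1, h2⟩ := HarmonicOnNhd.exists_analyticOnNhd_ball_re_eq (f := u) hu
  have hc : c ∈ ball c R := mem_ball_self hR
  have hM0 : 0 ≤ M := (abs_nonneg _).trans (hM c hc)
  have e1 : u =ᶠ[𝓝 c] fun w => (F w).re := by
    filter_upwards [ball_mem_nhds c hR] with w hw using (h2 hw).symm
  have hFd : DifferentiableOn ℂ F (ball c R) := h1.differentiableOn
  rw [e1.fderiv_eq, norm_fderiv_re ((h1 c hc).differentiableAt)]
  set G : ℂ → ℂ := fun w => F (c + w) - F c with hG
  have hmem : ∀ w : ℂ, w ∈ ball (0 : ℂ) R → c + w ∈ ball c R := by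
    intro w hw
    rw [mem_ball_zero_iff] at hw
    rw [mem_ball, dist_eq_norm]
    simpa using hw
  have hGd : DifferentiableOn ℂ G (ball 0 R) := by
    apply DifferentiableOn.sub_const
    exact hFd.comp (by fun_prop) (fun w hw => hmem w hw)
  have hG0 : G 0 = 0 := by simp [hG]
  have hdG : deriv G 0 = deriv F c := by
    rw [hG]
    rw [deriv_sub_const, deriv_comp_const_add]
    simp
  rw [← hdG]
  have hbound : ∀ ε : ℝ, 0 < ε → ‖deriv G 0‖ ≤ 8 * (M + ε) / R := by
    intro ε hε
    have hre : MapsTo G (ball 0 R) {z | z.re ≤ 2 * (M + ε)} := by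
      intro w hw
      show (F (c + w) - F c).re ≤ _
      have a1 : (F (c + w)).re = u (c + w) := h2 (hmem w hw)
      have a2 : (F c).re = u c := h2 hc
      rw [sub_re, a1, a2]
      have b1 := abs_le.1 (hM _ (hmem w hw))
      have b2 := abs_le.1 (hM _ hc)
      linarith [b1.2, b2.1]
    have hC : ∀ w ∈ sphere (0 : ℂ) (R / 2), ‖G w‖ ≤ 4 * (M + ε) := by
      intro w hw
      rw [mem_sphere_zero_iff_norm] at hw
      have hw' : w ∈ ball (0 : ℂ) R := by rw [mem_ball_zero_iff, hw]; linarith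
      have := borelCaratheodory_zero (M := 2 * (M + ε)) (by linarith) hGd hre hR hw' hG0
      rw [hw] at this
      have e2 : 2 * (2 * (M + ε)) * (R / 2) / (R - R / 2) = 4 * (M + ε) := by
        field_simp; ring
      linarith
    have hdiff : DiffContOnCl ℂ G (ball 0 (R / 2)) := by
      apply DifferentiableOn.diffContOnCl
      apply hGd.mono
      refine closure_ball_subset_closedBall.trans (closedBall_subset_ball (by linarith))
    have := norm_deriv_le_of_forall_mem_sphere_norm_le (by linarith : 0 < R / 2) hdiff hC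
    have e3 : 4 * (M + ε) / (R / 2) = 8 * (M + ε) / R := by field_simp; ring
    rwa [e3] at this
  apply le_of_forall_pos_le_add
  intro δ hδ
  have := hbound (δ * R / 8) (by positivity)
  have e4 : 8 * (M + δ * R / 8) / R = 8 * M / R + δ := by field_simp
  linarith

/-- Composition with the reflection `z ↦ -conj z` (or `conj`). -/
theorem harmonicAt_comp_conj {u : ℂ → ℝ} {z : ℂ} (hu : HarmonicAt u (conj z)) :
    HarmonicAt (fun w => u (conj w)) z := by
  obtain ⟨F, h1, h2⟩ := T3_local hu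
  have hcont : Continuous (fun w : ℂ => conj w) := Complex.continuous_conj
  have h3 : (fun w => u (conj w)) =ᶠ[𝓝 z] fun w => ((conj ∘ F ∘ conj) w).re := by
    have := (hcont.continuousAt (x := z)).eventually h2
    filter_upwards [this] with w hw
    rw [hw]
    simp
  rw [harmonicAt_congr_nhds h3]
  apply AnalyticAt.harmonicAt_re
  rw [Complex.analyticAt_iff_eventually_differentiableAt]
  have h4 := Complex.analyticAt_iff_eventually_differentiableAt.1 h1
  have h5 := (hcont.continuousAt (x := z)).eventually h4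
  filter_upwards [h5] with w hw
  exact differentiableAt_conj_conj_iff.2 hw

theorem norm_fderiv_comp_conj {u : ℂ → ℝ} {z : ℂ} (hu : DifferentiableAt ℝ u (conj z)) :
    ‖fderiv ℝ (fun w => u (conj w)) z‖ = ‖fderiv ℝ u (conj z)‖ := by
  have h1 : fderiv ℝ (fun w => u (conj w)) z =
      (fderiv ℝ u (conj z)).comp (conjCLE : ℂ →L[ℝ] ℂ) := by
    have := fderiv_comp z (g := u) (f := fun w : ℂ => conj w) hu conjCLE.differentiableAt
    have h2 : fderiv ℝ (fun w : ℂ => conj w) z = (conjCLE : ℂ →L[ℝ] ℂ) := conjCLE.fderiv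
    rw [h2] at this
    exact this
  rw [h1]
  exact ContinuousLinearMap.opNorm_comp_linearIsometryEquiv (fderiv ℝ u (conj z)) conjLIE

end Pool.Agent.NH
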