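import Pool.Agent.Lib.MP_00644e_an.Defs
import Pool.Agent.Lib.MP_00644e_an.T1
import Pool.Agent.Lib.MP_00644e_an.T2
import Pool.Agent.Lib.MP_00644e_an.T3
/-! # Row T6: limits of harmonic functions, removable singularities

PROOFS. `harmonicOnNhd_of_tendstoLocallyUniformlyOn`: around `z ∈ U` choose a closed ball in `U` on which the
convergence is uniform; `f` is continuous there; let `h` be the solution of the Dirichlet problem (T1) with values `f`
on the sphere; by the maximum principle `|u n - h| ≤ sup_{sphere} |u n - f| → 0`, so `f = h` on the ball.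
`harmonicOnNhd_of_antitone`: on `ball c R`, for `m ≤ n` the function `u m - u n ≥ 0` is harmonic, by Harnack
`u m z - u n z ≤ ((R+r)/(R-r)) (u m c - u n c)` on `closedBall c r`, so the convergence is locally uniform.
`exists_extension`: `u` bounded harmonic on `ball c R \ {c}`; let `h` solve the Dirichlet problem on `ball c r`, `r < R`,
with values `u`; for `δ > 0` compare `±(u - h)` with `δ log (r/‖z-c‖)` on `ball c r \ closedBall c s`, `s → 0` (max_principle);
hence `u = h` on the punctured ball; take `u' = h` at `c` and `u` elsewhere. -/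

set_option autoImplicit false

open Complex Metric Set Filter Topology MeasureTheory InnerProductSpace ComplexConjugate

noncomputable section

namespace Pool.Agent.NH

/-- maximum principle for harmonic functions which are continuous on the closure -/
private theorem T6_max {U : Set ℂ} (hU : IsOpen U) (hb : Bornology.IsBounded U) {u : ℂ → ℝ}
    (hc : ContinuousOn u (closure U)) (hu : HarmonicOnNhd u U) {M : ℝ}
    (hM : ∀ z ∈ frontier U, u z ≤ M) : ∀ z ∈ U, u z ≤ M :=
  max_principle hU hb hc (locSub_of_harmonic hu hU) hM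

theorem harmonicOnNhd_of_tendstoLocallyUniformlyOn {U : Set ℂ} (hU : IsOpen U) {u : ℕ → ℂ → ℝ}
    {f : ℂ → ℝ} (hu : ∀ n, HarmonicOnNhd (u n) U) (h : TendstoLocallyUniformlyOn u f atTop U) :
    HarmonicOnNhd f U := by
  intro z hz
  obtain ⟨ρ, hρ, hρU⟩ := Metric.isOpen_iff.1 hU z hz
  have hR : 0 < ρ / 2 := by positivity
  set R := ρ / 2 with hRdef
  have hcb : closedBall z R ⊆ U := (closedBall_subset_ball (by linarith)).trans hρU
  have hun : TendstoUniformlyOn u f atTop (closedBall z R) :=
    (tendstoLocallyUniformlyOn_iff_tendstoUniformlyOn_of_compact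
      (isCompact_closedBall z R)).1 (h.mono hcb)
  have hcl : closure (ball z R) = closedBall z R := closure_ball z hR.ne'
  have hfr : frontier (ball z R) = sphere z R := frontier_ball z hR.ne'
  have hfc : ContinuousOn f (closedBall z R) :=
    hun.continuousOn (Frequently.of_forall fun n => (hu n).continuousOn.mono hcb)
  obtain ⟨g, hg, hgf⟩ := exists_dirichlet_ball z hR f (hfc.mono sphere_subset_closedBall)
  have hgc : ContinuousOn g (closedBall z R) := hcl ▸ hg.continuousOn
  have key : ∀ w ∈ ball z R, f w = g w := by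
    intro w hw
    have h1 : ∀ ε > 0, |f w - g w| ≤ 2 * ε := by
      intro ε hε
      obtain ⟨n, hn⟩ := (Metric.tendstoUniformlyOn_iff.1 hun ε hε).exists
      have hb1 : ∀ x ∈ ball z R, (u n - g) x ≤ ε := by
        refine T6_max isOpen_ball isBounded_ball ?_ ?_ fun x hx => ?_
        · rw [hcl]
          exact ((hu n).continuousOn.mono hcb).sub hgc
        · exact ((hu n).mono (ball_subset_closedBall.trans hcb)).sub hg.harmonicOnNhd
        · rw [hfr] at hx
          have h2 := hn x (sphere_subset_closedBall hx)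
          rw [Real.dist_eq, abs_lt] at h2
          change u n x - g x ≤ ε
          rw [hgf hx]
          linarith
      have hb2 : ∀ x ∈ ball z R, (g - u n) x ≤ ε := by
        refine T6_max isOpen_ball isBounded_ball ?_ ?_ fun x hx => ?_
        · rw [hcl]
          exact hgc.sub ((hu n).continuousOn.mono hcb)
        · exact hg.harmonicOnNhd.sub ((hu n).mono (ball_subset_closedBall.trans hcb))
        · rw [hfr] at hx
          have h2 := hn x (sphere_subset_closedBall hx)
          rw [Real.dist_eq, abs_lt] at h2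
          change g x - u n x ≤ ε
          rw [hgf hx]
          linarith
      have h3 := hb1 w hw
      have h4 := hb2 w hw
      have h5 := hn w (ball_subset_closedBall hw)
      change u n w - g w ≤ ε at h3
      change g w - u n w ≤ ε at h4
      rw [Real.dist_eq, abs_lt] at h5
      rw [abs_le]
      constructor <;> linarith
    have h2 : |f w - g w| ≤ 0 := by
      refine le_of_forall_pos_le_add fun ε hε => ?_
      have h3 := h1 (ε / 2) (by positivity)
      linarith
    exact sub_eq_zero.1 (abs_eq_zero.1 (le_antisymm h2 (abs_nonneg _)))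
  refine (harmonicAt_congr_nhds ?_).2 (hg.harmonicOnNhd z (mem_ball_self hR))
  filter_upwards [isOpen_ball.mem_nhds (mem_ball_self hR)] with w hw
  exact key w hw

theorem harmonicOnNhd_of_antitone {c : ℂ} {R : ℝ} {u : ℕ → ℂ → ℝ} {f : ℂ → ℝ}
    (hu : ∀ n, HarmonicOnNhd (u n) (ball c R)) (ha : ∀ z ∈ ball c R, Antitone fun n => u n z)
    (hl : ∀ z ∈ ball c R, Tendsto (fun n => u n z) atTop (𝓝 (f z))) :
    HarmonicOnNhd f (ball c R) := by
  refine harmonicOnNhd_of_tendstoLocallyUniformlyOn isOpen_ball hu ?_
  rw [Metric.tendstoLocallyUniformlyOn_iff]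
  intro ε hε z hz
  have hR : 0 < R := pos_of_mem_ball hz
  -- a radius `r` with `z` in the open ball of radius `r`
  obtain ⟨r, hr1, hr2⟩ := exists_between (mem_ball.1 hz)
  have hr0 : 0 ≤ r := dist_nonneg.trans hr1.le
  have hcc : c ∈ ball c R := mem_ball_self hR
  have hge : ∀ w ∈ ball c R, ∀ n, f w ≤ u n w := fun w hw n =>
    (ha w hw).le_of_tendsto (hl w hw) n
  have hK : 0 < (R + r) / (R - r) := div_pos (by linarith) (by linarith)
  have key : ∀ m, ∀ w ∈ closedBall c r, u m w - f w ≤ (R + r) / (R - r) * (u m c - f c) := by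
    intro m w hw
    have hwR : w ∈ ball c R := closedBall_subset_ball hr2 hw
    have h1 : ∀ n, m ≤ n → u m w - u n w ≤ (R + r) / (R - r) * (u m c - u n c) := by
      intro n hmn
      exact (harnack_ball hr0 hr2 (u := u m - u n) ((hu m).sub (hu n))
        (fun x hx => sub_nonneg.2 (ha x hx hmn)) hw).2
    have h2 : Tendsto (fun n => u m w - u n w) atTop (𝓝 (u m w - f w)) :=
      tendsto_const_nhds.sub (hl w hwR)
    have h3 : Tendsto (fun n => (R + r) / (R - r) * (u m c - u n c)) atTop
        (𝓝 ((R + r) / (R - r) * (u m c - f c))) :=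
      (tendsto_const_nhds.sub (hl c hcc)).const_mul _
    refine le_of_tendsto_of_tendsto h2 h3 ?_
    filter_upwards [eventually_ge_atTop m] with n hn
    exact h1 n hn
  refine ⟨ball c R ∩ ball c r, inter_mem_nhdsWithin _ (isOpen_ball.mem_nhds hr1), ?_⟩
  have h4 : Tendsto (fun n => (R + r) / (R - r) * (u n c - f c)) atTop (𝓝 0) := by
    have h5 := ((hl c hcc).sub_const (f c)).const_mul ((R + r) / (R - r))
    rw [sub_self, mul_zero] at h5
    exact h5
  filter_upwards [h4.eventually (gt_mem_nhds hε)] with n hn w hw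
  have h5 := key n w (ball_subset_closedBall hw.2)
  have h6 := hge w hw.1 n
  rw [Real.dist_eq, abs_lt]
  constructor <;> linarith

/-- one side of the comparison at an isolated singularity -/
private theorem T6_side {c : ℂ} {r C : ℝ} (hr : 0 < r) {v : ℂ → ℝ}
    (hvc : ContinuousOn v (closedBall c r \ {c})) (hv : HarmonicOnNhd v (ball c r \ {c}))
    (hb : ∀ z ∈ closedBall c r \ {c}, v z ≤ C) (h0 : ∀ z ∈ sphere c r, v z ≤ 0) :
    ∀ z ∈ ball c r \ {c}, v z ≤ 0 := by
  intro z hz
  have hzc : 0 < ‖z - c‖ := norm_pos_iff.2 (sub_ne_zero.2 hz.2)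
  have hzr : ‖z - c‖ < r := by
    have := hz.1
    rwa [mem_ball, dist_eq_norm] at this
  -- the comparison for fixed `δ`
  have key : ∀ δ > 0, v z ≤ δ * Real.log (r / ‖z - c‖) := by
    intro δ hδ
    -- choose `s`
    obtain ⟨s, hs0, hsz, hsl⟩ : ∃ s : ℝ, 0 < s ∧ s < ‖z - c‖ ∧ C ≤ δ * Real.log (r / s) := by
      have h1 : Tendsto (fun s : ℝ => δ * Real.log (r / s)) (𝓝[>] 0) atTop := by
        refine Tendsto.const_mul_atTop hδ ?_
        refine Real.tendsto_log_atTop.comp ?_
        have h2 : Tendsto (fun s : ℝ => s⁻¹) (𝓝[>] 0) atTop := tendsto_inv_nhdsGT_zero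
        exact (h2.const_mul_atTop hr)
      have h2 : ∀ᶠ s : ℝ in 𝓝[>] 0, s < ‖z - c‖ := by
        filter_upwards [Ioo_mem_nhdsGT hzc] with s hs
        exact hs.2
      have h3 : ∀ᶠ s : ℝ in 𝓝[>] 0, 0 < s := self_mem_nhdsWithin
      obtain ⟨s, h4, h5, h6⟩ := ((h1.eventually_ge_atTop C).and (h2.and h3)).exists
      exact ⟨s, h6, h5, h4⟩
    set U : Set ℂ := ball c r ∩ (closedBall c s)ᶜ with hUdef
    have hUo : IsOpen U := isOpen_ball.inter isClosed_closedBall.isOpen_compl
    have hUb : Bornology.IsBounded U := isBounded_ball.subset inter_subset_left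
    have hclU : closure U ⊆ closedBall c r ∩ (ball c s)ᶜ := by
      refine closure_minimal (inter_subset_inter ball_subset_closedBall ?_)
        (isClosed_closedBall.inter isOpen_ball.isClosed_compl)
      exact compl_subset_compl.2 ball_subset_closedBall
    have hfrU : frontier U ⊆ sphere c r ∪ sphere c s := by
      refine (frontier_inter_subset _ _).trans ?_
      rintro w (hw | hw)
      · left
        rw [frontier_ball c hr.ne'] at hw
        exact hw.1
      · right
        rw [frontier_compl, frontier_closedBall c hs0.ne'] at hw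
        exact hw.2
    have hne : ∀ w ∈ closedBall c r ∩ (ball c s)ᶜ, w ∈ closedBall c r \ {c} := by
      rintro w ⟨hw1, hw2⟩
      refine ⟨hw1, ?_⟩
      rintro rfl
      exact hw2 (mem_ball_self hs0)
    have hlogh : ∀ w, w ≠ c → HarmonicAt (fun w => Real.log ‖w - c‖) w := by
      intro w hw
      exact AnalyticAt.harmonicAt_log_norm (f := fun w => w - c)
        (analyticAt_id.sub analyticAt_const) (sub_ne_zero.2 hw)
    have hlogc : ContinuousOn (fun w : ℂ => Real.log ‖w - c‖) {c}ᶜ := fun w hw =>
      (hlogh w hw).1.continuousAt.continuousWithinAt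
    set p : ℂ → ℝ := v + (fun w => δ * Real.log ‖w - c‖) with hp
    have hpc : ContinuousOn p (closure U) := by
      refine (hvc.mono fun w hw => hne w (hclU hw)).add ?_
      exact continuousOn_const.mul (hlogc.mono fun w hw => (hne w (hclU hw)).2)
    have hph : HarmonicOnNhd p U := by
      intro w hw
      have hwc : w ≠ c := by
        rintro rfl
        exact hw.2 (mem_closedBall_self hs0.le)
      have h2 : HarmonicAt (δ • fun w : ℂ => Real.log ‖w - c‖) w := (hlogh w hwc).const_smul
      exact (hv w ⟨hw.1, hwc⟩).add h2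
    have hpz := T6_max hUo hUb hpc hph (M := δ * Real.log r) (fun w hw => by
      rcases hfrU hw with hw' | hw'
      · have h2 : ‖w - c‖ = r := by rwa [mem_sphere, dist_eq_norm] at hw'
        change v w + δ * Real.log ‖w - c‖ ≤ _
        rw [h2]
        have := h0 w hw'
        linarith
      · have h2 : ‖w - c‖ = s := by rwa [mem_sphere, dist_eq_norm] at hw'
        change v w + δ * Real.log ‖w - c‖ ≤ _
        rw [h2]
        have h3 : w ∈ closedBall c r \ {c} := by
          refine ⟨?_, ?_⟩
          · rw [mem_closedBall, dist_eq_norm, h2]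
            linarith
          · rintro rfl
            rw [sub_self, norm_zero] at h2
            exact hs0.ne h2
        have h4 := hb w h3
        rw [Real.log_div hr.ne' hs0.ne'] at hsl
        linarith) z ⟨hz.1, by
          rw [mem_compl_iff, mem_closedBall, dist_eq_norm]
          linarith⟩
    change v z + δ * Real.log ‖z - c‖ ≤ _ at hpz
    rw [Real.log_div hr.ne' hzc.ne']
    linarith
  -- let `δ → 0`
  refine le_of_forall_pos_le_add fun ε hε => ?_
  have hlog : 0 < Real.log (r / ‖z - c‖) := Real.log_pos ((one_lt_div hzc).2 hzr)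
  have h1 := key (ε / Real.log (r / ‖z - c‖)) (by positivity)
  rw [div_mul_cancel₀ _ hlog.ne'] at h1
  linarith

theorem exists_extension {c : ℂ} {R C : ℝ} (hR : 0 < R) {u : ℂ → ℝ}
    (hu : HarmonicOnNhd u (ball c R \ {c})) (hb : ∀ z ∈ ball c R \ {c}, |u z| ≤ C) :
    ∃ h : ℂ → ℝ, HarmonicOnNhd h (ball c R) ∧ ∀ z ∈ ball c R \ {c}, h z = u z := by
  classical
  have hr : 0 < R / 2 := by positivity
  set r := R / 2 with hrdef
  have hcb : closedBall c r ⊆ ball c R := closedBall_subset_ball (by linarith)
  have hcl : closure (ball c r) = closedBall c r := closure_ball c hr.ne'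
  have huc : ContinuousOn u (closedBall c r \ {c}) :=
    hu.continuousOn.mono (sdiff_subset_sdiff_left hcb)
  have hsp : sphere c r ⊆ closedBall c r \ {c} := by
    intro w hw
    refine ⟨sphere_subset_closedBall hw, ?_⟩
    rintro rfl
    rw [mem_sphere, dist_self] at hw
    exact hr.ne hw
  obtain ⟨g, hg, hgu⟩ := exists_dirichlet_ball c hr u (huc.mono hsp)
  have hgc : ContinuousOn g (closedBall c r) := hcl ▸ hg.continuousOn
  obtain ⟨Cg, hCg⟩ := (isCompact_closedBall c r).exists_bound_of_continuousOn hgc
  have hub : ∀ z ∈ closedBall c r \ {c}, |u z| ≤ C := fun z hz => hb z ⟨hcb hz.1, hz.2⟩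
  have huh : HarmonicOnNhd u (ball c r \ {c}) :=
    hu.mono (sdiff_subset_sdiff_left (ball_subset_closedBall.trans hcb))
  have hgh : HarmonicOnNhd g (ball c r \ {c}) := hg.harmonicOnNhd.mono sdiff_subset
  have h1 : ∀ z ∈ ball c r \ {c}, (u - g) z ≤ 0 := by
    refine T6_side (C := C + Cg) hr (huc.sub (hgc.mono sdiff_subset)) (huh.sub hgh)
      (fun z hz => ?_) (fun z hz => ?_)
    · have h2 := hub z hz
      have h3 := hCg z hz.1
      rw [Real.norm_eq_abs] at h3
      rw [abs_le] at h2 h3
      change u z - g z ≤ _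
      linarith
    · change u z - g z ≤ 0
      rw [hgu hz, sub_self]
  have h2 : ∀ z ∈ ball c r \ {c}, (g - u) z ≤ 0 := by
    refine T6_side (C := C + Cg) hr ((hgc.mono sdiff_subset).sub huc) (hgh.sub huh)
      (fun z hz => ?_) (fun z hz => ?_)
    · have h2 := hub z hz
      have h3 := hCg z hz.1
      rw [Real.norm_eq_abs] at h3
      rw [abs_le] at h2 h3
      change g z - u z ≤ _
      linarith
    · change g z - u z ≤ 0
      rw [hgu hz, sub_self]
  have h3 : ∀ z ∈ ball c r \ {c}, u z = g z := by
    intro z hz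
    have h4 := h1 z hz
    have h5 := h2 z hz
    change u z - g z ≤ 0 at h4
    change g z - u z ≤ 0 at h5
    linarith
  refine ⟨fun z => if z = c then g c else u z, fun z hz => ?_, fun z hz => if_neg hz.2⟩
  by_cases hzc : z = c
  · refine (harmonicAt_congr_nhds ?_).2 (hg.harmonicOnNhd z (hzc ▸ mem_ball_self hr))
    have h4 : ball c r ∈ 𝓝 z := isOpen_ball.mem_nhds (hzc ▸ mem_ball_self hr)
    filter_upwards [h4] with w hw
    by_cases hwc : w = c
    · rw [if_pos hwc, hwc]
    · rw [if_neg hwc]
      exact h3 w ⟨hw, hwc⟩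
  · refine (harmonicAt_congr_nhds ?_).2 (hu z ⟨hz, hzc⟩)
    filter_upwards [isOpen_compl_singleton.mem_nhds hzc] with w hw
    exact if_neg hw

end Pool.Agent.NH
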