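import Pool.Agent.Lib.MP_00644e_an.Defs
import Pool.Agent.Lib.MP_00644e_an.T1
import Pool.Agent.Lib.MP_00644e_an.T2
/-! # Row T7a: Poisson modification

PROOF. `exists_poisson_modification`: `h` = Dirichlet solution on the ball with boundary values `s` (T1); put `s' = h`
on the open ball, `s' = s` elsewhere. Continuity on `D`: `ContinuousOn.if`-type gluing (equal on the sphere).
`s' ≤ s`: on the ball `h - s` has the local sub-mean property (`h` harmonic, `s` super; subtract circle averages, both
continuous hence circle integrable), is continuous on the closed ball and `0` on the sphere: `max_principle`.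
`lo ≤ s'`: on the ball `lo - h` is sub-mean, `≤ 0` on the sphere. Super-mean property of `s'`: inside the ball harmonic;
outside the open ball `s' z = s z ≥ average of s ≥ average of s'` (`circleAverage_mono`, small circles inside `D`). -/

set_option autoImplicit false

open Complex Metric Set Filter Topology MeasureTheory InnerProductSpace ComplexConjugate

noncomputable section

namespace Pool.Agent.NH

private theorem T7a_ball {U : Set ℂ} (hU : IsOpen U) {z : ℂ} (hz : z ∈ U) :
    ∃ ρ > 0, ∀ r ∈ Ioo 0 ρ, closedBall z r ⊆ U := by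
  obtain ⟨ρ, hρ, h⟩ := Metric.isOpen_iff.1 hU z hz
  exact ⟨ρ, hρ, fun r hr => (closedBall_subset_ball hr.2).trans h⟩

private theorem T7a_int {U : Set ℂ} {a : ℂ → ℝ} (ha : ContinuousOn a U) {z : ℂ} {r : ℝ}
    (hr : 0 < r) (h : closedBall z r ⊆ U) : CircleIntegrable a z r :=
  ContinuousOn.circleIntegrable hr.le (ha.mono (sphere_subset_closedBall.trans h))

private theorem T7a_sub {U : Set ℂ} (hU : IsOpen U) {a b : ℂ → ℝ} (ha : ContinuousOn a U)
    (hb : ContinuousOn b U) (hA : LocSub a U) (hB : LocSuper b U) : LocSub (a - b) U := by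
  intro z hz
  obtain ⟨ρ1, h1, h1'⟩ := hA z hz
  obtain ⟨ρ2, h2, h2'⟩ := hB z hz
  obtain ⟨ρ3, h3, h3'⟩ := T7a_ball hU hz
  refine ⟨min ρ1 (min ρ2 ρ3), lt_min h1 (lt_min h2 h3), fun r hr => ?_⟩
  have hr1 : r < ρ1 := hr.2.trans_le (min_le_left _ _)
  have hr2 : r < ρ2 := hr.2.trans_le ((min_le_right _ _).trans (min_le_left _ _))
  have hr3 : r < ρ3 := hr.2.trans_le ((min_le_right _ _).trans (min_le_right _ _))
  have hc := h3' r ⟨hr.1, hr3⟩
  rw [Real.circleAverage_sub (T7a_int ha hr.1 hc) (T7a_int hb hr.1 hc)]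
  have e1 := h1' r ⟨hr.1, hr1⟩
  have e2 := h2' r ⟨hr.1, hr2⟩
  change a z - b z ≤ _
  linarith

theorem exists_poisson_modification {D : Set ℂ} (hD : IsOpen D) {s lo : ℂ → ℝ}
    (hs : ContinuousOn s D) (hS : LocSuper s D) (hlo : ContinuousOn lo D) (hL : LocSub lo D)
    (hle : ∀ z ∈ D, lo z ≤ s z) {c : ℂ} {R : ℝ} (hR : 0 < R) (hB : closedBall c R ⊆ D) :
    ∃ s' : ℂ → ℝ, ContinuousOn s' D ∧ LocSuper s' D ∧ (∀ z ∈ D, lo z ≤ s' z) ∧
      (∀ z ∈ D, s' z ≤ s z) ∧ HarmonicOnNhd s' (ball c R) := by
  classical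
  obtain ⟨h, hh, hhs⟩ := exists_dirichlet_ball c hR s (hs.mono (sphere_subset_closedBall.trans hB))
  have hbD : ball c R ⊆ D := ball_subset_closedBall.trans hB
  have hcl : closure (ball c R) = closedBall c R := closure_ball c hR.ne'
  have hfr : frontier (ball c R) = sphere c R := frontier_ball c hR.ne'
  have hhc : ContinuousOn h (closedBall c R) := hcl ▸ hh.continuousOn
  -- below `s` on the ball
  have k1 : ∀ z ∈ ball c R, h z ≤ s z := by
    have h1 : LocSub (h - s) (ball c R) := T7a_sub isOpen_ball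
      (hhc.mono ball_subset_closedBall) (hs.mono hbD)
      (locSub_of_harmonic hh.harmonicOnNhd isOpen_ball) (fun z hz => hS z (hbD hz))
    have h2 := max_principle isOpen_ball isBounded_ball (u := h - s)
      (by rw [hcl]; exact hhc.sub (hs.mono hB)) h1 (M := 0) (fun z hz => by
        rw [hfr] at hz
        change h z - s z ≤ 0
        rw [hhs hz, sub_self])
    intro z hz
    have := h2 z hz
    change h z - s z ≤ 0 at this
    linarith
  have k2 : ∀ z ∈ ball c R, lo z ≤ h z := by
    have h1 : LocSub (lo - h) (ball c R) := T7a_sub isOpen_ball (hlo.mono hbD)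
      (hhc.mono ball_subset_closedBall) (fun z hz => hL z (hbD hz))
      (locSuper_of_harmonic hh.harmonicOnNhd isOpen_ball)
    have h2 := max_principle isOpen_ball isBounded_ball (u := lo - h)
      (by rw [hcl]; exact (hlo.mono hB).sub hhc) h1 (M := 0) (fun z hz => by
        rw [hfr] at hz
        change lo z - h z ≤ 0
        rw [hhs hz]
        have := hle z (hB (sphere_subset_closedBall hz))
        linarith)
    intro z hz
    have := h2 z hz
    change lo z - h z ≤ 0 at this
    linarith
  have hin : ∀ z ∈ ball c R, (ball c R).piecewise h s z = h z := fun z hz =>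
    piecewise_eq_of_mem _ _ _ hz
  have hout : ∀ z, z ∉ ball c R → (ball c R).piecewise h s z = s z := fun z hz =>
    piecewise_eq_of_notMem _ _ _ hz
  have hcont : ContinuousOn ((ball c R).piecewise h s) D := by
    refine ContinuousOn.piecewise (fun a ha => ?_) ?_ (hs.mono inter_subset_left)
    · rw [hfr] at ha
      exact hhs ha.2
    · rw [hcl]
      exact hhc.mono inter_subset_right
  have hles : ∀ z ∈ D, (ball c R).piecewise h s z ≤ s z := by
    intro z _
    by_cases hz : z ∈ ball c R
    · rw [hin z hz]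
      exact k1 z hz
    · rw [hout z hz]
  refine ⟨(ball c R).piecewise h s, hcont, fun z hz => ?_, fun z hz => ?_, hles, fun z hz => ?_⟩
  · by_cases hzb : z ∈ ball c R
    · obtain ⟨ρ1, h1, h1'⟩ := locSuper_of_harmonic hh.harmonicOnNhd isOpen_ball z hzb
      obtain ⟨ρ2, h2, h2'⟩ := T7a_ball (isOpen_ball (x := c) (ε := R)) hzb
      refine ⟨min ρ1 ρ2, lt_min h1 h2, fun r hr => ?_⟩
      have hr1 : r < ρ1 := hr.2.trans_le (min_le_left _ _)
      have hr2 : r < ρ2 := hr.2.trans_le (min_le_right _ _)
      rw [hin z hzb]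
      refine le_trans (le_of_eq ?_) (h1' r ⟨hr.1, hr1⟩)
      refine Real.circleAverage_congr_sphere fun w hw => ?_
      rw [abs_of_pos hr.1] at hw
      exact hin w (h2' r ⟨hr.1, hr2⟩ (sphere_subset_closedBall hw))
    · obtain ⟨ρ1, h1, h1'⟩ := hS z hz
      obtain ⟨ρ2, h2, h2'⟩ := T7a_ball hD hz
      refine ⟨min ρ1 ρ2, lt_min h1 h2, fun r hr => ?_⟩
      have hr1 : r < ρ1 := hr.2.trans_le (min_le_left _ _)
      have hr2 : r < ρ2 := hr.2.trans_le (min_le_right _ _)
      have hcb := h2' r ⟨hr.1, hr2⟩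
      rw [hout z hzb]
      refine le_trans ?_ (h1' r ⟨hr.1, hr1⟩)
      refine Real.circleAverage_mono (T7a_int hcont hr.1 hcb) (T7a_int hs hr.1 hcb) fun w hw => ?_
      rw [abs_of_pos hr.1] at hw
      exact hles w (hcb (sphere_subset_closedBall hw))
  · by_cases hzb : z ∈ ball c R
    · rw [hin z hzb]
      exact k2 z hzb
    · rw [hout z hzb]
      exact hle z hz
  · refine (harmonicAt_congr_nhds ?_).2 (hh.harmonicOnNhd z hz)
    filter_upwards [isOpen_ball.mem_nhds hz] with w hw
    exact hin w hw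

end Pool.Agent.NH
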