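import Pool.Agent.Lib.MP_00644e_an.Defs
import Pool.Agent.Lib.MP_00644e_an.T7a
import Pool.Agent.Lib.MP_00644e_an.T6
/-! # Row T7: the sandwich lemma

PROOF (sweeping out). `D` is the union of countably many open balls `ball (c i) (R i)` with closed balls inside `D`
(`TopologicalSpace.isOpen_iUnion_countable` or rational centres). Start with `s 0 = hi`, `s (n+1)` = Poisson modification
(T7a, choose) of `s n` in the ball number `n.unpair.1`, so that every ball is used infinitely often. The sequence
decreases and stays `≥ lo`; let `u z` be its limit. On the ball number `i` the subsequence of the `n+1` with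
`n.unpair.1 = i` consists of harmonic functions: `harmonicOnNhd_of_antitone` (choose a strictly increasing
sequence of such `n`, e.g. `n k = Nat.pair i k`). -/

set_option autoImplicit false

open Complex Metric Set Filter Topology MeasureTheory InnerProductSpace ComplexConjugate

noncomputable section

namespace Pool.Agent.NH

theorem sandwich {D : Set ℂ} (hD : IsOpen D) {lo hi : ℂ → ℝ}
    (hlo : ContinuousOn lo D) (hL : LocSub lo D) (hhi : ContinuousOn hi D) (hH : LocSuper hi D)
    (hle : ∀ z ∈ D, lo z ≤ hi z) :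
    ∃ u : ℂ → ℝ, HarmonicOnNhd u D ∧ ∀ z ∈ D, lo z ≤ u z ∧ u z ≤ hi z := by
  classical
  rcases D.eq_empty_or_nonempty with h0 | hne
  · subst h0
    exact ⟨hi, fun z hz => absurd hz (Set.notMem_empty z), fun z hz => absurd hz (Set.notMem_empty z)⟩
  -- radii
  have hR : ∀ z : ℂ, ∃ R : ℝ, 0 < R ∧ (z ∈ D → closedBall z R ⊆ D) := by
    intro z
    by_cases hz : z ∈ D
    · obtain ⟨ε, hε, hb⟩ := Metric.nhds_basis_closedBall.mem_iff.1 (hD.mem_nhds hz)
      exact ⟨ε, hε, fun _ => hb⟩
    · exact ⟨1, one_pos, fun h => absurd h hz⟩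
  choose R hRpos hRD using hR
  obtain ⟨T, hTD, hTc, hT⟩ := TopologicalSpace.countable_cover_nhdsWithin
    (f := fun z => ball z (R z)) (s := D)
    (fun z _ => mem_nhdsWithin_of_mem_nhds (Metric.ball_mem_nhds z (hRpos z)))
  have hTne : T.Nonempty := by
    obtain ⟨z, hz⟩ := hne
    have := hT hz
    simp only [Set.mem_iUnion] at this
    obtain ⟨x, hx, _⟩ := this
    exact ⟨x, hx⟩
  obtain ⟨e, he⟩ := hTc.exists_eq_range hTne
  have heD : ∀ i, e i ∈ D := fun i => hTD (he ▸ Set.mem_range_self i)
  -- the steps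
  let St : Type := {s : ℂ → ℝ // ContinuousOn s D ∧ LocSuper s D ∧ ∀ z ∈ D, lo z ≤ s z}
  have hstep : ∀ (i : ℕ) (s : St), ∃ s' : St, (∀ z ∈ D, s'.1 z ≤ s.1 z) ∧
      HarmonicOnNhd s'.1 (ball (e i) (R (e i))) := by
    rintro i ⟨s, hs1, hs2, hs3⟩
    obtain ⟨s', h1, h2, h3, h4, h5⟩ := exists_poisson_modification hD hs1 hs2 hlo hL hs3
      (hRpos (e i)) (hRD (e i) (heD i))
    exact ⟨⟨s', h1, h2, h3⟩, h4, h5⟩
  choose step hs1 hs2 using hstep
  let S : ℕ → St := fun n => Nat.rec ⟨hi, hhi, hH, hle⟩ (fun n s => step (Nat.unpair n).1 s) n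
  have hS0 : (S 0).1 = hi := rfl
  have hSs : ∀ n, S (n + 1) = step (Nat.unpair n).1 (S n) := fun n => rfl
  have hanti : ∀ z ∈ D, Antitone fun n => (S n).1 z := by
    intro z hz
    apply antitone_nat_of_succ_le
    intro n
    rw [hSs]
    exact hs1 _ _ z hz
  have hlow : ∀ n, ∀ z ∈ D, lo z ≤ (S n).1 z := fun n z hz => (S n).2.2.2 z hz
  have hbdd : ∀ z ∈ D, BddBelow (Set.range fun n => (S n).1 z) := by
    intro z hz
    refine ⟨lo z, ?_⟩
    rintro _ ⟨n, rfl⟩
    exact hlow n z hz
  refine ⟨fun z => ⨅ n, (S n).1 z, ?_, ?_⟩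
  · intro z hz
    have hz' := hT hz
    simp only [Set.mem_iUnion] at hz'
    obtain ⟨x, hx, hzx⟩ := hz'
    rw [he] at hx
    obtain ⟨i, rfl⟩ := hx
    have hball : ball (e i) (R (e i)) ⊆ D :=
      Metric.ball_subset_closedBall.trans (hRD (e i) (heD i))
    have hmono : StrictMono fun k => Nat.pair i k := fun a b hab => Nat.pair_lt_pair_right i hab
    have key : HarmonicOnNhd (fun z => ⨅ n, (S n).1 z) (ball (e i) (R (e i))) := by
      apply harmonicOnNhd_of_antitone (u := fun k => (S (Nat.pair i k + 1)).1)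
      · intro k
        have h := hs2 (Nat.unpair (Nat.pair i k)).1 (S (Nat.pair i k))
        rw [← hSs] at h
        rw [Nat.unpair_pair] at h
        exact h
      · intro w hw a b hab
        exact hanti w (hball hw) (Nat.succ_le_succ (hmono.monotone hab))
      · intro w hw
        have h1 := tendsto_atTop_ciInf (hanti w (hball hw)) (hbdd w (hball hw))
        have h2 : Tendsto (fun k => Nat.pair i k + 1) atTop atTop :=
          (tendsto_add_atTop_nat 1).comp hmono.tendsto_atTop
        exact h1.comp h2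
    exact key z hzx
  · intro z hz
    refine ⟨le_ciInf fun n => hlow n z hz, ?_⟩
    exact ciInf_le (hbdd z hz) 0

end Pool.Agent.NH
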