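import Pool.Agent.Lib.MP_00644e_an.Defs
import Pool.Agent.Lib.MP_00644e_an.T2
import Pool.Agent.Lib.MP_00644e_an.T7
/-! # Row E1: continuous functions on the plane, harmonic off E, with given values on E

PROOF. `V = {v | g v < η}` is open and contains `E`. `hi v = if g v < η then min M (p v + C * g v) else M`,
`lo v = if g v < η then max (-M) (p v - C * g v) else -M`. For `g v > η/2` both equal `M`, `-M` by `hC` (so they are
continuous on `Eᶜ` and constant near every point with `g v > η/2`). On `{g < η} \ E` they are the minimum / maximum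
of two harmonic functions, so super (sub) mean. `lo ≤ hi`: the only nontrivial inequalities are `-M ≤ p + C g` and
`p - C g ≤ M` on `{g < η} \ E`; on `g ≥ η/2` by `hC`; on the bounded open set `{g < η/2} \ E` by `max_principle` (boundary: `E`, where
`|p| ≤ M`, and `{g = η/2}`). Apply `sandwich` on `D = Eᶜ`; `e = u` off `E`, `e = p` on `E`; `|e - p| ≤ C g` on `{g < η}`
gives continuity at the points of `E`. Bounded sets: `g → ∞` at infinity. -/

set_option autoImplicit false

open Complex Metric Set Filter Topology MeasureTheory InnerProductSpace ComplexConjugate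

noncomputable section

namespace Pool.Agent.NH

/-- the upper obstacle -/
private def E1_H (g p : ℂ → ℝ) (η M C : ℝ) (v : ℂ) : ℝ :=
  if g v < η then min M (p v + C * g v) else M

private theorem E1_H_of_lt {g p : ℂ → ℝ} {η M C : ℝ} {v : ℂ} (h : g v < η) :
    E1_H g p η M C v = min M (p v + C * g v) := if_pos h

private theorem E1_H_of_ge {g p : ℂ → ℝ} {η M C : ℝ} {v : ℂ} (h : ¬ g v < η) :
    E1_H g p η M C v = M := if_neg h

private theorem E1_H_le (g p : ℂ → ℝ) (η M C : ℝ) (v : ℂ) : E1_H g p η M C v ≤ M := by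
  by_cases h : g v < η
  · rw [E1_H_of_lt h]
    exact min_le_left _ _
  · rw [E1_H_of_ge h]

private theorem E1_H_eq {g p : ℂ → ℝ} {η M C : ℝ}
    (hC : ∀ v, η / 2 ≤ g v → g v < η → M + |p v| ≤ C * g v) {v : ℂ} (hv : η / 2 ≤ g v) :
    E1_H g p η M C v = M := by
  by_cases h : g v < η
  · rw [E1_H_of_lt h]
    refine min_eq_left ?_
    have h1 := hC v hv h
    have h2 := neg_abs_le (p v)
    linarith
  · rw [E1_H_of_ge h]

private theorem E1_cont {g p : ℂ → ℝ} {η M C : ℝ} (hgc : Continuous g) (hη : 0 < η)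
    (hp : HarmonicOnNhd p {v | g v < η})
    (hC : ∀ v, η / 2 ≤ g v → g v < η → M + |p v| ≤ C * g v) :
    Continuous (E1_H g p η M C) := by
  rw [continuous_iff_continuousAt]
  intro z
  rcases lt_or_ge (g z) η with h | h
  · have h1 : ContinuousAt (fun v => min M (p v + C * g v)) z := by
      have hpz : ContinuousAt p z := (hp z h).1.continuousAt
      exact continuousAt_const.min (hpz.add (continuousAt_const.mul hgc.continuousAt))
    refine h1.congr ?_
    have h2 : {v | g v < η} ∈ 𝓝 z := (isOpen_lt hgc continuous_const).mem_nhds h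
    filter_upwards [h2] with v hv
    exact (E1_H_of_lt hv).symm
  · have h1 : ContinuousAt (fun _ : ℂ => M) z := continuousAt_const
    refine h1.congr ?_
    have h2 : {v | η / 2 < g v} ∈ 𝓝 z :=
      (isOpen_lt continuous_const hgc).mem_nhds (show η / 2 < g z by linarith)
    filter_upwards [h2] with v hv
    exact (E1_H_eq hC (le_of_lt hv)).symm

private theorem E1_harm {E : Set ℂ} {g p : ℂ → ℝ} {η : ℝ} (C : ℝ)
    (hgh : HarmonicOnNhd g Eᶜ) (hp : HarmonicOnNhd p {v | g v < η}) :
    HarmonicOnNhd (fun v => p v + C * g v) ({v | g v < η} ∩ Eᶜ) := fun v hv =>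
  (hp v hv.1).add ((hgh v hv.2).const_smul (c := C))

private theorem E1_super {E : Set ℂ} (hE : IsCompact E) {g p : ℂ → ℝ} {η M C : ℝ}
    (hgc : Continuous g) (hgh : HarmonicOnNhd g Eᶜ) (hη : 0 < η)
    (hp : HarmonicOnNhd p {v | g v < η})
    (hC : ∀ v, η / 2 ≤ g v → g v < η → M + |p v| ≤ C * g v) :
    LocSuper (E1_H g p η M C) Eᶜ := by
  intro z hz
  have hcont := E1_cont hgc hη hp hC
  have hint : ∀ r, CircleIntegrable (E1_H g p η M C) z r := fun r =>
    ContinuousOn.circleIntegrable' hcont.continuousOn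
  have hM : ∀ r, Real.circleAverage (E1_H g p η M C) z r ≤ M := fun r =>
    Real.circleAverage_mono_on_of_le_circle (hint r) fun x _ => E1_H_le g p η M C x
  by_cases h : g z < η
  · have hU : IsOpen ({v | g v < η} ∩ Eᶜ) :=
      (isOpen_lt hgc continuous_const).inter hE.isClosed.isOpen_compl
    have hh := E1_harm (E := E) C hgh hp
    obtain ⟨ρ₁, hρ₁, h1⟩ := locSuper_of_harmonic hh hU z ⟨h, hz⟩
    obtain ⟨ρ₂, hρ₂, h2⟩ := Metric.isOpen_iff.1 hU z ⟨h, hz⟩
    refine ⟨min ρ₁ ρ₂, lt_min hρ₁ hρ₂, fun r hr => ?_⟩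
    rw [E1_H_of_lt h]
    refine le_min (hM r) ?_
    have hr1 : r < ρ₁ := lt_of_lt_of_le hr.2 (min_le_left _ _)
    have hr2 : r < ρ₂ := lt_of_lt_of_le hr.2 (min_le_right _ _)
    have hsub : sphere z |r| ⊆ {v | g v < η} ∩ Eᶜ := by
      intro x hx
      apply h2
      rw [mem_sphere, abs_of_pos hr.1] at hx
      rw [mem_ball, hx]
      exact hr2
    refine le_trans ?_ (h1 r ⟨hr.1, hr1⟩)
    refine Real.circleAverage_mono (hint r)
      (ContinuousOn.circleIntegrable' (hh.continuousOn.mono hsub)) fun x hx => ?_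
    rw [E1_H_of_lt (hsub hx).1]
    exact min_le_right _ _
  · refine ⟨1, one_pos, fun r _ => ?_⟩
    rw [E1_H_of_ge h]
    exact hM r

private theorem E1_low {E : Set ℂ} (hE : IsCompact E) {g p : ℂ → ℝ} {η M C : ℝ}
    (hgc : Continuous g) (hgh : HarmonicOnNhd g Eᶜ) (hg0 : ∀ v ∈ E, g v = 0)
    (hgi : Tendsto g (Bornology.cobounded ℂ) atTop) (hη : 0 < η) (hM0 : 0 ≤ M)
    (hp : HarmonicOnNhd p {v | g v < η}) (hM : ∀ v ∈ E, |p v| ≤ M)
    (hC : ∀ v, η / 2 ≤ g v → g v < η → M + |p v| ≤ C * g v) (v : ℂ) (hv : g v < η) :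
    -M ≤ p v + C * g v := by
  by_cases hvE : v ∈ E
  · rw [hg0 v hvE, mul_zero, add_zero]
    have h1 := hM v hvE
    have h2 := neg_abs_le (p v)
    linarith
  by_cases hv2 : η / 2 ≤ g v
  · have h1 := hC v hv2 hv
    have h2 := neg_abs_le (p v)
    linarith
  have hUo : IsOpen ({v | g v < η / 2} ∩ Eᶜ) :=
    (isOpen_lt hgc continuous_const).inter hE.isClosed.isOpen_compl
  have hcl : closure ({v | g v < η / 2} ∩ Eᶜ) ⊆ {v | g v ≤ η / 2} :=
    closure_minimal (fun x hx => show g x ≤ η / 2 from le_of_lt hx.1)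
      (isClosed_le hgc continuous_const)
  have hcl' : ∀ x ∈ closure ({v | g v < η / 2} ∩ Eᶜ), g x < η := fun x hx => by
    have h1 : g x ≤ η / 2 := hcl hx
    linarith
  have hbdd : Bornology.IsBounded ({v | g v < η / 2} ∩ Eᶜ) := by
    have h1 : ∀ᶠ x in Bornology.cobounded ℂ, η / 2 ≤ g x := hgi.eventually_ge_atTop (η / 2)
    rw [← Bornology.isCobounded_compl_iff]
    refine Filter.mem_of_superset h1 fun x hx => ?_
    rintro ⟨h2, -⟩
    have hx' : η / 2 ≤ g x := hx
    exact absurd hx' (not_le.2 h2)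
  have hcont : ContinuousOn (fun x => -(p x + C * g x)) (closure ({v | g v < η / 2} ∩ Eᶜ)) := by
    intro x hx
    have hpx : ContinuousAt p x := (hp x (hcl' x hx)).1.continuousAt
    exact (hpx.add (continuousAt_const.mul hgc.continuousAt)).neg.continuousWithinAt
  have hsub : {v | g v < η / 2} ∩ Eᶜ ⊆ {v | g v < η} ∩ Eᶜ := fun x hx =>
    ⟨hcl' x (subset_closure hx), hx.2⟩
  have hh : HarmonicOnNhd (fun x => -(p x + C * g x)) ({v | g v < η / 2} ∩ Eᶜ) :=
    ((E1_harm (E := E) C hgh hp).mono hsub).neg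
  have hmax := max_principle hUo hbdd hcont (locSub_of_harmonic hh hUo) (M := M) (fun x hx => by
    have hx1 : g x ≤ η / 2 := hcl (frontier_subset_closure hx)
    have hx2 : x ∉ {v | g v < η / 2} ∩ Eᶜ := by
      rw [hUo.frontier_eq] at hx
      exact hx.2
    by_cases hxE : x ∈ E
    · change -(p x + C * g x) ≤ M
      rw [hg0 x hxE, mul_zero, add_zero]
      have h1 := hM x hxE
      have h2 := neg_abs_le (p x)
      linarith
    · have hx3 : η / 2 ≤ g x := by
        by_contra hlt
        exact hx2 ⟨not_le.1 hlt, hxE⟩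
      have h1 := hC x hx3 (hcl' x (frontier_subset_closure hx))
      have h2 := neg_abs_le (p x)
      change -(p x + C * g x) ≤ M
      linarith)
  have h1 : -(p v + C * g v) ≤ M := hmax v ⟨not_le.1 hv2, hvE⟩
  linarith

theorem exists_e {E : Set ℂ} (hE : IsCompact E) {g : ℂ → ℝ} (hgc : Continuous g)
    (hgh : HarmonicOnNhd g Eᶜ) (hg0 : ∀ v ∈ E, g v = 0) (hgp : ∀ v ∉ E, 0 < g v)
    (hgi : Tendsto g (Bornology.cobounded ℂ) atTop) {p : ℂ → ℝ} {η M C : ℝ} (hη : 0 < η)
    (hM0 : 0 ≤ M) (hC0 : 0 ≤ C) (hp : HarmonicOnNhd p {v | g v < η}) (hM : ∀ v ∈ E, |p v| ≤ M)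
    (hC : ∀ v, η / 2 ≤ g v → g v < η → M + |p v| ≤ C * g v) :
    ∃ e : ℂ → ℝ, EOK E e M ∧ (∀ v ∈ E, e v = p v) ∧ ∀ v, g v < η → |e v - p v| ≤ C * g v := by
  classical
  have hpn : HarmonicOnNhd (fun v => -p v) {v | g v < η} := hp.neg
  have hMn : ∀ v ∈ E, |(-p v)| ≤ M := fun v hv => by rw [abs_neg]; exact hM v hv
  have hCn : ∀ v, η / 2 ≤ g v → g v < η → M + |(-p v)| ≤ C * g v := fun v h1 h2 => by
    rw [abs_neg]
    exact hC v h1 h2
  have hg : ∀ v, 0 ≤ g v := fun v => by
    by_cases h : v ∈ E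
    · rw [hg0 v h]
    · exact (hgp v h).le
  set hi : ℂ → ℝ := E1_H g p η M C with hhi
  set lo' : ℂ → ℝ := E1_H g (fun v => -p v) η M C with hlo'
  have c1 : Continuous hi := E1_cont hgc hη hp hC
  have c2 : Continuous lo' := E1_cont hgc hη hpn hCn
  have s1 : LocSuper hi Eᶜ := E1_super hE hgc hgh hη hp hC
  have s2 : LocSuper lo' Eᶜ := E1_super hE hgc hgh hη hpn hCn
  have s3 : LocSub (fun v => -lo' v) Eᶜ := by
    intro z hz
    obtain ⟨ρ, hρ, h⟩ := s2 z hz
    refine ⟨ρ, hρ, fun r hr => ?_⟩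
    have h1 := h r hr
    have h2 : Real.circleAverage (fun v => -lo' v) z r = -Real.circleAverage lo' z r := by
      simp only [Real.circleAverage, intervalIntegral.integral_neg, smul_neg]
    rw [h2]
    exact neg_le_neg h1
  have hlow1 := E1_low hE hgc hgh hg0 hgi hη hM0 hp hM hC
  have hlow2 := E1_low hE hgc hgh hg0 hgi hη hM0 hpn hMn hCn
  have hle : ∀ z ∈ Eᶜ, -lo' z ≤ hi z := by
    intro z _
    by_cases h : g z < η
    · rw [hhi, hlo', E1_H_of_lt h, E1_H_of_lt h]
      have h1 := hlow1 z h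
      have h2 := hlow2 z h
      have h3 : 0 ≤ C * g z := mul_nonneg hC0 (hg z)
      rw [neg_le]
      refine le_min ?_ ?_
      · rw [neg_le]
        refine le_min ?_ ?_
        · linarith
        · exact h1
      · rw [neg_le]
        refine le_min ?_ ?_
        · linarith
        · linarith
    · rw [hhi, hlo', E1_H_of_ge h, E1_H_of_ge h]
      linarith
  have c3 : ContinuousOn (fun v => -lo' v) Eᶜ := c2.neg.continuousOn
  obtain ⟨u, hu, hul⟩ := sandwich hE.isClosed.isOpen_compl c3 s3 c1.continuousOn s1 hle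
  have hu1 : ∀ v ∉ E, |u v| ≤ M := fun v hv => by
    obtain ⟨h1, h2⟩ := hul v hv
    have h3 := E1_H_le g p η M C v
    have h4 := E1_H_le g (fun v => -p v) η M C v
    rw [abs_le]
    exact ⟨by linarith, by linarith⟩
  have hu2 : ∀ v ∉ E, g v < η → |u v - p v| ≤ C * g v := fun v hv hgv => by
    obtain ⟨h1, h2⟩ := hul v hv
    rw [hhi, E1_H_of_lt hgv] at h2
    rw [hlo', E1_H_of_lt hgv] at h1
    have h3 := h2.trans (min_le_right _ _)
    have h4 := (neg_le_neg (min_le_right M (-p v + C * g v))).trans h1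
    rw [abs_le]
    exact ⟨by linarith, by linarith⟩
  set e : ℂ → ℝ := fun v => if v ∈ E then p v else u v with he
  have heE : ∀ v ∈ E, e v = p v := fun v hv => if_pos hv
  have heN : ∀ v ∉ E, e v = u v := fun v hv => if_neg hv
  have hclose : ∀ v, g v < η → |e v - p v| ≤ C * g v := fun v hv => by
    by_cases h : v ∈ E
    · rw [heE v h, sub_self, abs_zero]
      exact mul_nonneg hC0 (hg v)
    · rw [heN v h]
      exact hu2 v h hv
  have heq : ∀ z ∉ E, e =ᶠ[𝓝 z] u := fun z hz => by
    filter_upwards [hE.isClosed.isOpen_compl.mem_nhds hz] with v hv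
    exact heN v hv
  refine ⟨e, ⟨?_, fun z hz => ?_, fun v => ?_⟩, heE, hclose⟩
  · rw [continuous_iff_continuousAt]
    intro z
    by_cases hz : z ∈ E
    · have hgz : g z < η := by rw [hg0 z hz]; exact hη
      have hnear : {v | g v < η} ∈ 𝓝 z := (isOpen_lt hgc continuous_const).mem_nhds hgz
      have hpz : ContinuousAt p z := (hp z hgz).1.continuousAt
      have h1 : Tendsto (fun v => C * g v) (𝓝 z) (𝓝 0) := by
        have h := (continuousAt_const (y := C)).mul hgc.continuousAt (x := z)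
        have h' : C * g z = 0 := by rw [hg0 z hz, mul_zero]
        rw [← h']
        exact h
      have h2 : Tendsto (fun v => e v - p v) (𝓝 z) (𝓝 0) := by
        refine squeeze_zero_norm' ?_ h1
        filter_upwards [hnear] with v hv
        exact hclose v hv
      have h3 : Tendsto (fun v => (e v - p v) + p v) (𝓝 z) (𝓝 (0 + p z)) := h2.add hpz
      have h4 : (fun v => (e v - p v) + p v) = e := by
        funext v
        ring
      rw [h4, zero_add] at h3
      rw [ContinuousAt, heE z hz]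
      exact h3
    · exact (hu z hz).1.continuousAt.congr (heq z hz).symm
  · exact (harmonicAt_congr_nhds (heq z hz)).2 (hu z hz)
  · by_cases h : v ∈ E
    · rw [heE v h]
      exact hM v h
    · rw [heN v h]
      exact hu1 v h

end Pool.Agent.NH
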