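import Pool.Agent.Lib.MP_00644e_an.Defs

/-! # Row G1: the function G0

PROOFS. `A0 v ≥ 1` (triangle inequality, `‖2‖ = ‖(v+1)-(v-1)‖`), equality iff `v ∈ seg`. `cosh (G0 v) = A0 v`.
`G0_cos`: `‖cos s - 1‖ + ‖cos s + 1‖ = 2 ‖sin (s/2)‖² + 2 ‖cos (s/2)‖² = 2 cosh (Im s)`, so `A0 (cos s) = cosh (Im s)`.
`G0_cheb_one`: `A0 (2v²-1) = ‖v-1‖ ‖v+1‖ + ‖v‖² = 2 (A0 v)² - 1` (parallelogram law), `cosh 2x = 2 cosh² x - 1`.
`G0_mul`: `λ ↦ A0 (λ v)` is convex and even in `λ`, hence `A0 v ≤ A0 (c v)` for `c ≥ 1`. Upper bound: let `x = G0 v`,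
`y = G0 c`; `‖c v - 1‖ ≤ c ‖v - 1‖ + (c-1)`... gives only `A0 (c v) ≤ c A0 v + c - 1`; this is `≤ cosh (x + C)` with
`C = arcosh (2c - 1)`, since `cosh (x+C) ≥ cosh x cosh C = (2c-1) cosh x ≥ c cosh x + c - 1`. So the statement is with `G0 (2c-1)`.
`log ‖v‖ ≤ G0 v ≤ log (2 (‖v‖+1))`: `‖v‖ ≤ A0 v ≤ ‖v‖ + 1`.
`exists_cos`: `Complex.cos_surjective`: `w = cos s`, `|Im s| = G0 w` by `G0_cos`; replace `s` by `-s` and shift by `2π k`. -/

set_option autoImplicit false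

open Complex Metric Set Filter Topology MeasureTheory InnerProductSpace ComplexConjugate

noncomputable section

namespace Pool.Agent.NH

theorem one_le_A0 (v : ℂ) : 1 ≤ A0 v := by
  have h1 : ‖(v + 1) - (v - 1)‖ ≤ ‖v + 1‖ + ‖v - 1‖ := norm_sub_le _ _
  have h2 : (v + 1) - (v - 1) = ((2 : ℝ) : ℂ) := by
    push_cast
    ring
  rw [h2, Complex.norm_real, Real.norm_eq_abs, abs_of_pos two_pos] at h1
  unfold A0
  linarith

private theorem G0_eq (v : ℂ) : G0 v = Real.arcosh (A0 v) := rfl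

theorem cosh_G0 (v : ℂ) : Real.cosh (G0 v) = A0 v := Real.cosh_arcosh (one_le_A0 v)

theorem G0_nonneg (v : ℂ) : 0 ≤ G0 v := Real.arcosh_nonneg (one_le_A0 v)

private theorem G0_le_of_cosh {v : ℂ} {x : ℝ} (hx : 0 ≤ x) (h : A0 v ≤ Real.cosh x) :
    G0 v ≤ x := by
  have h1 := one_le_A0 v
  have h2 : Real.arcosh (A0 v) ≤ Real.arcosh (Real.cosh x) :=
    (Real.arcosh_le_arcosh (by linarith) (Real.cosh_pos x)).2 h
  rw [Real.arcosh_cosh hx] at h2
  exact h2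

private theorem G0_of_cosh {v : ℂ} {x : ℝ} (hx : 0 ≤ x) (h : A0 v = Real.cosh x) :
    G0 v = x := by
  rw [G0_eq, h, Real.arcosh_cosh hx]

theorem continuous_G0 : Continuous G0 := by
  have h1 : Continuous A0 := by
    unfold A0
    fun_prop
  exact Real.continuousOn_arcosh.comp_continuous h1 fun v => one_le_A0 v

private theorem normsq (v : ℂ) : ‖v‖ ^ 2 = v.re ^ 2 + v.im ^ 2 := by
  rw [Complex.sq_norm, Complex.normSq_apply]
  ring

theorem G0_eq_zero_iff (v : ℂ) : G0 v = 0 ↔ v ∈ seg := by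
  rw [G0_eq, Real.arcosh_eq_zero_iff (one_le_A0 v)]
  have a2 := normsq (v - 1)
  have b2 := normsq (v + 1)
  have e1 : (v - 1).re = v.re - 1 := by simp
  have e2 : (v - 1).im = v.im := by simp
  have e3 : (v + 1).re = v.re + 1 := by simp
  have e4 : (v + 1).im = v.im := by simp
  rw [e1, e2] at a2
  rw [e3, e4] at b2
  have a0 := norm_nonneg (v - 1)
  have b0 := norm_nonneg (v + 1)
  constructor
  · intro h
    unfold A0 at h
    have hab : ‖v - 1‖ = 2 - ‖v + 1‖ := by linarith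
    have hx : ‖v + 1‖ = 1 + v.re := by
      rw [hab] at a2
      nlinarith
    have hx' : ‖v - 1‖ = 1 - v.re := by linarith
    refine ⟨?_, ?_⟩
    · rw [hx] at b2
      have : v.im ^ 2 = 0 := by linarith
      exact pow_eq_zero_iff two_ne_zero |>.1 this
    · rw [abs_le]
      constructor <;> linarith
  · rintro ⟨h1, h2⟩
    rw [abs_le] at h2
    rw [h1] at a2 b2
    have ha : ‖v - 1‖ = 1 - v.re := by
      have h : ‖v - 1‖ ^ 2 = (1 - v.re) ^ 2 := by rw [a2]; ring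
      exact (sq_eq_sq₀ a0 (by linarith)).1 h
    have hb : ‖v + 1‖ = 1 + v.re := by
      have h : ‖v + 1‖ ^ 2 = (1 + v.re) ^ 2 := by rw [b2]; ring
      exact (sq_eq_sq₀ b0 (by linarith)).1 h
    unfold A0
    rw [ha, hb]
    ring

theorem G0_pos {v : ℂ} (h : v ∉ seg) : 0 < G0 v :=
  lt_of_le_of_ne (G0_nonneg v) fun e => h ((G0_eq_zero_iff v).1 e.symm)

private theorem cos_sin_sq (z : ℂ) :
    ‖Complex.sin z‖ ^ 2 + ‖Complex.cos z‖ ^ 2 = Real.cosh (2 * z.im) := by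
  have hc : Complex.cos z = ((Real.cos z.re * Real.cosh z.im : ℝ) : ℂ) -
      ((Real.sin z.re * Real.sinh z.im : ℝ) : ℂ) * I := by
    rw [Complex.cos_eq]
    push_cast
    ring
  have hs : Complex.sin z = ((Real.sin z.re * Real.cosh z.im : ℝ) : ℂ) +
      ((Real.cos z.re * Real.sinh z.im : ℝ) : ℂ) * I := by
    rw [Complex.sin_eq]
    push_cast
    ring
  have c1 : (Complex.cos z).re = Real.cos z.re * Real.cosh z.im := by
    rw [hc, Complex.sub_re, Complex.re_ofReal_mul, Complex.I_re, mul_zero, sub_zero,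
      Complex.ofReal_re]
  have c2 : (Complex.cos z).im = -(Real.sin z.re * Real.sinh z.im) := by
    rw [hc, Complex.sub_im, Complex.im_ofReal_mul, Complex.I_im, mul_one, Complex.ofReal_im,
      zero_sub]
  have s1 : (Complex.sin z).re = Real.sin z.re * Real.cosh z.im := by
    rw [hs, Complex.add_re, Complex.re_ofReal_mul, Complex.I_re, mul_zero, add_zero,
      Complex.ofReal_re]
  have s2 : (Complex.sin z).im = Real.cos z.re * Real.sinh z.im := by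
    rw [hs, Complex.add_im, Complex.im_ofReal_mul, Complex.I_im, mul_one, Complex.ofReal_im,
      zero_add]
  rw [normsq, normsq, c1, c2, s1, s2, Real.cosh_two_mul]
  have h1 := Real.sin_sq_add_cos_sq z.re
  calc (Real.sin z.re * Real.cosh z.im) ^ 2 + (Real.cos z.re * Real.sinh z.im) ^ 2 +
        ((Real.cos z.re * Real.cosh z.im) ^ 2 + (-(Real.sin z.re * Real.sinh z.im)) ^ 2)
      = (Real.sin z.re ^ 2 + Real.cos z.re ^ 2) * (Real.cosh z.im ^ 2 + Real.sinh z.im ^ 2) := by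
        ring
    _ = Real.cosh z.im ^ 2 + Real.sinh z.im ^ 2 := by rw [h1, one_mul]

private theorem A0_cos (s : ℂ) : A0 (Complex.cos s) = Real.cosh s.im := by
  have h1 : Complex.cos s = 2 * Complex.cos (s / 2) ^ 2 - 1 := by
    rw [← Complex.cos_two_mul]
    congr 1
    ring
  have h2 : Complex.cos s = 1 - 2 * Complex.sin (s / 2) ^ 2 := by
    have := Complex.sin_sq_add_cos_sq (s / 2)
    rw [h1]
    linear_combination 2 * this
  have n1 : ‖Complex.cos s - 1‖ = 2 * ‖Complex.sin (s / 2)‖ ^ 2 := by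
    rw [h2, show (1 : ℂ) - 2 * Complex.sin (s / 2) ^ 2 - 1 = -(2 * Complex.sin (s / 2) ^ 2) by
      ring, norm_neg, norm_mul, norm_pow]
    simp
  have n2 : ‖Complex.cos s + 1‖ = 2 * ‖Complex.cos (s / 2)‖ ^ 2 := by
    rw [h1, show (2 : ℂ) * Complex.cos (s / 2) ^ 2 - 1 + 1 = 2 * Complex.cos (s / 2) ^ 2 by
      ring, norm_mul, norm_pow]
    simp
  have h3 := cos_sin_sq (s / 2)
  have h4 : 2 * (s / 2).im = s.im := by
    have h5 : s = 2 * (s / 2) := by ring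
    conv_rhs => rw [h5]
    simp
  rw [h4] at h3
  unfold A0
  rw [n1, n2, ← h3]
  ring

theorem G0_cos (s : ℂ) : G0 (Complex.cos s) = |s.im| :=
  G0_of_cosh (abs_nonneg _) (by rw [A0_cos, Real.cosh_abs])

theorem G0_ofReal {c : ℝ} (hc : 1 ≤ c) : Real.cosh (G0 (c : ℂ)) = c := by
  rw [cosh_G0]
  unfold A0
  have h1 : ‖(c : ℂ) - 1‖ = c - 1 := by
    rw [← Complex.ofReal_one, ← Complex.ofReal_sub, Complex.norm_real, Real.norm_eq_abs,
      abs_of_nonneg (by linarith)]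
  have h2 : ‖(c : ℂ) + 1‖ = c + 1 := by
    rw [← Complex.ofReal_one, ← Complex.ofReal_add, Complex.norm_real, Real.norm_eq_abs,
      abs_of_nonneg (by linarith)]
  rw [h1, h2]
  ring

theorem G0_double (v : ℂ) : G0 (2 * v ^ 2 - 1) = 2 * G0 v := by
  refine G0_of_cosh (by have := G0_nonneg v; linarith) ?_
  rw [Real.cosh_two_mul, Real.sinh_sq, cosh_G0]
  have n1 : ‖(2 * v ^ 2 - 1) - 1‖ = 2 * (‖v - 1‖ * ‖v + 1‖) := by
    rw [show (2 * v ^ 2 - 1 : ℂ) - 1 = 2 * ((v - 1) * (v + 1)) by ring, norm_mul, norm_mul]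
    simp
  have n2 : ‖(2 * v ^ 2 - 1) + 1‖ = 2 * ‖v‖ ^ 2 := by
    rw [show (2 * v ^ 2 - 1 : ℂ) + 1 = 2 * v ^ 2 by ring, norm_mul, norm_pow]
    simp
  have a2 := normsq (v - 1)
  have b2 := normsq (v + 1)
  have c2 := normsq v
  have e1 : (v - 1).re = v.re - 1 := by simp
  have e2 : (v - 1).im = v.im := by simp
  have e3 : (v + 1).re = v.re + 1 := by simp
  have e4 : (v + 1).im = v.im := by simp
  rw [e1, e2] at a2
  rw [e3, e4] at b2
  unfold A0
  rw [n1, n2]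
  linear_combination c2 - a2 / 2 - b2 / 2

theorem G0_cheb (r : ℕ) (v : ℂ) : G0 (cheb r v) = 2 ^ r * G0 v := by
  induction r with
  | zero => rw [pow_zero, one_mul]; rfl
  | succ r ih =>
    have h : cheb (r + 1) v = 2 * (cheb r v) ^ 2 - 1 := rfl
    rw [h, G0_double, ih]
    ring

theorem G0_le_mul {c : ℝ} (hc : 1 ≤ c) (v : ℂ) : G0 v ≤ G0 ((c : ℂ) * v) := by
  refine G0_le_of_cosh (G0_nonneg _) ?_
  rw [cosh_G0]
  have hc0 : (0 : ℝ) < c := by linarith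
  have hcc : (c : ℂ) ≠ 0 := Complex.ofReal_ne_zero.2 hc0.ne'
  obtain ⟨t, ht⟩ : ∃ t : ℝ, t = (1 + 1 / c) / 2 := ⟨_, rfl⟩
  have hinv : 1 / c ≤ 1 := by
    rw [div_le_one hc0]
    exact hc
  have hinv0 : 0 < 1 / c := by positivity
  have ht0 : 0 ≤ t := by rw [ht]; linarith
  have ht1 : 0 ≤ 1 - t := by rw [ht]; linarith
  have key : (2 * (t : ℂ) - 1) * (c : ℂ) = 1 := by
    rw [ht]
    push_cast
    field_simp
    ring
  have k1 : v - 1 = (t : ℂ) * ((c : ℂ) * v - 1) + ((1 - t : ℝ) : ℂ) * (-((c : ℂ) * v + 1)) := by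
    push_cast
    linear_combination (-v) * key
  have k2 : v + 1 = (t : ℂ) * ((c : ℂ) * v + 1) + ((1 - t : ℝ) : ℂ) * (-((c : ℂ) * v - 1)) := by
    push_cast
    linear_combination (-v) * key
  have n1 : ‖v - 1‖ ≤ t * ‖(c : ℂ) * v - 1‖ + (1 - t) * ‖(c : ℂ) * v + 1‖ := by
    conv_lhs => rw [k1]
    refine (norm_add_le _ _).trans (le_of_eq ?_)
    rw [norm_mul, norm_mul, norm_neg, Complex.norm_real, Complex.norm_real, Real.norm_eq_abs,
      Real.norm_eq_abs, abs_of_nonneg ht0, abs_of_nonneg ht1]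
  have n2 : ‖v + 1‖ ≤ t * ‖(c : ℂ) * v + 1‖ + (1 - t) * ‖(c : ℂ) * v - 1‖ := by
    conv_lhs => rw [k2]
    refine (norm_add_le _ _).trans (le_of_eq ?_)
    rw [norm_mul, norm_mul, norm_neg, Complex.norm_real, Complex.norm_real, Real.norm_eq_abs,
      Real.norm_eq_abs, abs_of_nonneg ht0, abs_of_nonneg ht1]
  unfold A0
  linarith

theorem G0_mul_le {c : ℝ} (hc : 1 ≤ c) (v : ℂ) :
    G0 ((c : ℂ) * v) ≤ G0 v + G0 ((2 * c - 1 : ℝ) : ℂ) := by
  refine G0_le_of_cosh (add_nonneg (G0_nonneg _) (G0_nonneg _)) ?_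
  rw [Real.cosh_add, cosh_G0, G0_ofReal (show 1 ≤ 2 * c - 1 by linarith)]
  have s1 : 0 ≤ Real.sinh (G0 v) := Real.sinh_nonneg_iff.2 (G0_nonneg v)
  have s2 : 0 ≤ Real.sinh (G0 ((2 * c - 1 : ℝ) : ℂ)) := Real.sinh_nonneg_iff.2 (G0_nonneg _)
  have s3 := mul_nonneg s1 s2
  have hA := one_le_A0 v
  have hc0 : (0 : ℝ) ≤ c := by linarith
  have n1 : ‖(c : ℂ) * v - 1‖ ≤ c * ‖v - 1‖ + (c - 1) := by
    have e : (c : ℂ) * v - 1 = (c : ℂ) * (v - 1) + ((c - 1 : ℝ) : ℂ) := by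
      push_cast
      ring
    rw [e]
    refine (norm_add_le _ _).trans (le_of_eq ?_)
    rw [norm_mul, Complex.norm_real, Complex.norm_real, Real.norm_eq_abs, Real.norm_eq_abs,
      abs_of_nonneg hc0, abs_of_nonneg (show 0 ≤ c - 1 by linarith)]
  have n2 : ‖(c : ℂ) * v + 1‖ ≤ c * ‖v + 1‖ + (c - 1) := by
    have e : (c : ℂ) * v + 1 = (c : ℂ) * (v + 1) - ((c - 1 : ℝ) : ℂ) := by
      push_cast
      ring
    rw [e]
    refine (norm_sub_le _ _).trans (le_of_eq ?_)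
    rw [norm_mul, Complex.norm_real, Complex.norm_real, Real.norm_eq_abs, Real.norm_eq_abs,
      abs_of_nonneg hc0, abs_of_nonneg (show 0 ≤ c - 1 by linarith)]
  have n3 : A0 ((c : ℂ) * v) ≤ c * A0 v + (c - 1) := by
    unfold A0
    linarith
  nlinarith [mul_nonneg (show 0 ≤ c - 1 by linarith) (show 0 ≤ A0 v - 1 by linarith)]

theorem log_norm_le_G0 {v : ℂ} (hv : v ≠ 0) : Real.log ‖v‖ ≤ G0 v := by
  refine Real.log_le_log (norm_pos_iff.2 hv) ?_
  have h1 : ‖(v - 1) + (v + 1)‖ ≤ ‖v - 1‖ + ‖v + 1‖ := norm_add_le _ _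
  have h2 : ‖(v - 1) + (v + 1)‖ = 2 * ‖v‖ := by
    rw [show (v - 1) + (v + 1) = 2 * v by ring, norm_mul]
    simp
  have h3 := Real.sqrt_nonneg (A0 v ^ 2 - 1)
  have h4 : ‖v‖ ≤ A0 v := by
    unfold A0
    linarith
  linarith

theorem G0_le_log (v : ℂ) : G0 v ≤ Real.log (2 * (‖v‖ + 1)) := by
  have h0 := one_le_A0 v
  have h3 := Real.sqrt_nonneg (A0 v ^ 2 - 1)
  refine Real.log_le_log (by linarith) ?_
  have h1 : A0 v ≤ ‖v‖ + 1 := by
    have a1 : ‖v - 1‖ ≤ ‖v‖ + ‖(1 : ℂ)‖ := norm_sub_le _ _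
    have a2 : ‖v + 1‖ ≤ ‖v‖ + ‖(1 : ℂ)‖ := norm_add_le _ _
    rw [norm_one] at a1 a2
    unfold A0
    linarith
  have h2 : Real.sqrt (A0 v ^ 2 - 1) ≤ A0 v := by
    rw [Real.sqrt_le_left (by linarith)]
    linarith
  linarith

theorem tendsto_G0 : Tendsto G0 (Bornology.cobounded ℂ) atTop := by
  have h1 : Tendsto (fun v : ℂ => Real.log ‖v‖) (Bornology.cobounded ℂ) atTop :=
    Real.tendsto_log_atTop.comp tendsto_norm_cobounded_atTop
  refine tendsto_atTop_mono' _ ?_ h1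
  filter_upwards [tendsto_norm_cobounded_atTop.eventually_gt_atTop (0 : ℝ)] with v hv
  exact log_norm_le_G0 (norm_pos_iff.1 hv)

theorem isCompact_seg : IsCompact seg := by
  have h1 : seg = (fun x : ℝ => (x : ℂ)) '' Icc (-1) 1 := by
    ext v
    constructor
    · rintro ⟨h, h'⟩
      refine ⟨v.re, abs_le.1 h', ?_⟩
      apply Complex.ext
      · exact Complex.ofReal_re _
      · rw [h]
        exact Complex.ofReal_im _
    · rintro ⟨x, hx, rfl⟩
      exact ⟨Complex.ofReal_im _, by rw [Complex.ofReal_re]; exact abs_le.2 hx⟩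
  rw [h1]
  exact isCompact_Icc.image Complex.continuous_ofReal

theorem isCompact_G0_le (R : ℝ) : IsCompact {v : ℂ | G0 v ≤ R} := by
  refine Metric.isCompact_of_isClosed_isBounded (isClosed_le continuous_G0 continuous_const) ?_
  refine (Metric.isBounded_closedBall (x := (0 : ℂ)) (r := Real.exp R)).subset ?_
  intro v hv
  rw [mem_closedBall_zero_iff]
  by_cases h0 : v = 0
  · rw [h0, norm_zero]
    exact (Real.exp_pos R).le
  · have h1 := (log_norm_le_G0 h0).trans hv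
    rwa [Real.log_le_iff_le_exp (norm_pos_iff.2 h0)] at h1

theorem cheb_cos (r : ℕ) (s : ℂ) : cheb r (Complex.cos s) = Complex.cos (2 ^ r * s) := by
  induction r with
  | zero => rw [pow_zero, one_mul]; rfl
  | succ r ih =>
    have h : cheb (r + 1) (Complex.cos s) = 2 * (cheb r (Complex.cos s)) ^ 2 - 1 := rfl
    rw [h, ih, ← Complex.cos_two_mul]
    congr 1
    ring

theorem exists_cos {w : ℂ} : ∃ s : ℂ, w = Complex.cos s ∧ s.im = G0 w ∧ -Real.pi < s.re ∧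
    s.re ≤ Real.pi := by
  obtain ⟨s₀, hs₀⟩ := Complex.cos_surjective w
  obtain ⟨s₁, hs₁, him⟩ : ∃ s₁ : ℂ, Complex.cos s₁ = w ∧ s₁.im = G0 w := by
    have h := G0_cos s₀
    rw [hs₀] at h
    rcases le_total 0 s₀.im with h0 | h0
    · exact ⟨s₀, hs₀, by rw [h, abs_of_nonneg h0]⟩
    · refine ⟨-s₀, by rw [Complex.cos_neg, hs₀], ?_⟩
      rw [h, abs_of_nonpos h0, Complex.neg_im]
  have hp := Real.two_pi_pos
  obtain ⟨k, hk⟩ : ∃ k : ℤ, k = toIocDiv hp (-Real.pi) s₁.re := ⟨_, rfl⟩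
  have h1 := sub_toIocDiv_zsmul_mem_Ioc hp (-Real.pi) s₁.re
  rw [← hk, zsmul_eq_mul] at h1
  refine ⟨s₁ - k * (2 * Real.pi), ?_, ?_, ?_, ?_⟩
  · rw [Complex.cos_sub_int_mul_two_pi, hs₁]
  · have : ((k : ℂ) * (2 * (Real.pi : ℂ))) = ((k * (2 * Real.pi) : ℝ) : ℂ) := by push_cast; ring
    rw [this, Complex.sub_im, Complex.ofReal_im, sub_zero, him]
  · have : ((k : ℂ) * (2 * (Real.pi : ℂ))) = ((k * (2 * Real.pi) : ℝ) : ℂ) := by push_cast; ring
    rw [this, Complex.sub_re, Complex.ofReal_re]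
    exact h1.1
  · have : ((k : ℂ) * (2 * (Real.pi : ℂ))) = ((k * (2 * Real.pi) : ℝ) : ℂ) := by push_cast; ring
    rw [this, Complex.sub_re, Complex.ofReal_re]
    have := h1.2
    linarith

end Pool.Agent.NH
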