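import Pool.Agent.Lib.MP_00644e_an.Defs
import Pool.Agent.Lib.MP_00644e_an.G1
/-! # Row G4: the map om

PROOFS. For `v ∉ seg`: `1 - 1/v^2` is not in `(-∞,0]` (else `v^2 ∈ (0,1]`), so the square root is holomorphic at `v` with
positive real part. `om v * (v (1 + √)) = v² (1 - (1 - 1/v²)) = 1` and `om v + 1/om v = 2 v`; `‖1 - √‖ < ‖1 + √‖` gives
`‖om v‖ < 1`. `‖om v‖ = exp (-G0 v)`: with `ω = om v`, `v ± 1 = (ω ± 1)²/(2ω)`, so `A0 v = (‖ω‖ + 1/‖ω‖)/2 = cosh (log (1/‖ω‖))`.
`om_cos`: `exp (i s)` and `om (cos s)` are both the root of norm `< 1` of `ω² - 2 (cos s) ω + 1 = 0`.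
`G0` harmonic: `G0 = -log ‖om‖` near `v`, `AnalyticAt.harmonicAt_log_norm`. -/

set_option autoImplicit false

open Complex Metric Set Filter Topology MeasureTheory InnerProductSpace ComplexConjugate

noncomputable section

namespace Pool.Agent.NH

private theorem g4_sq (z : ℂ) : (z ^ (1 / 2 : ℂ)) ^ 2 = z := by
  have h := Complex.cpow_nat_inv_pow z (n := 2) (by norm_num)
  rw [one_div]
  exact_mod_cast h

private theorem g4_re {z : ℂ} (hz : z ∈ slitPlane) : 0 < (z ^ (1 / 2 : ℂ)).re := by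
  have h0 : z ≠ 0 := slitPlane_ne_zero hz
  rw [Complex.cpow_def_of_ne_zero h0, Complex.exp_re]
  apply mul_pos (Real.exp_pos _)
  have him : (Complex.log z * (1 / 2)).im = z.arg / 2 := by
    have : Complex.log z * (1 / 2) = Complex.log z / ((2 : ℝ) : ℂ) := by push_cast; ring
    rw [this, Complex.div_ofReal_im, Complex.log_im]
  rw [him]
  apply Real.cos_pos_of_mem_Ioo
  have h1 := Complex.neg_pi_lt_arg z
  have h2 := Complex.arg_le_pi z
  have h3 : z.arg ≠ Real.pi := (Complex.mem_slitPlane_iff_arg.1 hz).1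
  have h4 : z.arg < Real.pi := lt_of_le_of_ne h2 h3
  constructor <;> linarith

private theorem g4_ne {v : ℂ} (h : v ∉ seg) : v ≠ 0 := by
  rintro rfl
  exact h ⟨by simp, by simp⟩

private theorem g4_slit {v : ℂ} (h : v ∉ seg) : 1 - 1 / v ^ 2 ∈ slitPlane := by
  have hv := g4_ne h
  by_contra hn
  rw [Complex.mem_slitPlane_iff, not_or, not_lt, not_not] at hn
  obtain ⟨hre, him⟩ := hn
  set t : ℝ := (1 - 1 / v ^ 2 : ℂ).re with ht
  have hw : (1 - 1 / v ^ 2 : ℂ) = (t : ℂ) := by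
    apply Complex.ext
    · rw [Complex.ofReal_re]
    · rw [him, Complex.ofReal_im]
  have h1 : (1 : ℝ) ≤ 1 - t := by linarith
  have h1' : ((1 - t : ℝ) : ℂ) ≠ 0 := by
    rw [Complex.ofReal_ne_zero]; linarith
  have h2 : v ^ 2 * ((1 - t : ℝ) : ℂ) = 1 := by
    have : (1 / v ^ 2 : ℂ) = ((1 - t : ℝ) : ℂ) := by
      push_cast
      rw [← hw]; ring
    rw [← this]
    field_simp
  set a : ℝ := Real.sqrt (1 - t) with ha
  have ha1 : 1 ≤ a := by
    rw [ha]
    exact Real.one_le_sqrt.2 h1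
  have ha2 : ((a : ℝ) : ℂ) ^ 2 = ((1 - t : ℝ) : ℂ) := by
    rw [← Complex.ofReal_pow, Real.sq_sqrt (by linarith)]
  have h3 : (v * (a : ℂ)) ^ 2 = 1 := by
    rw [mul_pow, ha2, h2]
  have ha0 : (a : ℂ) ≠ 0 := by
    rw [Complex.ofReal_ne_zero]; linarith
  apply h
  have h3' : v * (a : ℂ) = 1 ∨ v * (a : ℂ) = -1 := by
    rw [show (1 : ℂ) = 1 ^ 2 by norm_num] at h3
    exact sq_eq_sq_iff_eq_or_eq_neg.1 h3
  rcases h3' with h4 | h4
  · have h5 : v = ((1 / a : ℝ) : ℂ) := by
      push_cast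
      field_simp
      exact h4
    rw [h5]
    refine ⟨by simp, ?_⟩
    rw [Complex.ofReal_re, abs_of_nonneg (by positivity)]
    rw [div_le_one (by linarith)]
    exact ha1
  · have h5 : v = ((-(1 / a) : ℝ) : ℂ) := by
      push_cast
      field_simp
      exact h4
    rw [h5]
    refine ⟨by simp, ?_⟩
    rw [Complex.ofReal_re, abs_neg, abs_of_nonneg (by positivity)]
    rw [div_le_one (by linarith)]
    exact ha1

theorem analyticAt_om {v : ℂ} (h : v ∉ seg) : AnalyticAt ℂ om v := by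
  have hv := g4_ne h
  unfold om
  apply AnalyticAt.mul analyticAt_id
  apply AnalyticAt.sub analyticAt_const
  apply AnalyticAt.cpow
  · apply AnalyticAt.sub analyticAt_const
    apply AnalyticAt.div analyticAt_const
    · exact analyticAt_id.pow 2
    · exact pow_ne_zero 2 hv
  · exact analyticAt_const
  · exact g4_slit h

private theorem g4_mul {v : ℂ} (h : v ∉ seg) :
    om v * (v * (1 + (1 - 1 / v ^ 2) ^ (1 / 2 : ℂ))) = 1 := by
  have hv := g4_ne h
  have h1 := g4_sq (1 - 1 / v ^ 2)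
  unfold om
  set r : ℂ := (1 - 1 / v ^ 2) ^ (1 / 2 : ℂ)
  have : v * (1 - r) * (v * (1 + r)) = v ^ 2 * (1 - r ^ 2) := by ring
  rw [this, h1]
  field_simp
  ring

theorem om_ne_zero {v : ℂ} (h : v ∉ seg) : om v ≠ 0 := by
  intro h0
  have := g4_mul h
  rw [h0, zero_mul] at this
  exact zero_ne_one this

theorem om_add_inv {v : ℂ} (h : v ∉ seg) : om v + 1 / om v = 2 * v := by
  have h0 := om_ne_zero h
  have h1 : 1 / om v = v * (1 + (1 - 1 / v ^ 2) ^ (1 / 2 : ℂ)) := by
    rw [div_eq_iff h0, mul_comm]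
    exact (g4_mul h).symm
  rw [h1]
  unfold om
  ring

private theorem g4_lt {v : ℂ} (h : v ∉ seg) : ‖om v‖ < 1 := by
  have hv := g4_ne h
  have h1 := g4_mul h
  have hr := g4_re (g4_slit h)
  have hlt : ‖om v‖ < ‖v * (1 + (1 - 1 / v ^ 2) ^ (1 / 2 : ℂ))‖ := by
    unfold om
    set r : ℂ := (1 - 1 / v ^ 2) ^ (1 / 2 : ℂ)
    rw [norm_mul, norm_mul]
    apply mul_lt_mul_of_pos_left _ (norm_pos_iff.2 hv)
    rw [← sq_lt_sq₀ (norm_nonneg _) (norm_nonneg _), Complex.sq_norm, Complex.sq_norm,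
      Complex.normSq_apply, Complex.normSq_apply]
    simp only [Complex.sub_re, Complex.sub_im, Complex.add_re, Complex.add_im, Complex.one_re,
      Complex.one_im]
    nlinarith
  have h2 : ‖om v‖ * ‖v * (1 + (1 - 1 / v ^ 2) ^ (1 / 2 : ℂ))‖ = 1 := by
    rw [← norm_mul, h1, norm_one]
  have h3 : 0 < ‖om v‖ := norm_pos_iff.2 (om_ne_zero h)
  by_contra hge
  rw [not_lt] at hge
  nlinarith

private theorem g4_A0 {v : ℂ} (h : v ∉ seg) : A0 v = (‖om v‖ + ‖om v‖⁻¹) / 2 := by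
  have h0 := om_ne_zero h
  have h1 := om_add_inv h
  set w := om v with hw
  have hv : v = (w + 1 / w) / 2 := by rw [h1]; ring
  have e1 : v - 1 = (w - 1) ^ 2 / (2 * w) := by
    rw [hv]; field_simp; ring
  have e2 : v + 1 = (w + 1) ^ 2 / (2 * w) := by
    rw [hv]; field_simp; ring
  have hn : 0 < ‖w‖ := norm_pos_iff.2 h0
  have e3 : ‖w - 1‖ ^ 2 + ‖w + 1‖ ^ 2 = 2 * ‖w‖ ^ 2 + 2 := by
    rw [Complex.sq_norm, Complex.sq_norm, Complex.sq_norm, Complex.normSq_apply,
      Complex.normSq_apply, Complex.normSq_apply]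
    simp only [Complex.sub_re, Complex.sub_im, Complex.add_re, Complex.add_im, Complex.one_re,
      Complex.one_im]
    ring
  unfold A0
  rw [e1, e2, norm_div, norm_div, norm_pow, norm_pow, norm_mul, Complex.norm_ofNat, ← add_div, e3]
  field_simp

theorem norm_om {v : ℂ} (h : v ∉ seg) : ‖om v‖ = Real.exp (-G0 v) := by
  have hn : 0 < ‖om v‖ := norm_pos_iff.2 (om_ne_zero h)
  have h1 : Real.cosh (G0 v) = Real.cosh (-Real.log ‖om v‖) := by
    rw [cosh_G0, g4_A0 h, Real.cosh_eq, neg_neg, Real.exp_neg, Real.exp_log hn]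
    ring
  have h2 : 0 ≤ -Real.log ‖om v‖ := by
    have := Real.log_nonpos hn.le (g4_lt h).le
    linarith
  have h3 := Real.cosh_injOn (Set.mem_Ici.2 (G0_nonneg v)) (Set.mem_Ici.2 h2) h1
  rw [h3, neg_neg, Real.exp_log hn]

theorem norm_om_lt_one {v : ℂ} (h : v ∉ seg) : ‖om v‖ < 1 := g4_lt h

theorem om_cos {s : ℂ} (h : 0 < s.im) : om (Complex.cos s) = Complex.exp (I * s) := by
  have hs : Complex.cos s ∉ seg := by
    intro hmem
    have h1 := (G0_eq_zero_iff _).2 hmem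
    rw [G0_cos, abs_of_pos h] at h1
    exact h.ne' h1
  have h0 := om_ne_zero hs
  have h1 := om_add_inv hs
  set w := om (Complex.cos s) with hw
  have h2 : 2 * Complex.cos s = Complex.exp (s * I) + Complex.exp (-s * I) :=
    Complex.two_cos s
  have h3 : Complex.exp (s * I) * Complex.exp (-s * I) = 1 := by
    rw [← Complex.exp_add]; simp
  have h4 : (w - Complex.exp (s * I)) * (w - Complex.exp (-s * I)) = 0 := by
    have h5 : w * w + 1 = 2 * Complex.cos s * w := by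
      rw [← h1]; field_simp
    have : (w - Complex.exp (s * I)) * (w - Complex.exp (-s * I)) =
        w * w - (Complex.exp (s * I) + Complex.exp (-s * I)) * w +
        Complex.exp (s * I) * Complex.exp (-s * I) := by ring
    rw [this, h3, ← h2, ← h5]
    ring
  rcases mul_eq_zero.1 h4 with h5 | h5
  · rw [mul_comm]
    exact sub_eq_zero.1 h5
  · exfalso
    have h6 : w = Complex.exp (-s * I) := sub_eq_zero.1 h5
    have h7 : ‖w‖ < 1 := g4_lt hs
    rw [h6, Complex.norm_exp] at h7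
    have h8 : (-s * I).re = s.im := by simp
    rw [h8] at h7
    have := Real.one_lt_exp_iff.2 h
    linarith

theorem om_conj (v : ℂ) (h : v ∉ seg) : om (conj v) = conj (om v) := by
  have hs := g4_slit h
  have harg : (1 - 1 / v ^ 2).arg ≠ Real.pi := (Complex.mem_slitPlane_iff_arg.1 hs).1
  have h1 := Complex.conj_cpow (1 - 1 / v ^ 2) (1 / 2 : ℂ) harg
  have h2 : conj (2 : ℂ) = 2 := map_ofNat (starRingEnd ℂ) 2
  have e1 : conj (1 - 1 / v ^ 2) = 1 - 1 / (conj v) ^ 2 := by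
    rw [map_sub, map_div₀, map_pow, map_one]
  have e2 : conj (1 / 2 : ℂ) = 1 / 2 := by rw [map_div₀, map_one, h2]
  rw [e1, e2] at h1
  unfold om
  rw [h1, map_mul, map_sub, map_one]

private theorem g4_open {v : ℂ} (h : v ∉ seg) : ∀ᶠ w in 𝓝 v, w ∉ seg :=
  isCompact_seg.isClosed.isOpen_compl.mem_nhds h

theorem harmonicAt_G0 {v : ℂ} (h : v ∉ seg) : HarmonicAt G0 v := by
  have h1 : HarmonicAt (fun w => Real.log ‖om w‖) v :=
    AnalyticAt.harmonicAt_log_norm (analyticAt_om h) (om_ne_zero h)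
  have h2 : HarmonicAt (-(fun w => Real.log ‖om w‖)) v := by
    exact h1.neg
  refine (harmonicAt_congr_nhds ?_).1 h2
  filter_upwards [g4_open h] with w hw
  rw [Pi.neg_apply, norm_om hw, Real.log_exp, neg_neg]

/-- If `v` tends to infinity then `om v` tends to `0`. -/
theorem tendsto_om : Tendsto om (Bornology.cobounded ℂ) (𝓝 0) := by
  rw [tendsto_zero_iff_norm_tendsto_zero]
  have h1 : Tendsto (fun v => Real.exp (-G0 v)) (Bornology.cobounded ℂ) (𝓝 0) :=
    Real.tendsto_exp_neg_atTop_nhds_zero.comp tendsto_G0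
  refine h1.congr' ?_
  have h2 : ∀ᶠ v in Bornology.cobounded ℂ, v ∉ seg :=
    Bornology.isBounded_def.1 isCompact_seg.isBounded
  filter_upwards [h2] with v hv
  exact (norm_om hv).symm

end Pool.Agent.NH
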