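import Pool.Agent.Lib.MP_00644e_an.Defs

/-! # Row G6: inverse branches of the Chebyshev polynomials T_{2^r}

PROOFS. For `v ∈ Sc 1`, `ρ = (v+1)/2` is not in `(-∞,0] ∪ [1,∞)`; `√ρ` (principal) is holomorphic with positive real part
and is in `Sc 1` (if real then `0 < √ρ < 1`); `hb true v = √ρ`, `hb false v = -√ρ`; `2 (hb b v)² - 1 = v`. Injectivity: apply
`v ↦ 2 v² - 1`. `hb b v = hb b' v'` forces `v = v'` and the sign of the real part gives `b = b'`. `Im`: for `0 < Im v`, `0 < Im √ρ`.
Completeness: if `2 w² - 1 = v ∈ Sc 1` then `w = ±√ρ`. Everything for `ibr` by induction on `r`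
(`cheb (r+1) v = 2 (cheb r v)² - 1`). Conjugation: principal square root commutes with `conj` off the negative axis. -/

set_option autoImplicit false

open Complex Metric Set Filter Topology MeasureTheory InnerProductSpace ComplexConjugate

noncomputable section

namespace Pool.Agent.NH

private theorem g6_sq (z : ℂ) : (z ^ (1 / 2 : ℂ)) ^ 2 = z := by
  have h := Complex.cpow_nat_inv_pow z (n := 2) (by norm_num)
  rw [one_div]
  exact_mod_cast h

private theorem g6_re {z : ℂ} (hz : z ∈ slitPlane) : 0 < (z ^ (1 / 2 : ℂ)).re := by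
  have h0 : z ≠ 0 := slitPlane_ne_zero hz
  rw [Complex.cpow_def_of_ne_zero h0, Complex.exp_re]
  apply mul_pos (Real.exp_pos _)
  have him : (Complex.log z * (1 / 2)).im = z.arg / 2 := by
    have : Complex.log z * (1 / 2) = Complex.log z / ((2 : ℝ) : ℂ) := by push_cast; ring
    rw [this, Complex.div_ofReal_im, Complex.log_im]
  rw [him]
  apply Real.cos_pos_of_mem_Ioo
  have h1 := Complex.neg_pi_lt_arg z
  have h2 := Complex.arg_le_pi z
  have h3 : z.arg ≠ Real.pi := (Complex.mem_slitPlane_iff_arg.1 hz).1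
  have h4 : z.arg < Real.pi := lt_of_le_of_ne h2 h3
  constructor <;> linarith

private theorem g6_im {s z : ℂ} (h : s ^ 2 = z) : z.im = 2 * s.re * s.im := by
  rw [← h, pow_two, Complex.mul_im]; ring

private theorem g6_rho {v : ℂ} (hv : v ∈ Sc 1) : (v + 1) / 2 ∈ slitPlane := by
  rw [Complex.mem_slitPlane_iff]
  have hre : ((v + 1) / 2).re = (v.re + 1) / 2 := by
    have : (v + 1) / 2 = (v + 1) / ((2 : ℝ) : ℂ) := by push_cast; ring
    rw [this, Complex.div_ofReal_re]; simp
  have him : ((v + 1) / 2).im = v.im / 2 := by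
    have : (v + 1) / 2 = (v + 1) / ((2 : ℝ) : ℂ) := by push_cast; ring
    rw [this, Complex.div_ofReal_im]; simp
  rw [hre, him]
  rcases hv with h | h
  · right
    intro h1
    apply h
    linarith
  · left
    have := (abs_lt.1 h).1
    linarith

private theorem g6_eq (b : Bool) (v : ℂ) : hb b v ^ 2 = (v + 1) / 2 := by
  unfold hb
  rw [mul_pow, g6_sq]
  cases b <;> simp

private theorem g6_cases (b : Bool) (v : ℂ) : hb b v = ((v + 1) / 2) ^ (1 / 2 : ℂ) ∨
    hb b v = -((v + 1) / 2) ^ (1 / 2 : ℂ) := by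
  unfold hb
  cases b
  · right; simp
  · left; simp

private theorem g6_nonreal {v : ℂ} (h : v.im ≠ 0) : v ∈ Sc 1 := Or.inl h

theorem hb_mem {b : Bool} {v : ℂ} (hv : v ∈ Sc 1) : hb b v ∈ Sc 1 := by
  by_cases hi : (hb b v).im = 0
  · right
    have h := g6_eq b v
    have h1 := congrArg Complex.re h
    have h2 := congrArg Complex.im h
    have e1 : (hb b v ^ 2).re = (hb b v).re ^ 2 - (hb b v).im ^ 2 := by
      rw [pow_two, Complex.mul_re]; ring
    have e2 : (hb b v ^ 2).im = 2 * (hb b v).re * (hb b v).im := by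
      rw [pow_two, Complex.mul_im]; ring
    have hre : ((v + 1) / 2).re = (v.re + 1) / 2 := by
      have : (v + 1) / 2 = (v + 1) / ((2 : ℝ) : ℂ) := by push_cast; ring
      rw [this, Complex.div_ofReal_re]; simp
    have him : ((v + 1) / 2).im = v.im / 2 := by
      have : (v + 1) / 2 = (v + 1) / ((2 : ℝ) : ℂ) := by push_cast; ring
      rw [this, Complex.div_ofReal_im]; simp
    rw [e1, hre, hi] at h1
    rw [e2, him, hi] at h2
    have hv0 : v.im = 0 := by linarith
    have hlt : |v.re| < 1 := by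
      rcases hv with h | h
      · exact absurd hv0 h
      · exact h
    have h3 := (abs_lt.1 hlt).2
    have h4 : (hb b v).re ^ 2 < 1 ^ 2 := by nlinarith
    have := abs_lt_of_sq_lt_sq h4 (by norm_num)
    exact this
  · exact Or.inl hi

theorem hb_spec {b : Bool} {v : ℂ} : 2 * hb b v ^ 2 - 1 = v := by
  rw [g6_eq]; ring

theorem ibr_mem {r : ℕ} (σ : Fin r → Bool) {v : ℂ} (hv : v ∈ Sc 1) : ibr r σ v ∈ Sc 1 := by
  induction r generalizing v with
  | zero => exact hv
  | succ r ih => exact ih _ (hb_mem hv)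

theorem cheb_ibr {r : ℕ} (σ : Fin r → Bool) (v : ℂ) : cheb r (ibr r σ v) = v := by
  induction r generalizing v with
  | zero => rfl
  | succ r ih =>
    show 2 * (cheb r (ibr r (fun i => σ i.castSucc) (hb (σ (Fin.last r)) v))) ^ 2 - 1 = v
    rw [ih, hb_spec]

private theorem g6_hb_diff (b : Bool) : DifferentiableOn ℂ (hb b) (Sc 1) := by
  intro v hv
  apply DifferentiableAt.differentiableWithinAt
  unfold hb
  apply DifferentiableAt.const_mul
  apply DifferentiableAt.cpow
  · fun_prop
  · fun_prop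
  · exact g6_rho hv

theorem differentiableOn_ibr {r : ℕ} (σ : Fin r → Bool) : DifferentiableOn ℂ (ibr r σ) (Sc 1) := by
  induction r with
  | zero => exact differentiableOn_id
  | succ r ih =>
    have h := (ih (fun i => σ i.castSucc)).comp (g6_hb_diff (σ (Fin.last r)))
      (fun v hv => hb_mem hv)
    exact h

theorem exists_ibr {r : ℕ} {w : ℂ} (hw : cheb r w ∈ Sc 1) : ∃ σ, ibr r σ (cheb r w) = w := by
  induction r with
  | zero => exact ⟨fun i => i.elim0, rfl⟩
  | succ r ih =>
    set v : ℂ := cheb (r + 1) w with hvdef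
    have hv : 2 * (cheb r w) ^ 2 - 1 = v := rfl
    have hsq : (cheb r w) ^ 2 = (((v + 1) / 2) ^ (1 / 2 : ℂ)) ^ 2 := by
      rw [g6_sq, ← hv]; ring
    have hex : ∃ b, hb b v = cheb r w := by
      rcases sq_eq_sq_iff_eq_or_eq_neg.1 hsq with h | h
      · exact ⟨true, by rw [h]; simp [hb]⟩
      · exact ⟨false, by rw [h]; simp [hb]⟩
    obtain ⟨b, hb'⟩ := hex
    have hmem : cheb r w ∈ Sc 1 := by
      rw [← hb']; exact hb_mem hw
    obtain ⟨σ, hσ⟩ := ih hmem
    refine ⟨Fin.snoc σ b, ?_⟩
    show ibr r (fun i => (Fin.snoc σ b : Fin (r + 1) → Bool) i.castSucc)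
      (hb ((Fin.snoc σ b : Fin (r + 1) → Bool) (Fin.last r)) v) = w
    have e1 : (fun i : Fin r => (Fin.snoc σ b : Fin (r + 1) → Bool) i.castSucc) = σ := by
      funext i
      simp
    have e2 : (Fin.snoc σ b : Fin (r + 1) → Bool) (Fin.last r) = b := by
      simp
    rw [e1, e2, hb', hσ]

theorem ibr_inj {r : ℕ} {σ τ : Fin r → Bool} {v : ℂ} (hv : v ∈ Sc 1)
    (h : ibr r σ v = ibr r τ v) : σ = τ := by
  induction r generalizing v with
  | zero => funext i; exact i.elim0
  | succ r ih =>
    have h' : ibr r (fun i => σ i.castSucc) (hb (σ (Fin.last r)) v) =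
      ibr r (fun i => τ i.castSucc) (hb (τ (Fin.last r)) v) := h
    have h1 : hb (σ (Fin.last r)) v = hb (τ (Fin.last r)) v := by
      have := congrArg (cheb r) h'
      rwa [cheb_ibr, cheb_ibr] at this
    have hpos := g6_re (g6_rho hv)
    have h2 : σ (Fin.last r) = τ (Fin.last r) := by
      have hne : ((v + 1) / 2) ^ (1 / 2 : ℂ) ≠ 0 := by
        intro h0
        rw [h0] at hpos
        simp at hpos
      have hpm : ∀ b b' : Bool, hb b v = hb b' v → b = b' := by
        intro b b' hbb
        unfold hb at hbb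
        have h3 := mul_right_cancel₀ hne hbb
        cases b <;> cases b' <;> simp at h3 ⊢
        · exact absurd h3 (by norm_num)
        · exact absurd h3 (by norm_num)
      exact hpm _ _ h1
    rw [← h2] at h'
    have h3 := ih (hb_mem hv) h'
    funext i
    refine Fin.lastCases h2 (fun j => ?_) i
    exact congrFun h3 j

private theorem g6_hb_conj (b : Bool) {v : ℂ} (hv : v ∈ Sc 1) : hb b (conj v) = conj (hb b v) := by
  have h := g6_rho hv
  have harg : ((v + 1) / 2).arg ≠ Real.pi := (Complex.mem_slitPlane_iff_arg.1 h).1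
  have h1 := Complex.conj_cpow ((v + 1) / 2) (1 / 2 : ℂ) harg
  have h2 : conj (2 : ℂ) = 2 := map_ofNat (starRingEnd ℂ) 2
  have e1 : conj ((v + 1) / 2) = (conj v + 1) / 2 := by
    rw [map_div₀, map_add, map_one, h2]
  have e2 : conj (1 / 2 : ℂ) = 1 / 2 := by rw [map_div₀, map_one, h2]
  rw [e1, e2] at h1
  unfold hb
  rw [h1, map_mul]
  cases b <;> simp

theorem ibr_conj {r : ℕ} (σ : Fin r → Bool) {v : ℂ} (hv : v ∈ Sc 1) :
    ibr r σ (conj v) = conj (ibr r σ v) := by
  induction r generalizing v with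
  | zero => rfl
  | succ r ih =>
    show ibr r (fun i => σ i.castSucc) (hb (σ (Fin.last r)) (conj v)) =
      conj (ibr r (fun i => σ i.castSucc) (hb (σ (Fin.last r)) v))
    rw [g6_hb_conj _ hv, ih _ (hb_mem hv)]

private theorem g6_hb_side (b : Bool) : (∀ v : ℂ, 0 < v.im → 0 < (hb b v).im) ∨
    (∀ v : ℂ, 0 < v.im → (hb b v).im < 0) := by
  have key : ∀ v : ℂ, 0 < v.im → 0 < (((v + 1) / 2) ^ (1 / 2 : ℂ)).im := by
    intro v hv
    have h1 := g6_re (g6_rho (g6_nonreal hv.ne'))
    have h2 := g6_im (g6_sq ((v + 1) / 2))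
    have him : ((v + 1) / 2).im = v.im / 2 := by
      have : (v + 1) / 2 = (v + 1) / ((2 : ℝ) : ℂ) := by push_cast; ring
      rw [this, Complex.div_ofReal_im]; simp
    rw [him] at h2
    by_contra hneg
    rw [not_lt] at hneg
    nlinarith [mul_nonneg h1.le (neg_nonneg.2 hneg)]
  cases b
  · right
    intro v hv
    have := key v hv
    simp only [hb, Bool.false_eq_true, if_false, neg_mul, one_mul, Complex.neg_im]
    linarith
  · left
    intro v hv
    have := key v hv
    simp only [hb, if_true, one_mul]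
    exact this

theorem ibr_side {r : ℕ} (σ : Fin r → Bool) :
    (∀ v : ℂ, 0 < v.im → 0 < (ibr r σ v).im) ∨ (∀ v : ℂ, 0 < v.im → (ibr r σ v).im < 0) := by
  induction r with
  | zero => left; intro v hv; exact hv
  | succ r ih =>
    have hlow : ∀ w : ℂ, w.im < 0 →
        (ibr r (fun i => σ i.castSucc) w).im = -(ibr r (fun i => σ i.castSucc) (conj w)).im := by
      intro w hw
      have hw' : conj w ∈ Sc 1 := by
        left
        rw [Complex.conj_im]
        exact (neg_pos.2 hw).ne'
      rw [← Complex.conj_conj w]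
      have := ibr_conj (fun i => σ i.castSucc) hw'
      rw [this, Complex.conj_im, Complex.conj_conj]
    rcases g6_hb_side (σ (Fin.last r)) with h1 | h1 <;> rcases ih (fun i => σ i.castSucc) with h2 | h2
    · left; intro v hv; exact h2 _ (h1 v hv)
    · right; intro v hv; exact h2 _ (h1 v hv)
    · right
      intro v hv
      show (ibr r (fun i => σ i.castSucc) (hb (σ (Fin.last r)) v)).im < 0
      rw [hlow _ (h1 v hv)]
      have : 0 < (conj (hb (σ (Fin.last r)) v)).im := by
        rw [Complex.conj_im]; linarith [h1 v hv]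
      linarith [h2 _ this]
    · left
      intro v hv
      show 0 < (ibr r (fun i => σ i.castSucc) (hb (σ (Fin.last r)) v)).im
      rw [hlow _ (h1 v hv)]
      have : 0 < (conj (hb (σ (Fin.last r)) v)).im := by
        rw [Complex.conj_im]; linarith [h1 v hv]
      linarith [h2 _ this]

theorem differentiable_cheb (r : ℕ) : Differentiable ℂ (cheb r) := by
  induction r with
  | zero => exact differentiable_id
  | succ r ih =>
    have : cheb (r + 1) = fun v => 2 * (cheb r v) ^ 2 - 1 := rfl
    rw [this]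
    exact ((ih.pow 2).const_mul 2).sub_const 1

theorem cheb_conj (r : ℕ) (v : ℂ) : cheb r (conj v) = conj (cheb r v) := by
  induction r with
  | zero => rfl
  | succ r ih =>
    show 2 * (cheb r (conj v)) ^ 2 - 1 = conj (2 * (cheb r v) ^ 2 - 1)
    have h2 : conj (2 : ℂ) = 2 := map_ofNat (starRingEnd ℂ) 2
    rw [ih, map_sub, map_mul, map_pow, map_one, h2]

end Pool.Agent.NH
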