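import Pool.Agent.Lib.MP_00644e_an.Defs
import Pool.Agent.Lib.MP_00644e_an.G4
import Pool.Agent.Lib.MP_00644e_an.G6
import Pool.Agent.Lib.MP_00644e_an.T3
/-! # Row G7: the geometry is OK, consequences

PROOFS. `geo0_ok`: trivial (`conj` etc.). `step_ok`: from G1, G6 (note `v / (1+q) ∈ Sc 1` iff `v ∈ Sc (1+q)`, and `Sc 1 ⊆ Sc G.c`);
for `Bside` combine the two sides (lower half plane by `conj`). `low`/`up`: `G0_le_mul`, `G0_mul_le`, `G0_cheb`.
`G.E ⊆ seg`: `low` and `G0_eq_zero_iff`. `g`: continuity, zero exactly on `E`, harmonic off `E` (`harmonicAt_comp`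
is in T3; here use `G0 (F v) = - log ‖om (F v)‖` directly or import T3), `G0 v ≤ g v`.
`Z`: `|Im s| < H` implies `cos s ∈ Sc c` (if `cos s` is real then `|cos s| ≤ cosh (Im s) < cosh H = c`), so `F (Z i s) = cos s`,
`g (Z i s) = |Im s| / N`, `Z i` is holomorphic there, injective on `{0 < Im s < H, -π < Re s < π}` (`cos s = cos s'` iff
`s' = ±s + 2πk`), with nonzero derivative, `Z i (s + 2π) = Z i s`, `Z i (-s) = Z i s`, `Z i (conj s) = conj (Z i s)`.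
`g_step`: `0 ≤ g' - g ≤ G0 (1+2q) / (2^r N)`. -/

set_option autoImplicit false

open Complex Metric Set Filter Topology MeasureTheory InnerProductSpace ComplexConjugate

noncomputable section

namespace Pool.Agent.NH

theorem geo0_ok : geo0.OK where
  hN := le_refl _
  hc := by norm_num [geo0]
  ne := ⟨()⟩
  diff := differentiable_id
  low := fun v => by simp [geo0]
  up := ⟨0, fun v => by simp [geo0]⟩
  real := fun v => rfl
  Bdiff := fun i => differentiableOn_id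
  FB := fun i v hv => rfl
  compl := fun v hv => ⟨(), rfl⟩
  disj := fun i j v hv h => rfl
  Bconj := fun i v hv => rfl
  Bside := fun i => Or.inl fun v h => h

theorem Sc_mono {a b : ℝ} (h : a ≤ b) : Sc a ⊆ Sc b := by
  rintro v (hv | hv)
  · exact Or.inl hv
  · exact Or.inr (hv.trans_le h)

theorem isOpen_Sc (c : ℝ) : IsOpen (Sc c) := by
  have h1 : IsOpen {v : ℂ | v.im ≠ 0} := isOpen_ne_fun Complex.continuous_im continuous_const
  have h2 : IsOpen {v : ℂ | |v.re| < c} :=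
    isOpen_lt (continuous_abs.comp Complex.continuous_re) continuous_const
  exact h1.union h2

theorem mul_mem_Sc {l : ℝ} (hl : 0 < l) (v : ℂ) : (l : ℂ) * v ∈ Sc l ↔ v ∈ Sc 1 := by
  have h1 : ((l : ℂ) * v).im = l * v.im := by simp
  have h2 : ((l : ℂ) * v).re = l * v.re := by simp
  simp only [Sc, mem_ofPred_eq, h1, h2, abs_mul, abs_of_pos hl]
  have h3 : l * v.im ≠ 0 ↔ v.im ≠ 0 := by simp [hl.ne']
  have h4 : l * |v.re| < l ↔ |v.re| < 1 := by
    constructor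
    · intro h
      by_contra h5
      push Not at h5
      nlinarith
    · intro h
      nlinarith
  rw [h3, h4]

theorem div_mem_Sc {l : ℝ} (hl : 0 < l) (v : ℂ) : v / (l : ℂ) ∈ Sc 1 ↔ v ∈ Sc l := by
  rw [← mul_mem_Sc hl]
  have hl' : (l : ℂ) ≠ 0 := by exact_mod_cast hl.ne'
  rw [mul_div_cancel₀ _ hl']

theorem conj_mem_Sc {c : ℝ} {v : ℂ} (hv : v ∈ Sc c) : conj v ∈ Sc c := by
  rcases hv with hv | hv
  · left
    simpa using hv
  · right
    simpa using hv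

theorem conj_div_ofReal (v : ℂ) (l : ℝ) : conj v / (l : ℂ) = conj (v / (l : ℂ)) := by
  rw [map_div₀, Complex.conj_ofReal]

theorem div_ofReal_im_pos {l : ℝ} (hl : 0 < l) {v : ℂ} (hv : 0 < v.im) : 0 < (v / (l : ℂ)).im := by
  rw [Complex.div_ofReal_im]
  exact div_pos hv hl

theorem Geo.OK.step {G : Geo} (hG : G.OK) {q : ℝ} (hq : 0 < q) (r : ℕ) : (G.step q r).OK := by
  have hl : (0 : ℝ) < 1 + q := by linarith
  have hl1 : (1 : ℝ) ≤ 1 + q := by linarith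
  have hl' : ((1 + q : ℝ) : ℂ) ≠ 0 := by exact_mod_cast hl.ne'
  have h2 : (1 : ℝ) ≤ 2 ^ r := one_le_pow₀ (by norm_num)
  have hsub : Sc 1 ⊆ Sc G.c := Sc_mono hG.hc.le
  refine
    { hN := ?_
      hc := ?_
      ne := ?_
      diff := ?_
      low := ?_
      up := ?_
      real := ?_
      Bdiff := ?_
      FB := ?_
      compl := ?_
      disj := ?_
      Bconj := ?_
      Bside := ?_ }
  · show 1 ≤ 2 ^ r * G.N
    nlinarith [hG.hN]
  · show 1 < 1 + q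
    linarith
  · have := hG.ne
    show Nonempty (G.ι × (Fin r → Bool))
    infer_instance
  · show Differentiable ℂ (fun v => ((1 + q : ℝ) : ℂ) * cheb r (G.F v))
    exact ((differentiable_cheb r).comp hG.diff).const_mul _
  · intro v
    show 2 ^ r * G.N * G0 v ≤ G0 (((1 + q : ℝ) : ℂ) * cheb r (G.F v))
    calc 2 ^ r * G.N * G0 v = 2 ^ r * (G.N * G0 v) := by ring
      _ ≤ 2 ^ r * G0 (G.F v) := by
          exact mul_le_mul_of_nonneg_left (hG.low v) (by positivity)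
      _ = G0 (cheb r (G.F v)) := (G0_cheb r _).symm
      _ ≤ _ := G0_le_mul hl1 _
  · obtain ⟨C, hC⟩ := hG.up
    refine ⟨2 ^ r * C + G0 ((2 * (1 + q) - 1 : ℝ) : ℂ), fun v => ?_⟩
    show G0 (((1 + q : ℝ) : ℂ) * cheb r (G.F v)) ≤ 2 ^ r * G.N * G0 v + _
    have h3 := G0_mul_le hl1 (cheb r (G.F v))
    rw [G0_cheb] at h3
    have h4 : (2 : ℝ) ^ r * G0 (G.F v) ≤ 2 ^ r * (G.N * G0 v + C) :=
      mul_le_mul_of_nonneg_left (hC v) (by positivity)
    nlinarith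
  · intro v
    show ((1 + q : ℝ) : ℂ) * cheb r (G.F (conj v)) = conj (((1 + q : ℝ) : ℂ) * cheb r (G.F v))
    rw [hG.real, cheb_conj, map_mul, Complex.conj_ofReal]
  · intro i
    show DifferentiableOn ℂ (fun v => G.B i.1 (ibr r i.2 (v / ((1 + q : ℝ) : ℂ)))) (Sc (1 + q))
    refine (hG.Bdiff i.1).comp ((differentiableOn_ibr i.2).comp
      (differentiableOn_id.div_const _) ?_) ?_
    · intro v hv
      exact (div_mem_Sc hl v).2 hv
    · intro v hv
      exact hsub (ibr_mem _ ((div_mem_Sc hl v).2 hv))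
  · intro i v hv
    have hv1 := (div_mem_Sc hl v).2 hv
    show ((1 + q : ℝ) : ℂ) * cheb r (G.F (G.B i.1 (ibr r i.2 (v / ((1 + q : ℝ) : ℂ))))) = v
    rw [hG.FB _ _ (hsub (ibr_mem _ hv1)), cheb_ibr, mul_div_cancel₀ _ hl']
  · intro v hv
    have hv1 : cheb r (G.F v) ∈ Sc 1 := (mul_mem_Sc hl _).1 hv
    obtain ⟨σ, hσ⟩ := exists_ibr hv1
    have hv2 : G.F v ∈ Sc G.c := by
      rw [← hσ]
      exact hsub (ibr_mem σ hv1)
    obtain ⟨i, hi⟩ := hG.compl v hv2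
    refine ⟨(i, σ), ?_⟩
    show G.B i (ibr r σ ((((1 + q : ℝ) : ℂ) * cheb r (G.F v)) / ((1 + q : ℝ) : ℂ))) = v
    rw [mul_div_cancel_left₀ _ hl', hσ, hi]
  · rintro ⟨i, σ⟩ ⟨j, τ⟩ v hv h
    have hv1 := (div_mem_Sc hl v).2 hv
    have h' : G.B i (ibr r σ (v / ((1 + q : ℝ) : ℂ))) = G.B j (ibr r τ (v / ((1 + q : ℝ) : ℂ))) := h
    have h3 := congrArg G.F h'
    rw [hG.FB _ _ (hsub (ibr_mem _ hv1)), hG.FB _ _ (hsub (ibr_mem _ hv1))] at h3
    have h4 := ibr_inj hv1 h3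
    subst h4
    have h5 := hG.disj i j _ (hsub (ibr_mem _ hv1)) h'
    rw [h5]
  · intro i v hv
    have hv1 := (div_mem_Sc hl v).2 hv
    show G.B i.1 (ibr r i.2 (conj v / ((1 + q : ℝ) : ℂ))) =
      conj (G.B i.1 (ibr r i.2 (v / ((1 + q : ℝ) : ℂ))))
    rw [conj_div_ofReal, ibr_conj _ hv1, hG.Bconj _ _ (hsub (ibr_mem _ hv1))]
  · intro i
    show (∀ v : ℂ, 0 < v.im → 0 < (G.B i.1 (ibr r i.2 (v / ((1 + q : ℝ) : ℂ)))).im) ∨
      (∀ v : ℂ, 0 < v.im → (G.B i.1 (ibr r i.2 (v / ((1 + q : ℝ) : ℂ)))).im < 0)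
    have key : ∀ w : ℂ, w.im < 0 → G.B i.1 w = conj (G.B i.1 (conj w)) := by
      intro w hw
      have h1 : conj w ∈ Sc G.c := by
        left
        simpa using hw.ne
      rw [← hG.Bconj i.1 _ h1, Complex.conj_conj]
    rcases ibr_side i.2 with h1 | h1 <;> rcases hG.Bside i.1 with h3 | h3
    · exact Or.inl fun v hv => h3 _ (h1 _ (div_ofReal_im_pos hl hv))
    · exact Or.inr fun v hv => h3 _ (h1 _ (div_ofReal_im_pos hl hv))
    · refine Or.inr fun v hv => ?_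
      have h4 := h1 _ (div_ofReal_im_pos hl hv)
      rw [key _ h4, Complex.conj_im]
      have := h3 (conj (ibr r i.2 (v / ((1 + q : ℝ) : ℂ)))) (by rw [Complex.conj_im]; linarith)
      linarith
    · refine Or.inl fun v hv => ?_
      have h4 := h1 _ (div_ofReal_im_pos hl hv)
      rw [key _ h4, Complex.conj_im]
      have := h3 (conj (ibr r i.2 (v / ((1 + q : ℝ) : ℂ)))) (by rw [Complex.conj_im]; linarith)
      linarith

variable {G : Geo}

theorem Geo.OK.N_pos (hG : G.OK) : 0 < G.N := lt_of_lt_of_le one_pos hG.hN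

theorem Geo.OK.N_mul_g (hG : G.OK) (v : ℂ) : G.N * G.g v = G0 (G.F v) := by
  rw [Geo.g, mul_div_cancel₀ _ hG.N_pos.ne']

theorem Geo.OK.E_subset (hG : G.OK) : G.E ⊆ seg := by
  intro v hv
  have h1 : G0 (G.F v) = 0 := (G0_eq_zero_iff _).2 hv
  have h2 := hG.low v
  rw [h1] at h2
  have h3 := G0_nonneg v
  have h4 : G0 v = 0 := by nlinarith [hG.hN]
  exact (G0_eq_zero_iff v).1 h4

theorem Geo.OK.isCompact_E (hG : G.OK) : IsCompact G.E := by
  have h1 : IsClosed G.E := isCompact_seg.isClosed.preimage hG.diff.continuous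
  exact isCompact_seg.of_isClosed_subset h1 hG.E_subset

theorem ofReal_notMem_seg {c : ℝ} (hc : 1 < c) : (c : ℂ) ∉ seg := by
  rintro ⟨-, h⟩
  rw [Complex.ofReal_re] at h
  have := le_abs_self c
  linarith

theorem Geo.OK.H_pos (hG : G.OK) : 0 < G.H := G0_pos (ofReal_notMem_seg hG.hc)

theorem Geo.OK.continuous_g (hG : G.OK) : Continuous G.g :=
  (continuous_G0.comp hG.diff.continuous).div_const _

theorem Geo.OK.g_nonneg (hG : G.OK) (v : ℂ) : 0 ≤ G.g v :=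
  div_nonneg (G0_nonneg _) hG.N_pos.le

theorem Geo.OK.g_eq_zero_iff (hG : G.OK) (v : ℂ) : G.g v = 0 ↔ v ∈ G.E := by
  rw [Geo.g, div_eq_zero_iff, G0_eq_zero_iff]
  constructor
  · rintro (h | h)
    · exact h
    · exact absurd h hG.N_pos.ne'
  · exact fun h => Or.inl h

theorem Geo.OK.g_pos (hG : G.OK) {v : ℂ} (h : v ∉ G.E) : 0 < G.g v :=
  lt_of_le_of_ne (hG.g_nonneg v) fun h1 => h ((hG.g_eq_zero_iff v).1 h1.symm)

theorem Geo.OK.G0_le_g (hG : G.OK) (v : ℂ) : G0 v ≤ G.g v := by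
  rw [Geo.g, le_div_iff₀ hG.N_pos, mul_comm]
  exact hG.low v

theorem Geo.OK.exists_g_le (hG : G.OK) : ∃ C : ℝ, ∀ v, G.g v ≤ G0 v + C := by
  obtain ⟨C, hC⟩ := hG.up
  refine ⟨C / G.N, fun v => ?_⟩
  rw [Geo.g, div_le_iff₀ hG.N_pos, add_mul, div_mul_cancel₀ _ hG.N_pos.ne', mul_comm (G0 v)]
  exact hC v

theorem Geo.OK.analyticAt_F (hG : G.OK) (v : ℂ) : AnalyticAt ℂ G.F v :=
  hG.diff.analyticAt v

theorem Geo.OK.harmonic_g (hG : G.OK) : HarmonicOnNhd G.g G.Eᶜ := by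
  intro v hv
  have h1 : G.F v ∉ seg := hv
  have h2 := harmonicAt_comp (harmonicAt_G0 h1) (hG.analyticAt_F v)
  have h3 := HarmonicAt.const_smul (c := (G.N)⁻¹) h2
  have h4 : G.g = (G.N)⁻¹ • (fun w => G0 (G.F w)) := by
    funext w
    simp only [Geo.g, Pi.smul_apply, smul_eq_mul]
    rw [div_eq_inv_mul]
  rw [h4]
  exact h3

theorem Geo.OK.analyticAt_omF (hG : G.OK) {v : ℂ} (h : v ∉ G.E) :
    AnalyticAt ℂ (fun v => om (G.F v)) v := by
  have h1 : G.F v ∉ seg := h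
  exact (analyticAt_om h1).comp (hG.analyticAt_F v)

theorem Geo.OK.norm_omF (hG : G.OK) {v : ℂ} (h : v ∉ G.E) :
    ‖om (G.F v)‖ = Real.exp (-(G.N * G.g v)) := by
  have h1 : G.F v ∉ seg := h
  rw [norm_om h1, hG.N_mul_g]

theorem norm_le_A0 (v : ℂ) : ‖v‖ ≤ A0 v := by
  have h1 : ‖(v - 1) + (v + 1)‖ ≤ ‖v - 1‖ + ‖v + 1‖ := norm_add_le _ _
  have h2 : (v - 1) + (v + 1) = 2 * v := by ring
  rw [h2, norm_mul] at h1
  have h3 : ‖(2 : ℂ)‖ = 2 := by simp
  rw [h3] at h1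
  rw [A0]
  linarith

theorem Geo.OK.cos_mem (hG : G.OK) {s : ℂ} (h : |s.im| < G.H) : Complex.cos s ∈ Sc G.c := by
  by_contra hcon
  have hcon2 : ¬ ((Complex.cos s).im ≠ 0 ∨ |(Complex.cos s).re| < G.c) := hcon
  push Not at hcon2
  have h1 : G.c ≤ ‖Complex.cos s‖ := hcon2.2.trans (Complex.abs_re_le_norm _)
  have h2 : G.c ≤ A0 (Complex.cos s) := h1.trans (norm_le_A0 _)
  rw [← cosh_G0, ← G0_ofReal hG.hc.le] at h2
  have h3 := Real.cosh_le_cosh.1 h2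
  rw [abs_of_nonneg (G0_nonneg _), abs_of_nonneg (G0_nonneg _), G0_cos] at h3
  have h4 : G.H ≤ |s.im| := h3
  linarith

theorem Geo.OK.F_Z (hG : G.OK) (i : G.ι) {s : ℂ} (h : |s.im| < G.H) :
    G.F (G.Z i s) = Complex.cos s :=
  hG.FB i _ (hG.cos_mem h)

theorem Geo.OK.g_Z (hG : G.OK) (i : G.ι) {s : ℂ} (h : |s.im| < G.H) :
    G.g (G.Z i s) = |s.im| / G.N := by
  rw [Geo.g, hG.F_Z i h, G0_cos]

theorem Geo.OK.Z_notMem (hG : G.OK) (i : G.ι) {s : ℂ} (h : |s.im| < G.H) (h0 : s.im ≠ 0) :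
    G.Z i s ∉ G.E := by
  intro h1
  have h2 := (hG.g_eq_zero_iff _).2 h1
  rw [hG.g_Z i h] at h2
  have h3 : 0 < |s.im| / G.N := div_pos (abs_pos.2 h0) hG.N_pos
  linarith

theorem Geo.OK.analyticAt_Z (hG : G.OK) (i : G.ι) {s : ℂ} (h : |s.im| < G.H) :
    AnalyticAt ℂ (G.Z i) s := by
  have h1 : AnalyticAt ℂ (G.B i) (Complex.cos s) :=
    (hG.Bdiff i).analyticAt ((isOpen_Sc _).mem_nhds (hG.cos_mem h))
  have h2 : AnalyticAt ℂ Complex.cos s := Complex.differentiable_cos.analyticAt s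
  exact h1.comp h2

theorem Geo.OK.deriv_Z_ne (hG : G.OK) (i : G.ι) {s : ℂ} (h : |s.im| < G.H) (h0 : s.im ≠ 0) :
    deriv (G.Z i) s ≠ 0 := by
  intro hd
  have h1 : (fun s => G.F (G.Z i s)) =ᶠ[𝓝 s] Complex.cos := by
    have hopen : IsOpen {s : ℂ | |s.im| < G.H} :=
      isOpen_lt (continuous_abs.comp Complex.continuous_im) continuous_const
    filter_upwards [hopen.mem_nhds h] with t ht
    exact hG.F_Z i ht
  have hZ : HasDerivAt (G.Z i) (deriv (G.Z i) s) s :=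
    (hG.analyticAt_Z i h).differentiableAt.hasDerivAt
  have hF : HasDerivAt G.F (deriv G.F (G.Z i s)) (G.Z i s) :=
    (hG.diff _).hasDerivAt
  have h2 : HasDerivAt (fun s => G.F (G.Z i s)) (deriv G.F (G.Z i s) * deriv (G.Z i) s) s :=
    hF.comp s hZ
  have h3 : HasDerivAt Complex.cos (deriv G.F (G.Z i s) * deriv (G.Z i) s) s :=
    h2.congr_of_eventuallyEq h1.symm
  have h4 := h3.unique (Complex.hasDerivAt_cos s)
  rw [hd, mul_zero] at h4
  have h5 : Complex.sin s = 0 := by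
    have : -Complex.sin s = 0 := h4.symm
    exact neg_eq_zero.1 this
  obtain ⟨k, hk⟩ := Complex.sin_eq_zero_iff.1 h5
  apply h0
  rw [hk]
  simp

theorem Geo.Z_periodic (i : G.ι) (s : ℂ) : G.Z i (s + 2 * Real.pi) = G.Z i s := by
  rw [Geo.Z, Geo.Z, Complex.cos_add_two_pi]

theorem Geo.Z_neg (i : G.ι) (s : ℂ) : G.Z i (-s) = G.Z i s := by
  rw [Geo.Z, Geo.Z, Complex.cos_neg]

theorem Geo.OK.Z_conj (hG : G.OK) (i : G.ι) {s : ℂ} (h : |s.im| < G.H) :
    G.Z i (conj s) = conj (G.Z i s) := by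
  rw [Geo.Z, Geo.Z, Complex.cos_conj, hG.Bconj i _ (hG.cos_mem h)]

theorem Geo.OK.injOn_Z (hG : G.OK) (i : G.ι) :
    InjOn (G.Z i) {s | -Real.pi < s.re ∧ s.re < Real.pi ∧ 0 < s.im ∧ s.im < G.H} := by
  rintro s ⟨hs1, hs2, hs3, hs4⟩ t ⟨ht1, ht2, ht3, ht4⟩ h
  have h1 := congrArg G.F h
  rw [hG.F_Z i (by rwa [abs_of_pos hs3]), hG.F_Z i (by rwa [abs_of_pos ht3])] at h1
  obtain ⟨k, hk | hk⟩ := Complex.cos_eq_cos_iff.1 h1
  · have hre := congrArg Complex.re hk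
    have him := congrArg Complex.im hk
    have e1 : ((2 : ℂ) * k * Real.pi + s).re = 2 * k * Real.pi + s.re := by simp
    have e2 : ((2 : ℂ) * k * Real.pi + s).im = s.im := by simp
    rw [e1] at hre
    rw [e2] at him
    have hpi := Real.pi_pos
    have hk1 : (k : ℝ) < 1 := by nlinarith
    have hk2 : (-1 : ℝ) < k := by nlinarith
    have hk3 : k < 1 := by exact_mod_cast hk1
    have hk4 : -1 < k := by exact_mod_cast hk2
    have hk5 : k = 0 := by omega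
    subst hk5
    refine Complex.ext ?_ him.symm
    simpa using hre.symm
  · exfalso
    have him := congrArg Complex.im hk
    have e2 : ((2 : ℂ) * k * Real.pi - s).im = -s.im := by simp
    rw [e2] at him
    linarith

/-- Every point with `0 < g v < H / N` is in one of the strip charts. -/
theorem Geo.OK.exists_Z (hG : G.OK) {v : ℂ} (h0 : 0 < G.g v) (h : G.g v < G.H / G.N) :
    ∃ i : G.ι, ∃ s : ℂ, v = G.Z i s ∧ s.im = G.N * G.g v ∧ -Real.pi < s.re ∧ s.re ≤ Real.pi := by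
  obtain ⟨s, hs1, hs2, hs3, hs4⟩ := exists_cos (w := G.F v)
  rw [lt_div_iff₀ hG.N_pos, mul_comm, hG.N_mul_g] at h
  have hs5 : |s.im| < G.H := by
    rw [hs2, abs_of_nonneg (G0_nonneg _)]
    exact h
  have hm := hG.cos_mem hs5
  rw [← hs1] at hm
  obtain ⟨i, hi⟩ := hG.compl v hm
  refine ⟨i, s, ?_, ?_, hs3, hs4⟩
  · rw [Geo.Z, ← hs1, hi]
  · rw [hs2, hG.N_mul_g]

theorem Geo.OK.g_le_step (hG : G.OK) {q : ℝ} (hq : 0 < q) (r : ℕ) (v : ℂ) :
    G.g v ≤ (G.step q r).g v := by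
  show G0 (G.F v) / G.N ≤ G0 (((1 + q : ℝ) : ℂ) * cheb r (G.F v)) / (2 ^ r * G.N)
  have h1 : G0 (cheb r (G.F v)) ≤ G0 (((1 + q : ℝ) : ℂ) * cheb r (G.F v)) :=
    G0_le_mul (by linarith) _
  rw [G0_cheb] at h1
  rw [div_le_div_iff₀ hG.N_pos (mul_pos (by positivity) hG.N_pos)]
  have h2 := mul_le_mul_of_nonneg_right h1 hG.N_pos.le
  nlinarith

theorem Geo.OK.step_g_le (hG : G.OK) {q : ℝ} (hq : 0 < q) (r : ℕ) (v : ℂ) :
    (G.step q r).g v ≤ G.g v + G0 ((1 + 2 * q : ℝ) : ℂ) / (2 ^ r * G.N) := by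
  show G0 (((1 + q : ℝ) : ℂ) * cheb r (G.F v)) / (2 ^ r * G.N) ≤
    G0 (G.F v) / G.N + G0 ((1 + 2 * q : ℝ) : ℂ) / (2 ^ r * G.N)
  have h1 := G0_mul_le (c := 1 + q) (by linarith) (cheb r (G.F v))
  have e1 : (2 * (1 + q) - 1 : ℝ) = 1 + 2 * q := by ring
  rw [G0_cheb, e1] at h1
  have hp : (0 : ℝ) < 2 ^ r := by positivity
  have e2 : G0 (G.F v) / G.N = 2 ^ r * G0 (G.F v) / (2 ^ r * G.N) := by
    rw [mul_div_mul_left _ _ hp.ne']
  rw [e2, ← add_div]
  exact div_le_div_of_nonneg_right h1 (mul_pos hp hG.N_pos).le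

theorem Geo.OK.step_E_subset (hG : G.OK) {q : ℝ} (hq : 0 < q) (r : ℕ) :
    (G.step q r).E ⊆ G.E := by
  intro v hv
  have h1 := ((hG.step hq r).g_eq_zero_iff v).2 hv
  have h2 := hG.g_le_step hq r v
  have h3 := hG.g_nonneg v
  exact (hG.g_eq_zero_iff v).1 (by linarith)

/-- The next polynomial in the chart: `F' (Z i (x / 2^r)) = (1+q) cos x`. -/
theorem Geo.OK.step_F_Z (hG : G.OK) {q : ℝ} (r : ℕ) (i : G.ι) {s : ℂ} (h : |s.im| < G.H) :
    (G.step q r).F (G.Z i s) = (1 + q : ℝ) * Complex.cos (2 ^ r * s) := by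
  show ((1 + q : ℝ) : ℂ) * cheb r (G.F (G.Z i s)) = _
  rw [hG.F_Z i h, cheb_cos]

theorem Geo.OK.tendsto_g (hG : G.OK) : Tendsto G.g (Bornology.cobounded ℂ) atTop :=
  tendsto_atTop_mono hG.G0_le_g tendsto_G0

end Pool.Agent.NH
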