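import Pool.Agent.Lib.MP_00644e_an.Defs
import Pool.Agent.Lib.MP_00644e_an.E1
import Pool.Agent.Lib.MP_00644e_an.G7
/-! # Row E2: porous step for the continuous part

PROOF. By Weierstrass there is a real polynomial `p` with `|p t - e t| ≤ δ/4` on `[-1,1]`; `P v = (aeval v p).re` is
harmonic on `ℂ`. Let `S = {v | G0 v ≤ 1}` (compact, G1), `B₀ ≥ |P|` on `S`, `C = 2 (M + δ/4 + B₀)`. For every `r` let
`G' = G.step q r`; apply `exists_e` with `E = G'.E`, `g = G'.g` (G7), `η = 1`, `M + δ/4`, `C`: `{g' < 1} ⊆ S` since `G0 ≤ g'`.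
Get `e'` with `|e'| ≤ M + δ/4`, `e' = P` on `G'.E`, `|e' - P| ≤ C g'` on `{g' < 1}`. On `G.E`: `g' ≤ G0 (1+2q) / (2^r N)` (`step_g_le`,
`g = 0`), for `r ≥ r₀` this is `< 1` and `C g' ≤ δ/4`; hence `|e' - e| ≤ δ/2` on `G.E ⊆ [-1,1]`. Off `G.E` the function `e' - e`
is harmonic (`G'.E ⊆ G.E`), bounded and continuous: `max_principle_ext` with barrier `G.g` for `±(e' - e)`. -/

set_option autoImplicit false

open Complex Metric Set Filter Topology MeasureTheory InnerProductSpace ComplexConjugate

noncomputable section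

namespace Pool.Agent.NH

private theorem e2_poly_harm (p : Polynomial ℝ) (v : ℂ) :
    HarmonicAt (fun v : ℂ => (Polynomial.aeval v p).re) v := by
  refine AnalyticAt.harmonicAt_re ?_
  have h : (fun v : ℂ => Polynomial.aeval v p) = fun v : ℂ =>
      (p.map (algebraMap ℝ ℂ)).eval v := by
    funext w
    rw [Polynomial.eval_map_algebraMap]
  rw [h]
  exact (Polynomial.differentiable _).analyticAt v

private theorem e2_poly_real (p : Polynomial ℝ) {v : ℂ} (hv : v.im = 0) :
    (Polynomial.aeval v p).re = p.eval v.re := by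
  have h : v = ((v.re : ℝ) : ℂ) := by
    apply Complex.ext <;> simp [hv]
  rw [h]
  have h2 : Polynomial.aeval ((v.re : ℝ) : ℂ) p = ((p.eval v.re : ℝ) : ℂ) := by
    have := Polynomial.aeval_algebraMap_apply ℂ v.re p
    simpa [Polynomial.coe_aeval_eq_eval] using this
  rw [h2]
  simp

theorem porous_e {G : Geo} (hG : G.OK) {q : ℝ} (hq : 0 < q) {e : ℂ → ℝ} {M : ℝ}
    (he : EOK G.E e M) (hM : 0 ≤ M) {δ : ℝ} (hδ : 0 < δ) :
    ∃ r₀ : ℕ, ∀ r ≥ r₀, ∃ e' : ℂ → ℝ, EOK (G.step q r).E e' (M + δ) ∧ ∀ v, |e' v - e v| ≤ δ := by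
  obtain ⟨p, hp⟩ := exists_polynomial_near_of_continuousOn (-1) 1 (fun t : ℝ => e (t : ℂ))
    ((he.cont.comp Complex.continuous_ofReal).continuousOn) (δ / 4) (by positivity)
  set P : ℂ → ℝ := fun v => (Polynomial.aeval v p).re with hP
  have hPh : ∀ v, HarmonicAt P v := fun v => e2_poly_harm p v
  have hPc : Continuous P := continuous_iff_continuousAt.2 fun v => (hPh v).1.continuousAt
  have hPseg : ∀ v ∈ seg, |P v - e v| ≤ δ / 4 := by
    intro v hv
    have h1 : P v = p.eval v.re := e2_poly_real p hv.1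
    have h2 : v = ((v.re : ℝ) : ℂ) := by
      apply Complex.ext <;> simp [hv.1]
    have h3 := hp v.re (by
      have := abs_le.1 hv.2
      exact ⟨this.1, this.2⟩)
    rw [h1]
    have h4 : e v = e ((v.re : ℝ) : ℂ) := by rw [← h2]
    rw [h4]
    exact h3.le
  obtain ⟨B₁, hB₁⟩ := (isCompact_G0_le 1).exists_bound_of_continuousOn hPc.continuousOn
  set B₀ := max B₁ 0 with hB₀
  have hB : ∀ v, G0 v ≤ 1 → |P v| ≤ B₀ := fun v hv =>
    (by simpa [Real.norm_eq_abs] using hB₁ v hv : |P v| ≤ B₁).trans (le_max_left _ _)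
  have hB0 : 0 ≤ B₀ := le_max_right _ _
  set C := 2 * (M + δ / 4 + B₀) with hC
  have hC0 : 0 < C := by rw [hC]; positivity
  set K := G0 ((1 + 2 * q : ℝ) : ℂ) with hK
  have hK0 : 0 ≤ K := G0_nonneg _
  have hN := hG.hN
  obtain ⟨r₀, hr₀⟩ := exists_nat_gt (K / min 1 (δ / (4 * C)))
  have hm0 : 0 < min 1 (δ / (4 * C)) := lt_min one_pos (by positivity)
  refine ⟨r₀, fun r hr => ?_⟩
  have hG' : (G.step q r).OK := hG.step hq r
  have hsub : (G.step q r).E ⊆ G.E := hG.step_E_subset hq r
  have hsmall : K / (2 ^ r * G.N) < min 1 (δ / (4 * C)) := by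
    have h1 : (r₀ : ℝ) ≤ 2 ^ r := by
      have h2 : r < 2 ^ r := Nat.lt_two_pow_self
      have h3 : r₀ ≤ 2 ^ r := hr.trans h2.le
      exact_mod_cast h3
    have h4 : K < min 1 (δ / (4 * C)) * 2 ^ r := by
      have := (div_lt_iff₀ hm0).1 (hr₀.trans_le h1)
      linarith
    have h5 : (0 : ℝ) < 2 ^ r := by positivity
    rw [div_lt_iff₀ (by positivity)]
    calc K < min 1 (δ / (4 * C)) * 2 ^ r := h4
      _ ≤ min 1 (δ / (4 * C)) * (2 ^ r * G.N) := by
        refine mul_le_mul_of_nonneg_left ?_ hm0.le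
        nlinarith
  obtain ⟨e', he', heq, hle⟩ := exists_e (hG'.isCompact_E) (hG'.continuous_g) (hG'.harmonic_g)
    (fun v hv => (hG'.g_eq_zero_iff v).2 hv) (fun v hv => hG'.g_pos hv) hG'.tendsto_g
    (p := P) (η := 1) (M := M + δ / 4) (C := C) one_pos (by positivity) hC0.le
    (fun v _ => hPh v)
    (fun v hv => by
      have h1 := hPseg v (hG.E_subset (hsub hv))
      have h2 := he.bdd v
      have h3 : |P v| ≤ |P v - e v| + |e v| := by
        have := abs_add_le (P v - e v) (e v)
        simpa using this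
      linarith)
    (fun v hv1 hv2 => by
      have h1 := hB v ((hG'.G0_le_g v).trans hv2.le)
      have h2 : C * (1 / 2) ≤ C * (G.step q r).g v := mul_le_mul_of_nonneg_left hv1 hC0.le
      have h3 : C * (1 / 2) = M + δ / 4 + B₀ := by rw [hC]; ring
      linarith)
  have hon : ∀ v ∈ G.E, |e' v - e v| ≤ δ / 2 := by
    intro v hv
    have h1 := hG.step_g_le hq r v
    rw [(hG.g_eq_zero_iff v).2 hv, zero_add] at h1
    have h2 : (G.step q r).g v < min 1 (δ / (4 * C)) := h1.trans_lt hsmall
    have h3 := hle v (h2.trans_le (min_le_left _ _))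
    have h4 : C * (G.step q r).g v ≤ δ / 4 := by
      have h5 := (h2.trans_le (min_le_right _ _)).le
      rw [le_div_iff₀ (by positivity)] at h5
      linarith
    have h6 := hPseg v (hG.E_subset hv)
    have h7 : |e' v - e v| ≤ |e' v - P v| + |P v - e v| := by
      have := abs_add_le (e' v - P v) (P v - e v)
      simpa using this
    linarith
  have hEcl : IsClosed G.E := hG.isCompact_E.isClosed
  have hfr : frontier (G.Eᶜ) ⊆ G.E := by
    rw [frontier_compl]
    exact hEcl.frontier_subset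
  have hharm' : HarmonicOnNhd e' G.Eᶜ := he'.harm.mono (compl_subset_compl.2 hsub)
  have hall : ∀ v, |e' v - e v| ≤ δ / 2 := by
    intro v
    by_cases hv : v ∈ G.E
    · exact hon v hv
    rw [abs_le]
    constructor
    · have := max_principle_ext (W := G.Eᶜ) hEcl.isOpen_compl (u := fun v => e v - e' v)
        (γ := G.g) ((he.cont.sub he'.cont).continuousOn) (he.harm.sub hharm')
        (hG.continuous_g.continuousOn) hG.harmonic_g (fun z _ => hG.g_nonneg z) hG.tendsto_g
        (C := M + (M + δ / 4)) (M := δ / 2)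
        (Eventually.of_forall fun z _ => by
          have h1 := (abs_le.1 (he.bdd z)).2
          have h2 := (abs_le.1 (he'.bdd z)).1
          linarith)
        (fun z hz => by
          have := (abs_le.1 (hon z (hfr hz))).1
          linarith) v hv
      linarith
    · have := max_principle_ext (W := G.Eᶜ) hEcl.isOpen_compl (u := fun v => e' v - e v)
        (γ := G.g) ((he'.cont.sub he.cont).continuousOn) (hharm'.sub he.harm)
        (hG.continuous_g.continuousOn) hG.harmonic_g (fun z _ => hG.g_nonneg z) hG.tendsto_g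
        (C := M + (M + δ / 4)) (M := δ / 2)
        (Eventually.of_forall fun z _ => by
          have h1 := (abs_le.1 (he.bdd z)).1
          have h2 := (abs_le.1 (he'.bdd z)).2
          linarith)
        (fun z hz => by
          have := (abs_le.1 (hon z (hfr hz))).2
          linarith) v hv
      simpa using this
  refine ⟨e', ⟨he'.cont, he'.harm, fun v => (he'.bdd v).trans (by linarith)⟩,
    fun v => (hall v).trans (by linarith)⟩

end Pool.Agent.NH
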