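import Pool.Agent.Lib.MP_00644e_an.Defs

/-! # Final definitions: Green's functions and Martin kernels of a plane domain -/

set_option autoImplicit false

open Complex Metric Set Filter Topology MeasureTheory InnerProductSpace ComplexConjugate

noncomputable section

namespace Pool.Agent.NH

/-- `g` is Green's function of `Ω` with pole `z₀`: the least positive harmonic function on
`Ω \ {z₀}` with a logarithmic pole at `z₀` (`g + log |z - z₀|` is harmonic near `z₀`). -/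
structure IsGreen (Ω : Set ℂ) (z₀ : ℂ) (g : ℂ → ℝ) : Prop where
  harm : HarmonicOnNhd g (Ω \ {z₀})
  pos : ∀ z ∈ Ω \ {z₀}, 0 < g z
  pole : ∃ h : ℂ → ℝ, HarmonicAt h z₀ ∧ ∀ᶠ z in 𝓝[≠] z₀, g z + Real.log ‖z - z₀‖ = h z
  least : ∀ u : ℂ → ℝ, HarmonicOnNhd u (Ω \ {z₀}) → (∀ z ∈ Ω \ {z₀}, 0 < u z) →
    (∃ h : ℂ → ℝ, HarmonicAt h z₀ ∧ ∀ᶠ z in 𝓝[≠] z₀, u z + Real.log ‖z - z₀‖ = h z) →
    ∀ z ∈ Ω \ {z₀}, g z ≤ u z

/-- `K` is the Martin kernel of a point of the Martin boundary, normalised at `w₀`: the limit of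
`g(w,z_n)/g(w₀,z_n)` along a sequence `z_n` of points of `Ω` leaving every compact subset of `Ω`. -/
def IsMartinKernel (Ω : Set ℂ) (w₀ : ℂ) (K : ℂ → ℝ) : Prop :=
  ∃ (z : ℕ → ℂ) (G : ℕ → ℂ → ℝ), (∀ n, z n ∈ Ω) ∧ (∀ n, IsGreen Ω (z n) (G n)) ∧
    (∀ C ⊆ Ω, IsCompact C → ∀ᶠ n in atTop, z n ∉ C) ∧
    ∀ w ∈ Ω, Tendsto (fun n => G n w / G n w₀) atTop (𝓝 (K w))

/-- The domain `{z | e₀ + 1/z ∉ E}` with `0` (the image of infinity) added. -/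
def Om (E : Set ℂ) (e₀ : ℂ) : Set ℂ := {z | z = 0 ∨ e₀ + 1 / z ∉ E}

end Pool.Agent.NH
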