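import Pool.Agent.Lib.MP_00644e_an.Defs
import Pool.Agent.Lib.MP_00644e_an.FD
import Pool.Agent.Lib.MP_00644e_an.T2
import Pool.Agent.Lib.MP_00644e_an.T3
import Pool.Agent.Lib.MP_00644e_an.T6
import Pool.Agent.Lib.MP_00644e_an.G4
/-! # Row F1: the domain Om E e₀ and its Green's function with pole 0

PROOFS. `φ z = e₀ + 1/z`, inverse `v ↦ 1/(v - e₀)`, a bijection `Om \ {0} → Eᶜ` (`e₀ ∈ E`). `isOpen_Om`: near `0`: `‖φ z‖` is large and
`E` is bounded; elsewhere `φ` is continuous. `notMem_Om_real`: `z ∉ Om` means `z ≠ 0`, `φ z ∈ E ⊆ ℝ`, `e₀` real. Connected: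
the two open half planes and a small ball around `0` form a connected subset `S ⊆ Om`, `Om ⊆ closure S = ℂ`
(`IsPreconnected.subset_closure`).
`isGreen_zero`: `harm`: `harmonicAt_comp`; `pole`: `g (φ z) + log ‖z‖` is harmonic on a punctured ball and bounded
(`log ‖v‖ ≤ G0 v ≤ log (2 (‖v‖+1))`, `‖v‖ ~ 1/‖z‖`), `exists_extension`. `least`: for `v ∉ E` put `w v = g v - u (1/(v - e₀))`: harmonic off `E`, bounded above
near infinity (difference of the two poles), `w ≤ g`; for `η > 0` `max_principle_ext` on `W = {g > η}` with barrier `g`: `w ≤ η` on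
`{g = η}`, so `w ≤ η` on `W`; let `η → 0`. -/

set_option autoImplicit false

open Complex Metric Set Filter Topology MeasureTheory InnerProductSpace ComplexConjugate

noncomputable section

namespace Pool.Agent.NH

variable {E : Set ℂ} {e₀ : ℂ} {g : ℂ → ℝ}

private theorem F1_ball (hE : IsCompact E) : ∃ r > 0, ball (0 : ℂ) r ⊆ Om E e₀ := by
  obtain ⟨R, hR⟩ := hE.isBounded.subset_closedBall 0
  set A : ℝ := |R| + ‖e₀‖ + 1 with hA
  have hA0 : 0 < A := by rw [hA]; positivity
  refine ⟨1 / A, by positivity, fun z hz => ?_⟩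
  rw [mem_ball, dist_zero_right] at hz
  by_cases h0 : z = 0
  · exact Or.inl h0
  · refine Or.inr fun hzE => ?_
    have h1 := hR hzE
    rw [mem_closedBall, dist_zero_right] at h1
    have hz0 : 0 < ‖z‖ := norm_pos_iff.2 h0
    have h2 : A < 1 / ‖z‖ := by
      rw [lt_div_iff₀ hz0]
      rw [lt_div_iff₀ hA0] at hz
      linarith
    have h3 : ‖(1 : ℂ) / z‖ ≤ ‖e₀ + 1 / z‖ + ‖e₀‖ := by
      calc ‖(1 : ℂ) / z‖ = ‖(e₀ + 1 / z) - e₀‖ := by ring_nf
        _ ≤ _ := norm_sub_le _ _
    rw [norm_div, norm_one] at h3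
    have h4 := le_abs_self R
    linarith

theorem isOpen_Om (hE : IsCompact E) : IsOpen (Om E e₀) := by
  rw [isOpen_iff_mem_nhds]
  intro z hz
  by_cases h0 : z = 0
  · obtain ⟨r, hr, hr'⟩ := F1_ball (e₀ := e₀) hE
    rw [h0]
    exact mem_of_superset (ball_mem_nhds _ hr) hr'
  · have h1 : e₀ + 1 / z ∉ E := hz.resolve_left h0
    have h2 : ContinuousAt (fun z : ℂ => e₀ + 1 / z) z :=
      continuousAt_const.add (continuousAt_const.div continuousAt_id h0)
    have h3 := h2.preimage_mem_nhds (hE.isClosed.isOpen_compl.mem_nhds h1)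
    exact mem_of_superset h3 fun w hw => Or.inr hw

theorem im_eq_zero_of_notMem_Om (hEs : E ⊆ seg) (h0 : e₀ ∈ E) {z : ℂ} (hz : z ∉ Om E e₀) :
    z.im = 0 := by
  have h1 : ¬ (z = 0 ∨ e₀ + 1 / z ∉ E) := hz
  rw [not_or, not_not] at h1
  have h2 := (hEs h1.2).1
  have h3 := (hEs h0).1
  rw [add_im, h3, zero_add, one_div, inv_im] at h2
  have h4 : Complex.normSq z ≠ 0 := fun h => h1.1 (Complex.normSq_eq_zero.1 h)
  have h5 : -z.im = 0 := by
    rcases div_eq_zero_iff.1 h2 with h | h
    · exact h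
    · exact absurd h h4
  linarith

theorem isConnected_Om (hE : IsCompact E) (hEs : E ⊆ seg) (h0 : e₀ ∈ E) :
    IsConnected (Om E e₀) := by
  obtain ⟨r, hr, hr'⟩ := F1_ball (e₀ := e₀) hE
  refine ⟨⟨0, Or.inl rfl⟩, ?_⟩
  have hU : IsPreconnected {z : ℂ | 0 < z.im} := (convex_halfSpace_im_gt 0).isPreconnected
  have hL : IsPreconnected {z : ℂ | z.im < 0} := (convex_halfSpace_im_lt 0).isPreconnected
  have hB : IsPreconnected (ball (0 : ℂ) r) := (convex_ball _ _).isPreconnected
  have h1 : IsPreconnected ({z : ℂ | 0 < z.im} ∪ ball (0 : ℂ) r) := by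
    refine IsPreconnected.union ((r / 2 : ℝ) * I) ?_ ?_ hU hB
    · simp [hr]
    · rw [mem_ball, dist_zero_right]
      simp only [norm_mul, norm_real, norm_I, mul_one, Real.norm_eq_abs]
      rw [abs_of_pos (by linarith)]
      linarith
  have h2 : IsPreconnected (({z : ℂ | 0 < z.im} ∪ ball (0 : ℂ) r) ∪ {z : ℂ | z.im < 0}) := by
    refine IsPreconnected.union (-(r / 2 : ℝ) * I) (Or.inr ?_) ?_ h1 hL
    · rw [mem_ball, dist_zero_right]
      simp only [norm_mul, norm_neg, norm_real, norm_I, mul_one, Real.norm_eq_abs]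
      rw [abs_of_pos (by linarith)]
      linarith
    · simp [hr]
  refine h2.subset_closure ?_ ?_
  · rintro z ((hz | hz) | hz)
    · by_contra hc
      have := im_eq_zero_of_notMem_Om hEs h0 hc
      have hz' : 0 < z.im := hz
      linarith
    · exact hr' hz
    · by_contra hc
      have := im_eq_zero_of_notMem_Om hEs h0 hc
      have hz' : z.im < 0 := hz
      linarith
  · intro z _
    rw [Metric.mem_closure_iff]
    intro ε hε
    by_cases hz : 0 ≤ z.im
    · refine ⟨z + (ε / 2 : ℝ) * I, Or.inl (Or.inl ?_), ?_⟩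
      · simp only [mem_ofPred_eq, add_im, mul_im, ofReal_re, I_im, mul_one, ofReal_im, I_re,
          mul_zero, add_zero]
        linarith
      · rw [Complex.dist_eq]
        have : z - (z + (ε / 2 : ℝ) * I) = -((ε / 2 : ℝ) * I) := by ring
        rw [this, norm_neg, norm_mul, norm_I, norm_real, Real.norm_eq_abs, mul_one,
          abs_of_pos (by linarith)]
        linarith
    · rw [not_le] at hz
      exact ⟨z, Or.inr hz, by rw [dist_self]; exact hε⟩

private theorem F1_analytic {z : ℂ} (hz : z ≠ 0) :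
    AnalyticAt ℂ (fun z : ℂ => e₀ + 1 / z) z :=
  analyticAt_const.add (analyticAt_const.div analyticAt_id hz)

theorem isGreen_zero (hE : IsCompact E) (hEs : E ⊆ seg) (h0 : e₀ ∈ E) (hgc : Continuous g)
    (hgh : HarmonicOnNhd g Eᶜ) (hg0 : ∀ v ∈ E, g v = 0) (hgp : ∀ v ∉ E, 0 < g v)
    (hgC : ∃ C : ℝ, ∀ v, G0 v ≤ g v ∧ g v ≤ G0 v + C) :
    IsGreen (Om E e₀) 0 (fun z => g (e₀ + 1 / z)) := by
  obtain ⟨C, hC⟩ := hgC
  have he₀ : ‖e₀‖ ≤ 1 := by
    have h1 := hEs h0
    have h2 : e₀ = (e₀.re : ℂ) := by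
      apply Complex.ext
      · simp
      · simp [h1.1]
    rw [h2, norm_real, Real.norm_eq_abs]
    exact h1.2
  have hmem : ∀ z ∈ Om E e₀ \ {0}, z ≠ 0 ∧ e₀ + 1 / z ∉ E := by
    rintro z ⟨hz, hz0⟩
    rw [mem_singleton_iff] at hz0
    exact ⟨hz0, hz.resolve_left hz0⟩
  have hharm : HarmonicOnNhd (fun z => g (e₀ + 1 / z)) (Om E e₀ \ {0}) := by
    intro z hz
    obtain ⟨hz0, hzE⟩ := hmem z hz
    exact harmonicAt_comp (φ := fun z => e₀ + 1 / z) (hgh _ hzE) (F1_analytic hz0)
  refine ⟨hharm, fun z hz => hgp _ (hmem z hz).2, ?_, ?_⟩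
  · -- the pole
    obtain ⟨r, hr, hr'⟩ := F1_ball (e₀ := e₀) hE
    set ρ : ℝ := min r (1 / 2) with hρ
    have hρ0 : 0 < ρ := lt_min hr (by norm_num)
    have hρr : ρ ≤ r := min_le_left _ _
    have hρ2 : ρ ≤ 1 / 2 := min_le_right _ _
    have hC0 : 0 ≤ C := by
      have := hC 0
      linarith [this.1.trans this.2]
    obtain ⟨h, hh, hh'⟩ := exists_extension (c := 0) (R := ρ) (C := Real.log 4 + C)
      (u := fun z => g (e₀ + 1 / z) + Real.log ‖z‖) hρ0 (by
        intro z hz
        have hz0 : z ≠ 0 := hz.2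
        have hzO : z ∈ Om E e₀ \ {0} := ⟨hr' (ball_subset_ball hρr hz.1), hz.2⟩
        exact (hharm z hzO).add
          (AnalyticAt.harmonicAt_log_norm (f := fun w => w) analyticAt_id hz0)) (by
        intro z hz
        have hz0 : z ≠ 0 := hz.2
        have hz1 : 0 < ‖z‖ := norm_pos_iff.2 hz0
        have hz2 : ‖z‖ < 1 / 2 := by
          have := hz.1
          rw [mem_ball, dist_zero_right] at this
          linarith
        have hez : ‖e₀ * z‖ ≤ 1 / 2 := by
          rw [norm_mul]
          calc ‖e₀‖ * ‖z‖ ≤ 1 * ‖z‖ := mul_le_mul_of_nonneg_right he₀ hz1.le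
            _ ≤ 1 / 2 := by linarith
        have hprod : ‖e₀ + 1 / z‖ * ‖z‖ = ‖e₀ * z + 1‖ := by
          rw [← norm_mul]
          congr 1
          field_simp
        have hlow : 1 / 2 ≤ ‖e₀ * z + 1‖ := by
          have h1 : ‖(1 : ℂ)‖ ≤ ‖e₀ * z + 1‖ + ‖e₀ * z‖ := by
            calc ‖(1 : ℂ)‖ = ‖(e₀ * z + 1) - e₀ * z‖ := by ring_nf
              _ ≤ _ := norm_sub_le _ _
          rw [norm_one] at h1
          linarith
        have hup : ‖e₀ * z + 1‖ ≤ 3 / 2 := by
          have h1 := norm_add_le (e₀ * z) 1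
          rw [norm_one] at h1
          linarith
        have hv0 : e₀ + 1 / z ≠ 0 := by
          intro h
          rw [h, norm_zero, zero_mul] at hprod
          linarith
        have hv1 : 0 < ‖e₀ + 1 / z‖ := norm_pos_iff.2 hv0
        have e1 := log_norm_le_G0 hv0
        have e2 := G0_le_log (e₀ + 1 / z)
        obtain ⟨e3, e4⟩ := hC (e₀ + 1 / z)
        have e5 : Real.log ‖e₀ + 1 / z‖ + Real.log ‖z‖ = Real.log ‖e₀ * z + 1‖ := by
          rw [← Real.log_mul hv1.ne' hz1.ne', hprod]
        have e6 : Real.log (2 * (‖e₀ + 1 / z‖ + 1)) + Real.log ‖z‖ =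
            Real.log (2 * (‖e₀ * z + 1‖ + ‖z‖)) := by
          rw [← Real.log_mul (by positivity) hz1.ne', ← hprod]
          congr 1
          ring
        have e7 : Real.log (2 * (‖e₀ * z + 1‖ + ‖z‖)) ≤ Real.log 4 := by
          apply Real.log_le_log (by positivity)
          linarith
        have e8 : -Real.log 4 ≤ Real.log ‖e₀ * z + 1‖ := by
          rw [← Real.log_inv]
          apply Real.log_le_log (by norm_num)
          linarith
        rw [abs_le]
        constructor
        · linarith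
        · linarith)
    refine ⟨h, hh 0 (mem_ball_self hρ0), ?_⟩
    have h1 : ∀ᶠ z in 𝓝[≠] (0 : ℂ), z ∈ ball (0 : ℂ) ρ \ {0} :=
      inter_mem (mem_nhdsWithin_of_mem_nhds (ball_mem_nhds _ hρ0)) self_mem_nhdsWithin
    filter_upwards [h1] with z hz
    rw [sub_zero, hh' z hz]
  · -- the least one
    intro u hu hup hupole z hz
    obtain ⟨h, hh, hhe⟩ := hupole
    obtain ⟨hz0, hzE⟩ := hmem z hz
    -- the function `w`
    let w : ℂ → ℝ := fun v => g v - u (1 / (v - e₀))
    have hne : ∀ v ∉ E, v - e₀ ≠ 0 := by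
      intro v hv h
      rw [sub_eq_zero] at h
      exact hv (h ▸ h0)
    have hψ : ∀ v ∉ E, 1 / (v - e₀) ∈ Om E e₀ \ {0} := by
      intro v hv
      have h1 := hne v hv
      refine ⟨Or.inr ?_, ?_⟩
      · rw [one_div_one_div, add_sub_cancel]
        exact hv
      · rw [mem_singleton_iff]
        exact one_div_ne_zero h1
    have hwh : HarmonicOnNhd w Eᶜ := by
      intro v hv
      refine (hgh v hv).sub ?_
      refine harmonicAt_comp (φ := fun v => 1 / (v - e₀)) (hu _ (hψ v hv)) ?_
      exact analyticAt_const.div (analyticAt_id.sub analyticAt_const) (hne v hv)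
    -- the bound near infinity
    have hbd : ∀ᶠ v in Bornology.cobounded ℂ, w v ≤ Real.log 4 + C - h 0 + 1 := by
      have hinv : Tendsto (fun v : ℂ => 1 / (v - e₀)) (Bornology.cobounded ℂ) (𝓝[≠] 0) := by
        have h1 : Tendsto (fun v : ℂ => v - e₀) (Bornology.cobounded ℂ) (Bornology.cobounded ℂ) := by
          rw [← tendsto_norm_atTop_iff_cobounded]
          have h2 : Tendsto (fun v : ℂ => ‖v‖ - ‖e₀‖) (Bornology.cobounded ℂ) atTop :=
            tendsto_atTop_add_const_right _ _ tendsto_norm_cobounded_atTop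
          exact tendsto_atTop_mono (fun v => norm_sub_norm_le v e₀) h2
        have h3 : Tendsto (fun v : ℂ => (v - e₀)⁻¹) (Bornology.cobounded ℂ) (𝓝[≠] 0) :=
          (tendsto_inv₀_cobounded' (α := ℂ)).comp h1
        simpa only [one_div] using h3
      have h1 := hinv.eventually hhe
      have h2 : ∀ᶠ v in Bornology.cobounded ℂ, h 0 - 1 < h (1 / (v - e₀)) := by
        have h3 : Tendsto h (𝓝[≠] 0) (𝓝 (h 0)) := (hh.1.continuousAt).tendsto.mono_left
          nhdsWithin_le_nhds
        exact (h3.comp hinv).eventually (lt_mem_nhds (sub_one_lt (h 0)))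
      have h3 : ∀ᶠ v in Bornology.cobounded ℂ, (3 : ℝ) ≤ ‖v‖ :=
        tendsto_norm_cobounded_atTop.eventually (eventually_ge_atTop 3)
      filter_upwards [h1, h2, h3] with v h1 h2 h3
      rw [sub_zero, norm_div, norm_one] at h1
      have h4 : ‖v‖ - 1 ≤ ‖v - e₀‖ := by
        have := norm_sub_norm_le v e₀
        linarith
      have h5 : 0 < ‖v - e₀‖ := by linarith
      have hl : Real.log (1 / ‖v - e₀‖) = -Real.log ‖v - e₀‖ := by
        rw [one_div, Real.log_inv]
      rw [hl] at h1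
      obtain ⟨-, e4⟩ := hC v
      have e2 := G0_le_log v
      have e5 : Real.log (2 * (‖v‖ + 1)) ≤ Real.log 4 + Real.log ‖v - e₀‖ := by
        rw [← Real.log_mul (by norm_num) h5.ne']
        apply Real.log_le_log (by linarith)
        linarith
      change g v - u (1 / (v - e₀)) ≤ _
      linarith
    -- the maximum principle
    have hkey : ∀ η : ℝ, 0 < η → ∀ v, η < g v → w v ≤ η := by
      intro η hη
      have hWo : IsOpen {v | η < g v} := isOpen_lt continuous_const hgc
      have hWc : closure {v | η < g v} ⊆ {v | η ≤ g v} :=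
        closure_minimal (fun v (hv : η < g v) => show η ≤ g v from le_of_lt hv)
          (isClosed_le continuous_const hgc)
      have hWE : ∀ v, η ≤ g v → v ∈ Eᶜ := by
        intro v hv hvE
        rw [hg0 v hvE] at hv
        linarith
      have hfr : ∀ v ∈ frontier {v | η < g v}, g v = η := by
        intro v hv
        rw [hWo.frontier_eq] at hv
        exact le_antisymm (not_lt.1 hv.2) (hWc hv.1)
      have := max_principle_ext (W := {v | η < g v}) hWo (u := w) (γ := g)
        (fun v hv => (hwh v (hWE v (hWc hv))).1.continuousAt.continuousWithinAt)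
        (fun v (hv : η < g v) => hwh v (hWE v (le_of_lt hv))) hgc.continuousOn
        (fun v (hv : η < g v) => hgh v (hWE v (le_of_lt hv)))
        (fun v hv => hη.le.trans (hWc hv))
        (tendsto_atTop_mono (fun v => (hC v).1) tendsto_G0)
        (C := Real.log 4 + C - h 0 + 1) (M := η) (hbd.mono fun v hv _ => hv) (by
          intro v hv
          have h1 := hfr v hv
          have hvE : v ∉ E := hWE v (hWc hv.1)
          have h2 := hup _ (hψ v hvE)
          change g v - u (1 / (v - e₀)) ≤ η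
          linarith)
      exact this
    have hw0 : ∀ v ∉ E, w v ≤ 0 := by
      intro v hv
      refine le_of_forall_pos_le_add fun η hη => ?_
      rw [zero_add]
      have hgv := hgp v hv
      have h1 := hkey (min η (g v / 2)) (lt_min hη (by linarith)) v
        (lt_of_le_of_lt (min_le_right _ _) (by linarith))
      exact h1.trans (min_le_left _ _)
    have hfin := hw0 _ hzE
    have h1 : w (e₀ + 1 / z) = g (e₀ + 1 / z) - u z := by
      change g (e₀ + 1 / z) - u (1 / (e₀ + 1 / z - e₀)) = _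
      rw [add_sub_cancel_left, one_div_one_div]
    rw [h1] at hfin
    linarith

theorem isGreen_unique {Ω : Set ℂ} {z₀ : ℂ} {g₁ g₂ : ℂ → ℝ} (h1 : IsGreen Ω z₀ g₁)
    (h2 : IsGreen Ω z₀ g₂) : ∀ z ∈ Ω \ {z₀}, g₁ z = g₂ z := by
  intro z hz
  exact le_antisymm (h1.least g₂ h2.harm h2.pos h2.pole z hz)
    (h2.least g₁ h1.harm h1.pos h1.pole z hz)

end Pool.Agent.NH
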