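import Pool.Agent.Lib.MP_00644e_an.Defs
import Pool.Agent.Lib.MP_00644e_an.F1
import Pool.Agent.Lib.MP_00644e_an.E1
/-! # Row F2: Green's functions with arbitrary pole exist

PROOF. For `z₁ = 0` this is `isGreen_zero`. Let `z₁ ≠ 0`, `v₁ = e₀ + 1/z₁ ∉ E`, `η = g v₁ / 2`, `p v = log ‖v - v₁‖`, harmonic on `{g < η}`;
`M ≥ |p|` on `E`; `C ≥ 0` with `M + |p| ≤ C g` on the compact set `{η/2 ≤ g ≤ η}`. `exists_e`: `e` continuous bounded, harmonic off `E`,
`e = p` on `E`. `h v = g v + e v - log ‖v - v₁‖`: harmonic off `E ∪ {v₁}`, continuous there and on `E`, `0` on `E`, `+∞` at `v₁`, and bounded near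
infinity (`g - log ‖v‖` bounded). `Green z = h (e₀ + 1/z)`, at `z = 0` the harmonic extension (`exists_extension`).
Positivity: minimum principle (`max_principle_ext` for `-h` on `Eᶜ` minus a small closed ball around `v₁`, barrier `g`; then strict
positivity: a nonnegative harmonic function on a connected open set which vanishes at a point is zero, Harnack).
Pole at `z₁`: `log ‖(e₀+1/z) - v₁‖ = log ‖z - z₁‖ - log ‖z z₁‖`. `least`: for a competitor `u`, `w = h - u∘φ⁻¹` is harmonic near `v₁`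
(extends), `w ≤ h`, continuous, and `h → 0` at `E`: `w ≤ η'` on `{g = η'}`-type level curves close to `E` (`h` is small
there by uniform continuity), `max_principle_ext`. -/

set_option autoImplicit false

open Complex Metric Set Filter Topology MeasureTheory InnerProductSpace ComplexConjugate

noncomputable section

namespace Pool.Agent.NH

/-- The data of the function `h` in the plane. -/
private structure F2D (E : Set ℂ) (g h : ℂ → ℝ) (v₁ : ℂ) : Prop where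
  gc : Continuous g
  gh : HarmonicOnNhd g Eᶜ
  g0 : ∀ v ∈ E, g v = 0
  gp : ∀ v ∉ E, 0 < g v
  gi : Tendsto g (Bornology.cobounded ℂ) atTop
  v1 : v₁ ∉ E
  hh : ∀ v ∉ E, v ≠ v₁ → HarmonicAt h v
  hc : ∀ v, v ≠ v₁ → ContinuousAt h v
  h0 : ∀ v ∈ E, h v = 0
  hb : ∃ B, ∀ᶠ v in Bornology.cobounded ℂ, |h v| ≤ B
  hp : Tendsto h (𝓝[≠] v₁) atTop

private theorem F2_isCompact_le {g : ℂ → ℝ} (hgc : Continuous g)
    (hgi : Tendsto g (Bornology.cobounded ℂ) atTop) (c : ℝ) : IsCompact {v | g v ≤ c} := by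
  refine Metric.isCompact_of_isClosed_isBounded (isClosed_le hgc continuous_const) ?_
  refine Bornology.isBounded_def.2 (mem_of_superset (hgi.eventually (eventually_gt_atTop c)) ?_)
  intro v hv
  have h1 : c < g v := hv
  exact not_le.2 h1

private theorem F2_ne_atInf (v₁ : ℂ) : ∀ᶠ v in Bornology.cobounded ℂ, v ≠ v₁ := by
  have h1 : ({v₁} : Set ℂ)ᶜ ∈ Bornology.cobounded ℂ :=
    Bornology.isBounded_def.1 Bornology.isBounded_singleton
  exact h1

private theorem F2_gnonneg {E : Set ℂ} {g h : ℂ → ℝ} {v₁ : ℂ} (H : F2D E g h v₁) (v : ℂ) :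
    0 ≤ g v := by
  by_cases hv : v ∈ E
  · exact (H.g0 v hv).ge
  · exact (H.gp v hv).le

/-- `h` is small near `E`. -/
private theorem F2_small {E : Set ℂ} {g h : ℂ → ℝ} {v₁ : ℂ} (H : F2D E g h v₁) {ε δ : ℝ}
    (hε : 0 < ε) (hδ : 0 < δ) :
    ∃ η : ℝ, 0 < η ∧ η < δ ∧ η < g v₁ ∧ ∀ v, g v ≤ η → |h v| < ε := by
  have hg1 : 0 < g v₁ := H.gp v₁ H.v1
  set K₀ : Set ℂ := {v | g v ≤ g v₁ / 2} with hK₀
  have hK₀c : IsCompact K₀ := F2_isCompact_le H.gc H.gi _
  have hne : ∀ v ∈ K₀, v ≠ v₁ := by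
    rintro v hv rfl
    have h1 : g v ≤ g v / 2 := hv
    linarith
  have hcont : ContinuousOn (fun v => |h v|) K₀ := fun v hv =>
    (H.hc v (hne v hv)).abs.continuousWithinAt
  have hKcl : IsClosed (K₀ ∩ (fun v => |h v|) ⁻¹' (Ici ε)) :=
    hcont.preimage_isClosed_of_isClosed hK₀c.isClosed isClosed_Ici
  have hKc : IsCompact (K₀ ∩ (fun v => |h v|) ⁻¹' (Ici ε)) :=
    hK₀c.of_isClosed_subset hKcl inter_subset_left
  rcases (K₀ ∩ (fun v => |h v|) ⁻¹' (Ici ε)).eq_empty_or_nonempty with he | hn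
  · refine ⟨min δ (g v₁) / 2, by positivity, ?_, ?_, fun v hv => ?_⟩
    · have := min_le_left δ (g v₁)
      have h2 : 0 < min δ (g v₁) := lt_min hδ hg1
      linarith
    · have := min_le_right δ (g v₁)
      have h2 : 0 < min δ (g v₁) := lt_min hδ hg1
      linarith
    · by_contra hcon
      rw [not_lt] at hcon
      have h1 : v ∈ K₀ ∩ (fun v => |h v|) ⁻¹' (Ici ε) := by
        refine ⟨?_, hcon⟩
        have := min_le_right δ (g v₁)
        show g v ≤ g v₁ / 2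
        linarith
      rw [he] at h1
      exact h1
  · obtain ⟨x, hx, hmin⟩ := hKc.exists_isMinOn hn H.gc.continuousOn
    have hgx : 0 < g x := by
      refine H.gp x fun hxE => ?_
      have h1 : ε ≤ |h x| := hx.2
      rw [H.h0 x hxE, abs_zero] at h1
      linarith
    refine ⟨min (min δ (g v₁)) (g x) / 2, by positivity, ?_, ?_, fun v hv => ?_⟩
    · have h3 := min_le_left δ (g v₁)
      have h4 := min_le_left (min δ (g v₁)) (g x)
      have h2 : 0 < min (min δ (g v₁)) (g x) := lt_min (lt_min hδ hg1) hgx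
      linarith
    · have h3 := min_le_right δ (g v₁)
      have h4 := min_le_left (min δ (g v₁)) (g x)
      have h2 : 0 < min (min δ (g v₁)) (g x) := lt_min (lt_min hδ hg1) hgx
      linarith
    · by_contra hcon
      rw [not_lt] at hcon
      have h2 : 0 < min (min δ (g v₁)) (g x) := lt_min (lt_min hδ hg1) hgx
      have h3 := min_le_right δ (g v₁)
      have h4 := min_le_left (min δ (g v₁)) (g x)
      have h5 := min_le_right (min δ (g v₁)) (g x)
      have h1 : v ∈ K₀ ∩ (fun v => |h v|) ⁻¹' (Ici ε) := by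
        refine ⟨?_, hcon⟩
        show g v ≤ g v₁ / 2
        linarith
      have h6 : g x ≤ g v := hmin h1
      linarith

private theorem F2_nonneg {E : Set ℂ} {g h : ℂ → ℝ} {v₁ : ℂ} (hE : IsCompact E)
    (H : F2D E g h v₁) {v : ℂ} (hv : v ∉ E) (hv1 : v ≠ v₁) : 0 ≤ h v := by
  obtain ⟨B, hB⟩ := H.hb
  have hpos : ∀ᶠ w in 𝓝[≠] v₁, 0 < h w := H.hp.eventually (eventually_gt_atTop 0)
  rw [eventually_nhdsWithin_iff, Metric.eventually_nhds_iff_ball] at hpos
  obtain ⟨s', hs', hpos⟩ := hpos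
  have hd : 0 < dist v v₁ := dist_pos.2 hv1
  set s : ℝ := min s' (dist v v₁) / 2 with hs
  have hmin : 0 < min s' (dist v v₁) := lt_min hs' hd
  have hs0 : 0 < s := by positivity
  have hss' : s < s' := by
    have := min_le_left s' (dist v v₁)
    linarith
  have hsd : s < dist v v₁ := by
    have := min_le_right s' (dist v v₁)
    linarith
  refine le_of_forall_pos_le_add fun ε hε => ?_
  obtain ⟨η, hη, hηv, hηv₁, hsm⟩ := F2_small H hε (H.gp v hv)
  have hWo : IsOpen ({w | η < g w} ∩ (closedBall v₁ s)ᶜ) :=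
    (isOpen_lt continuous_const H.gc).inter isClosed_closedBall.isOpen_compl
  have hcl : closure ({w | η < g w} ∩ (closedBall v₁ s)ᶜ) ⊆ {w | η ≤ g w} ∩ (ball v₁ s)ᶜ := by
    refine closure_minimal (fun w hw =>
      ⟨(show η ≤ g w from le_of_lt hw.1), fun hw' => hw.2 (ball_subset_closedBall hw')⟩)
      ((isClosed_le continuous_const H.gc).inter isOpen_ball.isClosed_compl)
  have hne : ∀ w ∈ closure ({w | η < g w} ∩ (closedBall v₁ s)ᶜ), w ≠ v₁ := by
    rintro w hw rfl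
    exact (hcl hw).2 (mem_ball_self hs0)
  have hnE : ∀ w, η ≤ g w → w ∉ E := fun w hw hwE => by
    rw [H.g0 w hwE] at hw
    linarith
  have key := max_principle_ext (W := {w | η < g w} ∩ (closedBall v₁ s)ᶜ) hWo (u := fun w => -h w)
    (γ := g) (C := B) (M := ε) ?_ ?_ ?_ ?_ ?_ H.gi ?_ ?_ v ⟨hηv, ?_⟩
  · linarith [key]
  · intro w hw
    exact (H.hc w (hne w hw)).neg.continuousWithinAt
  · intro w hw
    exact (H.hh w (hnE w hw.1.le) (hne w (subset_closure hw))).neg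
  · exact H.gc.continuousOn
  · intro w hw
    exact H.gh w (hnE w hw.1.le)
  · intro w _
    exact F2_gnonneg H w
  · filter_upwards [hB] with w hw _
    exact (neg_le_abs _).trans hw
  · intro w hw
    have hw1 := hcl (frontier_subset_closure hw)
    have hw2 : w ∉ {w | η < g w} ∩ (closedBall v₁ s)ᶜ := by
      rw [hWo.frontier_eq] at hw
      exact hw.2
    by_cases h3 : η < g w
    · have h4 : w ∈ closedBall v₁ s := by
        by_contra h5
        exact hw2 ⟨h3, h5⟩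
      have h6 : w ∈ ball v₁ s' := closedBall_subset_ball hss' h4
      have h7 := hpos w h6 (hne w (frontier_subset_closure hw))
      show -h w ≤ ε
      linarith
    · have h4 := hsm w (not_lt.1 h3)
      have h5 := neg_le_abs (h w)
      show -h w ≤ ε
      linarith
  · intro h3
    exact absurd (mem_closedBall.1 h3) (not_le.2 hsd)

private theorem F2_least {E : Set ℂ} {g h : ℂ → ℝ} {v₁ : ℂ}
    (H : F2D E g h v₁) {w : ℂ → ℝ} (hw : HarmonicOnNhd w Eᶜ)
    (hwh : ∀ v ∉ E, v ≠ v₁ → w v ≤ h v) {v : ℂ} (hv : v ∉ E) : w v ≤ 0 := by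
  obtain ⟨B, hB⟩ := H.hb
  refine le_of_forall_pos_le_add fun ε hε => ?_
  rw [zero_add]
  obtain ⟨η, hη, hηv, hηv₁, hsm⟩ := F2_small H hε (H.gp v hv)
  have hWo : IsOpen {w | η < g w} := isOpen_lt continuous_const H.gc
  have hcl : closure {w | η < g w} ⊆ {w | η ≤ g w} :=
    closure_minimal (fun w hw => (show η ≤ g w from le_of_lt hw))
      (isClosed_le continuous_const H.gc)
  have hnE : ∀ w, η ≤ g w → w ∉ E := fun w hw hwE => by
    rw [H.g0 w hwE] at hw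
    linarith
  refine max_principle_ext (W := {w | η < g w}) hWo (u := w) (γ := g) (C := B) (M := ε)
    ?_ ?_ ?_ ?_ ?_ H.gi ?_ ?_ v hηv
  · intro x hx
    exact (hw x (hnE x (hcl hx))).1.continuousAt.continuousWithinAt
  · intro x hx
    exact hw x (hnE x (le_of_lt hx))
  · exact H.gc.continuousOn
  · intro x hx
    exact H.gh x (hnE x (le_of_lt hx))
  · intro x _
    exact F2_gnonneg H x
  · filter_upwards [hB, F2_ne_atInf v₁] with x hx hx1 hxW
    exact (hwh x (hnE x (le_of_lt hxW)) hx1).trans ((le_abs_self _).trans hx)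
  · intro x hx
    have hx1 : η ≤ g x := hcl (frontier_subset_closure hx)
    have hx2 : ¬ η < g x := by
      rw [hWo.frontier_eq] at hx
      exact hx.2
    have hx3 : x ≠ v₁ := by
      rintro rfl
      exact hx2 hηv₁
    have h4 := hsm x (not_lt.1 hx2)
    have h5 := le_abs_self (h x)
    have h6 := hwh x (hnE x hx1) hx3
    linarith

/-- Strict positivity. -/
private theorem F2_pos {Ω : Set ℂ} (hΩ : IsOpen Ω) (hc : IsPreconnected Ω) {z₁ : ℂ}
    (hz : z₁ ∈ Ω) {G : ℂ → ℝ} (hG : HarmonicOnNhd G (Ω \ {z₁})) (h0 : ∀ z ∈ Ω \ {z₁}, 0 ≤ G z)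
    (hp : ∀ᶠ z in 𝓝[≠] z₁, 0 < G z) : ∀ z ∈ Ω \ {z₁}, 0 < G z := by
  by_contra hcon
  push Not at hcon
  obtain ⟨z₂, hz₂, hz₂'⟩ := hcon
  have hz₂0 : G z₂ = 0 := le_antisymm hz₂' (h0 z₂ hz₂)
  have hU : IsOpen (Ω \ {z₁}) := hΩ.sdiff isClosed_singleton
  have hZ : IsOpen {z | z ∈ Ω \ {z₁} ∧ G z = 0} := by
    rw [Metric.isOpen_iff]
    rintro z ⟨hz, hz0⟩
    obtain ⟨R, hR, hb⟩ := Metric.isOpen_iff.1 hU z hz
    refine ⟨R, hR, fun w hw => ⟨hb hw, ?_⟩⟩
    have hd : dist w z < R := hw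
    have h1 := (harnack_ball (c := z) (r := dist w z) (R := R) dist_nonneg hd
      (hG.mono hb) (fun x hx => h0 x (hb hx)) (z := w) (mem_closedBall.2 le_rfl)).2
    rw [hz0, mul_zero] at h1
    exact le_antisymm h1 (h0 w (hb hw))
  have hV : IsOpen {z | z = z₁ ∨ (z ∈ Ω \ {z₁} ∧ 0 < G z)} := by
    rw [isOpen_iff_mem_nhds]
    rintro z (hzz | ⟨hz', hpos⟩)
    · rw [hzz]
      have h1 : ∀ᶠ w in 𝓝[≠] z₁, 0 < G w ∧ w ∈ Ω :=
        hp.and (nhdsWithin_le_nhds (hΩ.mem_nhds hz))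
      rw [eventually_nhdsWithin_iff] at h1
      filter_upwards [h1] with w hw
      by_cases hwz : w = z₁
      · exact Or.inl hwz
      · exact Or.inr ⟨⟨(hw hwz).2, hwz⟩, (hw hwz).1⟩
    · have h1 : ∀ᶠ w in 𝓝 z, 0 < G w :=
        (hG z hz').1.continuousAt.eventually (lt_mem_nhds hpos)
      filter_upwards [h1, hU.mem_nhds hz'] with w hw hw'
      exact Or.inr ⟨hw', hw⟩
  obtain ⟨x, -, hx1, hx2⟩ := hc _ _ hZ hV (fun z hz' => by
    by_cases hzz : z = z₁
    · exact Or.inr (Or.inl hzz)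
    · have h1 := h0 z ⟨hz', hzz⟩
      rcases h1.eq_or_lt with h2 | h2
      · exact Or.inl ⟨⟨hz', hzz⟩, h2.symm⟩
      · exact Or.inr (Or.inr ⟨⟨hz', hzz⟩, h2⟩)) ⟨z₂, hz₂.1, hz₂, hz₂0⟩ ⟨z₁, hz, Or.inl rfl⟩
  rcases hx2 with h2 | ⟨_, h2⟩
  · exact hx1.1.2 h2
  · exact absurd hx1.2 h2.ne'

/-- Existence of `h`. -/
private theorem F2_exists {E : Set ℂ} {g : ℂ → ℝ} (hE : IsCompact E) (hgc : Continuous g)
    (hgh : HarmonicOnNhd g Eᶜ) (hg0 : ∀ v ∈ E, g v = 0) (hgp : ∀ v ∉ E, 0 < g v)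
    (hgC : ∃ C : ℝ, ∀ v, G0 v ≤ g v ∧ g v ≤ G0 v + C) {v₁ : ℂ} (hv₁ : v₁ ∉ E) :
    ∃ q : ℂ → ℝ, HarmonicOnNhd q Eᶜ ∧ F2D E g (fun v => q v - Real.log ‖v - v₁‖) v₁ := by
  obtain ⟨C₀, hC₀⟩ := hgC
  have hgi : Tendsto g (Bornology.cobounded ℂ) atTop :=
    tendsto_atTop_mono (fun v => (hC₀ v).1) tendsto_G0
  have hg1 : 0 < g v₁ := hgp v₁ hv₁
  set η : ℝ := g v₁ / 2 with hη
  have hη0 : 0 < η := by positivity
  set p : ℂ → ℝ := fun v => Real.log ‖v - v₁‖ with hp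
  have hph : ∀ v, v ≠ v₁ → HarmonicAt p v := by
    intro v hv
    exact AnalyticAt.harmonicAt_log_norm (f := fun w : ℂ => w - v₁)
      (analyticAt_id.sub analyticAt_const) (sub_ne_zero.2 hv)
  have hne : ∀ v, g v ≤ η → v ≠ v₁ := by
    rintro v hv rfl
    linarith
  obtain ⟨P, hP⟩ := (F2_isCompact_le hgc hgi η).exists_bound_of_continuousOn (f := p)
    (fun v hv => (hph v (hne v hv)).1.continuousAt.continuousWithinAt)
  set M : ℝ := max P 0 with hM
  have hM0 : 0 ≤ M := le_max_right _ _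
  have hPM : ∀ v, g v ≤ η → |p v| ≤ M := fun v hv => (hP v hv).trans (le_max_left _ _)
  obtain ⟨e, he, hep, -⟩ := exists_e hE hgc hgh hg0 hgp hgi (p := p) (η := η) (M := M)
    (C := 4 * M / η) hη0 hM0 (by positivity) (fun v hv => hph v (hne v (le_of_lt hv)))
    (fun v hv => hPM v (by rw [hg0 v hv]; exact hη0.le)) (fun v h1 h2 => by
      have h3 := hPM v h2.le
      have h4 : 4 * M / η * (η / 2) ≤ 4 * M / η * g v :=
        mul_le_mul_of_nonneg_left h1 (by positivity)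
      have h5 : 4 * M / η * (η / 2) = 2 * M := by
        field_simp
        ring
      linarith)
  refine ⟨fun v => g v + e v, fun v hv => (hgh v hv).add (he.harm v hv), ?_⟩
  refine ⟨hgc, hgh, hg0, hgp, hgi, hv₁, ?_, ?_, ?_, ?_, ?_⟩
  · intro v hv hv1
    exact ((hgh v hv).add (he.harm v hv)).sub (hph v hv1)
  · intro v hv1
    exact (hgc.continuousAt.add he.cont.continuousAt).sub (hph v hv1).1.continuousAt
  · intro v hv
    show g v + e v - p v = 0
    rw [hg0 v hv, hep v hv, zero_add, sub_self]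
  · refine ⟨M + (Real.log 8 + |C₀|), ?_⟩
    filter_upwards [eventually_cobounded_le_norm (2 * ‖v₁‖ + 1)] with v hv
    have hn0 : 0 ≤ ‖v₁‖ := norm_nonneg _
    have h1 : ‖v‖ ≤ ‖v - v₁‖ + ‖v₁‖ := by
      have := norm_add_le (v - v₁) v₁
      rwa [sub_add_cancel] at this
    have h2 : ‖v - v₁‖ ≤ ‖v‖ + ‖v₁‖ := norm_sub_le _ _
    have hv0 : v ≠ 0 := by
      rintro rfl
      rw [norm_zero] at hv
      linarith
    have hvp : 0 < ‖v‖ := by linarith
    have hvp1 : 0 < ‖v - v₁‖ := by linarith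
    have h3 : Real.log ‖v‖ ≤ g v := (log_norm_le_G0 hv0).trans (hC₀ v).1
    have h4 : g v ≤ Real.log (8 * ‖v - v₁‖) + C₀ := by
      refine (hC₀ v).2.trans (add_le_add_left ((G0_le_log v).trans ?_) _)
      refine Real.log_le_log (by positivity) ?_
      linarith
    rw [Real.log_mul (by norm_num) hvp1.ne'] at h4
    have h5 : p v ≤ Real.log 2 + Real.log ‖v‖ := by
      rw [← Real.log_mul (by norm_num) hvp.ne']
      refine Real.log_le_log hvp1 ?_
      linarith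
    have h6 : Real.log 2 ≤ Real.log 8 := Real.log_le_log (by norm_num) (by norm_num)
    have h7 := abs_le.1 (he.bdd v)
    have h8 := le_abs_self C₀
    have h9 := abs_nonneg C₀
    have h10 : p v = Real.log ‖v - v₁‖ := rfl
    show |g v + e v - p v| ≤ _
    rw [abs_le]
    constructor
    · linarith
    · linarith
  · have h1 : Tendsto (fun v => g v + e v) (𝓝[≠] v₁) (𝓝 (g v₁ + e v₁)) :=
      ((hgc.add he.cont).tendsto v₁).mono_left nhdsWithin_le_nhds
    have h2 : Tendsto (fun v => -p v) (𝓝[≠] v₁) atTop := by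
      refine tendsto_neg_atBot_atTop.comp ?_
      exact Real.tendsto_log_nhdsGT_zero.comp (tendsto_norm_sub_self_nhdsNE v₁)
    refine (h1.add_atTop h2).congr fun v => ?_
    show g v + e v + -p v = g v + e v - p v
    rw [sub_eq_add_neg]

theorem exists_isGreen {E : Set ℂ} {e₀ : ℂ} {g : ℂ → ℝ} (hE : IsCompact E) (hEs : E ⊆ seg)
    (h0 : e₀ ∈ E) (hgc : Continuous g)
    (hgh : HarmonicOnNhd g Eᶜ) (hg0 : ∀ v ∈ E, g v = 0) (hgp : ∀ v ∉ E, 0 < g v)
    (hgC : ∃ C : ℝ, ∀ v, G0 v ≤ g v ∧ g v ≤ G0 v + C) {z₁ : ℂ} (hz : z₁ ∈ Om E e₀) :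
    ∃ G : ℂ → ℝ, IsGreen (Om E e₀) z₁ G := by
  classical
  by_cases hz0 : z₁ = 0
  · subst hz0
    exact ⟨_, isGreen_zero hE hEs h0 hgc hgh hg0 hgp hgC⟩
  have hv₁ : e₀ + 1 / z₁ ∉ E := by
    rcases hz with h1 | h1
    · exact absurd h1 hz0
    · exact h1
  obtain ⟨q, hq, H⟩ := F2_exists hE hgc hgh hg0 hgp hgC hv₁
  set v₁ : ℂ := e₀ + 1 / z₁ with hv₁def
  set h : ℂ → ℝ := fun v => q v - Real.log ‖v - v₁‖ with hh
  -- the maps
  have hφan : ∀ z : ℂ, z ≠ 0 → AnalyticAt ℂ (fun z : ℂ => e₀ + 1 / z) z := fun z hz' =>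
    analyticAt_const.add (analyticAt_const.div analyticAt_id hz')
  have hψan : ∀ v : ℂ, v ≠ e₀ → AnalyticAt ℂ (fun v : ℂ => 1 / (v - e₀)) v := fun v hv =>
    analyticAt_const.div (analyticAt_id.sub analyticAt_const) (sub_ne_zero.2 hv)
  have hψφ : ∀ z : ℂ, 1 / (e₀ + 1 / z - e₀) = z := fun z => by
    rw [add_sub_cancel_left, one_div_one_div]
  have hφψ : ∀ v : ℂ, e₀ + 1 / (1 / (v - e₀)) = v := fun v => by
    rw [one_div_one_div, add_sub_cancel]
  have hφinj : ∀ z w : ℂ, e₀ + 1 / z = e₀ + 1 / w → z = w := fun z w hzw => by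
    rw [← hψφ z, hzw, hψφ]
  have hv₁e : v₁ ≠ e₀ := fun h1 => hv₁ (h1 ▸ h0)
  have hφ0 : Tendsto (fun z : ℂ => e₀ + 1 / z) (𝓝[≠] 0) (Bornology.cobounded ℂ) := by
    refine ((tendsto_const_add_cobounded e₀).comp tendsto_inv₀_nhdsNE_zero).congr fun z => ?_
    show e₀ + z⁻¹ = e₀ + 1 / z
    rw [one_div]
  obtain ⟨B, hB⟩ := H.hb
  -- near zero
  have hnear : ∀ᶠ z in 𝓝[≠] (0 : ℂ), e₀ + 1 / z ∉ E ∧ e₀ + 1 / z ≠ v₁ ∧ |h (e₀ + 1 / z)| ≤ B := by
    have h1 : ∀ᶠ v in Bornology.cobounded ℂ, v ∉ E := Bornology.isBounded_def.1 hE.isBounded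
    exact hφ0.eventually (h1.and ((F2_ne_atInf v₁).and hB))
  rw [eventually_nhdsWithin_iff, Metric.eventually_nhds_iff_ball] at hnear
  obtain ⟨R, hR, hnear⟩ := hnear
  have hharm : ∀ z : ℂ, z ≠ 0 → e₀ + 1 / z ∉ E → e₀ + 1 / z ≠ v₁ →
      HarmonicAt (fun z => h (e₀ + 1 / z)) z := fun z hz1 hz2 hz3 =>
    harmonicAt_comp (φ := fun z : ℂ => e₀ + 1 / z) (H.hh _ hz2 hz3) (hφan z hz1)
  obtain ⟨k, hk, hkeq⟩ := exists_extension (c := 0) (R := R) (C := B) hR
    (u := fun z => h (e₀ + 1 / z))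
    (fun z hz' => hharm z hz'.2 (hnear z hz'.1 hz'.2).1 (hnear z hz'.1 hz'.2).2.1)
    (fun z hz' => (hnear z hz'.1 hz'.2).2.2)
  -- the Green function
  set G : ℂ → ℝ := fun z => if z = 0 then k 0 else h (e₀ + 1 / z) with hG
  have hGne : ∀ z : ℂ, z ≠ 0 → G z = h (e₀ + 1 / z) := fun z hz' => if_neg hz'
  have hG0 : G =ᶠ[𝓝 0] k := by
    filter_upwards [ball_mem_nhds (0 : ℂ) hR] with z hz'
    by_cases h1 : z = 0
    · rw [h1]
      exact if_pos rfl
    · rw [hGne z h1]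
      exact (hkeq z ⟨hz', h1⟩).symm
  have hG1 : ∀ z : ℂ, z ≠ 0 → G =ᶠ[𝓝 z] fun z => h (e₀ + 1 / z) := fun z hz' => by
    filter_upwards [isOpen_ne.mem_nhds hz'] with w hw
    exact hGne w hw
  have hGharm : HarmonicOnNhd G (Om E e₀ \ {z₁}) := by
    rintro z ⟨hzO, hz1⟩
    by_cases hz2 : z = 0
    · rw [hz2]
      exact (harmonicAt_congr_nhds hG0).2 (hk 0 (mem_ball_self hR))
    · refine (harmonicAt_congr_nhds (hG1 z hz2)).2 (hharm z hz2 ?_ ?_)
      · rcases hzO with h1 | h1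
        · exact absurd h1 hz2
        · exact h1
      · exact fun h1 => hz1 (hφinj z z₁ h1)
  have hOm : IsOpen (Om E e₀) := isOpen_Om hE
  have hpunct : ∀ z ∈ Om E e₀ \ {z₁}, z ≠ 0 → e₀ + 1 / z ∉ E ∧ e₀ + 1 / z ≠ v₁ := by
    rintro z ⟨hzO, hz1⟩ hz2
    refine ⟨?_, fun h1 => hz1 (hφinj z z₁ h1)⟩
    rcases hzO with h1 | h1
    · exact absurd h1 hz2
    · exact h1
  have h0mem : (0 : ℂ) ∈ Om E e₀ \ {z₁} := ⟨Or.inl rfl, fun h1 => hz0 h1.symm⟩
  have hlim : ∀ u : ℂ → ℝ, HarmonicAt u 0 → (∀ z ∈ Om E e₀ \ {z₁}, z ≠ 0 → 0 ≤ u z) →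
      0 ≤ u 0 := by
    intro u hu hu0
    refine ge_of_tendsto (hu.1.continuousAt.mono_left (nhdsWithin_le_nhds (s := {0}ᶜ))) ?_
    rw [eventually_nhdsWithin_iff]
    filter_upwards [(hOm.sdiff isClosed_singleton).mem_nhds h0mem] with z hz1 hz2
    exact hu0 z hz1 hz2
  have hGnn : ∀ z ∈ Om E e₀ \ {z₁}, 0 ≤ G z := by
    have h1 : ∀ z ∈ Om E e₀ \ {z₁}, z ≠ 0 → 0 ≤ G z := fun z hz1 hz2 => by
      rw [hGne z hz2]
      exact F2_nonneg hE H (hpunct z hz1 hz2).1 (hpunct z hz1 hz2).2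
    intro z hz1
    by_cases hz2 : z = 0
    · rw [hz2]
      exact hlim G (hGharm 0 h0mem) h1
    · exact h1 z hz1 hz2
  -- the pole
  have hpoleeq : ∀ z : ℂ, z ≠ 0 → z ≠ z₁ →
      h (e₀ + 1 / z) + Real.log ‖z - z₁‖ = q (e₀ + 1 / z) + Real.log ‖z * z₁‖ := by
    intro z hz1 hz2
    have h1 : e₀ + 1 / z - v₁ = (z₁ - z) / (z * z₁) := by
      rw [hv₁def]
      field_simp
      ring
    show q (e₀ + 1 / z) - Real.log ‖e₀ + 1 / z - v₁‖ + Real.log ‖z - z₁‖ = _
    rw [h1, norm_div, Real.log_div, norm_sub_rev z₁ z]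
    · ring
    · exact norm_ne_zero_iff.2 (sub_ne_zero.2 hz2.symm)
    · exact norm_ne_zero_iff.2 (mul_ne_zero hz1 hz0)
  have hQ : HarmonicAt (fun z : ℂ => q (e₀ + 1 / z) + Real.log ‖z * z₁‖) z₁ := by
    refine HarmonicAt.add ?_ ?_
    · exact harmonicAt_comp (φ := fun z : ℂ => e₀ + 1 / z) (hq _ hv₁) (hφan z₁ hz0)
    · exact AnalyticAt.harmonicAt_log_norm (f := fun w : ℂ => w * z₁)
        (analyticAt_id.mul analyticAt_const) (mul_ne_zero hz0 hz0)
  have hpole : ∀ᶠ z in 𝓝[≠] z₁, G z + Real.log ‖z - z₁‖ = q (e₀ + 1 / z) + Real.log ‖z * z₁‖ := by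
    rw [eventually_nhdsWithin_iff]
    filter_upwards [isOpen_ne.mem_nhds hz0] with z hz1 hz2
    rw [hGne z hz1]
    exact hpoleeq z hz1 hz2
  have hGpos : ∀ z ∈ Om E e₀ \ {z₁}, 0 < G z := by
    refine F2_pos hOm (isConnected_Om hE hEs h0).isPreconnected hz hGharm hGnn ?_
    have h1 : Tendsto (fun z : ℂ => e₀ + 1 / z) (𝓝[≠] z₁) (𝓝[≠] v₁) := by
      refine tendsto_nhdsWithin_iff.2 ⟨?_, ?_⟩
      · exact (hφan z₁ hz0).continuousAt.mono_left nhdsWithin_le_nhds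
      · rw [eventually_nhdsWithin_iff]
        exact Eventually.of_forall fun z hz1 hz2 => hz1 (hφinj z z₁ hz2)
    have h2 : ∀ᶠ z in 𝓝[≠] z₁, 0 < h (e₀ + 1 / z) :=
      (H.hp.comp h1).eventually (eventually_gt_atTop 0)
    have h3 : ∀ᶠ z in 𝓝[≠] z₁, z ≠ 0 := nhdsWithin_le_nhds (isOpen_ne.mem_nhds hz0)
    filter_upwards [h2, h3] with z hz1 hz2
    rw [hGne z hz2]
    exact hz1
  refine ⟨G, hGharm, hGpos, ⟨_, hQ, hpole⟩, ?_⟩
  rintro u hu hu0 ⟨Hu, hHu, hHueq⟩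
  -- comparison away from zero
  have key : ∀ z ∈ Om E e₀ \ {z₁}, z ≠ 0 → G z ≤ u z := by
    set w : ℂ → ℝ := fun v => if v = v₁ then q v₁ + Real.log ‖z₁ * z₁‖ - Hu z₁ else
      h v - u (1 / (v - e₀)) with hw
    have hψv₁ : 1 / (v₁ - e₀) = z₁ := hψφ z₁
    have hmem : ∀ v : ℂ, v ∉ E → v ≠ v₁ → 1 / (v - e₀) ∈ Om E e₀ \ {z₁} := by
      intro v hv hv1
      refine ⟨Or.inr ?_, fun h1 => hv1 ?_⟩
      · rw [hφψ]
        exact hv
      · have h2 : 1 / (v - e₀) = z₁ := h1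
        rw [hv₁def, ← h2, hφψ]
    have hwh : HarmonicOnNhd w Eᶜ := by
      intro v hv
      have hve : v ≠ e₀ := fun h1 => hv (h1 ▸ h0)
      by_cases hv1 : v = v₁
      · have h1 : w =ᶠ[𝓝 v₁] fun v => (fun z : ℂ => q (e₀ + 1 / z) + Real.log ‖z * z₁‖ - Hu z)
            (1 / (v - e₀)) := by
          have h2 : ∀ᶠ v in 𝓝 v₁, v ≠ v₁ →
              u (1 / (v - e₀)) + Real.log ‖1 / (v - e₀) - z₁‖ = Hu (1 / (v - e₀)) := by
            rw [eventually_nhdsWithin_iff] at hHueq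
            have h3 : Tendsto (fun v : ℂ => 1 / (v - e₀)) (𝓝 v₁) (𝓝 z₁) := by
              have := (hψan v₁ hv₁e).continuousAt
              rwa [ContinuousAt, hψv₁] at this
            filter_upwards [h3.eventually hHueq] with v hv2 hv3
            refine hv2 fun h4 => hv3 ?_
            have h5 : 1 / (v - e₀) = z₁ := h4
            rw [hv₁def, ← h5, hφψ]
          filter_upwards [h2, isOpen_ne.mem_nhds hv₁e] with v hv2 hv3
          by_cases hv4 : v = v₁
          · rw [hw]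
            simp only [hv4, if_true, hψv₁]
            rfl
          · have h5 := hv2 hv4
            have h6 : 1 / (v - e₀) ≠ 0 := one_div_ne_zero (sub_ne_zero.2 hv3)
            have h7 : 1 / (v - e₀) ≠ z₁ := fun h7 => hv4 (by rw [hv₁def, ← h7, hφψ])
            have h8 := hpoleeq _ h6 h7
            rw [hφψ] at h8
            show w v = q (e₀ + 1 / (1 / (v - e₀))) + Real.log ‖1 / (v - e₀) * z₁‖ -
              Hu (1 / (v - e₀))
            rw [hφψ, ← h8, ← h5]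
            have h9 : w v = h v - u (1 / (v - e₀)) := if_neg hv4
            rw [h9]
            ring
        rw [hv1]
        refine (harmonicAt_congr_nhds h1).2 ?_
        refine harmonicAt_comp (u := fun z : ℂ => q (e₀ + 1 / z) + Real.log ‖z * z₁‖ - Hu z)
          (φ := fun v : ℂ => 1 / (v - e₀)) ?_ (hψan v₁ hv₁e)
        show HarmonicAt _ (1 / (v₁ - e₀))
        rw [hψv₁]
        exact hQ.sub hHu
      · have h1 : w =ᶠ[𝓝 v] fun v => h v - (fun v => u (1 / (v - e₀))) v := by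
          filter_upwards [isOpen_ne.mem_nhds hv1] with x hx
          exact if_neg hx
        refine (harmonicAt_congr_nhds h1).2 ?_
        refine (H.hh v hv hv1).sub ?_
        exact harmonicAt_comp (φ := fun v : ℂ => 1 / (v - e₀)) (hu _ (hmem v hv hv1)) (hψan v hve)
    have hwle : ∀ v ∉ E, v ≠ v₁ → w v ≤ h v := by
      intro v hv hv1
      have h1 : w v = h v - u (1 / (v - e₀)) := if_neg hv1
      have h2 := hu0 _ (hmem v hv hv1)
      linarith
    intro z hz1 hz2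
    have h1 := F2_least H hwh hwle (hpunct z hz1 hz2).1
    have h2 : w (e₀ + 1 / z) = h (e₀ + 1 / z) - u (1 / (e₀ + 1 / z - e₀)) :=
      if_neg (hpunct z hz1 hz2).2
    rw [h2, hψφ] at h1
    rw [hGne z hz2]
    linarith
  intro z hz1
  by_cases hz2 : z = 0
  · rw [hz2]
    have h1 := hlim (fun z => u z - G z) ((hu 0 h0mem).sub (hGharm 0 h0mem))
      (fun z hz3 hz4 => sub_nonneg.2 (key z hz3 hz4))
    exact sub_nonneg.1 h1
  · exact key z hz1 hz2

end Pool.Agent.NH
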