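import Pool.Agent.Lib.MP_00644e_an.Defs
import Pool.Agent.Lib.MP_00644e_an.T3
/-! # Row T4: Harnack's inequality on compact sets

PROOF. Fix `x₀ ∈ U` (if `U` is empty nothing to do). Let `S = {x ∈ U | ∃ A > 0, ∀ u positive harmonic on U, u x ≤ A u x₀ ∧ u x₀ ≤ A u x}`.
`x₀ ∈ S`; by `harnack_ball` `S` and `U \ S` are open; `U` preconnected gives `S = U`. By `harnack_ball` again every
`x ∈ U` has a neighbourhood with a uniform `A`; compactness of `C`; then `u x ≤ A u x₀ ≤ A² u y`. -/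

set_option autoImplicit false

open Complex Metric Set Filter Topology MeasureTheory InnerProductSpace ComplexConjugate

noncomputable section

namespace Pool.Agent.NH

private theorem loc3 {U : Set ℂ} (hU : IsOpen U) {x : ℂ} (hx : x ∈ U) :
    ∃ r : ℝ, 0 < r ∧ ∀ z ∈ ball x r, ∀ u : ℂ → ℝ, HarmonicOnNhd u U → (∀ z ∈ U, 0 < u z) →
      u z ≤ 3 * u x ∧ u x ≤ 3 * u z := by
  obtain ⟨R, hR, hRU⟩ := Metric.isOpen_iff.1 hU x hx
  refine ⟨R / 2, by positivity, ?_⟩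
  intro z hz u hu hp
  have h := harnack_ball (c := x) (r := R / 2) (R := R) (by positivity) (by linarith)
    (fun w hw => hu w (hRU hw)) (fun w hw => (hp w (hRU hw)).le) (z := z)
    (ball_subset_closedBall hz)
  obtain ⟨h1, h2⟩ := h
  have e1 : (R - R / 2) / (R + R / 2) = 1 / 3 := by
    rw [div_eq_div_iff (by positivity) (by norm_num)]
    ring
  have e2 : (R + R / 2) / (R - R / 2) = 3 := by
    rw [div_eq_iff (by linarith)]
    ring
  rw [e1] at h1
  rw [e2] at h2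
  exact ⟨h2, by linarith⟩

private theorem cmp_all {U : Set ℂ} (hU : IsOpen U) (hc : IsPreconnected U) {x y : ℂ}
    (hx : x ∈ U) (hy : y ∈ U) :
    ∃ A : ℝ, 0 < A ∧ ∀ u : ℂ → ℝ, HarmonicOnNhd u U → (∀ z ∈ U, 0 < u z) → u x ≤ A * u y := by
  refine hc.induction₂' (P := fun x y => ∃ A : ℝ, 0 < A ∧ ∀ u : ℂ → ℝ, HarmonicOnNhd u U →
    (∀ z ∈ U, 0 < u z) → u x ≤ A * u y) ?_ ?_ hx hy
  · intro a ha
    obtain ⟨r, hr, h⟩ := loc3 hU ha
    refine mem_nhdsWithin_of_mem_nhds ?_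
    filter_upwards [ball_mem_nhds a hr] with z hz
    exact ⟨⟨3, by norm_num, fun u hu hp => (h z hz u hu hp).2⟩,
      ⟨3, by norm_num, fun u hu hp => (h z hz u hu hp).1⟩⟩
  · rintro a b c ha hb hcc ⟨A, hA, h1⟩ ⟨B, hB, h2⟩
    refine ⟨A * B, by positivity, fun u hu hp => ?_⟩
    calc u a ≤ A * u b := h1 u hu hp
      _ ≤ A * (B * u c) := mul_le_mul_of_nonneg_left (h2 u hu hp) hA.le
      _ = A * B * u c := by ring

theorem harnack_compact {U : Set ℂ} (hU : IsOpen U) (hc : IsPreconnected U) {C : Set ℂ}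
    (hC : IsCompact C) (hCU : C ⊆ U) :
    ∃ A : ℝ, 0 < A ∧ ∀ u : ℂ → ℝ, HarmonicOnNhd u U → (∀ z ∈ U, 0 < u z) →
      ∀ x ∈ C, ∀ y ∈ C, u x ≤ A * u y := by
  rcases U.eq_empty_or_nonempty with hE | ⟨x₀, hx₀⟩
  · refine ⟨1, one_pos, ?_⟩
    intro u _ _ x hx
    have := hCU hx
    rw [hE] at this
    exact absurd this (Set.notMem_empty x)
  have key : ∃ A : ℝ, 0 < A ∧ ∀ u : ℂ → ℝ, HarmonicOnNhd u U → (∀ z ∈ U, 0 < u z) →
      ∀ x ∈ C, u x ≤ A * u x₀ ∧ u x₀ ≤ A * u x := by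
    refine hC.induction_on (p := fun s => ∃ A : ℝ, 0 < A ∧ ∀ u : ℂ → ℝ, HarmonicOnNhd u U →
      (∀ z ∈ U, 0 < u z) → ∀ x ∈ s ∩ U, u x ≤ A * u x₀ ∧ u x₀ ≤ A * u x) ?_ ?_ ?_ ?_ |>.imp ?_
    · exact ⟨1, one_pos, fun u _ _ x hx => absurd hx.1 (Set.notMem_empty x)⟩
    · rintro s t hst ⟨A, hA, h⟩
      exact ⟨A, hA, fun u hu hp x hx => h u hu hp x ⟨hst hx.1, hx.2⟩⟩
    · rintro s t ⟨A, hA, h⟩ ⟨B, hB, h'⟩
      refine ⟨max A B, lt_max_of_lt_left hA, fun u hu hp x hx => ?_⟩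
      have hux : 0 ≤ u x := (hp x hx.2).le
      have hu0 : 0 ≤ u x₀ := (hp x₀ hx₀).le
      rcases hx.1 with hs | ht
      · obtain ⟨a, b⟩ := h u hu hp x ⟨hs, hx.2⟩
        exact ⟨a.trans (mul_le_mul_of_nonneg_right (le_max_left _ _) hu0),
          b.trans (mul_le_mul_of_nonneg_right (le_max_left _ _) hux)⟩
      · obtain ⟨a, b⟩ := h' u hu hp x ⟨ht, hx.2⟩
        exact ⟨a.trans (mul_le_mul_of_nonneg_right (le_max_right _ _) hu0),
          b.trans (mul_le_mul_of_nonneg_right (le_max_right _ _) hux)⟩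
    · intro x hx
      have hxU := hCU hx
      obtain ⟨r, hr, h⟩ := loc3 hU hxU
      obtain ⟨A, hA, h1⟩ := cmp_all hU hc hxU hx₀
      obtain ⟨B, hB, h2⟩ := cmp_all hU hc hx₀ hxU
      refine ⟨ball x r, mem_nhdsWithin_of_mem_nhds (ball_mem_nhds x hr), 3 * max A B,
        by positivity, ?_⟩
      intro u hu hp z hz
      obtain ⟨a, b⟩ := h z hz.1 u hu hp
      have a1 := h1 u hu hp
      have a2 := h2 u hu hp
      have hux : 0 ≤ u x := (hp x hxU).le
      have hu0 : 0 ≤ u x₀ := (hp x₀ hx₀).le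
      have m1 : A * u x₀ ≤ max A B * u x₀ := mul_le_mul_of_nonneg_right (le_max_left _ _) hu0
      have m2 : B * u x ≤ max A B * u x := mul_le_mul_of_nonneg_right (le_max_right _ _) hux
      have hM : 0 ≤ max A B := hA.le.trans (le_max_left _ _)
      constructor
      · calc u z ≤ 3 * u x := a
          _ ≤ 3 * (max A B * u x₀) := by linarith
          _ = 3 * max A B * u x₀ := by ring
      · calc u x₀ ≤ max A B * u x := a2.trans m2
          _ ≤ max A B * (3 * u z) := mul_le_mul_of_nonneg_left b hM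
          _ = 3 * max A B * u z := by ring
    · rintro A ⟨hA, h⟩
      exact ⟨hA, fun u hu hp x hx => h u hu hp x ⟨hx, hCU hx⟩⟩
  obtain ⟨A, hA, h⟩ := key
  refine ⟨A * A, by positivity, fun u hu hp x hx y hy => ?_⟩
  calc u x ≤ A * u x₀ := (h u hu hp x hx).1
    _ ≤ A * (A * u y) := mul_le_mul_of_nonneg_left (h u hu hp y hy).2 hA.le
    _ = A * A * u y := by ring

end Pool.Agent.NH
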