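import Pool.Agent.Lib.MP_00644e_an.Defs
import Pool.Agent.Lib.MP_00644e_an.FD
import Pool.Agent.Lib.MP_00644e_an.T4
import Pool.Agent.Lib.MP_00644e_an.T6
/-! # Row F3: Martin kernels are positive harmonic functions

PROOF. `u n w = G n w / G n w₀`, positive harmonic on `Ω \ {z n}` (`w₀ ≠ z n` eventually: the compact set `{w₀}`).
Let `closedBall c R ⊆ Ω`: eventually `z n` is outside, so `u n` is positive harmonic on `ball c R`; `u n c → K c` is bounded; by Harnack `u n` is bounded on
`ball c (3R/4)`, by `norm_fderiv_le` uniformly Lipschitz on `closedBall c (R/2)`, hence the pointwise convergence is uniform there;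
`harmonicOnNhd_of_tendstoLocallyUniformlyOn` (shift the sequence; work on the ball). `K ≥ 0`, `K w₀ = 1`. Positivity: the set
`{w ∈ Ω | K w = 0}` is closed in `Ω`, and open by Harnack; `Ω` is connected. -/

set_option autoImplicit false

open Complex Metric Set Filter Topology MeasureTheory InnerProductSpace ComplexConjugate

noncomputable section

namespace Pool.Agent.NH

private theorem F3_lip {c : ℂ} {R M : ℝ} (hR : 0 < R) {u : ℂ → ℝ}
    (hu : HarmonicOnNhd u (ball c R)) (hM : ∀ z ∈ ball c (3 * R / 4), |u z| ≤ M) :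
    ∀ x ∈ ball c (R / 2), ∀ y ∈ ball c (R / 2), |u x - u y| ≤ 32 * M / R * ‖x - y‖ := by
  intro x hx y hy
  have hd : ∀ w ∈ ball c (R / 2), DifferentiableAt ℝ u w := fun w hw =>
    ((hu w (ball_subset_ball (by linarith) hw)).1.differentiableAt (by norm_num))
  have hb : ∀ w ∈ ball c (R / 2), ‖fderiv ℝ u w‖ ≤ 32 * M / R := by
    intro w hw
    have hw' : dist w c < R / 2 := hw
    have hsub : ball w (R / 4) ⊆ ball c (3 * R / 4) := by
      intro v hv
      rw [mem_ball] at hv ⊢
      calc dist v c ≤ dist v w + dist w c := dist_triangle _ _ _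
        _ < R / 4 + R / 2 := add_lt_add hv hw'
        _ = 3 * R / 4 := by ring
    have h1 := norm_fderiv_le (c := w) (R := R / 4) (M := M) (by linarith)
      (fun v hv => hu v (ball_subset_ball (by linarith) (hsub hv)))
      (fun v hv => hM v (hsub hv))
    have h2 : 8 * M / (R / 4) = 32 * M / R := by field_simp; ring
    rw [h2] at h1
    exact h1
  have := (convex_ball c (R / 2)).norm_image_sub_le_of_norm_fderiv_le (𝕜 := ℝ) (f := u)
    (C := 32 * M / R) hd hb hy hx
  rwa [Real.norm_eq_abs] at this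

theorem IsMartinKernel.harmonic {Ω : Set ℂ} (hΩ : IsOpen Ω) (hc : IsConnected Ω) {w₀ : ℂ}
    (hw : w₀ ∈ Ω) {K : ℂ → ℝ} (hK : IsMartinKernel Ω w₀ K) :
    HarmonicOnNhd K Ω ∧ ∀ w ∈ Ω, 0 < K w := by
  obtain ⟨z, G, hz, hG, hleave, hlim⟩ := hK
  have hne : ∀ w ∈ Ω, ∀ᶠ n in atTop, w ∈ Ω \ {z n} := by
    intro w hwΩ
    filter_upwards [hleave {w} (singleton_subset_iff.2 hwΩ) isCompact_singleton] with n hn
    exact ⟨hwΩ, fun h => hn h.symm⟩
  -- `K ≥ 0`
  have hK0 : ∀ w ∈ Ω, 0 ≤ K w := by
    intro w hwΩ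
    refine ge_of_tendsto (hlim w hwΩ) ?_
    filter_upwards [hne w hwΩ, hne w₀ hw] with n h1 h2
    exact (div_pos ((hG n).pos w h1) ((hG n).pos w₀ h2)).le
  have hK1 : K w₀ = 1 := by
    refine tendsto_nhds_unique (hlim w₀ hw) ?_
    refine Tendsto.congr' ?_ tendsto_const_nhds
    filter_upwards [hne w₀ hw] with n h2
    rw [div_self ((hG n).pos w₀ h2).ne']
  -- harmonic
  have hharm : HarmonicOnNhd K Ω := by
    intro c hcΩ
    obtain ⟨R, hR, hRΩ⟩ : ∃ R > 0, closedBall c R ⊆ Ω :=
      nhds_basis_closedBall.mem_iff.1 (hΩ.mem_nhds hcΩ)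
    have hev : ∀ᶠ n in atTop, z n ∉ closedBall c R ∧ w₀ ∈ Ω \ {z n} ∧
        G n c / G n w₀ < K c + 1 := by
      filter_upwards [hleave _ hRΩ (isCompact_closedBall c R), hne w₀ hw,
        (hlim c hcΩ).eventually (gt_mem_nhds (lt_add_one (K c)))] with n h1 h2 h3
      exact ⟨h1, h2, h3⟩
    obtain ⟨n₀, hn₀⟩ := eventually_atTop.1 hev
    let v : ℕ → ℂ → ℝ := fun n w => G (n + n₀) w / G (n + n₀) w₀
    have hvh : ∀ n, HarmonicOnNhd (v n) (ball c R) := by
      intro n w hwb
      obtain ⟨h1, h2, -⟩ := hn₀ (n + n₀) (Nat.le_add_left _ _)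
      have h3 : w ∈ Ω \ {z (n + n₀)} := by
        refine ⟨hRΩ (ball_subset_closedBall hwb), fun h => h1 ?_⟩
        rw [mem_singleton_iff] at h
        rw [← h]
        exact ball_subset_closedBall hwb
      have h4 := ((hG (n + n₀)).harm w h3).const_smul (c := (G (n + n₀) w₀)⁻¹)
      have h5 : v n = (G (n + n₀) w₀)⁻¹ • G (n + n₀) := by
        funext x
        change G (n + n₀) x / G (n + n₀) w₀ = (G (n + n₀) w₀)⁻¹ * G (n + n₀) x
        rw [div_eq_inv_mul]
      rw [h5]
      exact h4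
    have hvp : ∀ n, ∀ w ∈ ball c R, 0 < v n w := by
      intro n w hwb
      obtain ⟨h1, h2, -⟩ := hn₀ (n + n₀) (Nat.le_add_left _ _)
      have h3 : w ∈ Ω \ {z (n + n₀)} := by
        refine ⟨hRΩ (ball_subset_closedBall hwb), fun h => h1 ?_⟩
        rw [mem_singleton_iff] at h
        rw [← h]
        exact ball_subset_closedBall hwb
      exact div_pos ((hG (n + n₀)).pos w h3) ((hG (n + n₀)).pos w₀ h2)
    have hKc0 : 0 ≤ K c := hK0 c hcΩ
    set M : ℝ := 7 * (K c + 1) with hM
    have hM0 : 0 < M := by rw [hM]; linarith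
    have hvM : ∀ n, ∀ w ∈ ball c (3 * R / 4), |v n w| ≤ M := by
      intro n w hwb
      have h1 := (harnack_ball (c := c) (r := 3 * R / 4) (R := R) (by linarith) (by linarith)
        (hvh n) (fun x hx => (hvp n x hx).le) (ball_subset_closedBall hwb)).2
      have h2 : (R + 3 * R / 4) / (R - 3 * R / 4) = 7 := by field_simp; ring
      rw [h2] at h1
      obtain ⟨-, -, h3⟩ := hn₀ (n + n₀) (Nat.le_add_left _ _)
      rw [abs_of_pos (hvp n w (ball_subset_ball (by linarith) hwb))]
      have h4 : v n c < K c + 1 := h3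
      linarith
    have hlip : ∀ n, ∀ x ∈ ball c (R / 2), ∀ y ∈ ball c (R / 2),
        |v n x - v n y| ≤ 32 * M / R * ‖x - y‖ := fun n => F3_lip hR (hvh n) (hvM n)
    have hvlim : ∀ w ∈ Ω, Tendsto (fun n => v n w) atTop (𝓝 (K w)) := fun w hwΩ =>
      (hlim w hwΩ).comp (tendsto_add_atTop_nat n₀)
    have hsub : ball c (R / 2) ⊆ Ω :=
      (ball_subset_closedBall.trans (closedBall_subset_closedBall (by linarith))).trans hRΩ
    have hKlip : ∀ x ∈ ball c (R / 2), ∀ y ∈ ball c (R / 2),
        |K x - K y| ≤ 32 * M / R * ‖x - y‖ := by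
      intro x hx y hy
      have h1 : Tendsto (fun n => |v n x - v n y|) atTop (𝓝 |K x - K y|) :=
        ((hvlim x (hsub hx)).sub (hvlim y (hsub hy))).abs
      exact le_of_tendsto h1 (Eventually.of_forall fun n => hlip n x hx y hy)
    have hL : 0 < 32 * M / R := by positivity
    have hunif : TendstoUniformlyOn v K atTop (closedBall c (R / 4)) := by
      rw [Metric.tendstoUniformlyOn_iff]
      intro ε hε
      set δ : ℝ := ε / (3 * (32 * M / R)) with hδ
      have hδ0 : 0 < δ := by rw [hδ]; positivity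
      obtain ⟨t, htS, htf, hcov⟩ :=
        (isCompact_closedBall c (R / 4)).finite_cover_balls hδ0
      have hcl : closedBall c (R / 4) ⊆ ball c (R / 2) := closedBall_subset_ball (by linarith)
      have hevt : ∀ᶠ n in atTop, ∀ y ∈ t, |v n y - K y| < ε / 3 := by
        rw [eventually_all_finite htf]
        intro y hy
        have h1 := hvlim y (hsub (hcl (htS hy)))
        have h2 := (Metric.tendsto_nhds.1 h1) (ε / 3) (by linarith)
        filter_upwards [h2] with n hn
        rwa [Real.dist_eq] at hn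
      filter_upwards [hevt] with n hn x hx
      obtain ⟨y, hy, hxy⟩ := mem_iUnion₂.1 (hcov hx)
      rw [mem_ball, Complex.dist_eq] at hxy
      have hxb := hcl hx
      have hyb := hcl (htS hy)
      have e1 := hlip n x hxb y hyb
      have e2 := hKlip x hxb y hyb
      have e3 := hn y hy
      have e4 : 32 * M / R * ‖x - y‖ < ε / 3 := by
        have : 32 * M / R * ‖x - y‖ < 32 * M / R * δ := mul_lt_mul_of_pos_left hxy hL
        have h5 : 32 * M / R * δ = ε / 3 := by
          rw [hδ]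
          field_simp
        linarith
      rw [Real.dist_eq]
      have e5 : K x - v n x = (K x - K y) - (v n x - v n y) - (v n y - K y) := by ring
      rw [e5]
      calc |(K x - K y) - (v n x - v n y) - (v n y - K y)|
          ≤ |(K x - K y) - (v n x - v n y)| + |v n y - K y| := abs_sub _ _
        _ ≤ |K x - K y| + |v n x - v n y| + |v n y - K y| := by
            have := abs_sub (K x - K y) (v n x - v n y)
            linarith
        _ < ε := by linarith
    have hfin := harmonicOnNhd_of_tendstoLocallyUniformlyOn (U := ball c (R / 4)) isOpen_ball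
      (u := v) (f := K) (fun n w hwb => hvh n w (ball_subset_ball (by linarith) hwb))
      ((hunif.mono ball_subset_closedBall).tendstoLocallyUniformlyOn)
    exact hfin c (mem_ball_self (by linarith))
  refine ⟨hharm, ?_⟩
  -- positivity
  have hA : IsOpen {w | w ∈ Ω ∧ K w = 0} := by
    rw [Metric.isOpen_iff]
    rintro c ⟨hcΩ, hc0⟩
    obtain ⟨R, hR, hRΩ⟩ : ∃ R > 0, ball c R ⊆ Ω := Metric.isOpen_iff.1 hΩ c hcΩ
    refine ⟨R / 2, by linarith, fun w hwb => ?_⟩
    have hwΩ : w ∈ Ω := hRΩ (ball_subset_ball (by linarith) hwb)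
    refine ⟨hwΩ, ?_⟩
    have h1 := (harnack_ball (c := c) (r := R / 2) (R := R) (by linarith) (by linarith)
      (fun x hx => hharm x (hRΩ hx)) (fun x hx => hK0 x (hRΩ hx)) (ball_subset_closedBall hwb)).2
    rw [hc0, mul_zero] at h1
    exact le_antisymm h1 (hK0 w hwΩ)
  have hB : IsOpen {w | w ∈ Ω ∧ K w ≠ 0} := by
    rw [isOpen_iff_mem_nhds]
    rintro c ⟨hcΩ, hc0⟩
    have h1 : ContinuousAt K c := (hharm c hcΩ).1.continuousAt
    exact Filter.inter_mem (hΩ.mem_nhds hcΩ) (h1.eventually_ne hc0)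
  have hsubB : Ω ⊆ {w | w ∈ Ω ∧ K w ≠ 0} := by
    refine hc.isPreconnected.subset_left_of_subset_union hB hA ?_ ?_ ?_
    · rw [Set.disjoint_left]
      rintro w ⟨-, h1⟩ ⟨-, h2⟩
      exact h1 h2
    · intro w hwΩ
      by_cases h : K w = 0
      · exact Or.inr ⟨hwΩ, h⟩
      · exact Or.inl ⟨hwΩ, h⟩
    · exact ⟨w₀, hw, hw, by rw [hK1]; exact one_ne_zero⟩
  intro w hwΩ
  exact lt_of_le_of_ne (hK0 w hwΩ) (hsubB hwΩ).2.symm

end Pool.Agent.NH
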