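import Pool.Agent.Lib.MP_00644e_an.Defs
import Pool.Agent.Lib.MP_00644e_an.F1
import Pool.Agent.Lib.MP_00644e_an.T6
/-! # Row F4: transfer of the integral by the Moebius map

PROOF. `posH`: `K' v = K (1/(v - e₀))` for `v ≠ e₀`: harmonic off `E` (`harmonicAt_comp`), positive, tends to `K 0` at infinity (`K` continuous at `0`).
`lintegral_Om`: `ψ v = 1/(v - e₀)` is injective on `Eᶜ` with image `Om \ {0}`, `‖deriv ψ v‖ = 1/‖v - e₀‖²`, Jacobian `‖deriv ψ‖²`;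
`lintegral_image_eq_lintegral_abs_det_fderiv_mul`; `fderiv` of `u ∘ ψ` by `norm_fderiv_comp`: with `F v = f' (ψ v)`, `‖∇F‖ = ‖∇f'(ψ v)‖ ‖ψ'‖`.
The point `0` is a null set (only `≥` is needed). -/

set_option autoImplicit false

open Complex Metric Set Filter Topology MeasureTheory InnerProductSpace ComplexConjugate

noncomputable section

namespace Pool.Agent.NH

private theorem F4_ne {E : Set ℂ} {e₀ : ℂ} (h0 : e₀ ∈ E) {v : ℂ} (hv : v ∉ E) : v - e₀ ≠ 0 := by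
  intro h
  apply hv
  rw [sub_eq_zero.1 h]
  exact h0

private theorem F4_mem {E : Set ℂ} {e₀ : ℂ} (h0 : e₀ ∈ E) {v : ℂ} (hv : v ∉ E) :
    1 / (v - e₀) ∈ Om E e₀ ∧ 1 / (v - e₀) ≠ 0 := by
  have h1 := F4_ne h0 hv
  refine ⟨Or.inr ?_, one_div_ne_zero h1⟩
  rw [one_div_one_div, add_sub_cancel]
  exact hv

private theorem F4_deriv {e₀ v : ℂ} (h : v - e₀ ≠ 0) :
    HasDerivAt (fun v : ℂ => 1 / (v - e₀)) (-1 / (v - e₀) ^ 2) v := by
  have h1 : HasDerivAt (fun v : ℂ => v - e₀) 1 v := (hasDerivAt_id v).sub_const e₀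
  have h2 := h1.inv h
  simp only [one_div]
  exact h2

private theorem F4_an {e₀ v : ℂ} (h : v - e₀ ≠ 0) :
    AnalyticAt ℂ (fun v : ℂ => 1 / (v - e₀)) v :=
  AnalyticAt.div analyticAt_const (analyticAt_id.sub analyticAt_const) h

theorem posH_of_Om {E : Set ℂ} {e₀ : ℂ} (hE : IsCompact E) (h0 : e₀ ∈ E) {K : ℂ → ℝ}
    (hK : HarmonicOnNhd K (Om E e₀)) (hp : ∀ z ∈ Om E e₀, 0 < K z) :
    PosH E (fun v => K (1 / (v - e₀))) (K 0) := by
  refine ⟨?_, ?_, ?_⟩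
  · intro v hv
    exact harmonicAt_comp (hK _ (F4_mem h0 hv).1) (F4_an (F4_ne h0 hv))
  · intro v hv
    exact hp _ (F4_mem h0 hv).1
  · have h1 : ContinuousAt K 0 := (hK 0 (Or.inl rfl)).1.continuousAt
    have h2 : Tendsto (fun v : ℂ => 1 / (v - e₀)) (Bornology.cobounded ℂ) (𝓝 0) := by
      have h3 : Tendsto (fun v : ℂ => ‖v - e₀‖) (Bornology.cobounded ℂ) atTop := by
        have h4 : Tendsto (fun v : ℂ => ‖v‖ + -‖e₀‖) (Bornology.cobounded ℂ) atTop :=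
          tendsto_atTop_add_const_right _ _ tendsto_norm_cobounded_atTop
        refine tendsto_atTop_mono (fun v => ?_) h4
        have := norm_sub_norm_le v e₀
        linarith
      rw [tendsto_zero_iff_norm_tendsto_zero]
      have h5 : Tendsto (fun v : ℂ => (‖v - e₀‖)⁻¹) (Bornology.cobounded ℂ) (𝓝 0) :=
        tendsto_inv_atTop_zero.comp h3
      refine h5.congr fun v => ?_
      rw [norm_div, norm_one, one_div]
    exact h1.tendsto.comp h2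

theorem lintegral_Om {E : Set ℂ} {e₀ : ℂ} (hE : IsCompact E) (h0 : e₀ ∈ E) {f g K : ℂ → ℝ}
    (hf : ∀ z ∈ Om E e₀, z ≠ 0 → DifferentiableAt ℝ f z)
    (hg : ∀ z ∈ Om E e₀, z ≠ 0 → DifferentiableAt ℝ g z) :
    ∫⁻ v in Eᶜ, ENNReal.ofReal (‖fderiv ℝ (fun v => f (1 / (v - e₀))) v‖ *
        ‖fderiv ℝ (fun v => g (1 / (v - e₀))) v‖ * K (1 / (v - e₀))) ≤
      ∫⁻ z in Om E e₀, ENNReal.ofReal (‖fderiv ℝ f z‖ * ‖fderiv ℝ g z‖ * K z) := by
  set ψ : ℂ → ℂ := fun v => 1 / (v - e₀) with hψ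
  set d : ℂ → ℂ := fun v => -1 / (v - e₀) ^ 2 with hd
  have hm : MeasurableSet Eᶜ := hE.isClosed.isOpen_compl.measurableSet
  have hder : ∀ v ∈ Eᶜ, HasFDerivWithinAt ψ (ContinuousLinearMap.mul ℝ ℂ (d v)) Eᶜ v := by
    intro v hv
    have h1 : HasDerivAt ψ (d v) v := F4_deriv (F4_ne h0 hv)
    have h2 := (h1.hasFDerivAt.restrictScalars ℝ)
    have h3 : ((ContinuousLinearMap.toSpanSingleton ℂ (d v)).restrictScalars ℝ : ℂ →L[ℝ] ℂ) =
        ContinuousLinearMap.mul ℝ ℂ (d v) := by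
      ext x
      simp [mul_comm]
    rw [← h3]
    exact h2.hasFDerivWithinAt
  have hinj : InjOn ψ Eᶜ := by
    intro v _ w _ h
    have h1 : v - e₀ = w - e₀ := by
      have h2 : (1 / (v - e₀))⁻¹ = (1 / (w - e₀))⁻¹ := congrArg Inv.inv h
      simpa using h2
    exact sub_left_inj.1 h1
  have hcv := lintegral_image_eq_lintegral_abs_det_fderiv_mul volume hm hder hinj
    (fun z => ENNReal.ofReal (‖fderiv ℝ f z‖ * ‖fderiv ℝ g z‖ * K z))
  have himg : ψ '' Eᶜ ⊆ Om E e₀ := by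
    rintro z ⟨v, hv, rfl⟩
    exact (F4_mem h0 hv).1
  refine le_trans ?_ (lintegral_mono_set himg)
  rw [hcv]
  refine le_of_eq (setLIntegral_congr_fun hm ?_)
  intro v hv
  have h1 : HasDerivAt ψ (d v) v := F4_deriv (F4_ne h0 hv)
  have h2 := norm_fderiv_comp (u := f) (φ := ψ) (z := v) (hf _ (F4_mem h0 hv).1 (F4_mem h0 hv).2)
    h1.differentiableAt
  have h3 := norm_fderiv_comp (u := g) (φ := ψ) (z := v) (hg _ (F4_mem h0 hv).1 (F4_mem h0 hv).2)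
    h1.differentiableAt
  have h4 : (ContinuousLinearMap.mul ℝ ℂ (d v)).det = ‖d v‖ ^ 2 := by
    have h5 : (ContinuousLinearMap.mul ℝ ℂ (d v)).det = Algebra.norm ℝ (d v) := rfl
    rw [h5, Algebra.norm_complex_apply, Complex.normSq_eq_norm_sq]
  change ENNReal.ofReal (‖fderiv ℝ (fun v => f (ψ v)) v‖ * ‖fderiv ℝ (fun v => g (ψ v)) v‖ *
    K (ψ v)) = ENNReal.ofReal |(ContinuousLinearMap.mul ℝ ℂ (d v)).det| *
      ENNReal.ofReal (‖fderiv ℝ f (ψ v)‖ * ‖fderiv ℝ g (ψ v)‖ * K (ψ v))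
  rw [h2, h3, h4, h1.deriv, ← ENNReal.ofReal_mul (abs_nonneg _), abs_of_nonneg (sq_nonneg _)]
  congr 1
  ring

end Pool.Agent.NH
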