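import Pool.Agent.Lib.MP_00644e_an.Defs

/-! # Row P1: the Poisson integral, elementary properties

PROOFS. `Pb b v = (1/π) Im ∫ b(t)/(t-v) dt`. For `v ∉ E` the integrand is bounded with compact support (`b` vanishes off `E ⊆ seg`,
`|t - v| ≥ dist(v,E) > 0` where `b t ≠ 0`). Holomorphy of `v ↦ ∫ b(t)/(t-v)` off `E`: `hasDerivAt_integral_of_dominated_loc_of_deriv_le`
or `DifferentiableOn` + `AnalyticAt.harmonicAt_im`. For `Im v = y ≠ 0`: `Im (1/(t-v)) = y/((t-x)²+y²)`; `|Pb b v| ≤ M` by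
`∫ |y|/((t-x)²+y²) dt = π` (`integral_univ_inv_one_add_sq`, substitution). For real `v` the integral is real (or not convergent,
then `0`): `Pb b v = 0`. `Pb_unif`: `b` is uniformly continuous; `Pb b v - b x = (1/π) ∫ (b(x+yτ) - b x)/(1+τ²) dτ`, split at `|τ| = T`.
At infinity: `|Pb b v| ≤ 2 M / (π (‖v‖ - 1))`. -/

set_option autoImplicit false

open Complex Metric Set Filter Topology MeasureTheory InnerProductSpace ComplexConjugate

noncomputable section

namespace Pool.Agent.NH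

variable {E : Set ℂ} {b : ℝ → ℝ} {M : ℝ}

/-! ### Helpers for row P1b -/

private theorem P1b_supp (hEs : E ⊆ seg) (hb : BOK E b M) {t : ℝ} (ht : 1 < |t|) : b t = 0 := by
  refine hb.supp t fun h => ?_
  have h1 := (hEs h).2
  rw [Complex.ofReal_re] at h1
  exact absurd h1 (not_le.2 ht)

private theorem P1b_out (hEs : E ⊆ seg) (hb : BOK E b M) {t : ℝ}
    (ht : t ∉ Icc (-1 : ℝ) 1) : b t = 0 :=
  P1b_supp hEs hb (not_le.1 fun h => ht (abs_le.1 h))

private theorem P1b_cs (hEs : E ⊆ seg) (hb : BOK E b M) : HasCompactSupport b :=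
  HasCompactSupport.intro (isCompact_Icc (a := (-1 : ℝ)) (b := 1)) fun _ ht => P1b_out hEs hb ht

private theorem P1b_M (hb : BOK E b M) : 0 ≤ M := (abs_nonneg _).trans (hb.bdd 0)

private theorem P1b_int (hEs : E ⊆ seg) (hb : BOK E b M) {v : ℂ} (hv : v.im ≠ 0) :
    Integrable fun t : ℝ => (b t : ℂ) / ((t : ℂ) - v) := by
  refine Continuous.integrable_of_hasCompactSupport ?_ ?_
  · refine Continuous.div (continuous_ofReal.comp hb.cont) (by fun_prop) fun t h => hv ?_
    have h1 := congrArg Complex.im h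
    simpa using h1
  · refine HasCompactSupport.intro (isCompact_Icc (a := (-1 : ℝ)) (b := 1)) fun t ht => ?_
    rw [P1b_out hEs hb ht, Complex.ofReal_zero, zero_div]

private theorem P1b_formula (hEs : E ⊆ seg) (hb : BOK E b M) {v : ℂ} (hv : 0 < v.im) :
    Pb b v = (∫ τ : ℝ, b (v.re + v.im * τ) * (1 + τ ^ 2)⁻¹) / Real.pi := by
  have h1 : (∫ t : ℝ, (b t : ℂ) / ((t : ℂ) - v)).im =
      ∫ t : ℝ, b t * (v.im / ((t - v.re) ^ 2 + v.im ^ 2)) := by
    have h2 := Complex.imCLM.integral_comp_comm (P1b_int hEs hb hv.ne')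
    rw [← Complex.imCLM_apply, ← h2]
    refine integral_congr_ae (Eventually.of_forall fun t => ?_)
    simp only [Complex.imCLM_apply, Complex.div_im, Complex.ofReal_im, Complex.ofReal_re,
      Complex.sub_im, Complex.sub_re, Complex.normSq_apply]
    rw [zero_mul, zero_div, zero_sub, zero_sub]
    have h3 : (t - v.re) * (t - v.re) + -v.im * -v.im = (t - v.re) ^ 2 + v.im ^ 2 := by ring
    rw [h3]
    ring
  rw [Pb, h1]
  congr 1
  have h4 := Measure.integral_comp_mul_left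
    (fun s : ℝ => b (v.re + s) * (v.im / ((v.re + s - v.re) ^ 2 + v.im ^ 2))) v.im
  have h5 := integral_add_left_eq_self (μ := volume)
    (fun t : ℝ => b t * (v.im / ((t - v.re) ^ 2 + v.im ^ 2))) v.re
  rw [h5, abs_of_pos (inv_pos.2 hv), smul_eq_mul] at h4
  have h6 : ∫ t : ℝ, b t * (v.im / ((t - v.re) ^ 2 + v.im ^ 2)) =
      v.im * ∫ τ : ℝ, b (v.re + v.im * τ) *
        (v.im / ((v.re + v.im * τ - v.re) ^ 2 + v.im ^ 2)) := by
    rw [h4, ← mul_assoc, mul_inv_cancel₀ hv.ne', one_mul]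
  rw [h6, ← integral_const_mul]
  refine integral_congr_ae (Eventually.of_forall fun τ => ?_)
  have h7 : (1 + τ ^ 2) ≠ 0 := by positivity
  have h8 : (v.re + v.im * τ - v.re) ^ 2 + v.im ^ 2 = v.im ^ 2 * (1 + τ ^ 2) := by ring
  simp only
  rw [h8]
  field_simp

private theorem P1b_real (b : ℝ → ℝ) {v : ℂ} (h : v.im = 0) : Pb b v = 0 := by
  have h1 : (fun t : ℝ => (b t : ℂ) / ((t : ℂ) - v)) =
      fun t : ℝ => ((b t / (t - v.re) : ℝ) : ℂ) := by
    funext t
    have h2 : v = (v.re : ℂ) := Complex.ext (by simp) (by simp [h])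
    rw [h2]
    simp
  rw [Pb, h1, integral_complex_ofReal, Complex.ofReal_im, zero_div]

private theorem P1b_conj (b : ℝ → ℝ) (v : ℂ) : Pb b (conj v) = -Pb b v := by
  have h1 : (fun t : ℝ => (b t : ℂ) / ((t : ℂ) - conj v)) =
      fun t : ℝ => conj ((b t : ℂ) / ((t : ℂ) - v)) := by
    funext t
    simp
  rw [Pb, Pb, h1, integral_conj, Complex.conj_im, neg_div]

private theorem P1b_bound_pos (hEs : E ⊆ seg) (hb : BOK E b M) {v : ℂ} (hv : 0 < v.im) :
    |Pb b v| ≤ M := by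
  have h1 : ‖∫ τ : ℝ, b (v.re + v.im * τ) * (1 + τ ^ 2)⁻¹‖ ≤ ∫ τ : ℝ, M * (1 + τ ^ 2)⁻¹ := by
    refine norm_integral_le_of_norm_le (integrable_inv_one_add_sq.const_mul M)
      (Eventually.of_forall fun τ => ?_)
    rw [norm_mul, Real.norm_eq_abs, Real.norm_eq_abs]
    have h7 : 0 ≤ (1 + τ ^ 2)⁻¹ := by positivity
    rw [abs_of_nonneg h7]
    exact mul_le_mul_of_nonneg_right (hb.bdd _) h7
  rw [integral_const_mul, integral_univ_inv_one_add_sq, Real.norm_eq_abs] at h1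
  rw [P1b_formula hEs hb hv, abs_div, abs_of_pos Real.pi_pos, div_le_iff₀ Real.pi_pos]
  exact h1

/-! ### Helpers for row P1a -/

private theorem P1a_open (hE : IsCompact E) {v : ℂ} (hv : v ∉ E) :
    ∃ d > 0, ∀ w ∈ E, d ≤ ‖w - v‖ := by
  have h1 : Eᶜ ∈ 𝓝 v := hE.isClosed.isOpen_compl.mem_nhds hv
  obtain ⟨d, hd, hd'⟩ := Metric.mem_nhds_iff.1 h1
  refine ⟨d, hd, fun w hw => ?_⟩
  by_contra h2
  exact hd' (by rw [Metric.mem_ball, dist_eq_norm]; exact not_le.1 h2) hw

private theorem P1a_bint (hEs : E ⊆ seg) (hb : BOK E b M) : Integrable b :=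
  hb.cont.integrable_of_hasCompactSupport (P1b_cs hEs hb)

private theorem P1a_meas (hb : BOK E b M) (v : ℂ) :
    AEStronglyMeasurable fun t : ℝ => (b t : ℂ) / ((t : ℂ) - v) :=
  ((Complex.measurable_ofReal.comp hb.cont.measurable).div
    (Complex.measurable_ofReal.sub_const v)).aestronglyMeasurable

private theorem P1a_meas' (hb : BOK E b M) (v : ℂ) :
    AEStronglyMeasurable fun t : ℝ => (b t : ℂ) / ((t : ℂ) - v) ^ 2 :=
  ((Complex.measurable_ofReal.comp hb.cont.measurable).div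
    ((Complex.measurable_ofReal.sub_const v).pow_const 2)).aestronglyMeasurable

private theorem P1a_ne (hb : BOK E b M) {t : ℝ} (h : b t ≠ 0) : (t : ℂ) ∈ E := by
  by_contra h1
  exact h (hb.supp t h1)

private theorem P1a_int (hE : IsCompact E) (hEs : E ⊆ seg) (hb : BOK E b M) {v : ℂ} (hv : v ∉ E) :
    Integrable fun t : ℝ => (b t : ℂ) / ((t : ℂ) - v) := by
  obtain ⟨d, hd, hd'⟩ := P1a_open hE hv
  refine Integrable.mono' ((P1a_bint hEs hb).norm.mul_const d⁻¹) (P1a_meas hb v)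
    (Eventually.of_forall fun t => ?_)
  rw [norm_div, Complex.norm_real, div_eq_mul_inv]
  by_cases h : b t = 0
  · rw [h, norm_zero, zero_mul, zero_mul]
  · refine mul_le_mul_of_nonneg_left ?_ (norm_nonneg _)
    exact inv_anti₀ hd (hd' _ (P1a_ne hb h))

private theorem P1a_deriv (c z v : ℂ) (h : c = 0 ∨ z - v ≠ 0) :
    HasDerivAt (fun w : ℂ => c / (z - w)) (c / (z - v) ^ 2) v := by
  rcases h with rfl | h
  · simp only [zero_div]
    exact hasDerivAt_const v 0
  · have h1 := (hasDerivAt_const v c).div ((hasDerivAt_id v).const_sub z) h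
    refine h1.congr_deriv ?_
    simp

private theorem P1a_hasDerivAt (hE : IsCompact E) (hEs : E ⊆ seg) (hb : BOK E b M) {v : ℂ}
    (hv : v ∉ E) :
    HasDerivAt (fun w : ℂ => ∫ t : ℝ, (b t : ℂ) / ((t : ℂ) - w))
      (∫ t : ℝ, (b t : ℂ) / ((t : ℂ) - v) ^ 2) v := by
  obtain ⟨d, hd, hd'⟩ := P1a_open hE hv
  have hlow : ∀ t : ℝ, b t ≠ 0 → ∀ w ∈ ball v (d / 2), d / 2 ≤ ‖(t : ℂ) - w‖ := by
    intro t ht w hw
    have h1 := hd' _ (P1a_ne hb ht)
    rw [Metric.mem_ball, dist_eq_norm] at hw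
    have h2 : ‖(t : ℂ) - v‖ ≤ ‖(t : ℂ) - w‖ + ‖w - v‖ := by
      have h3 : (t : ℂ) - v = ((t : ℂ) - w) + (w - v) := by ring
      rw [h3]
      exact norm_add_le _ _
    linarith
  have hd2 : 0 < d / 2 := by positivity
  refine (hasDerivAt_integral_of_dominated_loc_of_deriv_le
    (F := fun (w : ℂ) (t : ℝ) => (b t : ℂ) / ((t : ℂ) - w))
    (F' := fun (w : ℂ) (t : ℝ) => (b t : ℂ) / ((t : ℂ) - w) ^ 2)
    (bound := fun t => ‖b t‖ * ((d / 2) ^ 2)⁻¹)
    (Metric.ball_mem_nhds v hd2) (Eventually.of_forall fun w => P1a_meas hb w)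
    (P1a_int hE hEs hb hv) (P1a_meas' hb v) ?_ ((P1a_bint hEs hb).norm.mul_const _) ?_).2
  · refine Eventually.of_forall fun t w hw => ?_
    show ‖(b t : ℂ) / ((t : ℂ) - w) ^ 2‖ ≤ ‖b t‖ * ((d / 2) ^ 2)⁻¹
    rw [norm_div, Complex.norm_real, div_eq_mul_inv, norm_pow]
    by_cases h : b t = 0
    · rw [h, norm_zero, zero_mul, zero_mul]
    · refine mul_le_mul_of_nonneg_left ?_ (norm_nonneg _)
      exact inv_anti₀ (by positivity) (pow_le_pow_left₀ hd2.le (hlow t h w hw) 2)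
  · refine Eventually.of_forall fun t w hw => ?_
    apply P1a_deriv
    by_cases h : b t = 0
    · left
      rw [h, Complex.ofReal_zero]
    · right
      have h1 := hlow t h w hw
      exact norm_pos_iff.1 (lt_of_lt_of_le hd2 h1)

theorem Pb_harmonic (hE : IsCompact E) (hEs : E ⊆ seg) (hb : BOK E b M) :
    HarmonicOnNhd (Pb b) Eᶜ := by
  intro v hv
  have h1 : DifferentiableOn ℂ (fun w : ℂ => ∫ t : ℝ, (b t : ℂ) / ((t : ℂ) - w)) Eᶜ :=
    fun w hw => (P1a_hasDerivAt hE hEs hb hw).differentiableAt.differentiableWithinAt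
  have h2 := (h1.analyticAt (hE.isClosed.isOpen_compl.mem_nhds hv)).harmonicAt_im
  have h3 := h2.const_smul (c := Real.pi⁻¹)
  refine (harmonicAt_congr_nhds (Eventually.of_forall fun w => ?_)).1 h3
  show Real.pi⁻¹ • (∫ t : ℝ, (b t : ℂ) / ((t : ℂ) - w)).im = Pb b w
  rw [Pb, smul_eq_mul, div_eq_inv_mul]

theorem Pb_bound (hE : IsCompact E) (hEs : E ⊆ seg) (hb : BOK E b M) (v : ℂ) : |Pb b v| ≤ M := by
  rcases lt_trichotomy v.im 0 with h | h | h
  · have h1 := P1b_bound_pos hEs hb (v := conj v) (by rw [Complex.conj_im]; linarith)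
    rwa [P1b_conj, abs_neg] at h1
  · rw [P1b_real b h, abs_zero]
    exact P1b_M hb
  · exact P1b_bound_pos hEs hb h

theorem Pb_real (v : ℂ) (h : v.im = 0) : Pb b v = 0 := P1b_real b h

theorem Pb_conj (v : ℂ) : Pb b (conj v) = -Pb b v := P1b_conj b v

theorem Pb_add_mul (hE : IsCompact E) (hEs : E ⊆ seg) (hb : BOK E b M) {b' : ℝ → ℝ} {M' : ℝ}
    (hb' : BOK E b' M') (ε : ℝ) {v : ℂ} (hv : v ∉ E) :
    Pb (fun t => b t + ε * b' t) v = Pb b v + ε * Pb b' v := by
  have h1 : (fun t : ℝ => ((b t + ε * b' t : ℝ) : ℂ) / ((t : ℂ) - v)) =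
      fun t : ℝ => (b t : ℂ) / ((t : ℂ) - v) + (ε : ℂ) * ((b' t : ℂ) / ((t : ℂ) - v)) := by
    funext t
    push_cast
    ring
  rw [Pb, Pb, Pb, h1, integral_add (P1a_int hE hEs hb hv) ((P1a_int hE hEs hb' hv).const_mul _),
    integral_const_mul, Complex.add_im, Complex.im_ofReal_mul, add_div, mul_div_assoc]

theorem Pb_unif (hE : IsCompact E) (hEs : E ⊆ seg) (hb : BOK E b M) {δ : ℝ} (hδ : 0 < δ) :
    ∃ ρ > 0, ∀ v : ℂ, 0 < v.im → v.im < ρ → |Pb b v - b v.re| ≤ δ := by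
  have hM := P1b_M hb
  have hpi := Real.pi_pos
  have hu : UniformContinuous b :=
    (P1b_cs hEs hb).uniformContinuous_of_continuous hb.cont
  obtain ⟨η, hη, hη'⟩ := Metric.uniformContinuous_iff.1 hu (δ / 2) (by positivity)
  have hφ : Tendsto (fun y : ℝ => ∫ τ : ℝ, {τ : ℝ | η ≤ |y * τ|}.indicator
      (fun τ => (1 + τ ^ 2)⁻¹) τ) (𝓝[>] 0) (𝓝 (∫ _ : ℝ, (0 : ℝ))) := by
    refine tendsto_integral_filter_of_dominated_convergence (fun τ => (1 + τ ^ 2)⁻¹) ?_ ?_
      integrable_inv_one_add_sq ?_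
    · refine Eventually.of_forall fun y => ?_
      refine (integrable_inv_one_add_sq.indicator ?_).aestronglyMeasurable
      exact (isClosed_le continuous_const (by fun_prop)).measurableSet
    · refine Eventually.of_forall fun y => Eventually.of_forall fun τ => ?_
      have h7 : 0 ≤ (1 + τ ^ 2)⁻¹ := by positivity
      refine (norm_indicator_le_norm_self _ _).trans ?_
      rw [Real.norm_eq_abs, abs_of_nonneg h7]
    · refine Eventually.of_forall fun τ => ?_
      have h1 : ∀ᶠ y : ℝ in 𝓝[>] 0, |y * τ| < η := by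
        have h2 : Tendsto (fun y : ℝ => |y * τ|) (𝓝[>] 0) (𝓝 0) := by
          have h3 : Continuous fun y : ℝ => |y * τ| := by fun_prop
          have h4 := (h3.tendsto 0).mono_left (nhdsWithin_le_nhds (s := Ioi 0))
          simpa using h4
        exact h2.eventually (gt_mem_nhds hη)
      refine Tendsto.congr' ?_ tendsto_const_nhds
      filter_upwards [h1] with y hy
      rw [indicator_of_notMem]
      exact fun h => absurd h (not_le.2 hy)
  rw [integral_zero] at hφ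
  have hev : ∀ᶠ y : ℝ in 𝓝[>] 0, (∫ τ : ℝ, {τ : ℝ | η ≤ |y * τ|}.indicator
      (fun τ => (1 + τ ^ 2)⁻¹) τ) < δ * Real.pi / (2 * (2 * M + 1)) :=
    hφ.eventually (gt_mem_nhds (by positivity))
  obtain ⟨ρ, hρ, hρ'⟩ := mem_nhdsGT_iff_exists_Ioo_subset.1 hev
  refine ⟨ρ, hρ, fun v hv hvρ => ?_⟩
  have h1 := hρ' ⟨hv, hvρ⟩
  rw [mem_ofPred_eq] at h1
  have hI : Integrable fun τ : ℝ => b (v.re + v.im * τ) * (1 + τ ^ 2)⁻¹ := by
    refine Integrable.bdd_mul (c := M) integrable_inv_one_add_sq ?_ ?_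
    · exact (hb.cont.comp (by fun_prop)).aestronglyMeasurable
    · exact Eventually.of_forall fun τ => hb.bdd _
  have h2 : Pb b v - b v.re = (∫ τ : ℝ, (b (v.re + v.im * τ) - b v.re) * (1 + τ ^ 2)⁻¹) /
      Real.pi := by
    have h3 : (fun τ : ℝ => (b (v.re + v.im * τ) - b v.re) * (1 + τ ^ 2)⁻¹) =
        fun τ : ℝ => b (v.re + v.im * τ) * (1 + τ ^ 2)⁻¹ - b v.re * (1 + τ ^ 2)⁻¹ := by
      funext τ
      rw [sub_mul]
    rw [h3, integral_sub hI (integrable_inv_one_add_sq.const_mul _), integral_const_mul,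
      integral_univ_inv_one_add_sq, P1b_formula hEs hb hv]
    field_simp
  rw [h2, abs_div, abs_of_pos hpi, div_le_iff₀ hpi]
  have hind : Integrable ({τ : ℝ | η ≤ |v.im * τ|}.indicator
      (fun τ => (1 + τ ^ 2)⁻¹)) :=
    integrable_inv_one_add_sq.indicator
      (isClosed_le continuous_const (by fun_prop)).measurableSet
  have h4 : ‖∫ τ : ℝ, (b (v.re + v.im * τ) - b v.re) * (1 + τ ^ 2)⁻¹‖ ≤
      ∫ τ : ℝ, (δ / 2 * (1 + τ ^ 2)⁻¹ + 2 * M * {τ : ℝ | η ≤ |v.im * τ|}.indicator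
        (fun τ => (1 + τ ^ 2)⁻¹) τ) := by
    refine norm_integral_le_of_norm_le ((integrable_inv_one_add_sq.const_mul _).add
      (hind.const_mul _)) (Eventually.of_forall fun τ => ?_)
    have h7 : 0 ≤ (1 + τ ^ 2)⁻¹ := by positivity
    rw [norm_mul, Real.norm_eq_abs, Real.norm_eq_abs, abs_of_nonneg h7]
    by_cases h8 : η ≤ |v.im * τ|
    · rw [indicator_of_mem (show τ ∈ {τ : ℝ | η ≤ |v.im * τ|} from h8)]
      have h9 : |b (v.re + v.im * τ) - b v.re| ≤ 2 * M := by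
        refine (abs_sub _ _).trans ?_
        have h10 := hb.bdd (v.re + v.im * τ)
        have h11 := hb.bdd v.re
        linarith
      have h12 : 0 ≤ δ / 2 * (1 + τ ^ 2)⁻¹ := by positivity
      have h13 := mul_le_mul_of_nonneg_right h9 h7
      linarith
    · rw [indicator_of_notMem (show τ ∉ {τ : ℝ | η ≤ |v.im * τ|} from h8), mul_zero, add_zero]
      refine mul_le_mul_of_nonneg_right ?_ h7
      have h9 := hη' (a := v.re + v.im * τ) (b := v.re) (by
        rw [Real.dist_eq, add_sub_cancel_left]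
        exact not_le.1 h8)
      rw [Real.dist_eq] at h9
      exact h9.le
  rw [integral_add (integrable_inv_one_add_sq.const_mul _) (hind.const_mul _),
    integral_const_mul, integral_const_mul, integral_univ_inv_one_add_sq, Real.norm_eq_abs] at h4
  refine h4.trans ?_
  have h14 : 2 * M * (∫ τ : ℝ, {τ : ℝ | η ≤ |v.im * τ|}.indicator
      (fun τ => (1 + τ ^ 2)⁻¹) τ) ≤ 2 * M * (δ * Real.pi / (2 * (2 * M + 1))) :=
    mul_le_mul_of_nonneg_left h1.le (by positivity)
  have h15 : 2 * M * (δ * Real.pi / (2 * (2 * M + 1))) ≤ δ * Real.pi / 2 := by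
    rw [← mul_div_assoc, div_le_div_iff₀ (by positivity) (by positivity)]
    have h16 : 0 ≤ δ * Real.pi := by positivity
    nlinarith
  linarith

theorem Pb_infty (hE : IsCompact E) (hEs : E ⊆ seg) (hb : BOK E b M) :
    Tendsto (Pb b) (Bornology.cobounded ℂ) (𝓝 0) := by
  have hM := P1b_M hb
  have h1 : ∀ v : ℂ, 1 < ‖v‖ → ‖Pb b v‖ ≤ 2 * M / Real.pi / (‖v‖ - 1) := by
    intro v hv
    have hv' : 0 < ‖v‖ - 1 := by linarith
    have h2 : ‖∫ t : ℝ, (b t : ℂ) / ((t : ℂ) - v)‖ ≤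
        ∫ t : ℝ, (Icc (-1 : ℝ) 1).indicator (fun _ => M / (‖v‖ - 1)) t := by
      refine norm_integral_le_of_norm_le ?_ (Eventually.of_forall fun t => ?_)
      · exact (integrable_indicator_iff measurableSet_Icc).2
          (integrableOn_const (by simp) (by simp))
      · by_cases ht : t ∈ Icc (-1 : ℝ) 1
        · rw [indicator_of_mem ht, norm_div, Complex.norm_real, Real.norm_eq_abs]
          refine div_le_div₀ hM (hb.bdd t) hv' ?_
          have h3 : ‖v‖ ≤ ‖(t : ℂ) - v‖ + ‖(t : ℂ)‖ := by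
            have h4 := norm_sub_le (t : ℂ) ((t : ℂ) - v)
            rw [sub_sub_cancel] at h4
            linarith
          rw [Complex.norm_real, Real.norm_eq_abs] at h3
          have h5 : |t| ≤ 1 := abs_le.2 ht
          linarith
        · rw [P1b_out hEs hb ht, Complex.ofReal_zero, zero_div, norm_zero, indicator_of_notMem ht]
    rw [integral_indicator measurableSet_Icc, setIntegral_const, smul_eq_mul] at h2
    have h3 : (volume : Measure ℝ).real (Icc (-1 : ℝ) 1) = 2 := by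
      rw [Measure.real, Real.volume_Icc]
      norm_num
    rw [h3] at h2
    rw [Pb, Real.norm_eq_abs, abs_div, abs_of_pos Real.pi_pos]
    have h4 := (Complex.abs_im_le_norm (∫ t : ℝ, (b t : ℂ) / ((t : ℂ) - v))).trans h2
    calc |(∫ t : ℝ, (b t : ℂ) / ((t : ℂ) - v)).im| / Real.pi
        ≤ 2 * (M / (‖v‖ - 1)) / Real.pi := div_le_div_of_nonneg_right h4 Real.pi_pos.le
      _ = 2 * M / Real.pi / (‖v‖ - 1) := by
        have := Real.pi_pos.ne'
        field_simp
  have h5 : Tendsto (fun v : ℂ => 2 * M / Real.pi / (‖v‖ - 1)) (Bornology.cobounded ℂ) (𝓝 0) :=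
    Tendsto.const_div_atTop (tendsto_atTop_add_const_right _ (-1)
      tendsto_norm_cobounded_atTop) _
  refine squeeze_zero_norm' ?_ h5
  have h6 : ∀ᶠ v : ℂ in Bornology.cobounded ℂ, 1 < ‖v‖ :=
    tendsto_norm_cobounded_atTop.eventually (eventually_gt_atTop 1)
  exact h6.mono h1

end Pool.Agent.NH
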