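import Pool.Agent.Lib.MP_00644e_an.Defs
import Pool.Agent.Lib.MP_00644e_an.P1
import Pool.Agent.Lib.MP_00644e_an.T2
/-! # Row P2: uniqueness in the half plane

PROOF. `w v = u v - Pb b v` for `Im v > 0`, `w v = 0` for `Im v ≤ 0`: continuous on `{0 ≤ Im v}` (by `hbd`, `Pb_unif` and continuity
of `b`), harmonic on `{0 < Im v}`, tends to `0` at infinity. For `δ > 0` apply `max_principle` to `±w` on
`{0 < Im v} ∩ ball 0 R`, `R` large: `|w| ≤ δ` on the frontier. -/

set_option autoImplicit false

open Complex Metric Set Filter Topology MeasureTheory InnerProductSpace ComplexConjugate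

noncomputable section

namespace Pool.Agent.NH

theorem eq_Pb_of_boundary {E : Set ℂ} {b : ℝ → ℝ} {M : ℝ} (hE : IsCompact E) (hEs : E ⊆ seg)
    (hb : BOK E b M) {u : ℂ → ℝ} (hu : HarmonicOnNhd u {v : ℂ | 0 < v.im})
    (hbd : ∀ x : ℝ, Tendsto u (𝓝[{v : ℂ | 0 < v.im}] (x : ℂ)) (𝓝 (b x)))
    (hinf : Tendsto u (Bornology.cobounded ℂ ⊓ 𝓟 {v : ℂ | 0 < v.im}) (𝓝 0)) :
    ∀ v : ℂ, 0 < v.im → u v = Pb b v := by
  classical
  have hopen : IsOpen {v : ℂ | 0 < v.im} := isOpen_lt continuous_const Complex.continuous_im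
  -- the upper half plane is in the complement of E
  have hsub : ∀ v : ℂ, 0 < v.im → v ∉ E := by
    intro v hv hvE
    have := (hEs hvE).1
    linarith
  have hP : HarmonicOnNhd (Pb b) {v : ℂ | 0 < v.im} := fun v hv =>
    Pb_harmonic hE hEs hb v (hsub v hv)
  set w : ℂ → ℝ := fun v => if 0 < v.im then u v - Pb b v else 0 with hw
  have hw1 : ∀ v : ℂ, 0 < v.im → w v = u v - Pb b v := fun v hv => if_pos hv
  have hw0 : ∀ v : ℂ, ¬ 0 < v.im → w v = 0 := fun v hv => if_neg hv
  have hwh : HarmonicOnNhd w {v : ℂ | 0 < v.im} := by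
    intro v hv
    have h1 : HarmonicAt (u - Pb b) v := (hu v hv).sub (hP v hv)
    refine (harmonicAt_congr_nhds ?_).1 h1
    filter_upwards [hopen.mem_nhds hv] with x hx
    rw [hw1 x hx]
    rfl
  -- limits at the real points
  have hlim : ∀ x : ℝ, Tendsto w (𝓝[{v : ℂ | 0 ≤ v.im}] (x : ℂ)) (𝓝 0) := by
    intro x
    rw [Metric.tendsto_nhdsWithin_nhds]
    intro ε hε
    obtain ⟨ρ, hρ, hρ'⟩ := Pb_unif hE hEs hb (δ := ε / 4) (by linarith)
    have h1 := (Metric.tendsto_nhdsWithin_nhds.1 (hbd x)) (ε / 4) (by linarith)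
    obtain ⟨ρ1, hρ1, h1'⟩ := h1
    have h2 := Metric.continuousAt_iff.1 (hb.cont.continuousAt (x := x)) (ε / 4) (by linarith)
    obtain ⟨ρ2, hρ2, h2'⟩ := h2
    refine ⟨min ρ (min ρ1 ρ2), by positivity, ?_⟩
    intro v hv hd
    have hd1 : dist v (x : ℂ) < ρ := lt_of_lt_of_le hd (min_le_left _ _)
    have hd2 : dist v (x : ℂ) < ρ1 := lt_of_lt_of_le hd ((min_le_right _ _).trans (min_le_left _ _))
    have hd3 : dist v (x : ℂ) < ρ2 := lt_of_lt_of_le hd ((min_le_right _ _).trans (min_le_right _ _))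
    rw [Real.dist_eq, sub_zero]
    by_cases hv' : 0 < v.im
    · rw [hw1 v hv']
      have a1 : |u v - b x| < ε / 4 := by
        have := h1' hv' hd2
        rwa [Real.dist_eq] at this
      have him : v.im < ρ := by
        have h3 := Complex.abs_im_le_norm (v - x)
        rw [Complex.sub_im, Complex.ofReal_im, sub_zero] at h3
        rw [dist_eq_norm] at hd1
        exact lt_of_le_of_lt (le_trans (le_abs_self _) h3) hd1
      have a2 : |Pb b v - b v.re| ≤ ε / 4 := hρ' v hv' him
      have a3 : |b v.re - b x| < ε / 4 := by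
        have h3 := Complex.abs_re_le_norm (v - x)
        rw [Complex.sub_re, Complex.ofReal_re] at h3
        have : dist v.re x < ρ2 := by
          rw [Real.dist_eq]
          rw [dist_eq_norm] at hd3
          exact lt_of_le_of_lt h3 hd3
        have := h2' this
        rwa [Real.dist_eq] at this
      have e : u v - Pb b v = (u v - b x) - (Pb b v - b v.re) - (b v.re - b x) := by ring
      rw [e]
      calc |(u v - b x) - (Pb b v - b v.re) - (b v.re - b x)|
          ≤ |(u v - b x) - (Pb b v - b v.re)| + |b v.re - b x| := abs_sub _ _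
        _ ≤ |u v - b x| + |Pb b v - b v.re| + |b v.re - b x| := by
            gcongr
            exact abs_sub _ _
        _ < ε := by linarith
    · rw [hw0 v hv', abs_zero]
      exact hε
  -- continuity
  have hcont : ContinuousOn w {v : ℂ | 0 ≤ v.im} := by
    intro v hv
    by_cases hv' : 0 < v.im
    · have h1 : ContinuousAt w v := (hwh v hv').1.continuousAt
      exact h1.continuousWithinAt
    · have him : v.im = 0 := le_antisymm (not_lt.1 hv') hv
      have hre : v = ((v.re : ℝ) : ℂ) := by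
        apply Complex.ext
        · simp
        · simp [him]
      have h1 := hlim v.re
      unfold ContinuousWithinAt
      rw [hw0 v hv']
      rw [← hre] at h1
      exact h1
  -- limits at infinity
  have hinf' : ∀ δ : ℝ, 0 < δ → ∃ R0 : ℝ, ∀ v : ℂ, R0 ≤ ‖v‖ → |w v| ≤ δ := by
    intro δ hδ
    have h1 : ∀ᶠ v in Bornology.cobounded ℂ, v ∈ {v : ℂ | 0 < v.im} → |u v| < δ / 2 := by
      have h2 := hinf.eventually (Metric.ball_mem_nhds (0 : ℝ) (half_pos hδ))
      rw [eventually_inf_principal] at h2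
      filter_upwards [h2] with v hv hv'
      have := hv hv'
      rwa [Real.dist_eq, sub_zero] at this
    have h2 : ∀ᶠ v in Bornology.cobounded ℂ, |Pb b v| < δ / 2 := by
      have h3 := (Pb_infty hE hEs hb).eventually (Metric.ball_mem_nhds (0 : ℝ) (half_pos hδ))
      filter_upwards [h3] with v hv
      rwa [Real.dist_eq, sub_zero] at hv
    obtain ⟨R0, -, hR0⟩ := (Filter.hasBasis_cobounded_norm (E := ℂ)).eventually_iff.1 (h1.and h2)
    refine ⟨R0, fun v hv => ?_⟩
    obtain ⟨h3, h4⟩ := hR0 hv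
    by_cases hv' : 0 < v.im
    · rw [hw1 v hv']
      have := h3 hv'
      calc |u v - Pb b v| ≤ |u v| + |Pb b v| := abs_sub _ _
        _ ≤ δ := by linarith
    · rw [hw0 v hv', abs_zero]
      exact hδ.le
  -- the maximum principle
  have key : ∀ δ : ℝ, 0 < δ → ∀ v : ℂ, 0 < v.im → |w v| ≤ δ := by
    intro δ hδ v hv
    obtain ⟨R0, hR0⟩ := hinf' δ hδ
    set R : ℝ := max R0 (‖v‖ + 1) with hR
    set U : Set ℂ := {v : ℂ | 0 < v.im} ∩ ball 0 R with hUdef
    have hUo : IsOpen U := hopen.inter isOpen_ball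
    have hUb : Bornology.IsBounded U := isBounded_ball.subset inter_subset_right
    have hvU : v ∈ U := ⟨hv, by
      rw [mem_ball, dist_zero_right]
      exact lt_of_lt_of_le (lt_add_one _) (le_max_right _ _)⟩
    have hcl : closure U ⊆ {v : ℂ | 0 ≤ v.im} ∩ closedBall 0 R := by
      apply closure_minimal
      · rintro x ⟨hx1, hx2⟩
        exact ⟨(show 0 < x.im from hx1).le, ball_subset_closedBall hx2⟩
      · exact (isClosed_le continuous_const Complex.continuous_im).inter isClosed_closedBall
    have hfr : ∀ z ∈ frontier U, |w z| ≤ δ := by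
      intro z hz
      rw [hUo.frontier_eq] at hz
      obtain ⟨hz1, hz2⟩ := hz
      obtain ⟨hz3, hz4⟩ := hcl hz1
      by_cases hzi : 0 < z.im
      · apply hR0
        by_contra hlt
        push Not at hlt
        apply hz2
        refine ⟨hzi, ?_⟩
        rw [mem_ball, dist_zero_right]
        exact lt_of_lt_of_le hlt (le_max_left _ _)
      · rw [hw0 z hzi, abs_zero]
        exact hδ.le
    have hcU : ContinuousOn w (closure U) := hcont.mono fun x hx => (hcl hx).1
    have hhU : HarmonicOnNhd w U := fun x hx => hwh x hx.1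
    have h1 := max_principle hUo hUb hcU (locSub_of_harmonic hhU hUo) (M := δ)
      (fun z hz => (le_abs_self _).trans (hfr z hz)) v hvU
    have hhU' : HarmonicOnNhd (-w) U := fun x hx => (hhU x hx).neg
    have h2 := max_principle hUo hUb hcU.neg (locSub_of_harmonic hhU' hUo) (M := δ)
      (fun z hz => (neg_le_abs _).trans (hfr z hz)) v hvU
    rw [abs_le]
    exact ⟨by have : -w v ≤ δ := h2
              linarith, h1⟩
  intro v hv
  have h1 : |w v| ≤ 0 := le_of_forall_pos_le_add fun δ hδ => by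
    rw [zero_add]
    exact key δ hδ v hv
  have h2 : w v = 0 := abs_eq_zero.1 (le_antisymm h1 (abs_nonneg _))
  rw [hw1 v hv] at h2
  linarith

end Pool.Agent.NH
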