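import Pool.Agent.Lib.MP_00644e_an.Defs
import Pool.Agent.Lib.MP_00644e_an.P2
import Pool.Agent.Lib.MP_00644e_an.G7
/-! # Row P3: the odd part of a pattern is a Poisson integral

PROOF. `om_boundary`: for `w → x ∈ [-1,1]`, `Im w > 0`: `ω = om w` has `Im ω < 0` (from `ω + 1/ω = 2w`, `‖ω‖ < 1`), `‖ω‖ → 1` (`norm_om`,
continuity of `G0`), and every limit point solves `ω + 1/ω = 2x`, `‖ω‖ = 1`, `Im ω ≤ 0`, so it is `exp (-i arccos x)` (compactness
of the closed disc).
`exists_density`: `E = ⋃ B i ([-1,1])`, a disjoint union (`compl`, `disj`). For `t ∈ E` let `i` be the index with `B i (F t) = t` and `o = ±1`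
the side of `B i` (`Bside`); put `b t = -o * (ev B (exp (i arccos (F t).re))).im`, `b t = 0` off `E`. `|b| ≤ M`. At the end points
(`F t = ±1`) `b t = 0` because `ev B (±1)` is real. Continuity: if `t ∉ E` clear (`E` closed); if `|F t| < 1` then nearby
points have the same index (`B j ∘ F` continuous at `t`, `B j (F t) ≠ t` for `j ≠ i`); if `|F t| = 1` the formula tends to `0`.
Boundary values of `u v = (ev B (om (F v))).im` on the upper half plane at `x`: if `x ∉ E`, `u` is continuous at `x` and
`om (F x)` is real; if `x ∈ E`, near `x` `v = B i (F v)`, hence `Im (F v)` has the sign `o` (`Bside`, `Bconj`), use `om_boundary` or its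
conjugate. At infinity `om (F v) → 0` (`low`). `eq_Pb_of_boundary` gives equality on the upper half plane; the lower half plane by
conjugation (`Pb_conj`, `om_conj`, real coefficients); on the real axis off `E` both sides are `0` (`Pb_real`). -/

set_option autoImplicit false

open Complex Metric Set Filter Topology MeasureTheory InnerProductSpace ComplexConjugate

noncomputable section

namespace Pool.Agent.NH

private theorem P3_notMem {v : ℂ} (h : v.im ≠ 0) : v ∉ seg := fun hv => h hv.1

/-- The image of the upper half plane is in the lower half plane. -/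
private theorem P3_im_neg {v : ℂ} (h : 0 < v.im) : (om v).im < 0 := by
  have hv := P3_notMem h.ne'
  have h1 := om_add_inv hv
  have h2 := norm_om_lt_one hv
  have h3 := om_ne_zero hv
  have h4 : 0 < normSq (om v) := normSq_pos.2 h3
  have h5 : normSq (om v) < 1 := by
    rw [normSq_eq_norm_sq]
    have h6 := norm_nonneg (om v)
    nlinarith
  have h7 := congrArg Complex.im h1
  rw [add_im, one_div, inv_im, mul_im] at h7
  simp only [re_ofNat, im_ofNat, zero_mul, add_zero] at h7
  by_contra hcon
  have h8 : 0 ≤ (om v).im := not_lt.1 hcon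
  have h9 : (om v).im ≤ (om v).im / normSq (om v) := by
    rw [le_div_iff₀ h4]
    nlinarith
  rw [neg_div] at h7
  linarith

private theorem P3_quad {v : ℂ} (hv : v ∉ seg) : om v ^ 2 - 2 * v * om v + 1 = 0 := by
  have h1 := om_add_inv hv
  have h3 := om_ne_zero hv
  have h2 : om v ^ 2 - 2 * v * om v + 1 = (om v + 1 / om v - 2 * v) * om v := by
    field_simp
    ring
  rw [h2, h1, sub_self, zero_mul]

theorem om_boundary {x : ℝ} (hx : |x| ≤ 1) :
    Tendsto om (𝓝[{v : ℂ | 0 < v.im}] (x : ℂ)) (𝓝 (Complex.exp (-(I * (Real.arccos x : ℂ))))) := by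
  have hev : ∀ᶠ v in 𝓝[{v : ℂ | 0 < v.im}] (x : ℂ), 0 < v.im := eventually_mem_nhdsWithin
  refine (isCompact_closedBall (0 : ℂ) 1).tendsto_nhds_of_unique_mapClusterPt ?_ ?_
  · filter_upwards [hev] with v hv
    rw [mem_closedBall_zero_iff]
    exact (norm_om_lt_one (P3_notMem hv.ne')).le
  · intro ω _ hcl
    rw [mapClusterPt_iff_ultrafilter] at hcl
    obtain ⟨U, hU, hlim⟩ := hcl
    have hid : Tendsto (fun v : ℂ => v) (U : Filter ℂ) (𝓝 (x : ℂ)) :=
      (tendsto_id.mono_left (hU.trans nhdsWithin_le_nhds))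
    have hevU : ∀ᶠ v in (U : Filter ℂ), 0 < v.im := hU hev
    have hseg : (x : ℂ) ∈ seg := ⟨ofReal_im x, by simpa using hx⟩
    -- the equation
    have e1 : ω ^ 2 - 2 * (x : ℂ) * ω + 1 = 0 := by
      have h1 : Tendsto (fun v : ℂ => om v ^ 2 - 2 * v * om v + 1) (U : Filter ℂ)
          (𝓝 (ω ^ 2 - 2 * (x : ℂ) * ω + 1)) :=
        ((hlim.pow 2).sub ((hid.const_mul 2).mul hlim)).add_const 1
      refine tendsto_nhds_unique h1 ?_
      refine Tendsto.congr' ?_ tendsto_const_nhds
      filter_upwards [hevU] with v hv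
      exact (P3_quad (P3_notMem hv.ne')).symm
    -- the norm
    have e2 : ‖ω‖ = 1 := by
      have h1 : Tendsto (fun v : ℂ => ‖om v‖) (U : Filter ℂ) (𝓝 ‖ω‖) := hlim.norm
      have h2 : Tendsto (fun v : ℂ => Real.exp (-G0 v)) (U : Filter ℂ) (𝓝 (Real.exp (-G0 x))) :=
        (Real.continuous_exp.tendsto _).comp ((continuous_G0.tendsto _).comp hid).neg
      have h3 : Tendsto (fun v : ℂ => ‖om v‖) (U : Filter ℂ) (𝓝 (Real.exp (-G0 x))) := by
        refine h2.congr' ?_
        filter_upwards [hevU] with v hv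
        exact (norm_om (P3_notMem hv.ne')).symm
      have h4 := tendsto_nhds_unique h1 h3
      rw [h4, (G0_eq_zero_iff _).2 hseg, neg_zero, Real.exp_zero]
    -- the imaginary part
    have e3 : ω.im ≤ 0 := by
      have h1 : Tendsto (fun v : ℂ => (om v).im) (U : Filter ℂ) (𝓝 ω.im) :=
        (continuous_im.tendsto _).comp hlim
      refine le_of_tendsto h1 ?_
      filter_upwards [hevU] with v hv
      exact (P3_im_neg hv).le
    have e4 : ω * conj ω = 1 := by
      rw [mul_conj, normSq_eq_norm_sq, e2]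
      norm_num
    have e5 : ω + conj ω = 2 * (x : ℂ) := by
      have h1 : (ω ^ 2 - 2 * (x : ℂ) * ω + 1) * conj ω =
          (ω * conj ω) * ω - 2 * (x : ℂ) * (ω * conj ω) + conj ω := by ring
      rw [e1, e4, zero_mul] at h1
      linear_combination -h1
    have e6 : ω.re = x := by
      have h1 := congrArg Complex.re e5
      simp at h1
      linarith
    have e7 : ω.im ^ 2 = 1 - x ^ 2 := by
      have h1 : normSq ω = 1 := by rw [normSq_eq_norm_sq, e2]; norm_num
      rw [normSq_apply, e6] at h1
      linarith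
    have e8 : ω.im = -Real.sqrt (1 - x ^ 2) := by
      have h1 : Real.sqrt (1 - x ^ 2) = -ω.im := by
        rw [← e7, Real.sqrt_sq_eq_abs, abs_of_nonpos e3]
      linarith
    have h9 : Complex.exp (-(I * (Real.arccos x : ℂ))) = ⟨x, -Real.sqrt (1 - x ^ 2)⟩ := by
      have h1 : -(I * (Real.arccos x : ℂ)) = ((-Real.arccos x : ℝ) : ℂ) * I := by
        push_cast
        ring
      rw [h1]
      apply Complex.ext
      · rw [exp_ofReal_mul_I_re, Real.cos_neg, Real.cos_arccos (abs_le.1 hx).1 (abs_le.1 hx).2]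
      · rw [exp_ofReal_mul_I_im, Real.sin_neg, Real.sin_arccos]
    rw [h9]
    exact Complex.ext e6 e8

private theorem P3_ev_conj (B : Polynomial ℝ) (w : ℂ) : ev B (conj w) = conj (ev B w) :=
  Polynomial.aeval_conj B w

private theorem P3_ev_real (B : Polynomial ℝ) {w : ℂ} (h : conj w = w) : (ev B w).im = 0 := by
  have h1 := P3_ev_conj B w
  rw [h] at h1
  exact (conj_eq_iff_im.1 h1.symm)

private theorem P3_u_conj {G : Geo} (hG : G.OK) (B : Polynomial ℝ) {v : ℂ} (hv : v ∉ G.E) :
    (ev B (om (G.F (conj v)))).im = -(ev B (om (G.F v))).im := by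
  rw [hG.real, om_conj _ hv, P3_ev_conj, conj_im]

private theorem P3_continuous_ev (B : Polynomial ℝ) : Continuous (ev B) :=
  Polynomial.continuous_aeval B

private theorem P3_lim {G : Geo} (hG : G.OK) (B : Polynomial ℝ) {M : ℝ}
    (hM : ∀ w : ℂ, ‖w‖ ≤ 1 → ‖ev B w‖ ≤ M) (x : ℝ) :
    ∃ y, Tendsto (fun v => (ev B (om (G.F v))).im) (𝓝[{v : ℂ | 0 < v.im}] (x : ℂ)) (𝓝 y) ∧
      |y| ≤ M ∧ ((x : ℂ) ∉ G.E → y = 0) := by
  have hM0 : 0 ≤ M := (norm_nonneg _).trans (hM 0 (by simp))
  by_cases hx : (x : ℂ) ∈ G.E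
  · have hFs : G.F (x : ℂ) ∈ seg := hx
    obtain ⟨x', hx'⟩ : ∃ x' : ℝ, G.F (x : ℂ) = (x' : ℂ) :=
      ⟨(G.F (x : ℂ)).re, Complex.ext rfl (by simpa using hFs.1)⟩
    have hx'1 : |x'| ≤ 1 := by
      have h1 := hFs.2
      rwa [hx', ofReal_re] at h1
    have hSco : IsOpen (Sc G.c) :=
      (isOpen_ne_fun continuous_im continuous_const).union
        (isOpen_lt (continuous_abs.comp continuous_re) continuous_const)
    have hSc : G.F (x : ℂ) ∈ Sc G.c := by
      right
      exact lt_of_le_of_lt hFs.2 hG.hc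
    obtain ⟨i, hi⟩ := hG.compl _ hSc
    have hFc : ContinuousAt G.F (x : ℂ) := hG.diff.continuous.continuousAt
    have hBc : ∀ j, ContinuousAt (fun v => G.B j (G.F v)) (x : ℂ) := fun j =>
      ContinuousAt.comp (g := G.B j) (((hG.Bdiff j).continuousOn).continuousAt (hSco.mem_nhds hSc)) hFc
    -- nearby points are on the branch `i`
    have hne : ∀ᶠ v in 𝓝 (x : ℂ), ∀ j, j ≠ i → G.B j (G.F v) ≠ v := by
      rw [eventually_all]
      intro j
      by_cases hj : j = i
      · exact Eventually.of_forall fun v h => absurd hj h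
      · have h1 : G.B j (G.F (x : ℂ)) ≠ (x : ℂ) := by
          intro h
          exact hj (hG.disj j i _ hSc (h.trans hi.symm))
        filter_upwards [(hBc j).eventually_ne h1 |>.and (eventually_of_mem univ_mem fun _ _ => trivial),
          ((hBc j).sub continuousAt_id).eventually_ne (sub_ne_zero.2 h1)] with v _ hv _
        exact sub_ne_zero.1 hv
    have hSev : ∀ᶠ v in 𝓝 (x : ℂ), G.F v ∈ Sc G.c := hFc.eventually_mem (hSco.mem_nhds hSc)
    have hbr : ∀ᶠ v in 𝓝 (x : ℂ), G.B i (G.F v) = v := by
      filter_upwards [hne, hSev] with v h1 h2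
      obtain ⟨j, hj⟩ := hG.compl v h2
      by_contra hcon
      exact h1 j (fun h => hcon (h ▸ hj)) hj
    have hU : ∀ᶠ v in 𝓝[{v : ℂ | 0 < v.im}] (x : ℂ), 0 < v.im ∧ G.F v ∈ Sc G.c ∧
        G.B i (G.F v) = v := by
      filter_upwards [eventually_mem_nhdsWithin, hSev.filter_mono nhdsWithin_le_nhds,
        hbr.filter_mono nhdsWithin_le_nhds] with v h1 h2 h3
      exact ⟨h1, h2, h3⟩
    have hreal : ∀ w ∈ Sc G.c, w.im = 0 → (G.B i w).im = 0 := by
      intro w hw h0
      have h1 := hG.Bconj i w hw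
      rw [conj_eq_iff_im.2 h0] at h1
      exact conj_eq_iff_im.1 h1.symm
    have hFt : Tendsto G.F (𝓝[{v : ℂ | 0 < v.im}] (x : ℂ)) (𝓝 (x' : ℂ)) := by
      rw [← hx']
      exact hFc.tendsto.mono_left nhdsWithin_le_nhds
    have hScc : ∀ w ∈ Sc G.c, conj w ∈ Sc G.c := by
      rintro w (h | h)
      · left
        rw [conj_im]
        exact neg_ne_zero.2 h
      · right
        rwa [conj_re]
    rcases hG.Bside i with hs | hs
    · refine ⟨(ev B (Complex.exp (-(I * (Real.arccos x' : ℂ))))).im, ?_, ?_, fun h => absurd hx h⟩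
      · refine (continuous_im.tendsto _).comp (((P3_continuous_ev B).tendsto _).comp
          ((om_boundary hx'1).comp ?_))
        refine tendsto_nhdsWithin_iff.2 ⟨hFt, ?_⟩
        filter_upwards [hU] with v hv
        obtain ⟨h1, h2, h3⟩ := hv
        rcases lt_trichotomy (G.F v).im 0 with h4 | h4 | h4
        · exfalso
          have h5 := hs (conj (G.F v)) (by rw [conj_im]; linarith)
          rw [hG.Bconj i _ h2, h3, conj_im] at h5
          linarith
        · exfalso
          have h5 := hreal _ h2 h4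
          rw [h3] at h5
          linarith
        · exact h4
      · refine (abs_im_le_norm _).trans (hM _ ?_)
        rw [norm_exp]
        simp
    · refine ⟨(ev B (conj (Complex.exp (-(I * (Real.arccos x' : ℂ)))))).im, ?_, ?_,
        fun h => absurd hx h⟩
      · have hlow : ∀ᶠ v in 𝓝[{v : ℂ | 0 < v.im}] (x : ℂ), (G.F v).im < 0 := by
          filter_upwards [hU] with v hv
          obtain ⟨h1, h2, h3⟩ := hv
          rcases lt_trichotomy (G.F v).im 0 with h4 | h4 | h4
          · exact h4
          · exfalso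
            have h5 := hreal _ h2 h4
            rw [h3] at h5
            linarith
          · exfalso
            have h5 := hs _ h4
            rw [h3] at h5
            linarith
        have hconj : Tendsto (fun v => conj (G.F v)) (𝓝[{v : ℂ | 0 < v.im}] (x : ℂ))
            (𝓝[{v : ℂ | 0 < v.im}] (x' : ℂ)) := by
          refine tendsto_nhdsWithin_iff.2 ⟨?_, ?_⟩
          · have h1 := (continuous_conj.tendsto _).comp hFt
            rwa [conj_ofReal] at h1
          · filter_upwards [hlow] with v hv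
            rw [conj_im]
            linarith
        have h1 : Tendsto (fun v => (ev B (conj (om (conj (G.F v))))).im)
            (𝓝[{v : ℂ | 0 < v.im}] (x : ℂ))
            (𝓝 (ev B (conj (Complex.exp (-(I * (Real.arccos x' : ℂ)))))).im) :=
          (continuous_im.tendsto _).comp (((P3_continuous_ev B).tendsto _).comp
            ((continuous_conj.tendsto _).comp ((om_boundary hx'1).comp hconj)))
        refine h1.congr' ?_
        filter_upwards [hlow] with v hv
        have h2 : conj (G.F v) ∉ seg := P3_notMem (by rw [conj_im]; linarith)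
        rw [← om_conj _ h2, conj_conj]
      · refine (abs_im_le_norm _).trans (hM _ ?_)
        rw [RCLike.norm_conj, norm_exp]
        simp
  · refine ⟨0, ?_, by simpa using hM0, fun _ => rfl⟩
    have h1 : ContinuousAt (fun v => (ev B (om (G.F v))).im) (x : ℂ) :=
      continuous_im.continuousAt.comp ((P3_continuous_ev B).continuousAt.comp
        (hG.analyticAt_omF hx).continuousAt)
    have h2 : (ev B (om (G.F (x : ℂ)))).im = 0 := by
      apply P3_ev_real
      have h3 := om_conj (G.F (x : ℂ)) hx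
      rw [← hG.real, conj_ofReal] at h3
      exact h3.symm
    have h3 := h1.tendsto
    rw [h2] at h3
    exact h3.mono_left nhdsWithin_le_nhds

theorem exists_density {G : Geo} (hG : G.OK) (B : Polynomial ℝ) (hB0 : B.coeff 0 = 0) {M : ℝ}
    (hM : ∀ w : ℂ, ‖w‖ ≤ 1 → ‖ev B w‖ ≤ M) :
    ∃ b : ℝ → ℝ, BOK G.E b M ∧ ∀ v ∉ G.E, (ev B (om (G.F v))).im = Pb b v := by
  classical
  choose b hb1 hb2 hb3 using P3_lim hG B hM
  have hcl : ∀ x : ℝ, (x : ℂ) ∈ closure {v : ℂ | 0 < v.im} := by
    intro x
    rw [Metric.mem_closure_iff]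
    intro ε hε
    refine ⟨(x : ℂ) + ((ε / 2 : ℝ) : ℂ) * I, ?_, ?_⟩
    · change 0 < ((x : ℂ) + ((ε / 2 : ℝ) : ℂ) * I).im
      rw [add_im, ofReal_im, im_ofReal_mul, I_im]
      linarith
    · rw [dist_eq_norm, sub_add_cancel_left, norm_neg, norm_mul, norm_I, mul_one,
        norm_real, Real.norm_of_nonneg (by linarith)]
      linarith
  have hbc : Continuous b := by
    have h1 : ContinuousOn (extendFrom {v : ℂ | 0 < v.im} fun v => (ev B (om (G.F v))).im)
        (range ((↑) : ℝ → ℂ)) := by
      refine continuousOn_extendFrom ?_ ?_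
      · rintro _ ⟨x, rfl⟩
        exact hcl x
      · rintro _ ⟨x, rfl⟩
        exact ⟨b x, hb1 x⟩
    have h2 : b = fun x : ℝ =>
        extendFrom {v : ℂ | 0 < v.im} (fun v => (ev B (om (G.F v))).im) (x : ℂ) := by
      funext x
      exact (extendFrom_eq (hcl x) (hb1 x)).symm
    rw [h2]
    exact h1.comp_continuous continuous_ofReal fun x => mem_range_self x
  have hbok : BOK G.E b M := ⟨hbc, fun t ht => hb3 t ht, hb2⟩
  have hup : ∀ v : ℂ, 0 < v.im → v ∉ G.E := fun v hv h =>
    hv.ne' (hG.E_subset h).1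
  have hU := eq_Pb_of_boundary hG.isCompact_E hG.E_subset hbok
    (u := fun v => (ev B (om (G.F v))).im) ?_ hb1 ?_
  · refine ⟨b, hbok, fun v hv => ?_⟩
    rcases lt_trichotomy v.im 0 with h | h | h
    · have h1 := hU (conj v) (by rw [conj_im]; linarith)
      rw [P3_u_conj hG B hv, Pb_conj] at h1
      linarith
    · rw [Pb_real v h]
      apply P3_ev_real
      have h3 := om_conj (G.F v) hv
      rw [← hG.real, conj_eq_iff_im.2 h] at h3
      exact h3.symm
    · exact hU v h
  · intro v hv
    have h1 : AnalyticAt ℂ (fun v => ev B (om (G.F v))) v :=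
      (AnalyticAt.aeval_polynomial (hG.analyticAt_omF (hup v hv)) B)
    exact h1.harmonicAt_im
  · have h1 : Tendsto (fun v => Real.exp (-(G.N * G.g v)))
        (Bornology.cobounded ℂ ⊓ 𝓟 {v : ℂ | 0 < v.im}) (𝓝 0) := by
      refine Real.tendsto_exp_neg_atTop_nhds_zero.comp ?_
      exact (hG.tendsto_g.mono_left inf_le_left).const_mul_atTop (by linarith [hG.hN])
    have h2 : Tendsto (fun v => om (G.F v))
        (Bornology.cobounded ℂ ⊓ 𝓟 {v : ℂ | 0 < v.im}) (𝓝 0) := by
      rw [tendsto_zero_iff_norm_tendsto_zero]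
      refine h1.congr' ?_
      have h3 : ∀ᶠ v in (Bornology.cobounded ℂ ⊓ 𝓟 {v : ℂ | 0 < v.im}), 0 < v.im :=
        mem_inf_of_right (mem_principal_self _)
      filter_upwards [h3] with v hv
      exact (hG.norm_omF (hup v hv)).symm
    have h3 : (ev B 0).im = 0 := P3_ev_real B (by simp)
    have h4 := (continuous_im.tendsto _).comp (((P3_continuous_ev B).tendsto _).comp h2)
    rw [h3] at h4
    exact h4

end Pool.Agent.NH
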