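import Pool.Agent.Lib.MP_00644e_an.G7

/-! # Row P4: the even part of a pattern extends continuously

PROOF. `A` has real coefficients, `‖ev A w‖ ≤ M` on the closed disc. Put `a v = (ev A (om (F v))).re` off `E` and
`a v = (ev A (exp (i arccos (F v).re))).re` on `E`. It is harmonic off `E` (`analyticAt_omF`). Continuity at `v₀ ∈ E`: as `w → x ∈ [-1,1]`,
`w ∉ seg`, the limit points of `om w` are `exp (± i arccos x)` (unit roots of `ω + 1/ω = 2x`) and `Re (ev A ·)` takes the same value at
both; on `E` the formula is continuous. Alternatively: `Re (ω^k)` for `ω = om w` is `(T_k(w) - stuff)`. Simplest: the function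
`w ↦ Re (ev A (om w))` on `segᶜ`, `Re ev A (exp (i arccos w.re))` on `seg` is continuous on `ℂ`; compose with `F`. -/

set_option autoImplicit false

open Complex Metric Set Filter Topology MeasureTheory InnerProductSpace ComplexConjugate

noncomputable section

namespace Pool.Agent.NH

/-- the pattern in the strip chart -/
private def P4_phi (A : Polynomial ℝ) (s : ℂ) : ℝ := (ev A (Complex.exp (I * s))).re

private theorem P4_phi_cont (A : Polynomial ℝ) : Continuous (P4_phi A) := by
  unfold P4_phi ev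
  have h : Continuous fun w : ℂ => (Polynomial.aeval w A : ℂ) := by
    simp only [Polynomial.aeval_def]
    exact Polynomial.continuous_eval₂ A _
  exact Complex.continuous_re.comp (h.comp (Complex.continuous_exp.comp (by fun_prop)))

private theorem P4_phi_eq (A : Polynomial ℝ) {s s' : ℂ} (hs : 0 ≤ s.im) (hs' : 0 ≤ s'.im)
    (h : Complex.cos s = Complex.cos s') : P4_phi A s = P4_phi A s' := by
  rw [Complex.cos_eq_cos_iff] at h
  obtain ⟨k, h | h⟩ := h
  · unfold P4_phi
    have : Complex.exp (I * s) = Complex.exp (I * s') := by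
      rw [Complex.exp_eq_exp_iff_exists_int]
      refine ⟨-k, ?_⟩
      rw [h]
      push_cast
      ring
    rw [this]
  · have h1 : s'.im = -s.im := by
      rw [h]
      simp [Complex.sub_im, Complex.mul_im]
    have h2 : s.im = 0 := by linarith
    have h3 : conj s = s := Complex.conj_eq_iff_im.2 h2
    unfold P4_phi
    have : Complex.exp (I * s') = conj (Complex.exp (I * s)) := by
      rw [← Complex.exp_conj, map_mul, Complex.conj_I, h3, Complex.exp_eq_exp_iff_exists_int]
      refine ⟨k, ?_⟩
      rw [h]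
      ring
    rw [this]
    unfold ev
    rw [Polynomial.aeval_conj, Complex.conj_re]

/-- the inverse of the cosine -/
private def P4_sig (w : ℂ) : ℂ := (exists_cos (w := w)).choose

private theorem P4_sig_cos (w : ℂ) : Complex.cos (P4_sig w) = w :=
  (exists_cos (w := w)).choose_spec.1.symm

private theorem P4_sig_im (w : ℂ) : (P4_sig w).im = G0 w :=
  (exists_cos (w := w)).choose_spec.2.1

private theorem P4_sig_re (w : ℂ) : -Real.pi < (P4_sig w).re ∧ (P4_sig w).re ≤ Real.pi :=
  (exists_cos (w := w)).choose_spec.2.2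

/-- the pattern as a function of `F v` -/
private def P4_a (A : Polynomial ℝ) (w : ℂ) : ℝ := P4_phi A (P4_sig w)

private theorem P4_a_cont (A : Polynomial ℝ) : Continuous (P4_a A) := by
  rw [continuous_iff_continuousAt]
  intro w
  rw [ContinuousAt, tendsto_iff_ultrafilter]
  intro 𝒰 h𝒰
  -- the inverse images stay in a compact set
  have hG : ∀ᶠ v in (𝒰 : Filter ℂ), G0 v < G0 w + 1 :=
    h𝒰 ((continuous_G0.continuousAt (x := w)).eventually (gt_mem_nhds (by linarith)))
  let K : Set ℂ := (Set.Icc (-Real.pi) Real.pi) ×ℂ (Set.Icc 0 (G0 w + 1))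
  have hK : IsCompact K := isCompact_Icc.reProdIm isCompact_Icc
  have hmem : ∀ᶠ v in (𝒰 : Filter ℂ), P4_sig v ∈ K := by
    filter_upwards [hG] with v hv
    rw [Complex.mem_reProdIm]
    refine ⟨⟨(P4_sig_re v).1.le, (P4_sig_re v).2⟩, ?_, ?_⟩
    · rw [P4_sig_im]; exact G0_nonneg v
    · rw [P4_sig_im]; exact hv.le
  obtain ⟨s, hsK, hs⟩ := hK.ultrafilter_le_nhds (𝒰.map P4_sig) (by
    rw [Filter.le_principal_iff]
    exact hmem)
  have hs' : Tendsto P4_sig (𝒰 : Filter ℂ) (𝓝 s) := hs
  have hs0 : 0 ≤ s.im := by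
    rw [Complex.mem_reProdIm] at hsK
    exact hsK.2.1
  have hcos : Complex.cos s = w := by
    have h1 : Tendsto (fun v => Complex.cos (P4_sig v)) (𝒰 : Filter ℂ) (𝓝 (Complex.cos s)) :=
      (Complex.continuous_cos.tendsto s).comp hs'
    have h2 : (fun v => Complex.cos (P4_sig v)) = fun v => v := by
      funext v; exact P4_sig_cos v
    rw [h2] at h1
    exact tendsto_nhds_unique h1 h𝒰
  have h3 : P4_a A w = P4_phi A s := by
    unfold P4_a
    apply P4_phi_eq
    · rw [P4_sig_im]; exact G0_nonneg w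
    · exact hs0
    · rw [P4_sig_cos, hcos]
  rw [h3]
  exact ((P4_phi_cont A).tendsto s).comp hs'

theorem exists_even {G : Geo} (hG : G.OK) (A : Polynomial ℝ) {M : ℝ}
    (hM : ∀ w : ℂ, ‖w‖ ≤ 1 → ‖ev A w‖ ≤ M) :
    ∃ a : ℂ → ℝ, EOK G.E a M ∧ ∀ v ∉ G.E, (ev A (om (G.F v))).re = a v := by
  have key : ∀ v ∉ G.E, (ev A (om (G.F v))).re = P4_a A (G.F v) := by
    intro v hv
    have h1 : 0 < (P4_sig (G.F v)).im := by
      rw [P4_sig_im]
      exact G0_pos hv
    unfold P4_a P4_phi
    rw [← om_cos h1, P4_sig_cos]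
  refine ⟨fun v => P4_a A (G.F v), ⟨?_, ?_, ?_⟩, key⟩
  · exact (P4_a_cont A).comp hG.diff.continuous
  · intro v hv
    have h1 : AnalyticAt ℂ (fun v => ev A (om (G.F v))) v := by
      have h2 := hG.analyticAt_omF hv
      unfold ev
      exact h2.aeval_polynomial A
    have h3 : (fun v => (ev A (om (G.F v))).re) =ᶠ[𝓝 v] fun v => P4_a A (G.F v) := by
      have h4 : G.Eᶜ ∈ 𝓝 v := hG.isCompact_E.isClosed.isOpen_compl.mem_nhds hv
      filter_upwards [h4] with u hu
      exact key u hu
    exact (harmonicAt_congr_nhds h3).1 h1.harmonicAt_re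
  · intro v
    unfold P4_a P4_phi
    refine (Complex.abs_re_le_norm _).trans (hM _ ?_)
    rw [Complex.norm_exp]
    rw [Real.exp_le_one_iff]
    simp only [Complex.mul_re, Complex.I_re, Complex.I_im, zero_mul, one_mul, zero_sub]
    rw [P4_sig_im]
    linarith [G0_nonneg (G.F v)]

end Pool.Agent.NH
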