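import Pool.Agent.Lib.MP_00644e_an.Defs
import Pool.Agent.Lib.MP_00644e_an.T4
import Pool.Agent.Lib.MP_00644e_an.T2
import Pool.Agent.Lib.MP_00644e_an.G7
/-! # Row K3: sharing

PROOF. `gap_harnack`: `W = {x | |Im x| < 2, (1+q) cos x ∉ seg}` is open and connected: it contains the two convex strips
`{0 < Im x < 2}`, `{-2 < Im x < 0}` and around each point `π l` a disc (there `|cos| > 1/(1+q)`); every real point of `W` is in the
closure of the upper strip. `harnack_compact` for the compact set `{x | Re x ∈ [0,π], Im x = ±1}`; translation by `π l` preserves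
`W`, so the constant holds for all real parts.
`sharing`: `u x = K (Z i (x / 2^r))` for `|Im x| < 2^r H` and `(1+q) cos x ∉ seg` (`step_F_Z`: then `Z i (x/2^r) ∉ G'.E`); for
`2^r H ≥ 2` `gap_harnack` gives `u (x - i) ≤ A u (x + i)` and conversely for all real `x`, that is
`K (Z i s) ≤ A K (Z i (conj s))`, and `Z i (conj s) = Z i (-conj s)` (`Z_neg`), on `Im s = 2^{-r}`. On `Im s = H/2`: `harnack_compact` on
the open upper strip `{0 < Im s < H}` for the segment `[-π,π] + i H/2` and the function `s ↦ K (Z i s)`, periodicity. In between: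
`s ↦ K (Z i s) - A K (Z i (-conj s))` is harmonic and `2π`-periodic in the strip `{2^{-r} < Im s < H/2}`, continuous on the closed
strip, `≤ 0` on both boundary lines: maximum principle (`periodic_max`). `c = 1/A`.
`periodic_max`: a maximum over the compact rectangle `[-π,π] × [η₁,η₂]` is a maximum over the closed strip; if it is `> M` it is attained at an interior point of the strip; take one
with maximal ... (same argument as `max_principle`, or apply `max_principle` to `u - δ cosh-type` comparison: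
`u s - δ Re (cosh ((s - i(η₁+η₂)/2) π/(2(η₂-η₁))))` on large rectangles, `δ → 0`). -/

set_option autoImplicit false

open Complex Metric Set Filter Topology MeasureTheory InnerProductSpace ComplexConjugate

noncomputable section

namespace Pool.Agent.NH

private theorem k3_red (x : ℝ) : ∃ n : ℤ, |x - n * (2 * Real.pi)| ≤ Real.pi := by
  have hpi := Real.pi_pos
  refine ⟨round (x / (2 * Real.pi)), ?_⟩
  have h := abs_sub_round (x / (2 * Real.pi))
  have h2 : x - (round (x / (2 * Real.pi)) : ℝ) * (2 * Real.pi)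
      = (x / (2 * Real.pi) - round (x / (2 * Real.pi))) * (2 * Real.pi) := by
    field_simp
  rw [h2, abs_mul, abs_of_pos (by positivity : (0 : ℝ) < 2 * Real.pi)]
  nlinarith

private theorem k3_per {u : ℂ → ℝ} (hp : ∀ s, u (s + 2 * Real.pi) = u s) (n : ℤ) (s : ℂ) :
    u (s + n * (2 * Real.pi)) = u s := by
  have h : Function.Periodic u (2 * Real.pi) := hp
  exact h.int_mul n s

private theorem k3_locmax {u : ℂ → ℝ} {U : Set ℂ} (hU : IsOpen U) (hh : HarmonicOnNhd u U) {s : ℂ}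
    (hs : s ∈ U) (hm : ∀ z ∈ U, u z ≤ u s) : ∀ᶠ z in 𝓝 s, z ∈ U ∧ u z = u s := by
  obtain ⟨ε, hε, hb⟩ := Metric.isOpen_iff.1 hU s hs
  obtain ⟨f, hf, hfu⟩ := (hh.mono hb).exists_analyticOnNhd_ball_re_eq
  have hball : ∀ᶠ z in 𝓝 s, z ∈ ball s ε := ball_mem_nhds s hε
  have hnorm : ∀ z ∈ ball s ε, ‖Complex.exp (f z)‖ = Real.exp (u z) := by
    intro z hz
    rw [Complex.norm_exp]
    have := hfu hz
    simp only at this
    rw [← this]
  have h1 : ∀ᶠ z in 𝓝 s, DifferentiableAt ℂ (fun z => Complex.exp (f z)) z := by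
    filter_upwards [hball] with z hz
    exact (hf z hz).differentiableAt.cexp
  have h2 : IsLocalMax (norm ∘ fun z => Complex.exp (f z)) s := by
    filter_upwards [hball] with z hz
    simp only [Function.comp]
    rw [hnorm z hz, hnorm s (mem_ball_self hε)]
    exact Real.exp_le_exp.2 (hm z (hb hz))
  have h3 := Complex.norm_eventually_eq_of_isLocalMax h1 h2
  filter_upwards [hball, h3] with z hz hz3
  refine ⟨hb hz, ?_⟩
  rw [hnorm z hz, hnorm s (mem_ball_self hε)] at hz3
  exact Real.exp_injective hz3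

theorem periodic_max {η₁ η₂ M : ℝ} (h : η₁ < η₂) {u : ℂ → ℝ}
    (hc : ContinuousOn u {s | η₁ ≤ s.im ∧ s.im ≤ η₂}) (hh : HarmonicOnNhd u {s | η₁ < s.im ∧ s.im < η₂})
    (hp : ∀ s, u (s + 2 * Real.pi) = u s) (h1 : ∀ s, s.im = η₁ → u s ≤ M)
    (h2 : ∀ s, s.im = η₂ → u s ≤ M) : ∀ s, η₁ ≤ s.im → s.im ≤ η₂ → u s ≤ M := by
  intro s hs1 hs2
  by_contra hlt
  push Not at hlt
  have hpi := Real.pi_pos
  set R : Set ℂ := Icc (-Real.pi) Real.pi ×ℂ Icc η₁ η₂ with hR
  have hRc : IsCompact R := isCompact_Icc.reProdIm isCompact_Icc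
  have hRS : R ⊆ {s : ℂ | η₁ ≤ s.im ∧ s.im ≤ η₂} := by
    intro z hz
    rw [hR, Complex.mem_reProdIm] at hz
    exact ⟨hz.2.1, hz.2.2⟩
  have hred : ∀ z : ℂ, η₁ ≤ z.im → z.im ≤ η₂ → ∃ z' ∈ R, u z' = u z := by
    intro z hz1 hz2
    obtain ⟨n, hn⟩ := k3_red z.re
    refine ⟨z + ((-n : ℤ) : ℂ) * (2 * Real.pi), ?_, k3_per hp _ _⟩
    rw [hR, Complex.mem_reProdIm]
    have hre : (z + ((-n : ℤ) : ℂ) * (2 * Real.pi)).re = z.re - n * (2 * Real.pi) := by
      simp; ring
    have him : (z + ((-n : ℤ) : ℂ) * (2 * Real.pi)).im = z.im := by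
      simp
    rw [hre, him]
    exact ⟨abs_le.1 hn, hz1, hz2⟩
  obtain ⟨s0, hs0, hs0u⟩ := hred s hs1 hs2
  obtain ⟨m0, hm0, hmax⟩ := hRc.exists_isMaxOn ⟨s0, hs0⟩ (hc.mono hRS)
  have hmaxall : ∀ z : ℂ, η₁ ≤ z.im → z.im ≤ η₂ → u z ≤ u m0 := by
    intro z hz1 hz2
    obtain ⟨z', hz', hzz⟩ := hred z hz1 hz2
    rw [← hzz]
    exact hmax hz'
  have hMm : M < u m0 := lt_of_lt_of_le hlt (hmaxall s hs1 hs2)
  have hAc : IsCompact (R ∩ u ⁻¹' {u m0}) := by
    refine hRc.of_isClosed_subset ?_ inter_subset_left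
    exact (hc.mono hRS).preimage_isClosed_of_isClosed hRc.isClosed isClosed_singleton
  obtain ⟨s1, hs1A, hs1m⟩ := hAc.exists_isMaxOn ⟨m0, hm0, rfl⟩ Complex.continuous_im.continuousOn
  have hs1R := hs1A.1
  have hs1u : u s1 = u m0 := hs1A.2
  have hs1' := hs1R
  rw [hR, Complex.mem_reProdIm] at hs1'
  have hi1 : η₁ < s1.im := lt_of_le_of_ne hs1'.2.1 (by
    intro he
    have := h1 s1 he.symm
    linarith)
  have hi2 : s1.im < η₂ := lt_of_le_of_ne hs1'.2.2 (by
    intro he
    have := h2 s1 he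
    linarith)
  have hopen : IsOpen {s : ℂ | η₁ < s.im ∧ s.im < η₂} :=
    (isOpen_lt continuous_const Complex.continuous_im).inter
      (isOpen_lt Complex.continuous_im continuous_const)
  have hev := k3_locmax hopen hh (s := s1) ⟨hi1, hi2⟩ (by
    intro z hz
    rw [hs1u]
    exact hmaxall z hz.1.le hz.2.le)
  have htend : Tendsto (fun t : ℝ => s1 + (t : ℂ) * I) (𝓝[>] 0) (𝓝 s1) := by
    have : Continuous (fun t : ℝ => s1 + (t : ℂ) * I) := by fun_prop
    have h0 := this.tendsto 0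
    simp only [Complex.ofReal_zero, zero_mul, add_zero] at h0
    exact h0.mono_left nhdsWithin_le_nhds
  obtain ⟨t, ht, htpos⟩ := ((htend.eventually hev).and self_mem_nhdsWithin).exists
  have htpos' : 0 < t := htpos
  have hre : (s1 + (t : ℂ) * I).re = s1.re := by simp
  have him : (s1 + (t : ℂ) * I).im = s1.im + t := by simp
  have hmem : s1 + (t : ℂ) * I ∈ R ∩ u ⁻¹' {u m0} := by
    refine ⟨?_, ?_⟩
    · rw [hR, Complex.mem_reProdIm, hre]
      exact ⟨hs1'.1, ht.1.1.le, ht.1.2.le⟩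
    · simp only [mem_preimage, mem_singleton_iff]
      rw [ht.2, hs1u]
  have := hs1m hmem
  simp only [mem_setOf_eq] at this
  rw [him] at this
  linarith

private theorem k3_seg_closed : IsClosed seg := by
  unfold seg
  exact (isClosed_eq Complex.continuous_im continuous_const).inter
    (isClosed_le Complex.continuous_re.abs continuous_const)

private theorem k3_cos_im (x : ℂ) : (Complex.cos x).im = - (Real.sin x.re * Real.sinh x.im) := by
  rw [Complex.cos_eq]
  simp [Complex.cos_ofReal_re, Complex.sin_ofReal_re, Complex.cosh_ofReal_re,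
    Complex.sinh_ofReal_re, Complex.sub_im, Complex.mul_im, Complex.mul_re]

private theorem k3_cos_re (x : ℂ) : (Complex.cos x).re = Real.cos x.re * Real.cosh x.im := by
  rw [Complex.cos_eq]
  simp [Complex.cos_ofReal_re, Complex.sin_ofReal_re, Complex.cosh_ofReal_re,
    Complex.sinh_ofReal_re, Complex.sub_re, Complex.mul_im, Complex.mul_re]

private theorem k3_notMem {q : ℝ} (hq : 0 < q) {x : ℂ} (h : x.im ≠ 0) :
    ((1 + q : ℝ) : ℂ) * Complex.cos x ∉ seg := by
  rintro ⟨h1, h2⟩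
  rw [Complex.re_ofReal_mul, k3_cos_re] at h2
  rw [Complex.im_ofReal_mul, k3_cos_im] at h1
  have hsinh : Real.sinh x.im ≠ 0 := by
    rwa [Ne, Real.sinh_eq_zero]
  have hs : Real.sin x.re = 0 := by
    have h3 : (1 + q) ≠ 0 := by positivity
    have h4 := (mul_eq_zero.1 h1).resolve_left h3
    exact (mul_eq_zero.1 (neg_eq_zero.1 h4)).resolve_right hsinh
  have hcos : |Real.cos x.re| = 1 := by
    have := Real.sin_sq_add_cos_sq x.re
    rw [hs] at this
    have h5 : Real.cos x.re ^ 2 = 1 := by nlinarith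
    rw [← sq_abs] at h5
    have h6 := abs_nonneg (Real.cos x.re)
    nlinarith
  have hcosh : 1 < Real.cosh x.im := Real.one_lt_cosh.2 h
  rw [abs_mul, abs_mul, hcos, abs_of_pos (by positivity : 0 < 1 + q), one_mul,
    abs_of_pos (Real.cosh_pos _)] at h2
  nlinarith

private theorem k3_W_open (q : ℝ) :
    IsOpen {x : ℂ | |x.im| < 2 ∧ ((1 + q : ℝ) : ℂ) * Complex.cos x ∉ seg} := by
  have h2 : IsOpen ((fun x : ℂ => ((1 + q : ℝ) : ℂ) * Complex.cos x) ⁻¹' seg)ᶜ :=
    (k3_seg_closed.preimage (by fun_prop)).isOpen_compl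
  exact (isOpen_lt Complex.continuous_im.abs continuous_const).inter h2

private theorem k3_strip_convex (a b : ℝ) : Convex ℝ {x : ℂ | a < x.im ∧ x.im < b} := by
  have : {x : ℂ | a < x.im ∧ x.im < b} = Complex.imLm ⁻¹' (Ioo a b) := by
    ext x; rfl
  rw [this]
  exact (convex_Ioo a b).linear_preimage _

private theorem k3_W_conn {q : ℝ} (hq : 0 < q) :
    IsPreconnected {x : ℂ | |x.im| < 2 ∧ ((1 + q : ℝ) : ℂ) * Complex.cos x ∉ seg} := by
  have hup : IsPreconnected {x : ℂ | 0 < x.im ∧ x.im < 2} := (k3_strip_convex 0 2).isPreconnected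
  have hlo : IsPreconnected {x : ℂ | -2 < x.im ∧ x.im < 0} := (k3_strip_convex (-2) 0).isPreconnected
  set W := {x : ℂ | |x.im| < 2 ∧ ((1 + q : ℝ) : ℂ) * Complex.cos x ∉ seg} with hW
  have h1 : IsPreconnected (W ∩ {x : ℂ | 0 ≤ x.im}) := by
    refine hup.subset_closure ?_ ?_
    · intro x hx
      refine ⟨⟨?_, k3_notMem hq hx.1.ne'⟩, hx.1.le⟩
      rw [abs_of_pos hx.1]; exact hx.2
    · intro x hx
      have hx2 : x.im < 2 := (abs_lt.1 hx.1.1).2
      have hx0 : 0 ≤ x.im := hx.2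
      have htend : Tendsto (fun t : ℝ => x + (t : ℂ) * I) (𝓝[>] 0) (𝓝 x) := by
        have : Continuous (fun t : ℝ => x + (t : ℂ) * I) := by fun_prop
        have h0 := this.tendsto 0
        simp only [Complex.ofReal_zero, zero_mul, add_zero] at h0
        exact h0.mono_left nhdsWithin_le_nhds
      refine mem_closure_of_tendsto htend ?_
      have : ∀ᶠ t : ℝ in 𝓝[>] 0, t < 2 - x.im :=
        nhdsWithin_le_nhds (Iio_mem_nhds (by linarith))
      filter_upwards [this, self_mem_nhdsWithin] with t ht ht0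
      have ht0' : 0 < t := ht0
      constructor
      · simp; linarith
      · simp; linarith
  have h2 : IsPreconnected (W ∩ {x : ℂ | x.im ≤ 0}) := by
    refine hlo.subset_closure ?_ ?_
    · intro x hx
      refine ⟨⟨?_, k3_notMem hq hx.2.ne⟩, hx.2.le⟩
      rw [abs_of_neg hx.2]; linarith [hx.1]
    · intro x hx
      have hx2 : -2 < x.im := (abs_lt.1 hx.1.1).1
      have hx0 : x.im ≤ 0 := hx.2
      have htend : Tendsto (fun t : ℝ => x - (t : ℂ) * I) (𝓝[>] 0) (𝓝 x) := by
        have : Continuous (fun t : ℝ => x - (t : ℂ) * I) := by fun_prop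
        have h0 := this.tendsto 0
        simp only [Complex.ofReal_zero, zero_mul, sub_zero] at h0
        exact h0.mono_left nhdsWithin_le_nhds
      refine mem_closure_of_tendsto htend ?_
      have : ∀ᶠ t : ℝ in 𝓝[>] 0, t < 2 + x.im :=
        nhdsWithin_le_nhds (Iio_mem_nhds (by linarith))
      filter_upwards [this, self_mem_nhdsWithin] with t ht ht0
      have ht0' : 0 < t := ht0
      constructor
      · simp; linarith
      · simp; linarith
  have h0W : (0 : ℂ) ∈ W := by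
    refine ⟨by simp, ?_⟩
    rintro ⟨_, h2⟩
    rw [Complex.cos_zero, mul_one, Complex.ofReal_re, abs_of_pos (by positivity)] at h2
    linarith
  have m1 : (0 : ℂ) ∈ W ∩ {x : ℂ | 0 ≤ x.im} := ⟨h0W, by simp⟩
  have m2 : (0 : ℂ) ∈ W ∩ {x : ℂ | x.im ≤ 0} := ⟨h0W, by simp⟩
  have h3 := IsPreconnected.union (0 : ℂ) m1 m2 h1 h2
  have h4 : W = W ∩ {x : ℂ | 0 ≤ x.im} ∪ W ∩ {x : ℂ | x.im ≤ 0} := by
    ext x
    constructor
    · intro hx
      rcases le_total 0 x.im with h | h
      · exact Or.inl ⟨hx, h⟩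
      · exact Or.inr ⟨hx, h⟩
    · rintro (hx | hx)
      · exact hx.1
      · exact hx.1
  rw [h4]
  exact h3

private theorem k3_W_shift {q : ℝ} {x : ℂ} (n : ℤ) :
    (|(x + n * (2 * Real.pi)).im| < 2 ∧
      ((1 + q : ℝ) : ℂ) * Complex.cos (x + n * (2 * Real.pi)) ∉ seg) ↔
    (|x.im| < 2 ∧ ((1 + q : ℝ) : ℂ) * Complex.cos x ∉ seg) := by
  have h1 : Complex.cos (x + n * (2 * Real.pi)) = Complex.cos x :=
    Complex.cos_periodic.int_mul n x
  have h2 : (x + n * (2 * Real.pi) : ℂ).im = x.im := by simp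
  rw [h1, h2]

private theorem k3_harm_shift {u : ℂ → ℝ} {a x : ℂ} (h : HarmonicAt u (x + a)) :
    HarmonicAt (fun w => u (w + a)) x :=
  harmonicAt_comp (φ := fun w => w + a) h (analyticAt_id.add analyticAt_const)

theorem gap_harnack {q : ℝ} (hq : 0 < q) : ∃ A : ℝ, 0 < A ∧ ∀ u : ℂ → ℝ,
    HarmonicOnNhd u {x | |x.im| < 2 ∧ ((1 + q : ℝ) : ℂ) * Complex.cos x ∉ seg} →
    (∀ x, |x.im| < 2 → ((1 + q : ℝ) : ℂ) * Complex.cos x ∉ seg → 0 < u x) →
    ∀ x : ℝ, u (x + I) ≤ A * u (x - I) := by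
  have hpi := Real.pi_pos
  set C : Set ℂ := (Icc (-Real.pi) Real.pi) ×ℂ ({1, -1} : Set ℝ) with hC
  have hCc : IsCompact C := isCompact_Icc.reProdIm (Set.toFinite _).isCompact
  have hCW : C ⊆ {x : ℂ | |x.im| < 2 ∧ ((1 + q : ℝ) : ℂ) * Complex.cos x ∉ seg} := by
    intro x hx
    rw [hC, Complex.mem_reProdIm] at hx
    have h1 : x.im = 1 ∨ x.im = -1 := by simpa using hx.2
    refine ⟨?_, k3_notMem hq ?_⟩
    · rcases h1 with h1 | h1 <;> rw [h1] <;> norm_num
    · rcases h1 with h1 | h1 <;> rw [h1] <;> norm_num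
  obtain ⟨A, hA, hAu⟩ := harnack_compact (k3_W_open q) (k3_W_conn hq) hCc hCW
  refine ⟨A, hA, ?_⟩
  intro u hu hpos x
  obtain ⟨n, hn⟩ := k3_red x
  have key := hAu (fun w => u (w + n * (2 * Real.pi))) ?_ ?_
    ((x - n * (2 * Real.pi) : ℝ) + I) ?_ ((x - n * (2 * Real.pi) : ℝ) - I) ?_
  · have e1 : ((x - n * (2 * Real.pi) : ℝ) : ℂ) + I + n * (2 * Real.pi) = x + I := by
      push_cast; ring
    have e2 : ((x - n * (2 * Real.pi) : ℝ) : ℂ) - I + n * (2 * Real.pi) = x - I := by
      push_cast; ring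
    simp only [e1, e2] at key
    exact key
  · intro w hw
    refine k3_harm_shift (hu _ ?_)
    exact (k3_W_shift n).2 hw
  · intro w hw
    have := (k3_W_shift (q := q) n).2 hw
    exact hpos _ this.1 this.2
  · rw [hC, Complex.mem_reProdIm]
    refine ⟨?_, ?_⟩
    · have : (((x - n * (2 * Real.pi) : ℝ) : ℂ) + I).re = x - n * (2 * Real.pi) := by
        rw [Complex.add_re, Complex.ofReal_re, Complex.I_re, add_zero]
      rw [this]
      exact abs_le.1 hn
    · have : (((x - n * (2 * Real.pi) : ℝ) : ℂ) + I).im = 1 := by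
        rw [Complex.add_im, Complex.ofReal_im, Complex.I_im, zero_add]
      rw [this]
      simp
  · rw [hC, Complex.mem_reProdIm]
    refine ⟨?_, ?_⟩
    · have : (((x - n * (2 * Real.pi) : ℝ) : ℂ) - I).re = x - n * (2 * Real.pi) := by
        rw [Complex.sub_re, Complex.ofReal_re, Complex.I_re, sub_zero]
      rw [this]
      exact abs_le.1 hn
    · have : (((x - n * (2 * Real.pi) : ℝ) : ℂ) - I).im = -1 := by
        rw [Complex.sub_im, Complex.ofReal_im, Complex.I_im, zero_sub]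
      rw [this]
      simp

private theorem k3_line {H : ℝ} (hH : 0 < H) : ∃ A : ℝ, 0 < A ∧ ∀ u : ℂ → ℝ,
    HarmonicOnNhd u {s : ℂ | 0 < s.im ∧ s.im < H} → (∀ s : ℂ, 0 < s.im → s.im < H → 0 < u s) →
    (∀ s, u (s + 2 * Real.pi) = u s) → ∀ s t : ℂ, s.im = H / 2 → t.im = H / 2 → u s ≤ A * u t := by
  have hpi := Real.pi_pos
  set C : Set ℂ := (Icc (-Real.pi) Real.pi) ×ℂ ({H / 2} : Set ℝ) with hC
  have hCc : IsCompact C := isCompact_Icc.reProdIm isCompact_singleton
  have hCU : C ⊆ {s : ℂ | 0 < s.im ∧ s.im < H} := by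
    intro x hx
    rw [hC, Complex.mem_reProdIm] at hx
    have h1 : x.im = H / 2 := by simpa using hx.2
    refine ⟨?_, ?_⟩
    · rw [h1]; linarith
    · rw [h1]; linarith
  have hUo : IsOpen {s : ℂ | 0 < s.im ∧ s.im < H} :=
    (isOpen_lt continuous_const Complex.continuous_im).inter
      (isOpen_lt Complex.continuous_im continuous_const)
  obtain ⟨A, hA, hAu⟩ := harnack_compact hUo (k3_strip_convex 0 H).isPreconnected hCc hCU
  refine ⟨A, hA, ?_⟩
  intro u hu hpos hper s t hs ht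
  have hred : ∀ z : ℂ, z.im = H / 2 → ∃ z' ∈ C, u z' = u z := by
    intro z hz
    obtain ⟨n, hn⟩ := k3_red z.re
    refine ⟨z + ((-n : ℤ) : ℂ) * (2 * Real.pi), ?_, k3_per hper _ _⟩
    rw [hC, Complex.mem_reProdIm]
    have hre : (z + ((-n : ℤ) : ℂ) * (2 * Real.pi)).re = z.re - n * (2 * Real.pi) := by
      simp; ring
    have him : (z + ((-n : ℤ) : ℂ) * (2 * Real.pi)).im = z.im := by
      simp
    rw [hre, him]
    exact ⟨abs_le.1 hn, by simpa using hz⟩
  obtain ⟨s', hs', hsu⟩ := hred s hs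
  obtain ⟨t', ht', htu⟩ := hred t ht
  have := hAu u hu (fun z hz => hpos z hz.1 hz.2) s' hs' t' ht'
  rwa [hsu, htu] at this

theorem sharing {G : Geo} (hG : G.OK) {q : ℝ} (hq : 0 < q) :
    ∃ c > 0, c ≤ 1 ∧ ∃ r₁ : ℕ, ∀ r ≥ r₁, ∀ K L, PosH (G.step q r).E K L → ∀ i, ∀ s : ℂ,
      1 / 2 ^ r ≤ s.im → s.im ≤ G.H / 2 → c * K (G.Z i s) ≤ K (G.Z i (-conj s)) := by
  obtain ⟨A₁, hA₁, hgap⟩ := gap_harnack hq
  have hH := hG.H_pos
  obtain ⟨A₂, hA₂, hline⟩ := k3_line hH
  set A := max (max A₁ A₂) 1 with hA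
  have hA1 : 1 ≤ A := le_max_right _ _
  have hA1' : A₁ ≤ A := le_trans (le_max_left _ _) (le_max_left _ _)
  have hA2' : A₂ ≤ A := le_trans (le_max_right _ _) (le_max_left _ _)
  have hApos : 0 < A := by linarith
  obtain ⟨r₁, hr₁⟩ := pow_unbounded_of_one_lt (2 / G.H) (one_lt_two : (1 : ℝ) < 2)
  refine ⟨1 / A, by positivity, ?_, r₁, ?_⟩
  · rw [div_le_one hApos]; exact hA1
  intro r hr K L hK i s hs1 hs2
  have h2r : (0 : ℝ) < 2 ^ r := by positivity
  have hrH : 2 < 2 ^ r * G.H := by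
    have h3 : (2 : ℝ) ^ r₁ ≤ 2 ^ r := pow_le_pow_right₀ one_le_two hr
    have h4 : 2 / G.H < 2 ^ r := lt_of_lt_of_le hr₁ h3
    rwa [div_lt_iff₀ hH] at h4
  -- the function in the chart
  have hnE : ∀ z : ℂ, |z.im| < G.H → z.im ≠ 0 → G.Z i z ∉ (G.step q r).E := by
    intro z hz hz0 hmem
    exact hG.Z_notMem i hz hz0 (hG.step_E_subset hq r hmem)
  have hKh : ∀ z : ℂ, |z.im| < G.H → z.im ≠ 0 → HarmonicAt (fun w => K (G.Z i w)) z := by
    intro z hz hz0
    exact harmonicAt_comp (hK.harm _ (hnE z hz hz0)) (hG.analyticAt_Z i hz)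
  have hKp : ∀ z : ℂ, |z.im| < G.H → z.im ≠ 0 → 0 < K (G.Z i z) := by
    intro z hz hz0
    exact hK.pos _ (hnE z hz hz0)
  have hper : ∀ z, K (G.Z i (z + 2 * Real.pi)) = K (G.Z i z) := by
    intro z
    rw [Geo.Z_periodic]
  -- lower line
  have hlow : ∀ z : ℂ, z.im = 1 / 2 ^ r → K (G.Z i z) ≤ A * K (G.Z i (conj z)) := by
    intro z hz
    have hscale : ∀ w : ℂ, (w / 2 ^ r).im = w.im / 2 ^ r := by
      intro w
      have : (w / 2 ^ r : ℂ) = w / ((2 ^ r : ℝ) : ℂ) := by push_cast; rfl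
      rw [this, Complex.div_ofReal_im]
    have himlt : ∀ w : ℂ, |w.im| < 2 → |(w / 2 ^ r).im| < G.H := by
      intro w hw
      rw [hscale, abs_div, abs_of_pos h2r, div_lt_iff₀ h2r]
      linarith
    have hmul : ∀ w : ℂ, (2 : ℂ) ^ r * (w / 2 ^ r) = w := by
      intro w
      have : (2 : ℂ) ^ r ≠ 0 := pow_ne_zero _ two_ne_zero
      field_simp
    have hnot : ∀ w : ℂ, |w.im| < 2 → ((1 + q : ℝ) : ℂ) * Complex.cos w ∉ seg →
        G.Z i (w / 2 ^ r) ∉ (G.step q r).E := by
      intro w hw hw2 hmem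
      have h5 : (G.step q r).F (G.Z i (w / 2 ^ r)) ∈ seg := hmem
      rw [hG.step_F_Z r i (himlt w hw), hmul] at h5
      exact hw2 h5
    have hg := hgap (fun w => K (G.Z i (w / 2 ^ r))) ?_ ?_ (2 ^ r * z.re)
    · have e1 : (((2 ^ r * z.re : ℝ) : ℂ) + I) / 2 ^ r = z := by
        have h6 : (2 : ℂ) ^ r ≠ 0 := pow_ne_zero _ two_ne_zero
        rw [div_eq_iff h6]
        apply Complex.ext
        · rw [Complex.add_re, Complex.ofReal_re, Complex.I_re, add_zero]
          have : (z * 2 ^ r).re = z.re * 2 ^ r := by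
            have : (z * 2 ^ r : ℂ) = z * ((2 ^ r : ℝ) : ℂ) := by push_cast; rfl
            rw [this, Complex.re_mul_ofReal]
          rw [this]; ring
        · rw [Complex.add_im, Complex.ofReal_im, Complex.I_im, zero_add]
          have : (z * 2 ^ r).im = z.im * 2 ^ r := by
            have : (z * 2 ^ r : ℂ) = z * ((2 ^ r : ℝ) : ℂ) := by push_cast; rfl
            rw [this, Complex.im_mul_ofReal]
          rw [this, hz]
          field_simp
      have e2 : (((2 ^ r * z.re : ℝ) : ℂ) - I) / 2 ^ r = conj z := by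
        have e0 : (starRingEnd ℂ) ((((2 ^ r * z.re : ℝ) : ℂ) + I) / 2 ^ r)
            = (((2 ^ r * z.re : ℝ) : ℂ) - I) / 2 ^ r := by
          have : (starRingEnd ℂ) 2 = 2 := Complex.conj_ofNat 2
          rw [map_div₀, map_add, Complex.conj_ofReal, Complex.conj_I, map_pow, this]
          ring
        rw [← e0, e1]
      simp only [e1, e2] at hg
      refine hg.trans ?_
      have hz' : |(conj z).im| < G.H := by
        rw [Complex.conj_im, abs_neg, hz, abs_of_pos (by positivity), div_lt_iff₀ h2r]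
        linarith
      have hz0 : (conj z).im ≠ 0 := by
        rw [Complex.conj_im, hz]
        exact neg_ne_zero.2 (by positivity)
      exact mul_le_mul_of_nonneg_right hA1' (hKp _ hz' hz0).le
    · intro w hw
      refine harmonicAt_comp (φ := fun w => G.Z i (w / 2 ^ r)) (hK.harm _ (hnot w hw.1 hw.2)) ?_
      have h7 : AnalyticAt ℂ (fun w : ℂ => w / 2 ^ r) w :=
        analyticAt_id.div analyticAt_const (pow_ne_zero _ two_ne_zero)
      exact AnalyticAt.comp' (hG.analyticAt_Z i (himlt w hw.1)) h7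
    · intro w hw hw2
      exact hK.pos _ (hnot w hw hw2)
  have hconj : ∀ z : ℂ, G.Z i (-conj z) = G.Z i (conj z) := fun z => Geo.Z_neg i _
  -- upper line
  have hupp : ∀ z : ℂ, z.im = G.H / 2 → K (G.Z i z) ≤ A * K (G.Z i (conj z)) := by
    intro z hz
    have h8 := hline (fun w => K (G.Z i w)) ?_ ?_ hper z (-conj z) hz ?_
    · simp only [hconj] at h8
      refine h8.trans ?_
      have hz' : |(conj z).im| < G.H := by
        rw [Complex.conj_im, abs_neg, hz, abs_of_pos (by positivity)]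
        linarith
      have hz0 : (conj z).im ≠ 0 := by
        rw [Complex.conj_im, hz]
        exact neg_ne_zero.2 (by positivity)
      exact mul_le_mul_of_nonneg_right hA2' (hKp _ hz' hz0).le
    · intro w hw
      exact hKh w (by rw [abs_of_pos hw.1]; exact hw.2) hw.1.ne'
    · intro w hw1 hw2
      exact hKp w (by rw [abs_of_pos hw1]; exact hw2) hw1.ne'
    · rw [Complex.neg_im, Complex.conj_im, neg_neg, hz]
  have hlt : 1 / 2 ^ r < G.H / 2 := by
    rw [div_lt_div_iff₀ h2r two_pos]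
    linarith
  have hharm : ∀ z : ℂ, |z.im| < G.H → z.im ≠ 0 →
      HarmonicAt (fun w => K (G.Z i w) - A * K (G.Z i (conj w))) z := by
    intro z hz hz0
    have h9 : HarmonicAt (fun w => K (G.Z i (conj w))) z := by
      refine harmonicAt_comp_conj (u := fun w => K (G.Z i w)) ?_
      refine hKh _ ?_ ?_
      · rwa [Complex.conj_im, abs_neg]
      · rw [Complex.conj_im]; exact neg_ne_zero.2 hz0
    have h10 : HarmonicAt (fun w => A * K (G.Z i (conj w))) z := by
      have := h9.const_smul (c := A)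
      simpa [Pi.smul_def, smul_eq_mul] using this
    exact (hKh z hz hz0).sub h10
  have hfin := periodic_max hlt (u := fun w => K (G.Z i w) - A * K (G.Z i (conj w))) (M := 0)
    ?_ ?_ ?_ ?_ ?_ s hs1 hs2
  · rw [hconj]
    rw [div_mul_eq_mul_div, one_mul, div_le_iff₀ hApos]
    linarith
  · intro z hz
    have hz0 : 0 < z.im := lt_of_lt_of_le (by positivity) hz.1
    have hz1 : |z.im| < G.H := by
      rw [abs_of_pos hz0]
      have := hz.2
      linarith
    have := hharm z hz1 hz0.ne'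
    exact this.1.continuousAt.continuousWithinAt
  · intro z hz
    have hz0 : 0 < z.im := lt_trans (by positivity) hz.1
    have hz1 : |z.im| < G.H := by
      rw [abs_of_pos hz0]
      have := hz.2
      linarith
    exact hharm z hz1 hz0.ne'
  · intro z
    have e3 : conj (z + 2 * Real.pi) = -(-conj z + ((-1 : ℤ) : ℂ) * (2 * Real.pi)) := by
      have : (starRingEnd ℂ) 2 = 2 := Complex.conj_ofNat 2
      rw [map_add, map_mul, Complex.conj_ofReal, this]
      push_cast
      ring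
    rw [hper, e3, Geo.Z_neg]
    have e4 : K (G.Z i (-conj z + ((-1 : ℤ) : ℂ) * (2 * Real.pi))) = K (G.Z i (-conj z)) :=
      k3_per (u := fun w => K (G.Z i w)) hper (-1) (-conj z)
    rw [e4, hconj]
  · intro z hz
    have := hlow z hz
    linarith
  · intro z hz
    have := hupp z hz
    linarith

end Pool.Agent.NH
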