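import Pool.Agent.Lib.MP_00644e_an.Defs
import Pool.Agent.Lib.MP_00644e_an.T3
import Pool.Agent.Lib.MP_00644e_an.G7
/-! # Row K5: the cost integral in a chart

PROOF. `cost_chart`: change of variables `v = Z i s` (`lintegral_image_eq_lintegral_abs_det_fderiv_mul`, injective by `injOn_Z`, the
real Jacobian of a holomorphic map is `‖deriv‖²`, e.g. `Complex.det`-type lemma); the image is contained in `{η₁/N ≤ g}` (`g_Z`);
`norm_fderiv_comp` twice. `strip_cost`: `{s | -π<Re s<π, η₁<Im s<η₂}` as a product (`Complex.volume_preserving_equiv_real_prod`), Tonelli;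
for fixed `η`: substitute `θ ↦ -θ` in one half, `-conj (θ+iη) = -θ+iη`:
`2 ∫ φ κ = ∫ (φ(s) κ(s) + φ(-conj s) κ(-conj s)) ≥ c ∫ (φ(s) + φ(-conj s)) κ(s)`. -/

set_option autoImplicit false

open Complex Metric Set Filter Topology MeasureTheory InnerProductSpace ComplexConjugate

noncomputable section

namespace Pool.Agent.NH

namespace K5

theorem det_smul_one (z : ℂ) : ((z • (1 : ℂ →L[ℝ] ℂ)) : ℂ →L[ℝ] ℂ).det = ‖z‖ ^ 2 := by
  have h1 : (((z • (1 : ℂ →L[ℝ] ℂ)) : ℂ →L[ℝ] ℂ) : ℂ →ₗ[ℝ] ℂ) = Algebra.lmul ℝ ℂ z := by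
    ext
    simp
  have h2 : ((z • (1 : ℂ →L[ℝ] ℂ)) : ℂ →L[ℝ] ℂ).det =
      LinearMap.det (((z • (1 : ℂ →L[ℝ] ℂ)) : ℂ →L[ℝ] ℂ) : ℂ →ₗ[ℝ] ℂ) := rfl
  rw [h2, h1, ← Algebra.norm_apply, Algebra.norm_complex_apply, Complex.sq_norm]

end K5

theorem cost_chart {G : Geo} (hG : G.OK) (i : G.ι) {f g K : ℂ → ℝ}
    (hf : ∀ v ∉ G.E, DifferentiableAt ℝ f v) (hg : ∀ v ∉ G.E, DifferentiableAt ℝ g v)
    {η₁ η₂ : ℝ} (h1 : 0 < η₁) (h2 : η₂ ≤ G.H) :
    ∫⁻ s in {s : ℂ | -Real.pi < s.re ∧ s.re < Real.pi ∧ η₁ < s.im ∧ s.im < η₂},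
        ENNReal.ofReal (‖fderiv ℝ (fun s => f (G.Z i s)) s‖ * ‖fderiv ℝ (fun s => g (G.Z i s)) s‖ *
          K (G.Z i s)) ≤
      ∫⁻ v in {v : ℂ | η₁ / G.N ≤ G.g v},
        ENNReal.ofReal (‖fderiv ℝ f v‖ * ‖fderiv ℝ g v‖ * K v) := by
  set S : Set ℂ := {s : ℂ | -Real.pi < s.re ∧ s.re < Real.pi ∧ η₁ < s.im ∧ s.im < η₂} with hS
  have hSo : IsOpen S := by
    refine (isOpen_lt continuous_const Complex.continuous_re).inter
      ((isOpen_lt Complex.continuous_re continuous_const).inter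
        ((isOpen_lt continuous_const Complex.continuous_im).inter
          (isOpen_lt Complex.continuous_im continuous_const)))
  have hSm : MeasurableSet S := hSo.measurableSet
  have hpos : ∀ s ∈ S, 0 < s.im ∧ |s.im| < G.H := by
    rintro s ⟨-, -, h3, h4⟩
    have h5 : 0 < s.im := h1.trans h3
    exact ⟨h5, by rw [abs_of_pos h5]; exact h4.trans_le h2⟩
  have hinj : InjOn (G.Z i) S := by
    refine (hG.injOn_Z i).mono ?_
    rintro s ⟨h3, h4, h5, h6⟩
    exact ⟨h3, h4, h1.trans h5, h6.trans_le h2⟩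
  have hder : ∀ s ∈ S, HasFDerivWithinAt (G.Z i) (deriv (G.Z i) s • (1 : ℂ →L[ℝ] ℂ)) S s := by
    intro s hs
    exact ((hG.analyticAt_Z i (hpos s hs).2).differentiableAt.hasDerivAt.complexToReal_fderiv).hasFDerivWithinAt
  have himg : G.Z i '' S ⊆ {v : ℂ | η₁ / G.N ≤ G.g v} := by
    rintro _ ⟨s, hs, rfl⟩
    change η₁ / G.N ≤ G.g (G.Z i s)
    rw [hG.g_Z i (hpos s hs).2, abs_of_pos (hpos s hs).1]
    have hN : 0 < G.N := lt_of_lt_of_le one_pos hG.hN
    exact (div_le_div_iff_of_pos_right hN).2 hs.2.2.1.le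
  calc ∫⁻ s in S, ENNReal.ofReal (‖fderiv ℝ (fun s => f (G.Z i s)) s‖ *
        ‖fderiv ℝ (fun s => g (G.Z i s)) s‖ * K (G.Z i s))
      = ∫⁻ s in S, ENNReal.ofReal |(deriv (G.Z i) s • (1 : ℂ →L[ℝ] ℂ)).det| *
          ENNReal.ofReal (‖fderiv ℝ f (G.Z i s)‖ * ‖fderiv ℝ g (G.Z i s)‖ * K (G.Z i s)) := by
        refine setLIntegral_congr_fun hSm (fun s hs => ?_)
        have hne : G.Z i s ∉ G.E := hG.Z_notMem i (hpos s hs).2 (hpos s hs).1.ne'
        have hd : DifferentiableAt ℂ (G.Z i) s :=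
          (hG.analyticAt_Z i (hpos s hs).2).differentiableAt
        rw [K5.det_smul_one, abs_of_nonneg (by positivity),
          norm_fderiv_comp (hf _ hne) hd, norm_fderiv_comp (hg _ hne) hd,
          ← ENNReal.ofReal_mul (by positivity)]
        congr 1
        ring
    _ = ∫⁻ v in G.Z i '' S, ENNReal.ofReal (‖fderiv ℝ f v‖ * ‖fderiv ℝ g v‖ * K v) :=
        (lintegral_image_eq_lintegral_abs_det_fderiv_mul volume hSm hder hinj
          (fun v => ENNReal.ofReal (‖fderiv ℝ f v‖ * ‖fderiv ℝ g v‖ * K v))).symm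
    _ ≤ _ := lintegral_mono_set himg

/-- Symmetrisation `s ↦ -conj s` in a periodic strip, `φ` a gradient norm, `κ` the kernel. -/
theorem strip_cost {φ κ : ℂ → ℝ} {c D η₁ η₂ : ℝ} (hc : 0 < c) (hc1 : c ≤ 1) (hD : 0 ≤ D)
    (hφc : ContinuousOn φ {s | η₁ < s.im ∧ s.im < η₂}) (hκc : ContinuousOn κ {s | η₁ < s.im ∧ s.im < η₂})
    (hφ : ∀ s : ℂ, η₁ < s.im → s.im < η₂ → 0 ≤ φ s) (hκ : ∀ s : ℂ, η₁ < s.im → s.im < η₂ → 0 ≤ κ s)
    (hs : ∀ s : ℂ, η₁ < s.im → s.im < η₂ → c * κ s ≤ κ (-conj s))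
    (hφD : ∀ s : ℂ, η₁ < s.im → s.im < η₂ → D ≤ φ s + φ (-conj s)) :
    ENNReal.ofReal (c / 2 * D) *
        ∫⁻ η in Ioo η₁ η₂, ENNReal.ofReal (∫ θ in (-Real.pi)..Real.pi, κ (θ + η * I)) ≤
      ∫⁻ s in {s : ℂ | -Real.pi < s.re ∧ s.re < Real.pi ∧ η₁ < s.im ∧ s.im < η₂},
        ENNReal.ofReal (φ s * κ s) := by
  have hpi := Real.pi_pos
  set S : Set ℂ := {s : ℂ | -Real.pi < s.re ∧ s.re < Real.pi ∧ η₁ < s.im ∧ s.im < η₂} with hS
  have hSo : IsOpen S := by
    refine (isOpen_lt continuous_const Complex.continuous_re).inter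
      ((isOpen_lt Complex.continuous_re continuous_const).inter
        ((isOpen_lt continuous_const Complex.continuous_im).inter
          (isOpen_lt Complex.continuous_im continuous_const)))
  have hSm : MeasurableSet S := hSo.measurableSet
  -- one line
  have hline : ∀ η : ℝ, η₁ < η → η < η₂ →
      ENNReal.ofReal (c / 2 * D) * ENNReal.ofReal (∫ θ in (-Real.pi)..Real.pi, κ (θ + η * I)) ≤
        ∫⁻ θ in Ioo (-Real.pi) Real.pi, ENNReal.ofReal (φ (θ + η * I) * κ (θ + η * I)) := by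
    intro η hη1 hη2
    have him : ∀ θ : ℝ, ((θ : ℂ) + η * I).im = η := by
      intro θ
      simp
    have hmem : ∀ θ : ℝ, ((θ : ℂ) + η * I) ∈ {s : ℂ | η₁ < s.im ∧ s.im < η₂} := by
      intro θ
      change η₁ < ((θ : ℂ) + η * I).im ∧ ((θ : ℂ) + η * I).im < η₂
      rw [him]
      exact ⟨hη1, hη2⟩
    have hlc : Continuous fun θ : ℝ => ((θ : ℂ) + η * I) := by fun_prop
    have cφ : Continuous fun θ : ℝ => φ (θ + η * I) := hφc.comp_continuous hlc hmem
    have cκ : Continuous fun θ : ℝ => κ (θ + η * I) := hκc.comp_continuous hlc hmem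
    have hconj : ∀ θ : ℝ, -conj ((θ : ℂ) + η * I) = ((-θ : ℝ) : ℂ) + η * I := by
      intro θ
      simp only [map_add, map_mul, Complex.conj_ofReal, Complex.conj_I, Complex.ofReal_neg]
      ring
    have hsub : ∫ θ in (-Real.pi)..Real.pi, φ (((-θ : ℝ) : ℂ) + η * I) * κ (((-θ : ℝ) : ℂ) + η * I) =
        ∫ θ in (-Real.pi)..Real.pi, φ ((θ : ℂ) + η * I) * κ ((θ : ℂ) + η * I) := by
      have := intervalIntegral.integral_comp_neg (a := -Real.pi) (b := Real.pi)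
        (fun θ : ℝ => φ ((θ : ℂ) + η * I) * κ ((θ : ℂ) + η * I))
      rw [neg_neg] at this
      exact this
    have cprod : Continuous fun θ : ℝ => φ ((θ : ℂ) + η * I) * κ ((θ : ℂ) + η * I) := cφ.mul cκ
    have cprod' : Continuous fun θ : ℝ =>
        φ (((-θ : ℝ) : ℂ) + η * I) * κ (((-θ : ℝ) : ℂ) + η * I) :=
      cprod.comp continuous_neg
    have hreal : c / 2 * D * (∫ θ in (-Real.pi)..Real.pi, κ ((θ : ℂ) + η * I)) ≤
        ∫ θ in (-Real.pi)..Real.pi, φ ((θ : ℂ) + η * I) * κ ((θ : ℂ) + η * I) := by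
      have hm : ∫ θ in (-Real.pi)..Real.pi, c * D * κ ((θ : ℂ) + η * I) ≤
          ∫ θ in (-Real.pi)..Real.pi, (φ ((θ : ℂ) + η * I) * κ ((θ : ℂ) + η * I) +
            φ (((-θ : ℝ) : ℂ) + η * I) * κ (((-θ : ℝ) : ℂ) + η * I)) := by
        refine intervalIntegral.integral_mono_on (by linarith)
          ((cκ.const_mul (c * D)).intervalIntegrable _ _)
          ((cprod.add cprod').intervalIntegrable _ _) (fun θ _ => ?_)
        have m1 := hmem θ
        have m2 := hmem (-θ)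
        have a1 := hφ _ m1.1 m1.2
        have a2 := hφ _ m2.1 m2.2
        have a3 := hκ _ m1.1 m1.2
        have a4 := hs _ m1.1 m1.2
        have a5 := hφD _ m1.1 m1.2
        rw [hconj] at a4 a5
        have b1 : φ (((-θ : ℝ) : ℂ) + η * I) * (c * κ ((θ : ℂ) + η * I)) ≤
            φ (((-θ : ℝ) : ℂ) + η * I) * κ (((-θ : ℝ) : ℂ) + η * I) :=
          mul_le_mul_of_nonneg_left a4 a2
        have b2 : c * (φ ((θ : ℂ) + η * I) * κ ((θ : ℂ) + η * I)) ≤
            1 * (φ ((θ : ℂ) + η * I) * κ ((θ : ℂ) + η * I)) :=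
          mul_le_mul_of_nonneg_right hc1 (mul_nonneg a1 a3)
        have b3 : c * κ ((θ : ℂ) + η * I) * D ≤ c * κ ((θ : ℂ) + η * I) *
            (φ ((θ : ℂ) + η * I) + φ (((-θ : ℝ) : ℂ) + η * I)) :=
          mul_le_mul_of_nonneg_left a5 (mul_nonneg hc.le a3)
        linarith
      rw [intervalIntegral.integral_add (cprod.intervalIntegrable _ _)
        (cprod'.intervalIntegrable _ _), hsub, intervalIntegral.integral_const_mul] at hm
      linarith
    have hnn : ∀ θ : ℝ, 0 ≤ φ ((θ : ℂ) + η * I) * κ ((θ : ℂ) + η * I) := fun θ =>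
      mul_nonneg (hφ _ (hmem θ).1 (hmem θ).2) (hκ _ (hmem θ).1 (hmem θ).2)
    rw [← ENNReal.ofReal_mul (by positivity)]
    refine (ENNReal.ofReal_le_ofReal hreal).trans ?_
    rw [intervalIntegral.integral_of_le (by linarith), integral_Ioc_eq_integral_Ioo,
      ofReal_integral_eq_lintegral_ofReal]
    · exact (cprod.integrableOn_Icc (a := -Real.pi) (b := Real.pi)).mono_set Ioo_subset_Icc_self
    · exact Eventually.of_forall hnn
  -- Tonelli
  have hT : ∫⁻ s in S, ENNReal.ofReal (φ s * κ s) =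
      ∫⁻ η in Ioo η₁ η₂, ∫⁻ θ in Ioo (-Real.pi) Real.pi,
        ENNReal.ofReal (φ (θ + η * I) * κ (θ + η * I)) := by
    have hmp := Complex.volume_preserving_equiv_real_prod.symm
    have h1 := hmp.setLIntegral_comp_preimage_emb
      (Complex.measurableEquivRealProd.symm.measurableEmbedding)
      (fun s => ENNReal.ofReal (φ s * κ s)) S
    rw [← h1]
    have hpre : (Complex.measurableEquivRealProd.symm : ℝ × ℝ → ℂ) ⁻¹' S =
        Ioo (-Real.pi) Real.pi ×ˢ Ioo η₁ η₂ := by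
      ext p
      constructor
      · rintro ⟨a1, a2, a3, a4⟩
        exact ⟨⟨a1, a2⟩, ⟨a3, a4⟩⟩
      · rintro ⟨⟨a1, a2⟩, ⟨a3, a4⟩⟩
        exact ⟨a1, a2, a3, a4⟩
    rw [hpre, Measure.volume_eq_prod, ← Measure.prod_restrict]
    have hsym : ∀ p : ℝ × ℝ, Complex.measurableEquivRealProd.symm p = (p.1 : ℂ) + p.2 * I := by
      intro p
      apply Complex.ext
      · simp [Complex.measurableEquivRealProd_symm_apply]
      · simp [Complex.measurableEquivRealProd_symm_apply]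
    simp only [hsym]
    rw [lintegral_prod_symm]
    rw [Measure.prod_restrict]
    have hco : ContinuousOn (fun p : ℝ × ℝ => φ ((p.1 : ℂ) + p.2 * I) * κ ((p.1 : ℂ) + p.2 * I))
        (Ioo (-Real.pi) Real.pi ×ˢ Ioo η₁ η₂) := by
      have hlc : Continuous fun p : ℝ × ℝ => ((p.1 : ℂ) + p.2 * I) := by fun_prop
      have hmaps : MapsTo (fun p : ℝ × ℝ => ((p.1 : ℂ) + p.2 * I))
          (Ioo (-Real.pi) Real.pi ×ˢ Ioo η₁ η₂) {s : ℂ | η₁ < s.im ∧ s.im < η₂} := by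
        rintro p ⟨-, hp⟩
        simpa using hp
      exact (hφc.comp hlc.continuousOn hmaps).mul (hκc.comp hlc.continuousOn hmaps)
    exact (hco.aemeasurable (measurableSet_Ioo.prod measurableSet_Ioo)).ennreal_ofReal
  rw [hT, ← lintegral_const_mul' _ _ ENNReal.ofReal_ne_top]
  refine setLIntegral_mono' measurableSet_Ioo (fun η hη => ?_)
  exact hline η hη.1 hη.2

end Pool.Agent.NH
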