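import Pool.Agent.Lib.MP_00644e_an.Defs
import Pool.Agent.Lib.MP_00644e_an.T1
import Pool.Agent.Lib.MP_00644e_an.T2
import Pool.Agent.Lib.MP_00644e_an.T3
import Pool.Agent.Lib.MP_00644e_an.G7
/-! # Row K6: lower bound for the mass of a positive harmonic function

PROOF. `strip_bound` (`0 < η₀ ≤ η/2`..., here `η₀ ≤ H/4`): `u` continuous and nonnegative on the closed strip `{η₀ ≤ Im s ≤ 3H/4}`, harmonic inside, `2π`-periodic. Write
`u s = U (exp (i s))` on the annulus `exp(-3H/4) ≤ ‖ω‖ ≤ R = exp(-η₀)` (`U` continuous there, harmonic inside: local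
logarithms). Let `h` be the Dirichlet solution on `ball 0 R` with boundary values `U` (T1). On the annulus
`U ≤ h + M log(R/‖ω‖) / log(R/exp(-3H/4))` by `max_principle` (`h ≥ 0`). For `‖ω‖ = exp(-H/2)`: `h ω ≤ (R+‖ω‖)/(R-‖ω‖) * circleAverage U 0 R`
(Poisson formula and kernel bound), and the second term is `≤ (2/3) M` since `(H/2-η₀)/(3H/4-η₀) ≤ 2/3`.
`mass`: let `M(η) = sup over i and θ of K (Z i (θ + iη))`. Maximum principle on `{v | η/N < g v}` (`max_principle_ext`, barrier `g`, `K` bounded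
near infinity; the frontier is in `{g = η/N}`, covered by the charts, `exists_Z`) gives `K v ≤ M(η)` there, so `L ≤ M(H/2)` and
`M(3H/4) ≤ M(H/2)` (`g (Z i s) = Im s/N`). `strip_bound` with `M = M(3H/4)` gives
`M(H/2) ≤ C max_i ∫ K(Z i (θ + iη)) dθ + (2/3) M(H/2)`. Hence `L ≤ M(H/2) ≤ 3 C ∑_i ∫`. -/

set_option autoImplicit false

open Complex Metric Set Filter Topology MeasureTheory InnerProductSpace ComplexConjugate

noncomputable section

namespace Pool.Agent.NH

/-- The function on the annulus, pulled back by the logarithm. -/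
private def k6U (u : ℂ → ℝ) (w : ℂ) : ℝ := u (-I * Complex.log w)

private theorem k6U_exp {u : ℂ → ℝ} (hp : ∀ s, u (s + 2 * Real.pi) = u s) {w s : ℂ} (hw : w ≠ 0)
    (h : Complex.exp (I * s) = w) : k6U u w = u s := by
  have h1 : Complex.exp (Complex.log w) = Complex.exp (I * s) := by rw [Complex.exp_log hw, h]
  obtain ⟨n, hn⟩ := Complex.exp_eq_exp_iff_exists_int.1 h1
  have hper : Function.Periodic u (2 * Real.pi : ℂ) := hp
  have h2 := (hper.int_mul n) s
  unfold k6U
  rw [← h2, hn]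
  congr 1
  linear_combination (-s - n * (2 * Real.pi)) * I_mul_I

/-- The local branch. -/
private def k6phi (s₀ w₀ w : ℂ) : ℂ := s₀ - I * Complex.log (w / w₀)

private theorem k6_exp_phi {s₀ w₀ w : ℂ} (h0 : Complex.exp (I * s₀) = w₀) (hw : w ≠ 0) :
    Complex.exp (I * k6phi s₀ w₀ w) = w := by
  have hw0 : w₀ ≠ 0 := by rw [← h0]; exact Complex.exp_ne_zero _
  unfold k6phi
  have : I * (s₀ - I * Complex.log (w / w₀)) = I * s₀ + Complex.log (w / w₀) := by
    linear_combination (-Complex.log (w / w₀)) * I_mul_I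
  rw [this, Complex.exp_add, h0, Complex.exp_log (div_ne_zero hw hw0)]
  field_simp

private theorem k6_phi_self {s₀ w₀ : ℂ} (hw0 : w₀ ≠ 0) : k6phi s₀ w₀ w₀ = s₀ := by
  unfold k6phi
  rw [div_self hw0, Complex.log_one]; ring

private theorem k6_analyticAt_phi {s₀ w₀ : ℂ} (hw0 : w₀ ≠ 0) : AnalyticAt ℂ (k6phi s₀ w₀) w₀ := by
  unfold k6phi
  refine analyticAt_const.sub (analyticAt_const.mul ?_)
  refine AnalyticAt.clog (analyticAt_id.div analyticAt_const hw0) ?_
  simp [div_self hw0]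

private theorem k6_im_of_exp {w s : ℂ} (h : Complex.exp (I * s) = w) : ‖w‖ = Real.exp (-s.im) := by
  rw [← h, Complex.norm_exp]
  simp

private theorem k6_im_eq {w s : ℂ} (h : Complex.exp (I * s) = w) : s.im = -Real.log ‖w‖ := by
  rw [k6_im_of_exp h, Real.log_exp]; ring

private theorem k6_exists_s {w : ℂ} (hw : w ≠ 0) : ∃ s, Complex.exp (I * s) = w :=
  ⟨-I * Complex.log w, by
    rw [show I * (-I * Complex.log w) = Complex.log w by
      linear_combination (-Complex.log w) * I_mul_I, Complex.exp_log hw]⟩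

theorem strip_bound {H : ℝ} (hH : 0 < H) : ∃ C > 0, ∀ η₀ : ℝ, 0 < η₀ → η₀ ≤ H / 4 → ∀ (u : ℂ → ℝ) (M : ℝ),
    ContinuousOn u {s | η₀ ≤ s.im ∧ s.im ≤ 3 * H / 4} →
    HarmonicOnNhd u {s | η₀ < s.im ∧ s.im < 3 * H / 4} → (∀ s, u (s + 2 * Real.pi) = u s) →
    (∀ s, η₀ ≤ s.im → s.im ≤ 3 * H / 4 → 0 ≤ u s) → (∀ s, s.im = 3 * H / 4 → u s ≤ M) →
    ∀ s, s.im = H / 2 →
      u s ≤ C * (∫ θ in (-Real.pi)..Real.pi, u (θ + η₀ * I)) + 2 / 3 * M := by
  have hgap : 0 < Real.exp (-(H / 4)) - Real.exp (-(H / 2)) := by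
    rw [sub_pos, Real.exp_lt_exp]; linarith
  refine ⟨2 / (Real.exp (-(H / 4)) - Real.exp (-(H / 2))) * (2 * Real.pi)⁻¹, by positivity,
    fun η₀ hη hη4 u M hc hh hp hpos hM s hs => ?_⟩
  set R := Real.exp (-η₀) with hRdef
  have hR : 0 < R := Real.exp_pos _
  set r1 := Real.exp (-(3 * H / 4)) with hr1def
  have hr1 : 0 < r1 := Real.exp_pos _
  set r2 := Real.exp (-(H / 2)) with hr2def
  have hr2 : 0 < r2 := Real.exp_pos _
  have hr2R : r2 < R := by rw [hr2def, hRdef, Real.exp_lt_exp]; linarith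
  have hr1R : r1 < R := by rw [hr1def, hRdef, Real.exp_lt_exp]; linarith
  have hM0 : 0 ≤ M := by
    have h1 := hpos (3 * H / 4 * I) (by simp; linarith) (by simp)
    have h2 := hM (3 * H / 4 * I) (by simp)
    linarith
  -- continuity on the closed annulus
  have hne : ∀ w : ℂ, r1 ≤ ‖w‖ → w ≠ 0 := fun w hw h => by
    rw [h, norm_zero] at hw; linarith
  have hstrip : ∀ w s : ℂ, r1 ≤ ‖w‖ → ‖w‖ ≤ R → Complex.exp (I * s) = w →
      η₀ ≤ s.im ∧ s.im ≤ 3 * H / 4 := by
    intro w s h1 h2 h3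
    rw [k6_im_of_exp h3] at h1 h2
    rw [hr1def, Real.exp_le_exp] at h1
    rw [hRdef, Real.exp_le_exp] at h2
    constructor <;> linarith
  have hstrip' : ∀ w s : ℂ, r1 < ‖w‖ → ‖w‖ < R → Complex.exp (I * s) = w →
      η₀ < s.im ∧ s.im < 3 * H / 4 := by
    intro w s h1 h2 h3
    rw [k6_im_of_exp h3] at h1 h2
    rw [hr1def, Real.exp_lt_exp] at h1
    rw [hRdef, Real.exp_lt_exp] at h2
    constructor <;> linarith
  have hUc : ContinuousOn (k6U u) {w | r1 ≤ ‖w‖ ∧ ‖w‖ ≤ R} := by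
    intro w₀ hw₀
    have h0 := hne w₀ hw₀.1
    obtain ⟨s₀, hs₀⟩ := k6_exists_s h0
    have h1 : ContinuousWithinAt u {s | η₀ ≤ s.im ∧ s.im ≤ 3 * H / 4} (k6phi s₀ w₀ w₀) := by
      rw [k6_phi_self h0]
      exact hc s₀ (hstrip w₀ s₀ hw₀.1 hw₀.2 hs₀)
    have h2 : ContinuousWithinAt (fun w => u (k6phi s₀ w₀ w)) {w | r1 ≤ ‖w‖ ∧ ‖w‖ ≤ R} w₀ :=
      h1.comp (k6_analyticAt_phi h0).continuousAt.continuousWithinAt
        (fun w hw => hstrip w _ hw.1 hw.2 (k6_exp_phi hs₀ (hne w hw.1)))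
    refine h2.congr (fun w hw => k6U_exp hp (hne w hw.1) (k6_exp_phi hs₀ (hne w hw.1)))
      (k6U_exp hp h0 (k6_exp_phi hs₀ h0))
  have hUh : ∀ w₀ : ℂ, r1 < ‖w₀‖ → ‖w₀‖ < R → HarmonicAt (k6U u) w₀ := by
    intro w₀ hw1 hw2
    have h0 := hne w₀ hw1.le
    obtain ⟨s₀, hs₀⟩ := k6_exists_s h0
    have h1 : HarmonicAt u (k6phi s₀ w₀ w₀) := by
      rw [k6_phi_self h0]
      exact hh s₀ (hstrip' w₀ s₀ hw1 hw2 hs₀)
    have h2 := harmonicAt_comp h1 (k6_analyticAt_phi h0)
    refine (harmonicAt_congr_nhds ?_).1 h2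
    have h3 : ∀ᶠ w in 𝓝 w₀, w ≠ 0 := isOpen_ne.mem_nhds h0
    filter_upwards [h3] with w hw
    exact (k6U_exp hp hw (k6_exp_phi hs₀ hw)).symm
  have hUR : ∀ w : ℂ, ‖w‖ = R → 0 ≤ k6U u w := by
    intro w hw
    obtain ⟨s₁, hs₁⟩ := k6_exists_s (hne w (by rw [hw]; exact hr1R.le))
    have h1 := hstrip w s₁ (by rw [hw]; exact hr1R.le) hw.le hs₁
    rw [k6U_exp hp (hne w (by rw [hw]; exact hr1R.le)) hs₁]
    exact hpos s₁ h1.1 h1.2
  -- the Dirichlet solution
  obtain ⟨h, hhc, hheq⟩ := exists_dirichlet_ball 0 hR (k6U u) (hUc.mono (fun w hw => by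
    have : ‖w‖ = R := by simpa using hw
    exact ⟨by rw [this]; exact hr1R.le, this.le⟩))
  have hsph : ∀ w : ℂ, ‖w‖ = R → h w = k6U u w := fun w hw => hheq (by simpa using hw)
  have hcontcl : ContinuousOn h (closedBall 0 R) := hhc.continuousOn_ball
  have hh0 : ∀ w : ℂ, ‖w‖ ≤ R → 0 ≤ h w := by
    intro w hw
    rcases hw.lt_or_eq with hlt | heq
    · have := max_principle (U := ball 0 R) isOpen_ball isBounded_ball (u := fun z => -h z)
        (M := 0) (by rw [closure_ball _ hR.ne']; exact hcontcl.neg)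
        (locSub_of_harmonic hhc.harmonicOnNhd.neg isOpen_ball)
        (fun z hz => by
          rw [frontier_ball _ hR.ne'] at hz
          have hz' : ‖z‖ = R := by simpa using hz
          have := hUR z hz'
          rw [hsph z hz']
          linarith) w (by simpa using hlt)
      linarith
    · rw [hsph w heq]; exact hUR w heq
  -- comparison on the annulus
  set κ := M / (3 * H / 4 - η₀) with hκ
  have hden : 0 < 3 * H / 4 - η₀ := by linarith
  have hclos : closure {w : ℂ | r1 < ‖w‖ ∧ ‖w‖ < R} ⊆ {w : ℂ | r1 ≤ ‖w‖ ∧ ‖w‖ ≤ R} := by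
    refine closure_minimal (fun w hw => ⟨hw.1.le, hw.2.le⟩) ?_
    exact (isClosed_le continuous_const continuous_norm).inter
      (isClosed_le continuous_norm continuous_const)
  have hopen : IsOpen {w : ℂ | r1 < ‖w‖ ∧ ‖w‖ < R} :=
    (isOpen_lt continuous_const continuous_norm).inter
      (isOpen_lt continuous_norm continuous_const)
  have hlogc : ContinuousOn (fun w : ℂ => Real.log ‖w‖) {w : ℂ | r1 ≤ ‖w‖ ∧ ‖w‖ ≤ R} :=
    continuous_norm.continuousOn.log fun w hw => (norm_pos_iff.2 (hne w hw.1)).ne'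
  have hcmp : ∀ w : ℂ, r1 < ‖w‖ → ‖w‖ < R → k6U u w - h w + κ * (Real.log ‖w‖ + η₀) ≤ 0 := by
    intro w hw1 hw2
    refine max_principle (u := fun w => k6U u w - h w + κ * (Real.log ‖w‖ + η₀)) (M := 0) hopen
      ?_ ?_ ?_ ?_ w ⟨hw1, hw2⟩
    · refine (isBounded_closedBall (x := (0 : ℂ)) (r := R)).subset fun z hz => ?_
      simpa using hz.2.le
    · refine ContinuousOn.mono ?_ hclos
      refine (hUc.sub (hcontcl.mono fun z hz => by simpa using hz.2)).add
        (continuousOn_const.mul (hlogc.add continuousOn_const))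
    · refine locSub_of_harmonic (fun z hz => ?_) hopen
      have h1 : HarmonicAt (k6U u) z := hUh z hz.1 hz.2
      have h2 : HarmonicAt h z := hhc.harmonicOnNhd z (by simpa using hz.2)
      have h3 : HarmonicAt (fun w : ℂ => Real.log ‖w‖) z :=
        AnalyticAt.harmonicAt_log_norm (f := fun w => w) analyticAt_id (hne z hz.1.le)
      have h4 : HarmonicAt (fun _ : ℂ => η₀) z := harmonicAt_const _
      exact (h1.sub h2).add ((h3.add h4).const_smul (c := κ))
    · intro z hz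
      have hz1 := hclos (frontier_subset_closure hz)
      have hz2 : z ∉ {w : ℂ | r1 < ‖w‖ ∧ ‖w‖ < R} := by
        rw [frontier, hopen.interior_eq] at hz
        exact hz.2
      by_cases hzR : ‖z‖ = R
      · rw [hsph z hzR, hzR, hRdef, Real.log_exp]
        simp
      · have hzlt : ‖z‖ < R := lt_of_le_of_ne hz1.2 hzR
        have hzr : ‖z‖ = r1 := by
          by_contra hne1
          exact hz2 ⟨lt_of_le_of_ne hz1.1 (Ne.symm hne1), hzlt⟩
        obtain ⟨s₁, hs₁⟩ := k6_exists_s (hne z hz1.1)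
        have him : s₁.im = 3 * H / 4 := by
          rw [k6_im_eq hs₁, hzr, hr1def, Real.log_exp]; ring
        have h1 := hM s₁ him
        rw [← k6U_exp hp (hne z hz1.1) hs₁] at h1
        have h2 := hh0 z hz1.2
        rw [hzr, hr1def, Real.log_exp]
        have h3 : κ * (-(3 * H / 4) + η₀) = -M := by
          rw [hκ, div_mul_eq_mul_div, div_eq_iff hden.ne']; ring
        linarith
  -- at the middle line
  set w := Complex.exp (I * s) with hw
  have hwn : ‖w‖ = r2 := by rw [k6_im_of_exp (s := s) hw.symm, hs]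
  have hw0 : w ≠ 0 := Complex.exp_ne_zero _
  have hr12 : r1 < r2 := by rw [hr1def, hr2def, Real.exp_lt_exp]; linarith
  have h1 := hcmp w (by rw [hwn]; exact hr12) (by rw [hwn]; exact hr2R)
  rw [k6U_exp hp hw0 hw.symm, hwn, hr2def, Real.log_exp] at h1
  have h2 : κ * (H / 2 - η₀) ≤ 2 / 3 * M := by
    rw [hκ, div_mul_eq_mul_div, div_le_iff₀ hden]
    nlinarith
  -- Harnack
  have h3 := (harnack_ball (c := 0) (r := r2) (R := R) hr2.le hr2R hhc.harmonicOnNhd
    (fun z hz => hh0 z (by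
      have : ‖z‖ < R := by simpa using hz
      exact this.le)) (z := w) (by simp [hwn])).2
  have havg : h 0 = (2 * Real.pi)⁻¹ * ∫ θ in (-Real.pi)..Real.pi, u (θ + η₀ * I) := by
    have h4 : Real.circleAverage h 0 R = h 0 := by
      have := InnerProductSpace.HarmonicContOnCl.circleAverage_eq (f := h) (c := 0) (R := R)
        (by rw [abs_of_pos hR]; exact hhc)
      exact this
    rw [← h4, Real.circleAverage_def, smul_eq_mul]
    congr 1
    have h5 : ∀ θ : ℝ, h (circleMap 0 R θ) = u (θ + η₀ * I) := by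
      intro θ
      have h6 : Complex.exp (I * (θ + η₀ * I)) = circleMap 0 R θ := by
        rw [circleMap, zero_add, hRdef]
        push_cast
        rw [← Complex.exp_add]
        congr 1
        linear_combination (η₀ : ℂ) * I_mul_I
      have h7 : ‖circleMap 0 R θ‖ = R := by simp [abs_of_pos hR]
      rw [hsph _ h7, k6U_exp hp (hne _ (by rw [h7]; exact hr1R.le)) h6]
    simp only [h5]
    have hper : Function.Periodic (fun θ : ℝ => u (θ + η₀ * I)) (2 * Real.pi) := by
      intro θ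
      have := hp (θ + η₀ * I)
      simp only
      rw [← this]
      congr 1
      push_cast
      ring
    have := hper.intervalIntegral_add_eq 0 (-Real.pi)
    rw [zero_add, show -Real.pi + 2 * Real.pi = Real.pi by ring] at this
    exact this
  have hint : 0 ≤ ∫ θ in (-Real.pi)..Real.pi, u (θ + η₀ * I) := by
    refine intervalIntegral.integral_nonneg (by linarith [Real.pi_pos]) fun θ _ => ?_
    exact hpos _ (by simp) (by simp; linarith)
  have h8 : (R + r2) / (R - r2) ≤ 2 / (Real.exp (-(H / 4)) - r2) := by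
    have hR1 : R ≤ 1 := by rw [hRdef]; exact Real.exp_le_one_iff.2 (by linarith)
    have hR4 : Real.exp (-(H / 4)) ≤ R := by rw [hRdef, Real.exp_le_exp]; linarith
    refine div_le_div₀ (by norm_num) (by linarith) hgap (by linarith)
  have h9 : 0 ≤ h 0 := hh0 0 (by simpa using hR.le)
  have h10 : h w ≤ 2 / (Real.exp (-(H / 4)) - r2) * h 0 :=
    h3.trans (mul_le_mul_of_nonneg_right h8 h9)
  rw [havg] at h10
  have h11 : κ * (-(H / 2) + η₀) = -(κ * (H / 2 - η₀)) := by ring
  rw [h11] at h1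
  calc u s ≤ h w + κ * (H / 2 - η₀) := by linarith
    _ ≤ _ := by
      rw [mul_assoc]
      exact add_le_add h10 h2

private theorem k6_level_compact {G : Geo} (hG : G.OK) (R : ℝ) : IsCompact {v | G.g v = R} := by
  refine (isCompact_G0_le R).of_isClosed_subset (isClosed_eq hG.continuous_g continuous_const) ?_
  intro v hv
  have h1 := hG.G0_le_g v
  have h2 : G.g v = R := hv
  show G0 v ≤ R
  linarith

private theorem k6_level_max {G : Geo} (hG : G.OK) {K : ℂ → ℝ} (hK : ContinuousOn K G.Eᶜ) {h : ℝ}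
    (h0 : 0 < h) (hH : h < G.H) :
    ∃ v, G.g v = h / G.N ∧ ∀ w, G.g w = h / G.N → K w ≤ K v := by
  have hN : 0 < G.N := lt_of_lt_of_le one_pos hG.hN
  obtain ⟨i⟩ := hG.ne
  have hne : {v | G.g v = h / G.N}.Nonempty := by
    refine ⟨G.Z i (h * I), ?_⟩
    have := hG.g_Z i (s := h * I) (by simpa [abs_of_pos h0] using hH)
    rw [mem_ofPred_eq, this]
    simp [abs_of_pos h0]
  obtain ⟨v, hv, hmax⟩ := (k6_level_compact hG (h / G.N)).exists_isMaxOn hne
    (hK.mono (fun v (hv : G.g v = h / G.N) => by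
      intro hvE
      rw [(hG.g_eq_zero_iff v).2 hvE] at hv
      have : 0 < h / G.N := div_pos h0 hN
      linarith))
  exact ⟨v, hv, fun w hw => hmax hw⟩

theorem mass {G : Geo} (hG : G.OK) : ∃ c > 0, ∀ K L, PosH G.E K L → ∀ η : ℝ, 0 < η → η ≤ G.H / 4 →
    c * L ≤ ∑ i : G.ι, ∫ θ in (-Real.pi)..Real.pi, K (G.Z i (θ + η * I)) := by
  obtain ⟨C, hC, hsb⟩ := strip_bound hG.H_pos
  have hH := hG.H_pos
  have hN : 0 < G.N := lt_of_lt_of_le one_pos hG.hN
  refine ⟨1 / (3 * C), by positivity, fun K L hK η hη hη4 => ?_⟩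
  have hKc : ContinuousOn K G.Eᶜ := hK.harm.continuousOn
  obtain ⟨v₁, hv₁, hm₁⟩ := k6_level_max hG hKc (h := 3 * G.H / 4) (by positivity) (by linarith)
  obtain ⟨v₂, hv₂, hm₂⟩ := k6_level_max hG hKc (h := G.H / 2) (by positivity) (by linarith)
  -- maximum principle on `{H/2/N < g}`
  have hWE : {v | G.H / 2 / G.N ≤ G.g v} ⊆ G.Eᶜ := by
    intro v hv hvE
    rw [mem_ofPred_eq, (hG.g_eq_zero_iff v).2 hvE] at hv
    have : 0 < G.H / 2 / G.N := by positivity
    linarith
  have hcl : closure {v | G.H / 2 / G.N < G.g v} ⊆ {v | G.H / 2 / G.N ≤ G.g v} :=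
    closure_lt_subset_le continuous_const hG.continuous_g
  have hlt : {v | G.H / 2 / G.N < G.g v} ⊆ G.Eᶜ := fun v hv =>
    hWE (show G.H / 2 / G.N ≤ G.g v from le_of_lt hv)
  have hmax : ∀ v ∈ {v | G.H / 2 / G.N < G.g v}, K v ≤ K v₂ := by
    refine max_principle_ext (isOpen_lt continuous_const hG.continuous_g) (γ := G.g) (C := L + 1)
      (hKc.mono (hcl.trans hWE)) (hK.harm.mono hlt) hG.continuous_g.continuousOn
      (hG.harmonic_g.mono hlt) (fun z _ => hG.g_nonneg z) hG.tendsto_g ?_ ?_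
    · have := hK.lim.eventually (gt_mem_nhds (show L < L + 1 by linarith))
      exact this.mono fun z hz _ => hz.le
    · intro z hz
      have := frontier_lt_subset_eq continuous_const hG.continuous_g hz
      exact hm₂ z this.symm
  have h12 : K v₁ ≤ K v₂ := by
    refine hmax v₁ ?_
    show G.H / 2 / G.N < G.g v₁
    rw [hv₁]
    refine div_lt_div_of_pos_right ?_ hN
    linarith
  have hL2 : L ≤ K v₂ := by
    refine le_of_tendsto hK.lim ?_
    filter_upwards [hG.tendsto_g.eventually (eventually_gt_atTop (G.H / 2 / G.N))] with z hz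
    exact hmax z hz
  obtain ⟨i, s, hvs, hsim, -, -⟩ := hG.exists_Z (v := v₂) (by rw [hv₂]; positivity)
    (by rw [hv₂]; exact div_lt_div_of_pos_right (by linarith) hN)
  have hsim' : s.im = G.H / 2 := by
    rw [hsim, hv₂]; field_simp
  have hint_nonneg : ∀ j : G.ι, 0 ≤ ∫ θ in (-Real.pi)..Real.pi, K (G.Z j (θ + η * I)) := by
    intro j
    refine intervalIntegral.integral_nonneg (by linarith [Real.pi_pos]) fun θ _ => ?_
    refine (hK.pos _ (hG.Z_notMem j ?_ ?_)).le
    · simp [abs_of_pos hη]; linarith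
    · simp [hη.ne']
  have habs : ∀ s : ℂ, 0 < s.im → s.im < G.H → |s.im| < G.H := fun s h1 h2 => by
    rwa [abs_of_pos h1]
  have key := hsb η hη hη4 (fun s => K (G.Z i s)) (K v₁)
    (by
      intro z hz
      have h1 : 0 < z.im := lt_of_lt_of_le hη hz.1
      have h2 : |z.im| < G.H := habs z h1 (by linarith [hz.2])
      have h3 := (hK.harm _ (hG.Z_notMem i h2 h1.ne')).1.continuousAt
      exact (ContinuousAt.comp (f := G.Z i) (g := K) h3
        (hG.analyticAt_Z i h2).continuousAt).continuousWithinAt)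
    (by
      intro z hz
      have h1 : 0 < z.im := lt_trans hη hz.1
      have h2 : |z.im| < G.H := habs z h1 (by linarith [hz.2])
      exact harmonicAt_comp (hK.harm _ (hG.Z_notMem i h2 h1.ne')) (hG.analyticAt_Z i h2))
    (fun z => by simp only [Geo.Z_periodic])
    (fun z hz1 hz2 => by
      have h1 : 0 < z.im := lt_of_lt_of_le hη hz1
      have h2 : |z.im| < G.H := habs z h1 (by linarith)
      exact (hK.pos _ (hG.Z_notMem i h2 h1.ne')).le)
    (fun z hz => by
      refine hm₁ _ ?_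
      have h1 : 0 < z.im := by rw [hz]; positivity
      have h2 : |z.im| < G.H := habs z h1 (by rw [hz]; linarith)
      rw [hG.g_Z i h2, abs_of_pos h1, hz])
    s hsim'
  simp only [← hvs] at key
  have hle : (∫ θ in (-Real.pi)..Real.pi, K (G.Z i (θ + η * I))) ≤
      ∑ i : G.ι, ∫ θ in (-Real.pi)..Real.pi, K (G.Z i (θ + η * I)) :=
    Finset.single_le_sum (f := fun i => ∫ θ in (-Real.pi)..Real.pi, K (G.Z i (θ + η * I)))
      (fun j _ => hint_nonneg j) (Finset.mem_univ i)
  have h3 : L ≤ 3 * C * ∑ i : G.ι, ∫ θ in (-Real.pi)..Real.pi, K (G.Z i (θ + η * I)) := by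
    have h4 := mul_le_mul_of_nonneg_left hle hC.le
    have h5 : L ≤ 3 * (C * ∑ i : G.ι, ∫ θ in (-Real.pi)..Real.pi, K (G.Z i (θ + η * I))) := by
      linarith
    linarith
  rw [div_mul_eq_mul_div, one_mul, div_le_iff₀ (by positivity)]
  linarith

end Pool.Agent.NH
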