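import Pool.Agent.Lib.MP_00644e_an.Defs
import Pool.Agent.Lib.MP_00644e_an.P1
import Pool.Agent.Lib.MP_00644e_an.T3
import Pool.Agent.Lib.MP_00644e_an.G7
/-! # Row L1: the base functions are flat in the strip charts

PROOF. By `norm_fderiv_le` on the disc of radius `Im s / 2` around `s` (subtract the value at `s`) it suffices that the
oscillation of `u s = e (Z i s) + Pb b (Z i s)` over that disc is `≤ δ/16` if `Im s` is small. `e ∘ Z i` is continuous and
`2π`-periodic on `{|Im s| ≤ H/2}`, hence uniformly continuous. For `Pb b (Z i s)`: `Im (Z i s) → 0` uniformly as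
`Im s → 0`, so by `Pb_unif`, `Pb_conj`, `Pb_real`: `|Pb b v - ψ v| ≤ δ'` for `v = Z i s`, where `ψ v = ± b (v.re)` with the sign
of `v.im`. The function `s ↦ b (Z i s).re` is uniformly continuous on the closed strip and vanishes where `Z i s` is real and
`Im s ≠ 0` (then `Z i s ∉ E`); if the signs of `Im (Z i s)` and `Im (Z i s')` differ there is such a point on the
segment from `s` to `s'`. -/

set_option autoImplicit false

open Complex Metric Set Filter Topology MeasureTheory InnerProductSpace ComplexConjugate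

noncomputable section

namespace Pool.Agent.NH

private theorem l1_uc {X : Type} [PseudoMetricSpace X] {h : ℂ → X} {a : ℝ}
    (hc : ContinuousOn h {s : ℂ | |s.im| ≤ a}) (hp : ∀ s, h (s + 2 * Real.pi) = h s)
    {δ : ℝ} (hδ : 0 < δ) :
    ∃ η > 0, ∀ s s' : ℂ, |s.im| ≤ a → |s'.im| ≤ a → dist s s' < η → dist (h s) (h s') < δ := by
  have hK : IsCompact (Icc (-(2 * Real.pi)) (2 * Real.pi) ×ℂ Icc (-a) a) :=
    isCompact_Icc.reProdIm isCompact_Icc
  have hKs : (Icc (-(2 * Real.pi)) (2 * Real.pi) ×ℂ Icc (-a) a) ⊆ {s : ℂ | |s.im| ≤ a} := by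
    intro s hs
    exact abs_le.2 hs.2
  have huc := hK.uniformContinuousOn_of_continuous (hc.mono hKs)
  obtain ⟨η, hη, H⟩ := Metric.uniformContinuousOn_iff.1 huc δ hδ
  refine ⟨min η 1, lt_min hη one_pos, fun s s' hs hs' hd => ?_⟩
  have hper : Function.Periodic h (2 * Real.pi : ℂ) := hp
  set k : ℤ := -round (s.re / (2 * Real.pi)) with hk
  have e1 := hper.int_mul k s
  have e2 := hper.int_mul k s'
  have hpi := Real.pi_pos
  have hpi3 := Real.pi_gt_three
  have hr : |s.re + k * (2 * Real.pi)| ≤ Real.pi := by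
    have h1 := abs_sub_round (s.re / (2 * Real.pi))
    have h2 : s.re + k * (2 * Real.pi) = (s.re / (2 * Real.pi) - round (s.re / (2 * Real.pi))) * (2 * Real.pi) := by
      rw [hk]; push_cast; field_simp; ring
    rw [h2, abs_mul, abs_of_pos (by positivity : (0 : ℝ) < 2 * Real.pi)]
    nlinarith
  have hre : (s + (k : ℂ) * (2 * Real.pi)).re = s.re + k * (2 * Real.pi) := by simp
  have him : (s + (k : ℂ) * (2 * Real.pi)).im = s.im := by simp
  have hre' : (s' + (k : ℂ) * (2 * Real.pi)).re = s'.re + k * (2 * Real.pi) := by simp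
  have him' : (s' + (k : ℂ) * (2 * Real.pi)).im = s'.im := by simp
  have hd' : dist s s' < 1 := lt_of_lt_of_le hd (min_le_right _ _)
  have hdr : |s.re - s'.re| ≤ 1 := by
    have := Complex.abs_re_le_norm (s - s')
    rw [Complex.sub_re, ← dist_eq_norm] at this
    linarith
  rw [← e1, ← e2]
  apply H
  · refine ⟨?_, ?_⟩
    · rw [mem_preimage, hre]
      constructor <;> linarith [abs_le.1 hr]
    · rw [mem_preimage, him]
      exact abs_le.1 hs
  · refine ⟨?_, ?_⟩
    · rw [mem_preimage, hre']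
      constructor <;> linarith [abs_le.1 hr, abs_le.1 hdr]
    · rw [mem_preimage, him']
      exact abs_le.1 hs'
  · rw [dist_add_right]
    exact lt_of_lt_of_le hd (min_le_left _ _)

/-- the jump function `± b (v.re)` -/
private def l1psi (b : ℝ → ℝ) (v : ℂ) : ℝ :=
  if 0 < v.im then b v.re else if v.im < 0 then -b v.re else 0

private theorem l1_Pb {E : Set ℂ} {b : ℝ → ℝ} {M : ℝ} (hE : IsCompact E) (hEs : E ⊆ seg)
    (hb : BOK E b M) {δ : ℝ} (hδ : 0 < δ) :
    ∃ ρ > 0, ∀ v : ℂ, |v.im| < ρ → |Pb b v - l1psi b v| ≤ δ := by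
  obtain ⟨ρ, hρ, H⟩ := Pb_unif hE hEs hb hδ
  refine ⟨ρ, hρ, fun v hv => ?_⟩
  unfold l1psi
  split_ifs with h1 h2
  · exact H v h1 (lt_of_abs_lt hv)
  · have h3 := H (conj v) (by simpa using h2) (by simpa using (abs_lt.1 hv).1 |> fun h => by linarith)
    rw [Pb_conj, Complex.conj_re] at h3
    rw [← abs_neg]
    convert h3 using 2
    ring
  · rw [Pb_real v (le_antisymm (not_lt.1 h1) (not_lt.1 h2))]
    simpa using hδ.le

variable {G : Geo}

private theorem l1_cont (hG : G.OK) (i : G.ι) : ContinuousOn (G.Z i) {s : ℂ | |s.im| ≤ G.H / 2} := by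
  intro s hs
  have hH := hG.H_pos
  have hs' : |s.im| ≤ G.H / 2 := hs
  exact (hG.analyticAt_Z i (by linarith)).continuousAt.continuousWithinAt

private theorem l1_seg {s s' t : ℂ} (ht : t ∈ segment ℝ s s') {η : ℝ} (h1 : 0 < s.im) (h2 : s.im < η)
    (h1' : 0 < s'.im) (h2' : s'.im < η) : 0 < t.im ∧ t.im < η ∧ dist s t ≤ dist s s' ∧
      dist s' t ≤ dist s s' := by
  have hconv : Convex ℝ {z : ℂ | 0 < z.im ∧ z.im < η} := by
    have := (convex_halfSpace_im_gt 0).inter (convex_halfSpace_im_lt η)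
    exact this
  have h3 := hconv.segment_subset (x := s) (y := s') ⟨h1, h2⟩ ⟨h1', h2'⟩ ht
  refine ⟨h3.1, h3.2, ?_, ?_⟩
  · have := (convex_closedBall s (dist s s')).segment_subset (mem_closedBall_self dist_nonneg)
      (by rw [mem_closedBall, dist_comm] : s' ∈ closedBall s (dist s s')) ht
    rw [mem_closedBall, dist_comm] at this
    exact this
  · have := (convex_closedBall s' (dist s s')).segment_subset (by rw [mem_closedBall] : s ∈ closedBall s' (dist s s'))
      (mem_closedBall_self dist_nonneg) ht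
    rw [mem_closedBall, dist_comm] at this
    exact this

private theorem l1_zero (hG : G.OK) {b : ℝ → ℝ} {M : ℝ} (hb : BOK G.E b M) (i : G.ι) {t : ℂ}
    (h0 : 0 < t.im) (h1 : t.im < G.H) (h : (G.Z i t).im = 0) : b (G.Z i t).re = 0 := by
  apply hb.supp
  have e : (((G.Z i t).re : ℝ) : ℂ) = G.Z i t := by
    apply Complex.ext <;> simp [h]
  rw [e]
  exact hG.Z_notMem i (by rw [abs_of_pos h0]; exact h1) h0.ne'

/-- a zero of `Im (Z i)` on a segment -/
private theorem l1_ivt (hG : G.OK) (i : G.ι) {s s' : ℂ} (h1 : 0 < s.im) (h2 : s.im < G.H)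
    (h1' : 0 < s'.im) (h2' : s'.im < G.H) (hs : (G.Z i s).im ≤ 0) (hs' : 0 ≤ (G.Z i s').im) :
    ∃ t ∈ segment ℝ s s', (G.Z i t).im = 0 := by
  have hconn : IsPreconnected (segment ℝ s s') := (convex_segment s s').isPreconnected
  have hcont : ContinuousOn (fun t => (G.Z i t).im) (segment ℝ s s') := by
    intro t ht
    obtain ⟨h3, h4, -, -⟩ := l1_seg ht h1 h2 h1' h2'
    have hc : ContinuousAt (G.Z i) t :=
      (hG.analyticAt_Z i (by rw [abs_of_pos h3]; exact h4)).continuousAt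
    exact (Complex.continuous_im.continuousAt.comp hc).continuousWithinAt
  have := hconn.intermediate_value (left_mem_segment ℝ s s') (right_mem_segment ℝ s s') hcont
  obtain ⟨t, ht, h⟩ := this ⟨hs, hs'⟩
  exact ⟨t, ht, h⟩

/-- the jump function is uniformly continuous along the chart -/
private theorem l1_psi_uc (hG : G.OK) {b : ℝ → ℝ} {M : ℝ} (hb : BOK G.E b M) (i : G.ι)
    {δ : ℝ} (hδ : 0 < δ) :
    ∃ η > 0, η ≤ G.H / 2 ∧ ∀ s s' : ℂ, 0 < s.im → s.im < η → 0 < s'.im → s'.im < η →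
      dist s s' < η → |l1psi b (G.Z i s) - l1psi b (G.Z i s')| ≤ 2 * δ := by
  have hH := hG.H_pos
  have hc : ContinuousOn (fun s => b (G.Z i s).re) {s : ℂ | |s.im| ≤ G.H / 2} :=
    hb.cont.comp_continuousOn (Complex.continuous_re.comp_continuousOn (l1_cont hG i))
  obtain ⟨η, hη, H⟩ := l1_uc hc (fun s => by simp only [Geo.Z_periodic]) hδ
  refine ⟨min η (G.H / 2), lt_min hη (by linarith), min_le_right _ _, ?_⟩
  -- the general estimates
  have key : ∀ s s' : ℂ, 0 < s.im → s.im < G.H / 2 → 0 < s'.im → s'.im < G.H / 2 → dist s s' < η →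
      |b (G.Z i s).re - b (G.Z i s').re| ≤ δ := by
    intro s s' h1 h2 h1' h2' hd
    have := H s s' (by rw [abs_of_pos h1]; exact h2.le) (by rw [abs_of_pos h1']; exact h2'.le) hd
    rw [Real.dist_eq] at this
    exact this.le
  have key2 : ∀ s s' : ℂ, 0 < s.im → s.im < G.H / 2 → 0 < s'.im → s'.im < G.H / 2 → dist s s' < η →
      (G.Z i s).im ≤ 0 → 0 ≤ (G.Z i s').im → |b (G.Z i s).re| ≤ δ ∧ |b (G.Z i s').re| ≤ δ := by
    intro s s' h1 h2 h1' h2' hd hs hs'
    obtain ⟨t, ht, h0⟩ := l1_ivt hG i h1 (by linarith) h1' (by linarith) hs hs'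
    obtain ⟨h3, h4, h5, h6⟩ := l1_seg ht h1 h2 h1' h2'
    have hz := l1_zero hG hb i h3 (by linarith) h0
    have k1 := key s t h1 h2 h3 h4 (by linarith)
    have k2 := key s' t h1' h2' h3 h4 (by linarith)
    rw [hz, sub_zero] at k1 k2
    exact ⟨k1, k2⟩
  intro s s' h1 h2 h1' h2' hd
  have h2a : s.im < G.H / 2 := lt_of_lt_of_le h2 (min_le_right _ _)
  have h2b : s'.im < G.H / 2 := lt_of_lt_of_le h2' (min_le_right _ _)
  have hda : dist s s' < η := lt_of_lt_of_le hd (min_le_left _ _)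
  have hdb : dist s' s < η := by rw [dist_comm]; exact hda
  have k := key s s' h1 h2a h1' h2b hda
  have z1 : (G.Z i s).im = 0 → b (G.Z i s).re = 0 := fun h => l1_zero hG hb i h1 (by linarith) h
  have z2 : (G.Z i s').im = 0 → b (G.Z i s').re = 0 := fun h => l1_zero hG hb i h1' (by linarith) h
  have hle : ∀ x y : ℝ, |x| ≤ δ → |y| ≤ δ → |x - y| ≤ 2 * δ ∧ |x + y| ≤ 2 * δ ∧ |-x - y| ≤ 2 * δ := by
    intro x y hx hy
    rw [abs_le] at hx hy
    refine ⟨?_, ?_, ?_⟩ <;> rw [abs_le] <;> constructor <;> linarith [hx.1, hx.2, hy.1, hy.2]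
  unfold l1psi
  rcases lt_trichotomy (G.Z i s).im 0 with ha | ha | ha <;>
    rcases lt_trichotomy (G.Z i s').im 0 with hb' | hb' | hb'
  · rw [if_neg ha.le.not_gt, if_pos ha, if_neg hb'.le.not_gt, if_pos hb']
    rw [abs_le] at *
    constructor <;> linarith [k.1, k.2]
  · obtain ⟨k1, k2⟩ := key2 s s' h1 h2a h1' h2b hda ha.le hb'.ge
    rw [if_neg ha.le.not_gt, if_pos ha, hb']
    simp only [lt_irrefl, if_false, sub_zero, abs_neg]
    linarith
  · obtain ⟨k1, k2⟩ := key2 s s' h1 h2a h1' h2b hda ha.le hb'.le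
    rw [if_neg ha.le.not_gt, if_pos ha, if_pos hb']
    exact (hle _ _ k1 k2).2.2
  · obtain ⟨k1, k2⟩ := key2 s' s h1' h2b h1 h2a hdb hb'.le ha.ge
    rw [if_neg hb'.le.not_gt, if_pos hb', ha]
    simp only [lt_irrefl, if_false, zero_sub, neg_neg]
    linarith
  · rw [ha, hb']
    simp only [lt_irrefl, if_false, sub_zero, abs_zero]
    linarith
  · obtain ⟨k1, k2⟩ := key2 s s' h1 h2a h1' h2b hda ha.le hb'.le
    rw [ha, if_pos hb']
    simp only [lt_irrefl, if_false, zero_sub, abs_neg]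
    linarith
  · obtain ⟨k1, k2⟩ := key2 s' s h1' h2b h1 h2a hdb hb'.le ha.le
    rw [if_pos ha, if_neg hb'.le.not_gt, if_pos hb', sub_neg_eq_add]
    exact (hle _ _ k2 k1).2.1
  · obtain ⟨k1, k2⟩ := key2 s' s h1' h2b h1 h2a hdb hb'.le ha.le
    rw [if_pos ha, hb']
    simp only [lt_irrefl, if_false, sub_zero]
    linarith
  · rw [if_pos ha, if_pos hb']
    linarith

/-- the base function is uniformly continuous near the bottom of the strip -/
private theorem l1_base_uc (hG : G.OK) {e : ℂ → ℝ} {b : ℝ → ℝ} {M M' : ℝ}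
    (he : EOK G.E e M) (hb : BOK G.E b M') (i : G.ι) {δ : ℝ} (hδ : 0 < δ) :
    ∃ η > 0, η ≤ G.H / 2 ∧ ∀ s s' : ℂ, 0 < s.im → s.im < η → 0 < s'.im → s'.im < η →
      dist s s' < η → |(e (G.Z i s) + Pb b (G.Z i s)) - (e (G.Z i s') + Pb b (G.Z i s'))| ≤ 5 * δ := by
  have hH := hG.H_pos
  obtain ⟨ρ, hρ, hPb⟩ := l1_Pb hG.isCompact_E hG.E_subset hb hδ
  obtain ⟨η₁, hη₁, hη₁H, H1⟩ := l1_psi_uc hG hb i hδ
  obtain ⟨η₂, hη₂, H2⟩ := l1_uc (h := fun s => e (G.Z i s)) (a := G.H / 2)
    (he.cont.comp_continuousOn (l1_cont hG i)) (fun s => by simp only [Geo.Z_periodic]) hδ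
  obtain ⟨η₃, hη₃, H3⟩ := l1_uc (h := G.Z i) (a := G.H / 2) (l1_cont hG i)
    (fun s => by simp only [Geo.Z_periodic]) hρ
  have him : ∀ s : ℂ, 0 < s.im → s.im < min η₁ (min η₂ η₃) → |(G.Z i s).im| < ρ := by
    intro s h1 h2
    have h2a : s.im < η₁ := lt_of_lt_of_le h2 (min_le_left _ _)
    have h2b : s.im < η₃ := lt_of_lt_of_le h2 ((min_le_right _ _).trans (min_le_right _ _))
    have hreal : (G.Z i (s.re : ℂ)).im = 0 := by
      have := hG.Z_conj i (s := (s.re : ℂ)) (by simpa using hH)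
      rw [Complex.conj_ofReal] at this
      have h' := congrArg Complex.im this
      rw [Complex.conj_im] at h'
      linarith
    have hd : dist s (s.re : ℂ) < η₃ := by
      rw [dist_eq_norm]
      have e1 : s - (s.re : ℂ) = (s.im : ℂ) * I := by
        apply Complex.ext <;> simp
      rw [e1, norm_mul, Complex.norm_I, mul_one, Complex.norm_real, Real.norm_eq_abs, abs_of_pos h1]
      exact h2b
    have h3 := H3 s (s.re : ℂ) (by rw [abs_of_pos h1]; linarith) (by simpa using (by linarith : 0 ≤ G.H / 2)) hd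
    rw [dist_eq_norm] at h3
    have h4 := Complex.abs_im_le_norm (G.Z i s - G.Z i (s.re : ℂ))
    rw [Complex.sub_im, hreal, sub_zero] at h4
    linarith
  refine ⟨min η₁ (min η₂ η₃), lt_min hη₁ (lt_min hη₂ hη₃), (min_le_left _ _).trans hη₁H, ?_⟩
  intro s s' h1 h2 h1' h2' hd
  have a1 := hPb _ (him s h1 h2)
  have a2 := hPb _ (him s' h1' h2')
  have a3 := H1 s s' h1 (lt_of_lt_of_le h2 (min_le_left _ _)) h1' (lt_of_lt_of_le h2' (min_le_left _ _))
    (lt_of_lt_of_le hd (min_le_left _ _))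
  have hh : s.im < G.H / 2 := lt_of_lt_of_le h2 ((min_le_left _ _).trans hη₁H)
  have hh' : s'.im < G.H / 2 := lt_of_lt_of_le h2' ((min_le_left _ _).trans hη₁H)
  have a4 := H2 s s' (by rw [abs_of_pos h1]; exact hh.le) (by rw [abs_of_pos h1']; exact hh'.le)
    (lt_of_lt_of_le hd ((min_le_right _ _).trans (min_le_left _ _)))
  rw [Real.dist_eq] at a4
  rw [abs_le] at *
  rw [abs_lt] at a4
  constructor <;> linarith [a1.1, a1.2, a2.1, a2.2, a3.1, a3.2, a4.1, a4.2]

theorem base_small {G : Geo} (hG : G.OK) {e : ℂ → ℝ} {b : ℝ → ℝ} {M M' : ℝ}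
    (he : EOK G.E e M) (hb : BOK G.E b M') {δ : ℝ} (hδ : 0 < δ) :
    ∃ η₀ > 0, η₀ ≤ G.H ∧ ∀ i, ∀ s : ℂ, 0 < s.im → s.im < η₀ →
      ‖fderiv ℝ (fun s => e (G.Z i s) + Pb b (G.Z i s)) s‖ * s.im ≤ δ := by
  have hH := hG.H_pos
  choose η hη hηH Hη using fun i => l1_base_uc hG he hb i (δ := δ / 80) (by positivity)
  obtain ⟨m, hm0, hmH, hm⟩ : ∃ m > 0, m ≤ G.H / 2 ∧ ∀ i, m ≤ η i := by
    have := hG.ne
    refine ⟨Finset.univ.inf' Finset.univ_nonempty η, ?_, ?_, ?_⟩
    · rw [gt_iff_lt, Finset.lt_inf'_iff]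
      exact fun i _ => hη i
    · obtain ⟨i⟩ := hG.ne
      exact (Finset.inf'_le _ (Finset.mem_univ i)).trans (hηH i)
    · exact fun i => Finset.inf'_le _ (Finset.mem_univ i)
  refine ⟨m / 2, by positivity, by linarith, fun i s h1 h2 => ?_⟩
  set u : ℂ → ℝ := fun s => e (G.Z i s) + Pb b (G.Z i s) with hu
  have hball : ∀ z ∈ ball s (s.im / 2), 0 < z.im ∧ z.im < m ∧ dist z s < m := by
    intro z hz
    rw [mem_ball] at hz
    have h3 : |z.im - s.im| < s.im / 2 := by
      have := Complex.abs_im_le_norm (z - s)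
      rw [Complex.sub_im, ← dist_eq_norm] at this
      linarith
    rw [abs_lt] at h3
    refine ⟨by linarith [h3.1], by linarith [h3.2], by linarith⟩
  have hharm : HarmonicOnNhd (fun z => u z - u s) (ball s (s.im / 2)) := by
    intro z hz
    obtain ⟨h3, h4, -⟩ := hball z hz
    have h5 : |z.im| < G.H := by rw [abs_of_pos h3]; linarith
    have h6 : G.Z i z ∉ G.E := hG.Z_notMem i h5 h3.ne'
    have h7 : HarmonicAt u z := by
      have e1 := harmonicAt_comp (he.harm _ h6) (hG.analyticAt_Z i h5)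
      have e2 := harmonicAt_comp (Pb_harmonic hG.isCompact_E hG.E_subset hb _ h6) (hG.analyticAt_Z i h5)
      exact e1.add e2
    exact h7.sub (harmonicAt_const _)
  have hbd : ∀ z ∈ ball s (s.im / 2), |u z - u s| ≤ δ / 16 := by
    intro z hz
    obtain ⟨h3, h4, h5⟩ := hball z hz
    have hmi := hm i
    have := Hη i z s h3 (by linarith) h1 (by linarith) (by linarith)
    calc |u z - u s| ≤ 5 * (δ / 80) := this
      _ = δ / 16 := by ring
  have h3 := norm_fderiv_le (by positivity) hharm hbd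
  have h4 : fderiv ℝ (fun z => u z - u s) s = fderiv ℝ u s := by
    rw [fderiv_sub_const]
  rw [h4] at h3
  calc ‖fderiv ℝ u s‖ * s.im ≤ (8 * (δ / 16) / (s.im / 2)) * s.im :=
        mul_le_mul_of_nonneg_right h3 h1.le
    _ = δ := by field_simp; norm_num

end Pool.Agent.NH
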