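import Pool.Agent.Lib.MP_00644e_an.Defs

/-! # Row PT: the Rudin-Shapiro pattern

PROOF. Induction on `n` for pairs of real polynomials with `A 0 = 1`, `B 0 = 0`, `|A|² + |B|² = (1+a²)^n` on the unit circle, and
numbers `m j` with the STRICT inequality `a m_j / 10 < ‖w A'‖ + ‖w B'‖` on the closed annulus number `j`.
Start `A = 1`, `B = 0`. Step, `m` large: `A₁ = A - a w^m B(1/w)`, `B₁ = B + a w^m A(1/w)` (`Polynomial.reflect m`, `m > deg`); on the circle
`B(1/w) = conj (B w)` (real coefficients), the cross terms cancel: `|A₁|²+|B₁|² = (1+a²)(|A|²+|B|²)`. `A₁(0) = 1`, `B₁(0) = 0` for `m > deg`.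
Old annuli (`‖w‖ ≤ r₀ < 1`): the added terms and their derivatives are `O(m r₀^m B^deg)`, tend to `0` uniformly; strictness and
compactness preserve the inequality. New annulus `exp(-2/m) ≤ ‖w‖ ≤ exp(-1/m)`:
`w (d/dw) (w^m B(1/w)) = w^m (m B(1/w) - (1/w) B'(1/w))`, `‖w^m‖ ≥ exp(-2) > 0.135`, `‖1/w‖ → 1` so `|A(1/w)|+|B(1/w)| ≥ 0.99` for large `m`
(it is `≥ 1` on the circle, uniform continuity), all other terms are `O(1)`: the sum is `≥ 0.13 a m - O(1) > a m/10`.
At the end: `(1+a²)^n ≤ exp (n a²) ≤ e < 3`, so `‖A - 1‖ ≤ 1 + √3 ≤ 3`, `‖B‖ ≤ 3` on the circle, hence on the disc (maximum modulus), and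
both vanish at `0`: Schwarz lemma gives `≤ 3‖w‖`. Return `A - 1`, `B`. The `m j` can be chosen with `m (j+1) ≥ 2 m j + 1`. -/

set_option autoImplicit false

open Complex Metric Set Filter Topology MeasureTheory InnerProductSpace ComplexConjugate

noncomputable section

namespace Pool.Agent.NH

namespace PT

open Polynomial

theorem ev_add (A B : ℝ[X]) (w : ℂ) : ev (A + B) w = ev A w + ev B w := by
  simp [ev]

theorem ev_sub (A B : ℝ[X]) (w : ℂ) : ev (A - B) w = ev A w - ev B w := by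
  simp [ev]

theorem ev_C_mul (a : ℝ) (A : ℝ[X]) (w : ℂ) : ev (C a * A) w = (a : ℂ) * ev A w := by
  simp [ev]

theorem ev_one (w : ℂ) : ev (1 : ℝ[X]) w = 1 := by
  simp [ev]

theorem ev_cont (A : ℝ[X]) : Continuous (ev A) := A.continuous_aeval

theorem ev_deriv (A : ℝ[X]) (w : ℂ) : HasDerivAt (ev A) (ev (derivative A) w) w :=
  A.hasDerivAt_aeval w

theorem ev_conj (A : ℝ[X]) (w : ℂ) : ev A (conj w) = conj (ev A w) := by
  unfold ev
  exact A.aeval_conj w

theorem ev_reflect {B : ℝ[X]} {M : ℕ} (hM : B.natDegree ≤ M) {w : ℂ} (hw : w ≠ 0) :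
    ev (reflect M B) w = w ^ M * ev B w⁻¹ := by
  let _ := invertibleOfNonzero (inv_ne_zero hw)
  have h := eval₂_reflect_mul_pow (algebraMap ℝ ℂ) (w⁻¹) M B hM
  rw [invOf_eq_inv, inv_inv] at h
  have h1 : ev B w⁻¹ = ev (reflect M B) w * (w⁻¹) ^ M := by
    unfold ev
    rw [aeval_def, aeval_def]
    exact h.symm
  rw [h1]
  have h2 : w ^ M * (w⁻¹) ^ M = 1 := by
    rw [← mul_pow, mul_inv_cancel₀ hw, one_pow]
  calc ev (reflect M B) w = (w ^ M * (w⁻¹) ^ M) * ev (reflect M B) w := by rw [h2, one_mul]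
    _ = _ := by ring

theorem ev_reflect_deriv {B : ℝ[X]} {M : ℕ} (hM : B.natDegree ≤ M) {w : ℂ} (hw : w ≠ 0) :
    w * ev (derivative (reflect M B)) w =
      w ^ M * (M * ev B w⁻¹ - w⁻¹ * ev (derivative B) w⁻¹) := by
  have h1 := ev_deriv (reflect M B) w
  have h2 : HasDerivAt (fun x : ℂ => x ^ M * ev B x⁻¹)
      ((M * w ^ (M - 1)) * ev B w⁻¹ + w ^ M * (ev (derivative B) w⁻¹ * -(w ^ 2)⁻¹)) w := by
    have h3 : HasDerivAt (fun x : ℂ => x ^ M) (M * w ^ (M - 1)) w := hasDerivAt_pow M w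
    have h4 : HasDerivAt (fun x : ℂ => ev B x⁻¹) (ev (derivative B) w⁻¹ * -(w ^ 2)⁻¹) w :=
      HasDerivAt.comp w (ev_deriv B w⁻¹) (hasDerivAt_inv hw)
    exact h3.mul h4
  have h5 : ev (reflect M B) =ᶠ[𝓝 w] fun x : ℂ => x ^ M * ev B x⁻¹ := by
    filter_upwards [isOpen_ne.mem_nhds hw] with x hx
    exact ev_reflect hM hx
  have h6 := h2.congr_of_eventuallyEq h5
  rw [h1.unique h6]
  rcases M with _ | M
  · simp only [Nat.cast_zero, zero_mul, pow_zero, zero_sub, one_mul, zero_add]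
    field_simp
  · have h7 : w ^ (M + 1 - 1) * w = w ^ (M + 1) := by
      rw [Nat.add_sub_cancel, pow_succ]
    calc w * ((((M + 1 : ℕ) : ℂ) * w ^ (M + 1 - 1)) * ev B w⁻¹ +
          w ^ (M + 1) * (ev (derivative B) w⁻¹ * -(w ^ 2)⁻¹))
        = ((M + 1 : ℕ) : ℂ) * (w ^ (M + 1 - 1) * w) * ev B w⁻¹ -
          w ^ (M + 1) * (ev (derivative B) w⁻¹ * (w * (w ^ 2)⁻¹)) := by ring
      _ = ((M + 1 : ℕ) : ℂ) * w ^ (M + 1) * ev B w⁻¹ -
          w ^ (M + 1) * (ev (derivative B) w⁻¹ * w⁻¹) := by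
        rw [h7]
        have h8 : w * (w ^ 2)⁻¹ = w⁻¹ := by field_simp
        rw [h8]
      _ = _ := by ring

/-- the bound for the added terms -/
theorem added_bound {B : ℝ[X]} {M : ℕ} (hM : B.natDegree ≤ M) {w : ℂ} (hw : w ≠ 0) {C : ℝ}
    (h1 : ‖ev B w⁻¹‖ ≤ C) (h2 : ‖w⁻¹ * ev (derivative B) w⁻¹‖ ≤ C) :
    ‖w * ev (derivative (reflect M B)) w‖ ≤ ‖w‖ ^ M * (M * C + C) := by
  rw [ev_reflect_deriv hM hw, norm_mul, norm_pow]
  refine mul_le_mul_of_nonneg_left ?_ (by positivity)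
  refine (norm_sub_le _ _).trans (add_le_add ?_ h2)
  rw [norm_mul, Complex.norm_natCast]
  exact mul_le_mul_of_nonneg_left h1 (Nat.cast_nonneg _)

/-- the state of the induction -/
structure St (a μ : ℝ) (n : ℕ) (A B : ℝ[X]) (m : Fin n → ℝ) : Prop where
  a0 : A.coeff 0 = 1
  b0 : B.coeff 0 = 0
  circ : ∀ w : ℂ, ‖w‖ = 1 → ‖ev A w‖ ^ 2 + ‖ev B w‖ ^ 2 = (1 + a ^ 2) ^ n
  mu : ∀ j, μ ≤ m j ∧ 0 < m j
  mono : ∀ j k, j < k → 2 * m j < m k
  ann : ∀ (j : Fin n) (w : ℂ), Real.exp (-(2 / m j)) ≤ ‖w‖ → ‖w‖ ≤ Real.exp (-(1 / m j)) →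
    a * m j / 10 < ‖w * ev (derivative A) w‖ + ‖w * ev (derivative B) w‖

theorem exists_bd (P : ℝ[X]) (R : ℝ) : ∃ C : ℝ, 0 ≤ C ∧ ∀ u : ℂ, ‖u‖ ≤ R → ‖ev P u‖ ≤ C ∧
    ‖u * ev (derivative P) u‖ ≤ C := by
  obtain ⟨C1, h1⟩ := (isCompact_closedBall (0 : ℂ) R).exists_bound_of_continuousOn
    (ev_cont P).continuousOn
  obtain ⟨C2, h2⟩ := (isCompact_closedBall (0 : ℂ) R).exists_bound_of_continuousOn
    (f := fun u => u * ev (derivative P) u) (continuous_id.mul (ev_cont _)).continuousOn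
  refine ⟨max 0 (max C1 C2), le_max_left _ _, fun u hu => ?_⟩
  have hu' : u ∈ closedBall (0 : ℂ) R := by simpa using hu
  exact ⟨(h1 u hu').trans ((le_max_left _ _).trans (le_max_right _ _)),
    (h2 u hu').trans ((le_max_right _ _).trans (le_max_right _ _))⟩

/-- old annuli -/
theorem old_ann {a : ℝ} (ha : 0 < a) (A B : ℝ[X]) {m c : ℝ} (hm : 0 < m)
    (h : ∀ w : ℂ, Real.exp (-(2 / m)) ≤ ‖w‖ → ‖w‖ ≤ Real.exp (-(1 / m)) →
      c < ‖w * ev (derivative A) w‖ + ‖w * ev (derivative B) w‖) :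
    ∀ᶠ M : ℕ in atTop, ∀ w : ℂ, Real.exp (-(2 / m)) ≤ ‖w‖ → ‖w‖ ≤ Real.exp (-(1 / m)) →
      c < ‖w * ev (derivative (A - C a * reflect M B)) w‖ +
        ‖w * ev (derivative (B + C a * reflect M A)) w‖ := by
  set K : Set ℂ := {w | Real.exp (-(2 / m)) ≤ ‖w‖ ∧ ‖w‖ ≤ Real.exp (-(1 / m))} with hK
  have hKc : IsCompact K := by
    refine (isCompact_closedBall (0 : ℂ) (Real.exp (-(1 / m)))).of_isClosed_subset ?_ ?_
    · exact (isClosed_le continuous_const continuous_norm).inter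
        (isClosed_le continuous_norm continuous_const)
    · rintro w ⟨-, hw⟩
      simpa using hw
  have hcont : Continuous fun w : ℂ => ‖w * ev (derivative A) w‖ + ‖w * ev (derivative B) w‖ :=
    ((continuous_id.mul (ev_cont _)).norm).add ((continuous_id.mul (ev_cont _)).norm)
  obtain ⟨c', hc', hmin⟩ := hKc.exists_forall_le' hcont.continuousOn
    (fun w hw => h w hw.1 hw.2)
  obtain ⟨C1, hC1, hA⟩ := exists_bd A (Real.exp (2 / m))
  obtain ⟨C2, hC2, hB⟩ := exists_bd B (Real.exp (2 / m))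
  set C3 := max C1 C2 with hC3
  have hr1 : Real.exp (-(1 / m)) < 1 := by
    rw [Real.exp_lt_one_iff]
    have := one_div_pos.2 hm
    linarith
  have hr0 : 0 ≤ Real.exp (-(1 / m)) := (Real.exp_pos _).le
  have hlim : Tendsto (fun M : ℕ => 2 * (a * (Real.exp (-(1 / m)) ^ M * (M * C3 + C3)))) atTop
      (𝓝 0) := by
    have t1 := tendsto_self_mul_const_pow_of_lt_one hr0 hr1
    have t2 := tendsto_pow_atTop_nhds_zero_of_lt_one hr0 hr1
    have t3 := ((t1.mul_const C3).add (t2.mul_const C3)).const_mul (2 * a)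
    simp only [zero_mul, add_zero, mul_zero] at t3
    refine t3.congr (fun M => ?_)
    ring
  have hev := hlim.eventually (gt_mem_nhds (sub_pos.2 hc'))
  filter_upwards [hev, eventually_ge_atTop A.natDegree, eventually_ge_atTop B.natDegree]
    with M hM hMA hMB w hw1 hw2
  have hwpos : 0 < ‖w‖ := lt_of_lt_of_le (Real.exp_pos _) hw1
  have hw : w ≠ 0 := norm_pos_iff.1 hwpos
  have hinv : ‖w⁻¹‖ ≤ Real.exp (2 / m) := by
    rw [norm_inv]
    rw [Real.exp_neg] at hw1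
    exact inv_le_of_inv_le₀ (Real.exp_pos _) hw1
  have b1 := added_bound hMB hw (C := C3) ((hB _ hinv).1.trans (le_max_right _ _))
    ((hB _ hinv).2.trans (le_max_right _ _))
  have b2 := added_bound hMA hw (C := C3) ((hA _ hinv).1.trans (le_max_left _ _))
    ((hA _ hinv).2.trans (le_max_left _ _))
  have hC30 : 0 ≤ C3 := hC1.trans (le_max_left _ _)
  have hpow : ‖w‖ ^ M * (M * C3 + C3) ≤ Real.exp (-(1 / m)) ^ M * (M * C3 + C3) := by
    refine mul_le_mul_of_nonneg_right (pow_le_pow_left₀ hwpos.le hw2 M) ?_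
    positivity
  have e1 : w * ev (derivative (A - C a * reflect M B)) w =
      w * ev (derivative A) w - a * (w * ev (derivative (reflect M B)) w) := by
    rw [derivative_sub, derivative_C_mul, ev_sub, ev_C_mul]
    ring
  have e2 : w * ev (derivative (B + C a * reflect M A)) w =
      w * ev (derivative B) w + a * (w * ev (derivative (reflect M A)) w) := by
    rw [derivative_add, derivative_C_mul, ev_add, ev_C_mul]
    ring
  have n1 : ‖w * ev (derivative A) w‖ - a * ‖w * ev (derivative (reflect M B)) w‖ ≤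
      ‖w * ev (derivative (A - C a * reflect M B)) w‖ := by
    rw [e1]
    have := norm_sub_norm_le (w * ev (derivative A) w)
      ((a : ℂ) * (w * ev (derivative (reflect M B)) w))
    rwa [norm_mul (a : ℂ), Complex.norm_real, Real.norm_of_nonneg ha.le] at this
  have n2 : ‖w * ev (derivative B) w‖ - a * ‖w * ev (derivative (reflect M A)) w‖ ≤
      ‖w * ev (derivative (B + C a * reflect M A)) w‖ := by
    rw [e2]
    have := norm_sub_norm_le (w * ev (derivative B) w)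
      (-((a : ℂ) * (w * ev (derivative (reflect M A)) w)))
    rwa [norm_neg, norm_mul (a : ℂ), Complex.norm_real, Real.norm_of_nonneg ha.le,
      sub_neg_eq_add] at this
  have n3 := mul_le_mul_of_nonneg_left (b1.trans hpow) ha.le
  have n4 := mul_le_mul_of_nonneg_left (b2.trans hpow) ha.le
  have n5 := hmin w ⟨hw1, hw2⟩
  linarith

/-- a lower bound near the circle -/
theorem near_circle {A B : ℝ[X]} (h : ∀ w : ℂ, ‖w‖ = 1 → 1 ≤ ‖ev A w‖ ^ 2 + ‖ev B w‖ ^ 2) :
    ∃ η : ℝ, 0 < η ∧ ∀ u : ℂ, 1 ≤ ‖u‖ → ‖u‖ ≤ 1 + η → 99 / 100 ≤ ‖ev A u‖ + ‖ev B u‖ := by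
  have hc1 : UniformContinuousOn (fun u => (ev A u, ev B u)) (closedBall (0 : ℂ) 2) :=
    (isCompact_closedBall (0 : ℂ) 2).uniformContinuousOn_of_continuous
      ((ev_cont A).prodMk (ev_cont B)).continuousOn
  obtain ⟨δ, hδ, hd⟩ := Metric.uniformContinuousOn_iff.1 hc1 (1 / 200) (by norm_num)
  refine ⟨min (δ / 2) 1, lt_min (by linarith) one_pos, fun u hu1 hu2 => ?_⟩
  have hupos : 0 < ‖u‖ := by linarith
  have hune : (‖u‖ : ℂ) ≠ 0 := by exact_mod_cast hupos.ne'
  set v : ℂ := u / (‖u‖ : ℂ) with hv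
  have hvn : ‖v‖ = 1 := by
    rw [hv, norm_div, Complex.norm_real, norm_norm, div_self hupos.ne']
  have hu3 : ‖u‖ ≤ 2 := by
    have := min_le_right (δ / 2) 1
    linarith
  have hdist : dist u v < δ := by
    rw [dist_eq_norm]
    have e : u - v = v * ((‖u‖ - 1 : ℝ) : ℂ) := by
      rw [hv]
      push_cast
      field_simp
    rw [e, norm_mul, hvn, one_mul, Complex.norm_real, Real.norm_of_nonneg (by linarith)]
    have := min_le_left (δ / 2) 1
    linarith
  have hd' := hd u (by simpa using hu3) v (by simp [hvn]) hdist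
  rw [Prod.dist_eq, max_lt_iff] at hd'
  obtain ⟨d1, d2⟩ := hd'
  simp only [dist_eq_norm] at d1 d2
  have h1 := h v hvn
  have h2 : 1 ≤ ‖ev A v‖ + ‖ev B v‖ := by
    by_contra hn
    push Not at hn
    have p1 := norm_nonneg (ev A v)
    have p2 := norm_nonneg (ev B v)
    nlinarith
  have h3 := norm_sub_norm_le (ev A v) (ev A u)
  have h4 := norm_sub_norm_le (ev B v) (ev B u)
  rw [norm_sub_rev] at h3 h4
  linarith

theorem exp_neg_two : (135 : ℝ) / 1000 ≤ Real.exp (-2) := by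
  have h1 : Real.exp 1 < 2.7182818286 := Real.exp_one_lt_d9
  have h2 : Real.exp (-2) = (Real.exp 1 * Real.exp 1)⁻¹ := by
    rw [Real.exp_neg, ← Real.exp_add]
    norm_num
  rw [h2, le_inv_comm₀ (by norm_num) (by positivity)]
  have h3 : 0 < Real.exp 1 := Real.exp_pos 1
  nlinarith

/-- the new annulus -/
theorem new_ann {a : ℝ} (ha : 0 < a) (ha1 : a ≤ 1) {A B : ℝ[X]}
    (h : ∀ w : ℂ, ‖w‖ = 1 → 1 ≤ ‖ev A w‖ ^ 2 + ‖ev B w‖ ^ 2) :
    ∀ᶠ M : ℕ in atTop, ∀ w : ℂ, Real.exp (-(2 / (M : ℝ))) ≤ ‖w‖ →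
      ‖w‖ ≤ Real.exp (-(1 / (M : ℝ))) →
      a * M / 10 < ‖w * ev (derivative (A - C a * reflect M B)) w‖ +
        ‖w * ev (derivative (B + C a * reflect M A)) w‖ := by
  obtain ⟨η, hη, hnear⟩ := near_circle h
  obtain ⟨C1, hC1, hA⟩ := exists_bd A (Real.exp 2)
  obtain ⟨C2, hC2, hB⟩ := exists_bd B (Real.exp 2)
  have hlim : Tendsto (fun M : ℕ => Real.exp (2 / (M : ℝ))) atTop (𝓝 1) := by
    have t1 : Tendsto (fun M : ℕ => (2 : ℝ) / (M : ℝ)) atTop (𝓝 0) :=
      tendsto_const_div_atTop_nhds_zero_nat 2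
    have t2 := (Real.continuous_exp.tendsto 0).comp t1
    rwa [Real.exp_zero] at t2
  have hev1 := hlim.eventually (gt_mem_nhds (show (1 : ℝ) < 1 + η by linarith))
  have hev2 : ∀ᶠ M : ℕ in atTop, 2 * (C1 + C2) * 100 < a * M := by
    have t1 : Tendsto (fun M : ℕ => a * (M : ℝ)) atTop atTop :=
      tendsto_natCast_atTop_atTop.const_mul_atTop ha
    exact t1.eventually_gt_atTop _
  filter_upwards [hev1, hev2, eventually_ge_atTop A.natDegree, eventually_ge_atTop B.natDegree,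
    eventually_ge_atTop 1] with M hM1 hM2 hMA hMB hM0 w hw1 hw2
  have hMpos : (0 : ℝ) < M := by exact_mod_cast hM0
  have hM1' : (1 : ℝ) ≤ M := by exact_mod_cast hM0
  have hwpos : 0 < ‖w‖ := lt_of_lt_of_le (Real.exp_pos _) hw1
  have hw : w ≠ 0 := norm_pos_iff.1 hwpos
  have hinv : ‖w⁻¹‖ ≤ Real.exp (2 / M) := by
    rw [norm_inv]
    rw [Real.exp_neg] at hw1
    exact inv_le_of_inv_le₀ (Real.exp_pos _) hw1
  have hinv2 : ‖w⁻¹‖ ≤ Real.exp 2 := by
    refine hinv.trans (Real.exp_le_exp.2 ?_)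
    rw [div_le_iff₀ hMpos]
    linarith
  have hw3 : ‖w‖ ≤ 1 := by
    refine hw2.trans ?_
    rw [Real.exp_le_one_iff]
    have := one_div_pos.2 hMpos
    linarith
  have hinv1 : 1 ≤ ‖w⁻¹‖ := by
    rw [norm_inv]
    exact (one_le_inv₀ hwpos).2 hw3
  have hw4 : ‖w‖ ≤ Real.exp 2 := hw3.trans (Real.one_le_exp (by norm_num))
  have hn := hnear w⁻¹ hinv1 (hinv.trans hM1.le)
  have hpow : (135 : ℝ) / 1000 ≤ ‖w‖ ^ M := by
    refine exp_neg_two.trans ?_
    have h5 : Real.exp (-2) = Real.exp (-(2 / (M : ℝ))) ^ M := by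
      rw [← Real.exp_nat_mul]
      congr 1
      field_simp
    rw [h5]
    exact pow_le_pow_left₀ (Real.exp_pos _).le hw1 M
  have hpow1 : ‖w‖ ^ M ≤ 1 := pow_le_one₀ hwpos.le hw3
  -- lower bound of the added term
  have key : ∀ P : ℝ[X], P.natDegree ≤ M → ∀ C' : ℝ, ‖w⁻¹ * ev (derivative P) w⁻¹‖ ≤ C' →
      0 ≤ C' → 135 / 1000 * M * ‖ev P w⁻¹‖ - C' ≤ ‖w * ev (derivative (reflect M P)) w‖ := by
    intro P hP C' hC' hC0
    rw [ev_reflect_deriv hP hw, norm_mul, norm_pow]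
    have k1 := norm_sub_norm_le ((M : ℂ) * ev P w⁻¹) (w⁻¹ * ev (derivative P) w⁻¹)
    rw [norm_mul, Complex.norm_natCast] at k1
    have k2 : ‖w‖ ^ M * (M * ‖ev P w⁻¹‖ - C') ≤
        ‖w‖ ^ M * ‖(M : ℂ) * ev P w⁻¹ - w⁻¹ * ev (derivative P) w⁻¹‖ :=
      mul_le_mul_of_nonneg_left (by linarith) (by positivity)
    refine le_trans ?_ k2
    have k3 : 135 / 1000 * (M * ‖ev P w⁻¹‖) ≤ ‖w‖ ^ M * (M * ‖ev P w⁻¹‖) :=
      mul_le_mul_of_nonneg_right hpow (by positivity)
    have k4 : ‖w‖ ^ M * C' ≤ 1 * C' := mul_le_mul_of_nonneg_right hpow1 hC0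
    nlinarith
  have kB := key B hMB C2 (hB _ hinv2).2 hC2
  have kA := key A hMA C1 (hA _ hinv2).2 hC1
  have wA := (hA w hw4).2
  have wB := (hB w hw4).2
  have e1 : w * ev (derivative (A - C a * reflect M B)) w =
      w * ev (derivative A) w - a * (w * ev (derivative (reflect M B)) w) := by
    rw [derivative_sub, derivative_C_mul, ev_sub, ev_C_mul]
    ring
  have e2 : w * ev (derivative (B + C a * reflect M A)) w =
      w * ev (derivative B) w + a * (w * ev (derivative (reflect M A)) w) := by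
    rw [derivative_add, derivative_C_mul, ev_add, ev_C_mul]
    ring
  have n1 : a * ‖w * ev (derivative (reflect M B)) w‖ - ‖w * ev (derivative A) w‖ ≤
      ‖w * ev (derivative (A - C a * reflect M B)) w‖ := by
    rw [e1]
    have := norm_sub_norm_le ((a : ℂ) * (w * ev (derivative (reflect M B)) w))
      (w * ev (derivative A) w)
    rwa [norm_mul (a : ℂ), Complex.norm_real, Real.norm_of_nonneg ha.le, norm_sub_rev] at this
  have n2 : a * ‖w * ev (derivative (reflect M A)) w‖ - ‖w * ev (derivative B) w‖ ≤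
      ‖w * ev (derivative (B + C a * reflect M A)) w‖ := by
    rw [e2]
    have := norm_sub_norm_le ((a : ℂ) * (w * ev (derivative (reflect M A)) w))
      (-(w * ev (derivative B) w))
    rw [norm_neg, norm_mul (a : ℂ), Complex.norm_real, Real.norm_of_nonneg ha.le,
      sub_neg_eq_add] at this
    rwa [add_comm (w * ev (derivative B) w)]
  have n3 := mul_le_mul_of_nonneg_left kB ha.le
  have n4 := mul_le_mul_of_nonneg_left kA ha.le
  have n5 : a * C2 ≤ 1 * C2 := mul_le_mul_of_nonneg_right ha1 hC2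
  have n6 : a * C1 ≤ 1 * C1 := mul_le_mul_of_nonneg_right ha1 hC1
  have n7 : a * M * (99 / 100) ≤ a * M * (‖ev A w⁻¹‖ + ‖ev B w⁻¹‖) :=
    mul_le_mul_of_nonneg_left hn (by positivity)
  nlinarith

end PT

namespace PT

open Polynomial

theorem circ_step (a : ℝ) (x y u : ℂ) (hu : ‖u‖ = 1) :
    ‖x - a * (u * conj y)‖ ^ 2 + ‖y + a * (u * conj x)‖ ^ 2 =
      (1 + a ^ 2) * (‖x‖ ^ 2 + ‖y‖ ^ 2) := by
  have hu' : u.re * u.re + u.im * u.im = 1 := by
    have h := Complex.sq_norm u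
    rw [hu, Complex.normSq_apply] at h
    linarith
  rw [Complex.sq_norm, Complex.sq_norm, Complex.sq_norm, Complex.sq_norm, Complex.normSq_apply,
    Complex.normSq_apply, Complex.normSq_apply, Complex.normSq_apply]
  simp only [Complex.sub_re, Complex.sub_im, Complex.add_re, Complex.add_im, Complex.mul_re,
    Complex.mul_im, Complex.ofReal_re, Complex.ofReal_im, Complex.conj_re, Complex.conj_im]
  linear_combination (a ^ 2 * (x.re ^ 2 + x.im ^ 2 + y.re ^ 2 + y.im ^ 2)) * hu'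

theorem circ_new {a : ℝ} {A B : ℝ[X]} {M : ℕ} (hA : A.natDegree ≤ M) (hB : B.natDegree ≤ M)
    {w : ℂ} (hw : ‖w‖ = 1) :
    ‖ev (A - C a * reflect M B) w‖ ^ 2 + ‖ev (B + C a * reflect M A) w‖ ^ 2 =
      (1 + a ^ 2) * (‖ev A w‖ ^ 2 + ‖ev B w‖ ^ 2) := by
  have hw0 : w ≠ 0 := by
    intro h
    rw [h, norm_zero] at hw
    exact zero_ne_one hw
  have hinv : w⁻¹ = conj w := Complex.inv_eq_conj hw
  rw [ev_sub, ev_add, ev_C_mul, ev_C_mul, ev_reflect hA hw0, ev_reflect hB hw0, hinv, ev_conj,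
    ev_conj]
  refine circ_step a _ _ (w ^ M) ?_
  rw [norm_pow, hw, one_pow]

theorem exists_st {a : ℝ} (ha : 0 < a) (ha1 : a ≤ 1) (μ : ℝ) (n : ℕ) :
    ∃ (A B : ℝ[X]) (m : Fin n → ℝ), St a μ n A B m := by
  induction n with
  | zero =>
    refine ⟨1, 0, Fin.elim0, ?_, ?_, ?_, ?_, ?_, ?_⟩
    · simp
    · simp
    · intro w _
      simp [ev]
    · intro j
      exact j.elim0
    · intro j
      exact j.elim0
    · intro j
      exact j.elim0
  | succ n ih =>
    obtain ⟨A, B, m, h⟩ := ih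
    have e1 : ∀ᶠ M : ℕ in atTop, ∀ j : Fin n, ∀ w : ℂ, Real.exp (-(2 / m j)) ≤ ‖w‖ →
        ‖w‖ ≤ Real.exp (-(1 / m j)) →
        a * m j / 10 < ‖w * ev (derivative (A - C a * reflect M B)) w‖ +
          ‖w * ev (derivative (B + C a * reflect M A)) w‖ :=
      eventually_all.2 (fun j => old_ann ha A B (h.mu j).2 (h.ann j))
    have e2 := new_ann ha ha1 (A := A) (B := B) (fun w hw => by
      rw [h.circ w hw]
      exact one_le_pow₀ (by nlinarith [sq_nonneg a]))
    have e3 : ∀ᶠ M : ℕ in atTop, ∀ j : Fin n, 2 * m j < M :=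
      eventually_all.2 (fun j => tendsto_natCast_atTop_atTop.eventually_gt_atTop _)
    have e4 : ∀ᶠ M : ℕ in atTop, μ < (M : ℝ) :=
      tendsto_natCast_atTop_atTop.eventually_gt_atTop _
    obtain ⟨M, h1, h2, h3, h4, h5, h6, h7⟩ := (e1.and (e2.and (e3.and (e4.and
      ((eventually_gt_atTop A.natDegree).and ((eventually_gt_atTop B.natDegree).and
        (eventually_ge_atTop 1))))))).exists
    have hMpos : (0 : ℝ) < M := by exact_mod_cast h7
    refine ⟨A - C a * reflect M B, B + C a * reflect M A, Fin.snoc m (M : ℝ), ?_, ?_, ?_, ?_, ?_,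
      ?_⟩
    · rw [coeff_sub, coeff_C_mul, coeff_reflect, revAt_le (Nat.zero_le M), Nat.sub_zero,
        coeff_eq_zero_of_natDegree_lt h6, h.a0]
      ring
    · rw [coeff_add, coeff_C_mul, coeff_reflect, revAt_le (Nat.zero_le M), Nat.sub_zero,
        coeff_eq_zero_of_natDegree_lt h5, h.b0]
      ring
    · intro w hw
      rw [circ_new h5.le h6.le hw, h.circ w hw]
      ring
    · intro j
      refine Fin.lastCases ?_ (fun i => ?_) j
      · rw [Fin.snoc_last]
        exact ⟨h4.le, hMpos⟩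
      · rw [Fin.snoc_castSucc]
        exact h.mu i
    · intro j k
      refine Fin.lastCases ?_ (fun i => ?_) k
      · refine Fin.lastCases ?_ (fun i => ?_) j
        · intro hjk
          exact absurd hjk (lt_irrefl _)
        · intro _
          rw [Fin.snoc_last, Fin.snoc_castSucc]
          exact h3 i
      · refine Fin.lastCases ?_ (fun i' => ?_) j
        · intro hjk
          exact absurd hjk (not_lt.2 (Fin.le_last _))
        · intro hjk
          rw [Fin.snoc_castSucc, Fin.snoc_castSucc]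
          exact h.mono i' i (by simpa using hjk)
    · intro j
      refine Fin.lastCases ?_ (fun i => ?_) j
      · intro w
        rw [Fin.snoc_last]
        exact h2 w
      · intro w
        rw [Fin.snoc_castSucc]
        exact h1 i w

/-- the Schwarz lemma for polynomials -/
theorem schwarz {P : ℝ[X]} (h0 : P.coeff 0 = 0) {K : ℝ}
    (h : ∀ w : ℂ, ‖w‖ = 1 → ‖ev P w‖ ≤ K) {w : ℂ} (hw : ‖w‖ ≤ 1) : ‖ev P w‖ ≤ K * ‖w‖ := by
  have hP : P.divX * X = P := by
    have := divX_mul_X_add P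
    rwa [h0, C_0, add_zero] at this
  have he : ∀ u : ℂ, ev P u = ev P.divX u * u := by
    intro u
    conv_lhs => rw [← hP]
    simp [ev]
  have hq : ‖ev P.divX w‖ ≤ K := by
    refine Complex.norm_le_of_forall_mem_frontier_norm_le (U := ball (0 : ℂ) 1) isBounded_ball
      ?_ ?_ ?_
    · exact (Differentiable.diffContOnCl fun u => (ev_deriv P.divX u).differentiableAt)
    · intro u hu
      rw [frontier_ball _ one_ne_zero, mem_sphere_zero_iff_norm] at hu
      have h1 := h u hu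
      rwa [he, norm_mul, hu, mul_one] at h1
    · rw [closure_ball _ one_ne_zero]
      simpa using hw
  rw [he, norm_mul]
  exact mul_le_mul_of_nonneg_right hq (norm_nonneg _)

end PT

theorem exists_pattern {a : ℝ} (ha : 0 < a) (ha1 : a ≤ 1) {n : ℕ} (hn : n * a ^ 2 ≤ 1) (μ : ℝ) :
    ∃ (A B : Polynomial ℝ) (m : Fin n → ℝ),
      (∀ w : ℂ, ‖w‖ ≤ 1 → ‖ev A w‖ ≤ 3 * ‖w‖ ∧ ‖ev B w‖ ≤ 3 * ‖w‖) ∧
      (∀ j, μ ≤ m j ∧ 0 < m j) ∧ (∀ j k, j < k → 2 * m j < m k) ∧
      ∀ (j : Fin n) (w : ℂ), Real.exp (-(2 / m j)) ≤ ‖w‖ → ‖w‖ ≤ Real.exp (-(1 / m j)) →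
        a * m j / 10 ≤ ‖w * ev (Polynomial.derivative A) w‖ + ‖w * ev (Polynomial.derivative B) w‖ := by
  obtain ⟨A, B, m, h⟩ := PT.exists_st ha ha1 μ n
  have hc : (1 + a ^ 2) ^ n ≤ 4 := by
    have h1 : (1 + a ^ 2) ^ n ≤ Real.exp (a ^ 2) ^ n := by
      refine pow_le_pow_left₀ (by positivity) ?_ n
      have := Real.add_one_le_exp (a ^ 2)
      linarith
    rw [← Real.exp_nat_mul] at h1
    have h2 : Real.exp (n * a ^ 2) ≤ Real.exp 1 := Real.exp_le_exp.2 hn
    have h3 := Real.exp_one_lt_d9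
    linarith
  have hAB : ∀ w : ℂ, ‖w‖ = 1 → ‖ev A w‖ ≤ 2 ∧ ‖ev B w‖ ≤ 2 := by
    intro w hw
    have h1 := h.circ w hw
    constructor
    · exact abs_le_of_sq_le_sq' (by nlinarith [sq_nonneg ‖ev B w‖]) (by norm_num) |>.2
    · exact abs_le_of_sq_le_sq' (by nlinarith [sq_nonneg ‖ev A w‖]) (by norm_num) |>.2
  refine ⟨A - 1, B, m, ?_, h.mu, h.mono, ?_⟩
  · intro w hw
    constructor
    · refine PT.schwarz ?_ ?_ hw
      · rw [Polynomial.coeff_sub, h.a0]
        simp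
      · intro u hu
        rw [PT.ev_sub, PT.ev_one]
        refine (norm_sub_le _ _).trans ?_
        rw [norm_one]
        linarith [(hAB u hu).1]
    · refine PT.schwarz h.b0 ?_ hw
      intro u hu
      linarith [(hAB u hu).2]
  · intro j w h1 h2
    have h3 := h.ann j w h1 h2
    have h4 : Polynomial.derivative (A - 1) = Polynomial.derivative A := by simp
    rw [h4]
    exact h3.le

end Pool.Agent.NH
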