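import Pool.Agent.Lib.MP_00644e_an.Defs
import Pool.Agent.Lib.MP_00644e_an.T3
import Pool.Agent.Lib.MP_00644e_an.PT
import Pool.Agent.Lib.MP_00644e_an.L1
import Pool.Agent.Lib.MP_00644e_an.K3
import Pool.Agent.Lib.MP_00644e_an.K5
import Pool.Agent.Lib.MP_00644e_an.K6
/-! # Row ST: the stage inequality

PROOF. `c_s` from `sharing`, `c_m` from `mass`, `c₀ = c_s c_m / (160 N (#ι))`. Choose `a ≤ 1` with `a T ≤ ε c₀ / 2`..., `n = ⌊1/a²⌋`, so that `n a² ≤ 1` and
`ε a n c₀ ≥ T`. `base_small` with `δ = ε a / 80` gives `η₀`; `exists_pattern` with `μ` so large that `2/μ ≤ min η₀ (H/4)`. Let `m_n` be the largest `m j`,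
`ρ = 1/(2 m_n N)`, `τ` small: `16 τ m_n ≤ ε a m_j/80` for all `j`, `16 τ m_n ≤ 1/(2N)`; `r₀ ≥ r₁` with `1/2^r ≤ 1/m_n`.
Fix `i`, `j`, `s` with `1/m_j < Im s < 2/m_j`. The disc of radius `Im s/2` around `s` lies in `{Im ≥ 1/(2 m_j)} ⊆ {g ∘ Z ≥ ρ}`, so by `norm_fderiv_le`
the gradients of `(f - (e + Pb b + ε pat)) ∘ Z i` and `(γ - g) ∘ Z i` at `s` are `≤ 16 τ / Im s ≤ 16 τ m_j`. `g ∘ Z i = Im / N` has gradient `1/N`, so
`‖∇(γ ∘ Z i)‖ ≥ 1/(2N)`. `pat ∘ Z i = Re A(exp(is)) + Im B(exp(is))` (`om_cos`, `F_Z`); at `-conj s` the first summand has the same gradient norm and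
the second changes sign: `‖∇pat(s)‖ + ‖∇pat(-conj s)‖ ≥ |w A'| + |w B'| ≥ a m_j/10`, `w = exp(is)` (write both as `∇p ± ∇q`; `‖x+y‖+‖x-y‖ ≥ 2 max ≥ ‖x‖+‖y‖`).
Base: `≤ δ / Im s ≤ δ m_j`. Hence `‖∇(f∘Z)(s)‖ + ‖∇(f∘Z)(-conj s)‖ ≥ ε a m_j / 20`. `strip_cost` on `(1/m_j, 2/m_j)` with `κ = K ∘ Z i`, `c = c_s`,
`D = ε a m_j/20`, then `cost_chart`; the strips for different `j` are disjoint. Summing over `i` (each chart bounds the same integral, so the integral is
`≥ (1/#ι) ∑ i`) and using `mass` (`PosH` for `G.E` by `step_E_subset`): total `≥ (1/#ι)(1/(2N)) (c_s/2) ∑_j (ε a m_j/20) (1/m_j) c_m L ≥ T L`. -/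

set_option autoImplicit false

open Complex Metric Set Filter Topology MeasureTheory InnerProductSpace ComplexConjugate

noncomputable section

namespace Pool.Agent.NH

namespace ST

open Polynomial

variable {G : Geo}

theorem chart_harm (hG : G.OK) (i : G.ι) {E' : Set ℂ} (hE' : E' ⊆ G.E) {u : ℂ → ℝ}
    (hu : HarmonicOnNhd u E'ᶜ) {s : ℂ} (h0 : 0 < s.im) (h1 : s.im < G.H) :
    HarmonicAt (fun s => u (G.Z i s)) s := by
  have h2 : |s.im| < G.H := by rw [abs_of_pos h0]; exact h1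
  exact harmonicAt_comp (hu _ (fun h => hG.Z_notMem i h2 h0.ne' (hE' h))) (hG.analyticAt_Z i h2)

/-- the polynomial in the chart -/
def pp (A : ℝ[X]) (s : ℂ) : ℂ := ev A (Complex.exp (I * s))

theorem pp_deriv (A : ℝ[X]) (s : ℂ) : HasDerivAt (pp A)
    (ev (derivative A) (Complex.exp (I * s)) * (Complex.exp (I * s) * I)) s := by
  have h1 : HasDerivAt (fun s : ℂ => Complex.exp (I * s)) (Complex.exp (I * s) * I) s := by
    have h2 : HasDerivAt (fun s : ℂ => I * s) I s := by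
      simpa using (hasDerivAt_id s).const_mul I
    exact h2.cexp
  exact HasDerivAt.comp s (PT.ev_deriv A (Complex.exp (I * s))) h1

theorem pp_norm (A : ℝ[X]) (s : ℂ) : ‖deriv (pp A) s‖ =
    ‖Complex.exp (I * s) * ev (derivative A) (Complex.exp (I * s))‖ := by
  rw [(pp_deriv A s).deriv, norm_mul, norm_mul, norm_mul, Complex.norm_I, mul_one, mul_comm]

theorem exp_conj (s : ℂ) : Complex.exp (I * -conj s) = conj (Complex.exp (I * s)) := by
  rw [← Complex.exp_conj]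
  congr 1
  simp

theorem pp_conj (A : ℝ[X]) (s : ℂ) : pp A (-conj s) = conj (pp A s) := by
  unfold pp
  rw [exp_conj, PT.ev_conj]

theorem pat_chart (hG : G.OK) (i : G.ι) (A B : ℝ[X]) {s : ℂ} (h0 : 0 < s.im)
    (h1 : s.im < G.H) : G.pat A B (G.Z i s) = (pp A s).re + (pp B s).im := by
  have h2 : |s.im| < G.H := by rw [abs_of_pos h0]; exact h1
  unfold Geo.pat pp
  rw [hG.F_Z i h2, om_cos h0]

theorem strip_nhds {a b : ℝ} {s : ℂ} (h0 : a < s.im) (h1 : s.im < b) :
    {s : ℂ | a < s.im ∧ s.im < b} ∈ 𝓝 s :=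
  ((isOpen_lt continuous_const Complex.continuous_im).inter
    (isOpen_lt Complex.continuous_im continuous_const)).mem_nhds ⟨h0, h1⟩

theorem pat_ev (hG : G.OK) (i : G.ι) (A B : ℝ[X]) {s : ℂ} (h0 : 0 < s.im)
    (h1 : s.im < G.H) :
    (fun s => G.pat A B (G.Z i s)) =ᶠ[𝓝 s] fun s => (pp A s).re + (pp B s).im := by
  filter_upwards [strip_nhds h0 h1] with x hx
  exact pat_chart hG i A B hx.1 hx.2

theorem pp_analytic (A : ℝ[X]) (s : ℂ) : AnalyticAt ℂ (pp A) s :=
  (show Differentiable ℂ (pp A) from fun x => (pp_deriv A x).differentiableAt).analyticAt s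

theorem pat_harm (hG : G.OK) (i : G.ι) (A B : ℝ[X]) {s : ℂ} (h0 : 0 < s.im)
    (h1 : s.im < G.H) : HarmonicAt (fun s => G.pat A B (G.Z i s)) s := by
  rw [harmonicAt_congr_nhds (pat_ev hG i A B h0 h1)]
  exact (pp_analytic A s).harmonicAt_re.add (pp_analytic B s).harmonicAt_im

theorem two_norms {V : Type*} [NormedAddCommGroup V] [NormedSpace ℝ V] (x y : V) :
    ‖x‖ + ‖y‖ ≤ ‖x + y‖ + ‖x - y‖ := by
  have h1 : 2 * ‖x‖ ≤ ‖x + y‖ + ‖x - y‖ := by
    have : (2 : ℝ) • x = (x + y) + (x - y) := by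
      rw [two_smul]
      abel
    calc 2 * ‖x‖ = ‖(2 : ℝ) • x‖ := by rw [norm_smul]; norm_num
      _ ≤ _ := by rw [this]; exact norm_add_le _ _
  have h2 : 2 * ‖y‖ ≤ ‖x + y‖ + ‖x - y‖ := by
    have : (2 : ℝ) • y = (x + y) - (x - y) := by
      rw [two_smul]
      abel
    calc 2 * ‖y‖ = ‖(2 : ℝ) • y‖ := by rw [norm_smul]; norm_num
      _ ≤ _ := by rw [this]; exact norm_sub_le _ _
  linarith

theorem neg_conj_im (s : ℂ) : (-conj s).im = s.im := by simp

/-- gradients of the pattern at two points -/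
theorem pat_grad (hG : G.OK) (i : G.ι) (A B : ℝ[X]) {s : ℂ} (h0 : 0 < s.im)
    (h1 : s.im < G.H) :
    ‖Complex.exp (I * s) * ev (derivative A) (Complex.exp (I * s))‖ +
      ‖Complex.exp (I * s) * ev (derivative B) (Complex.exp (I * s))‖ ≤
      ‖fderiv ℝ (fun s => G.pat A B (G.Z i s)) s‖ +
        ‖fderiv ℝ (fun s => G.pat A B (G.Z i s)) (-conj s)‖ := by
  have h0' : 0 < (-conj s).im := by rw [neg_conj_im]; exact h0
  have h1' : (-conj s).im < G.H := by rw [neg_conj_im]; exact h1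
  set p : ℂ → ℝ := fun s => (pp A s).re with hp
  set q : ℂ → ℝ := fun s => (pp B s).im with hq
  have dp : ∀ x, DifferentiableAt ℝ p x := fun x =>
    ((pp_analytic A x).harmonicAt_re).1.differentiableAt (by norm_num)
  have dq : ∀ x, DifferentiableAt ℝ q x := fun x =>
    ((pp_analytic B x).harmonicAt_im).1.differentiableAt (by norm_num)
  have e1 : fderiv ℝ (fun s => G.pat A B (G.Z i s)) s = fderiv ℝ p s + fderiv ℝ q s := by
    rw [(pat_ev hG i A B h0 h1).fderiv_eq]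
    exact fderiv_add (dp s) (dq s)
  have e2 : fderiv ℝ (fun s => G.pat A B (G.Z i s)) (-conj s) =
      fderiv ℝ (fun s => p s + q s) (-conj s) := (pat_ev hG i A B h0' h1').fderiv_eq
  have e3 : (fun x => p (-conj x) + q (-conj x)) = fun x => p x - q x := by
    funext x
    simp only [hp, hq, pp_conj, Complex.conj_re, Complex.conj_im]
    ring
  have dpq : ∀ x, DifferentiableAt ℝ (fun s => p s + q s) x := fun x => (dp x).add (dq x)
  have e4 : ‖fderiv ℝ (fun x => p (-conj x) + q (-conj x)) s‖ =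
      ‖fderiv ℝ (fun s => p s + q s) (-conj s)‖ := by
    have hd : DifferentiableAt ℝ (fun z => p (-z) + q (-z)) (conj s) := by
      have := (dpq (-conj s)).comp (conj s) (differentiableAt_id.neg (𝕜 := ℝ))
      exact this
    have h3 := norm_fderiv_comp_conj (u := fun z => p (-z) + q (-z)) (z := s) hd
    rw [h3]
    have h4 : fderiv ℝ (fun z => p (-z) + q (-z)) (conj s) =
        -fderiv ℝ (fun z => p z + q z) (-conj s) := by
      have h5 : HasFDerivAt (fun z : ℂ => -z) (-(ContinuousLinearMap.id ℝ ℂ)) (conj s) :=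
        (hasFDerivAt_id (conj s)).neg
      have h6 := HasFDerivAt.comp (conj s) (dpq (-conj s)).hasFDerivAt h5
      have h7 : fderiv ℝ (fun z => p (-z) + q (-z)) (conj s) =
          (fderiv ℝ (fun z => p z + q z) (-conj s)).comp (-(ContinuousLinearMap.id ℝ ℂ)) :=
        h6.fderiv
      rw [h7]
      ext x
      simp
    rw [h4, norm_neg]
  have e5 : fderiv ℝ (fun x => p (-conj x) + q (-conj x)) s = fderiv ℝ p s - fderiv ℝ q s := by
    rw [e3]
    exact fderiv_sub (dp s) (dq s)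
  have n1 : ‖fderiv ℝ p s‖ = ‖Complex.exp (I * s) * ev (derivative A) (Complex.exp (I * s))‖ := by
    rw [← pp_norm]
    exact norm_fderiv_re (pp_deriv A s).differentiableAt
  have n2 : ‖fderiv ℝ q s‖ = ‖Complex.exp (I * s) * ev (derivative B) (Complex.exp (I * s))‖ := by
    rw [← pp_norm]
    exact norm_fderiv_im (pp_deriv B s).differentiableAt
  rw [← n1, ← n2, e1, e2, ← e4, e5]
  exact two_norms _ _

end ST

namespace ST

open Polynomial

variable {G : Geo}

theorem ball_im {s x : ℂ} (hx : x ∈ ball s (s.im / 2)) :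
    s.im / 2 < x.im ∧ x.im < s.im * (3 / 2) := by
  rw [mem_ball, dist_eq_norm] at hx
  have h1 : |x.im - s.im| < s.im / 2 := by
    have := Complex.abs_im_le_norm (x - s)
    rw [Complex.sub_im] at this
    linarith
  rw [abs_lt] at h1
  constructor <;> linarith

theorem diffAt_of_harm {u : ℂ → ℝ} {s : ℂ} (h : HarmonicAt u s) : DifferentiableAt ℝ u s :=
  h.1.differentiableAt (by norm_num)

/-- the gradient of `f` in a chart -/
theorem grad_f (hG : G.OK) (i : G.ι) {e : ℂ → ℝ} {b : ℝ → ℝ} {M M' : ℝ} (he : EOK G.E e M)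
    (hb : BOK G.E b M') {ε : ℝ} (hε : 0 < ε) {E' : Set ℂ} (hE' : E' ⊆ G.E) {f : ℂ → ℝ}
    (hf : HarmonicOnNhd f E'ᶜ) {A B : ℝ[X]} {ρ τ : ℝ}
    (hfc : ∀ v, ρ ≤ G.g v → |f v - (e v + Pb b v + ε * G.pat A B v)| ≤ τ) {s : ℂ}
    (h0 : 0 < s.im) (h1 : s.im * (3 / 2) < G.H) (hρ : ρ ≤ s.im / 2 / G.N) :
    ε * ‖fderiv ℝ (fun s => G.pat A B (G.Z i s)) s‖ -
        ‖fderiv ℝ (fun s => e (G.Z i s) + Pb b (G.Z i s)) s‖ - 16 * τ / s.im ≤
      ‖fderiv ℝ (fun s => f (G.Z i s)) s‖ := by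
  have hN : 0 < G.N := lt_of_lt_of_le one_pos hG.hN
  have hP := Pb_harmonic hG.isCompact_E hG.E_subset hb
  have hH : ∀ x : ℂ, 0 < x.im → x.im < G.H →
      HarmonicAt (fun s => f (G.Z i s)) x ∧ HarmonicAt (fun s => e (G.Z i s) + Pb b (G.Z i s)) x ∧
        HarmonicAt (fun s => G.pat A B (G.Z i s)) x := fun x hx0 hx1 =>
    ⟨chart_harm hG i hE' hf hx0 hx1,
      (chart_harm hG i subset_rfl he.harm hx0 hx1).add (chart_harm hG i subset_rfl hP hx0 hx1),
      pat_harm hG i A B hx0 hx1⟩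
  set F : ℂ → ℝ := fun s => f (G.Z i s) with hF
  set U : ℂ → ℝ := fun s => e (G.Z i s) + Pb b (G.Z i s) with hU
  set Q : ℂ → ℝ := fun s => G.pat A B (G.Z i s) with hQ
  have hs1 : s.im < G.H := by linarith
  have hball : ∀ x ∈ ball s (s.im / 2), 0 < x.im ∧ x.im < G.H := by
    intro x hx
    obtain ⟨a1, a2⟩ := ball_im hx
    constructor <;> linarith
  have hu : HarmonicOnNhd (F - (U + ε • Q)) (ball s (s.im / 2)) := by
    intro x hx
    obtain ⟨b1, b2⟩ := hball x hx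
    obtain ⟨k1, k2, k3⟩ := hH x b1 b2
    exact k1.sub (k2.add k3.const_smul)
  have hbd : ∀ x ∈ ball s (s.im / 2), |(F - (U + ε • Q)) x| ≤ τ := by
    intro x hx
    obtain ⟨b1, b2⟩ := hball x hx
    have hg : ρ ≤ G.g (G.Z i x) := by
      rw [hG.g_Z i (by rw [abs_of_pos b1]; exact b2), abs_of_pos b1]
      refine hρ.trans ?_
      exact (div_le_div_iff_of_pos_right hN).2 (ball_im hx).1.le
    exact hfc _ hg
  have hle := norm_fderiv_le (by linarith : 0 < s.im / 2) hu hbd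
  obtain ⟨k1, k2, k3⟩ := hH s h0 hs1
  have d1 := diffAt_of_harm k1
  have d2 := diffAt_of_harm k2
  have d3 := diffAt_of_harm k3
  have hfd : fderiv ℝ (F - (U + ε • Q)) s = fderiv ℝ F s - (fderiv ℝ U s + ε • fderiv ℝ Q s) := by
    rw [fderiv_sub d1 (d2.add (d3.const_smul ε)), fderiv_add d2 (d3.const_smul ε),
      fderiv_const_smul d3]
  rw [hfd] at hle
  have e1 : 8 * τ / (s.im / 2) = 16 * τ / s.im := by
    field_simp
    ring
  rw [e1] at hle
  have e2 : ε • fderiv ℝ Q s = fderiv ℝ F s - fderiv ℝ U s -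
      (fderiv ℝ F s - (fderiv ℝ U s + ε • fderiv ℝ Q s)) := by abel
  have e3 : ε * ‖fderiv ℝ Q s‖ = ‖ε • fderiv ℝ Q s‖ := by
    rw [norm_smul, Real.norm_of_nonneg hε.le]
  have e4 : ‖ε • fderiv ℝ Q s‖ ≤ ‖fderiv ℝ F s‖ + ‖fderiv ℝ U s‖ +
      ‖fderiv ℝ F s - (fderiv ℝ U s + ε • fderiv ℝ Q s)‖ := by
    conv_lhs => rw [e2]
    exact (norm_sub_le _ _).trans (by gcongr; exact norm_sub_le _ _)
  linarith

/-- the gradient of `γ` in a chart -/
theorem grad_g (hG : G.OK) (i : G.ι) {E' : Set ℂ} (hE' : E' ⊆ G.E) {γ : ℂ → ℝ}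
    (hγ : HarmonicOnNhd γ E'ᶜ) {ρ τ : ℝ} (hγc : ∀ v, ρ ≤ G.g v → |γ v - G.g v| ≤ τ) {s : ℂ}
    (h0 : 0 < s.im) (h1 : s.im * (3 / 2) < G.H) (hρ : ρ ≤ s.im / 2 / G.N) :
    1 / G.N - 16 * τ / s.im ≤ ‖fderiv ℝ (fun s => γ (G.Z i s)) s‖ := by
  have hN : 0 < G.N := lt_of_lt_of_le one_pos hG.hN
  set F : ℂ → ℝ := fun s => γ (G.Z i s) with hF
  set U : ℂ → ℝ := fun s => G.g (G.Z i s) with hU
  have hH : ∀ x : ℂ, 0 < x.im → x.im < G.H → HarmonicAt F x ∧ HarmonicAt U x :=
    fun x hx0 hx1 => ⟨chart_harm hG i hE' hγ hx0 hx1,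
      chart_harm hG i subset_rfl hG.harmonic_g hx0 hx1⟩
  have hs1 : s.im < G.H := by linarith
  have hball : ∀ x ∈ ball s (s.im / 2), 0 < x.im ∧ x.im < G.H := by
    intro x hx
    obtain ⟨a1, a2⟩ := ball_im hx
    constructor <;> linarith
  have hu : HarmonicOnNhd (F - U) (ball s (s.im / 2)) := by
    intro x hx
    obtain ⟨b1, b2⟩ := hball x hx
    obtain ⟨k1, k2⟩ := hH x b1 b2
    exact k1.sub k2
  have hbd : ∀ x ∈ ball s (s.im / 2), |(F - U) x| ≤ τ := by
    intro x hx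
    obtain ⟨b1, b2⟩ := hball x hx
    have hg : ρ ≤ G.g (G.Z i x) := by
      rw [hG.g_Z i (by rw [abs_of_pos b1]; exact b2), abs_of_pos b1]
      refine hρ.trans ?_
      exact (div_le_div_iff_of_pos_right hN).2 (ball_im hx).1.le
    exact hγc _ hg
  have hle := norm_fderiv_le (by linarith : 0 < s.im / 2) hu hbd
  obtain ⟨k1, k2⟩ := hH s h0 hs1
  have d1 := diffAt_of_harm k1
  have d2 := diffAt_of_harm k2
  have hfd : fderiv ℝ (F - U) s = fderiv ℝ F s - fderiv ℝ U s := fderiv_sub d1 d2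
  rw [hfd] at hle
  have e1 : 8 * τ / (s.im / 2) = 16 * τ / s.im := by
    field_simp
    ring
  rw [e1] at hle
  have hUe : U =ᶠ[𝓝 s] fun x => (1 / G.N) • Complex.imCLM x := by
    filter_upwards [strip_nhds h0 hs1] with x hx
    simp only [hU, Complex.imCLM_apply, smul_eq_mul]
    rw [hG.g_Z i (by rw [abs_of_pos hx.1]; exact hx.2), abs_of_pos hx.1]
    ring
  have hUd : fderiv ℝ U s = (1 / G.N) • Complex.imCLM := by
    rw [hUe.fderiv_eq]
    exact (Complex.imCLM.hasFDerivAt.const_smul (1 / G.N)).fderiv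
  have hUn : 1 / G.N ≤ ‖fderiv ℝ U s‖ := by
    rw [hUd]
    have h5 := ((1 / G.N) • Complex.imCLM).le_opNorm I
    have h6 : (((1 / G.N) • Complex.imCLM : ℂ →L[ℝ] ℝ) I) = 1 / G.N := by simp
    rw [h6, Complex.norm_I, mul_one, Real.norm_of_nonneg (by positivity)] at h5
    exact h5
  have h7 := norm_sub_norm_le (fderiv ℝ U s) (fderiv ℝ F s)
  rw [norm_sub_rev] at h7
  linarith

theorem L_nonneg {E : Set ℂ} (hE : E ⊆ seg) {K : ℂ → ℝ} {L : ℝ} (hK : PosH E K L) : 0 ≤ L := by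
  refine ge_of_tendsto hK.lim ?_
  have h1 : seg ⊆ closedBall (0 : ℂ) 1 := by
    rintro v ⟨h2, h3⟩
    rw [mem_closedBall_zero_iff]
    have h4 : v = (v.re : ℂ) := by
      apply Complex.ext
      · simp
      · simpa using h2
    rw [h4, Complex.norm_real]
    exact h3
  have h2 : (closedBall (0 : ℂ) 1)ᶜ ∈ Bornology.cobounded ℂ :=
    Bornology.isBounded_def.1 isBounded_closedBall
  filter_upwards [h2] with v hv
  exact (hK.pos v (fun h => hv (h1 (hE h)))).le

theorem posH_mono {E E' : Set ℂ} (hE : E' ⊆ E) {K : ℂ → ℝ} {L : ℝ} (hK : PosH E' K L) :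
    PosH E K L :=
  ⟨fun v hv => hK.harm v (fun h => hv (hE h)), fun v hv => hK.pos v (fun h => hv (hE h)), hK.lim⟩

/-- continuity of the integral over a horizontal line -/
theorem line_cont {κ : ℂ → ℝ} {a b : ℝ} (hκ : ContinuousOn κ {s : ℂ | a < s.im ∧ s.im < b}) :
    ContinuousOn (fun η : ℝ => ∫ θ in (-Real.pi)..Real.pi, κ (θ + η * I)) (Ioo a b) := by
  rw [continuousOn_iff_continuous_domRestrict]
  have h1 : Continuous (Function.uncurry fun (η : Ioo a b) (θ : ℝ) => κ (θ + (η : ℝ) * I)) := by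
    refine hκ.comp_continuous (f := fun p : Ioo a b × ℝ => ((p.2 : ℂ) + ((p.1 : ℝ) : ℂ) * I))
      (by fun_prop) ?_
    rintro ⟨⟨η, hη⟩, θ⟩
    simpa using hη
  exact intervalIntegral.continuous_parametric_intervalIntegral_of_continuous' h1 _ _

end ST

theorem stage {G : Geo} (hG : G.OK) {e : ℂ → ℝ} {b : ℝ → ℝ} {M M' : ℝ} (he : EOK G.E e M)
    (hb : BOK G.E b M') {ε : ℝ} (hε : 0 < ε) {q : ℝ} (hq : 0 < q) (T : ℝ) :
    ∃ A B : Polynomial ℝ, (∀ w : ℂ, ‖w‖ ≤ 1 → ‖ev A w‖ ≤ 3 * ‖w‖ ∧ ‖ev B w‖ ≤ 3 * ‖w‖) ∧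
      ∃ ρ > 0, ∃ τ > 0, ∃ r₀ : ℕ, ∀ r ≥ r₀, ∀ (f γ K : ℂ → ℝ) (L : ℝ),
        HarmonicOnNhd f (G.step q r).Eᶜ → HarmonicOnNhd γ (G.step q r).Eᶜ →
        (∀ v, ρ ≤ G.g v → |f v - (e v + Pb b v + ε * G.pat A B v)| ≤ τ) →
        (∀ v, ρ ≤ G.g v → |γ v - G.g v| ≤ τ) → PosH (G.step q r).E K L →
        ENNReal.ofReal (T * L) ≤ ∫⁻ v in {v | ρ ≤ G.g v},
          ENNReal.ofReal (‖fderiv ℝ f v‖ * ‖fderiv ℝ γ v‖ * K v) := by
  classical
  have hN : 0 < G.N := lt_of_lt_of_le one_pos hG.hN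
  have hHpos := hG.H_pos
  obtain ⟨cs, hcs, hcs1, r₁, hshare⟩ := sharing hG hq
  obtain ⟨cm, hcm, hmass⟩ := mass hG
  have := hG.ne
  have hιpos : (0 : ℝ) < Fintype.card G.ι := by exact_mod_cast Fintype.card_pos
  set c₀ : ℝ := cs * cm / (80 * G.N * Fintype.card G.ι) with hc₀
  have hc₀pos : 0 < c₀ := by positivity
  -- choice of `a`
  obtain ⟨k, hk⟩ := exists_nat_ge (T / (ε * c₀))
  have hkT : T ≤ (k + 1) * (ε * c₀) := by
    have h1 : T / (ε * c₀) ≤ k + 1 := by linarith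
    rwa [div_le_iff₀ (by positivity)] at h1
  set a : ℝ := 1 / (k + 1) with ha
  have hk1 : (0 : ℝ) < k + 1 := by positivity
  have hapos : 0 < a := by positivity
  have ha1 : a ≤ 1 := by
    rw [ha, div_le_one hk1]
    have : (0 : ℝ) ≤ k := Nat.cast_nonneg k
    linarith
  set n : ℕ := (k + 1) ^ 2 with hn
  have hnc : (n : ℝ) = (k + 1) ^ 2 := by
    rw [hn]
    push_cast
    ring
  have hna : (n : ℝ) * a ^ 2 ≤ 1 := by
    rw [hnc, ha]
    field_simp
    exact le_rfl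
  obtain ⟨η₀, hη₀, hη₀H, hbase⟩ := base_small hG he hb (δ := ε * a / 80) (by positivity)
  set μ : ℝ := max (2 / η₀) (8 / G.H) with hμ
  obtain ⟨A, B, m, hAB, hmμ, hmono, hpat⟩ := exists_pattern hapos ha1 hna μ
  have hm0 : ∀ j, 0 < m j := fun j => (hmμ j).2
  have hmη : ∀ j, 2 / m j ≤ η₀ := by
    intro j
    have h1 : 2 / η₀ ≤ m j := (le_max_left _ _).trans (hmμ j).1
    rw [div_le_iff₀ hη₀] at h1
    rw [div_le_iff₀ (hm0 j)]
    linarith
  have hmH : ∀ j, 2 / m j ≤ G.H / 4 := by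
    intro j
    have h1 : 8 / G.H ≤ m j := (le_max_right _ _).trans (hmμ j).1
    rw [div_le_iff₀ hHpos] at h1
    rw [div_le_iff₀ (hm0 j)]
    linarith
  -- the largest `m j`
  obtain ⟨mm, hmm0, hmm⟩ : ∃ mm : ℝ, 0 < mm ∧ ∀ j, m j ≤ mm := by
    refine ⟨∑ j, m j + 1, ?_, fun j => ?_⟩
    · have : 0 ≤ ∑ j, m j := Finset.sum_nonneg (fun j _ => (hm0 j).le)
      linarith
    · have : m j ≤ ∑ j, m j := Finset.single_le_sum (fun j _ => (hm0 j).le) (Finset.mem_univ j)
      linarith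
  set η₁ : ℝ := 1 / (2 * mm) with hη₁
  have hη₁pos : 0 < η₁ := by positivity
  set τ : ℝ := min (ε * a / 1280) (1 / (32 * G.N * mm)) with hτ
  have hτpos : 0 < τ := lt_min (by positivity) (by positivity)
  obtain ⟨r₂, hr₂⟩ := exists_nat_gt mm
  refine ⟨A, B, hAB, η₁ / G.N, by positivity, τ, hτpos, max r₁ r₂, ?_⟩
  intro r hr f γ K L hf hγ hfc hγc hK
  have hr1 : r₁ ≤ r := (le_max_left _ _).trans hr
  have hr2 : r₂ ≤ r := (le_max_right _ _).trans hr
  have hEs : (G.step q r).E ⊆ G.E := hG.step_E_subset hq r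
  have hKE := ST.posH_mono hEs hK
  have hL : 0 ≤ L := ST.L_nonneg hG.E_subset hKE
  have hpowr : mm ≤ 2 ^ r := by
    have h1 : (r₂ : ℝ) ≤ r := by exact_mod_cast hr2
    have h2 : (r : ℝ) < 2 ^ r := by exact_mod_cast Nat.lt_two_pow_self
    linarith
  -- facts on the strips
  have hstrip : ∀ j (s : ℂ), 1 / m j < s.im → s.im < 2 / m j →
      0 < s.im ∧ s.im < η₀ ∧ s.im * (3 / 2) < G.H ∧ s.im < G.H ∧ s.im ≤ G.H / 2 ∧
        η₁ / G.N ≤ s.im / 2 / G.N ∧ 1 / 2 ^ r ≤ s.im ∧ 1 / s.im < m j ∧ η₁ < s.im := by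
    intro j s h1 h2
    have g1 : 0 < 1 / m j := one_div_pos.2 (hm0 j)
    have g0 : 0 < s.im := g1.trans h1
    have g2 := hmη j
    have g3 := hmH j
    have g4 : 1 / mm ≤ 1 / m j := one_div_le_one_div_of_le (hm0 j) (hmm j)
    have g5 : 1 / 2 ^ r ≤ 1 / mm := one_div_le_one_div_of_le hmm0 hpowr
    have g6 : η₁ = 1 / mm / 2 := by
      rw [hη₁]
      field_simp
    have g7 : 0 < 1 / mm := one_div_pos.2 hmm0
    refine ⟨g0, by linarith, by linarith, by linarith, by linarith, ?_, by linarith, ?_,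
      by linarith⟩
    · refine (div_le_div_iff_of_pos_right hN).2 ?_
      linarith
    · rw [one_div_lt g0 (hm0 j)]
      exact h1
  -- the two gradients
  have hfgrad : ∀ i j (s : ℂ), 1 / m j < s.im → s.im < 2 / m j →
      ε * ‖fderiv ℝ (fun s => G.pat A B (G.Z i s)) s‖ - ε * a / 40 * m j ≤
        ‖fderiv ℝ (fun s => f (G.Z i s)) s‖ := by
    intro i j s h1 h2
    obtain ⟨g0, g1, g2, g3, g4, g5, g6, g7, g8⟩ := hstrip j s h1 h2
    have k1 := ST.grad_f hG i he hb hε hEs hf hfc g0 g2 g5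
    have k2 := hbase i s g0 g1
    have k3 : ‖fderiv ℝ (fun s => e (G.Z i s) + Pb b (G.Z i s)) s‖ ≤ ε * a / 80 * m j := by
      have : ‖fderiv ℝ (fun s => e (G.Z i s) + Pb b (G.Z i s)) s‖ ≤ ε * a / 80 * (1 / s.im) := by
        rw [mul_one_div, le_div_iff₀ g0]
        exact k2
      refine this.trans (mul_le_mul_of_nonneg_left g7.le (by positivity))
    have k4 : 16 * τ / s.im ≤ ε * a / 80 * m j := by
      have t1 : τ ≤ ε * a / 1280 := min_le_left _ _
      have t2 : 16 * τ / s.im = 16 * τ * (1 / s.im) := by ring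
      rw [t2]
      have t3 : 16 * τ * (1 / s.im) ≤ 16 * τ * m j :=
        mul_le_mul_of_nonneg_left g7.le (by positivity)
      have t4 : 16 * τ * m j ≤ 16 * (ε * a / 1280) * m j :=
        mul_le_mul_of_nonneg_right (by linarith) (hm0 j).le
      linarith
    linarith
  have hggrad : ∀ i j (s : ℂ), 1 / m j < s.im → s.im < 2 / m j →
      1 / (2 * G.N) ≤ ‖fderiv ℝ (fun s => γ (G.Z i s)) s‖ := by
    intro i j s h1 h2
    obtain ⟨g0, g1, g2, g3, g4, g5, g6, g7, g8⟩ := hstrip j s h1 h2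
    have k1 := ST.grad_g hG i hEs hγ hγc g0 g2 g5
    have t1 : τ ≤ 1 / (32 * G.N * mm) := min_le_right _ _
    have t2 : 16 * τ / s.im = 16 * τ * (1 / s.im) := by ring
    have t3 : 16 * τ * (1 / s.im) ≤ 16 * τ * mm :=
      mul_le_mul_of_nonneg_left (g7.le.trans (hmm j)) (by positivity)
    have t4 : 16 * τ * mm ≤ 16 * (1 / (32 * G.N * mm)) * mm :=
      mul_le_mul_of_nonneg_right (by linarith) hmm0.le
    have t5 : 16 * (1 / (32 * G.N * mm)) * mm = 1 / (2 * G.N) := by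
      field_simp
      norm_num
    have t6 : 1 / G.N = 1 / (2 * G.N) + 1 / (2 * G.N) := by
      field_simp
      norm_num
    linarith
  -- lower bound for the sum of the gradients at two points
  have hφD : ∀ i j (s : ℂ), 1 / m j < s.im → s.im < 2 / m j →
      ε * a * m j / (40 * G.N) ≤
        ‖fderiv ℝ (fun s => f (G.Z i s)) s‖ * ‖fderiv ℝ (fun s => γ (G.Z i s)) s‖ +
        ‖fderiv ℝ (fun s => f (G.Z i s)) (-conj s)‖ *
          ‖fderiv ℝ (fun s => γ (G.Z i s)) (-conj s)‖ := by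
    intro i j s h1 h2
    have h1' : 1 / m j < (-conj s).im := by rw [ST.neg_conj_im]; exact h1
    have h2' : (-conj s).im < 2 / m j := by rw [ST.neg_conj_im]; exact h2
    obtain ⟨g0, g1, g2, g3, g4, g5, g6, g7, g8⟩ := hstrip j s h1 h2
    have k1 := hfgrad i j s h1 h2
    have k2 := hfgrad i j _ h1' h2'
    have k3 := hggrad i j s h1 h2
    have k4 := hggrad i j _ h1' h2'
    have k5 := ST.pat_grad hG i A B g0 g3
    have hw : ‖Complex.exp (I * s)‖ = Real.exp (-s.im) := by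
      rw [Complex.norm_exp]
      congr 1
      simp
    have k6 := hpat j (Complex.exp (I * s)) (by
      rw [hw]
      exact Real.exp_le_exp.2 (by linarith)) (by
      rw [hw]
      exact Real.exp_le_exp.2 (by linarith))
    have k7 := mul_le_mul_of_nonneg_left (k6.trans k5) hε.le
    have k8 : ε * a * m j / 20 ≤ ‖fderiv ℝ (fun s => f (G.Z i s)) s‖ +
        ‖fderiv ℝ (fun s => f (G.Z i s)) (-conj s)‖ := by
      rw [mul_add] at k7
      linarith
    have k9 : ‖fderiv ℝ (fun s => f (G.Z i s)) s‖ * (1 / (2 * G.N)) ≤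
        ‖fderiv ℝ (fun s => f (G.Z i s)) s‖ * ‖fderiv ℝ (fun s => γ (G.Z i s)) s‖ :=
      mul_le_mul_of_nonneg_left k3 (norm_nonneg _)
    have k10 : ‖fderiv ℝ (fun s => f (G.Z i s)) (-conj s)‖ * (1 / (2 * G.N)) ≤
        ‖fderiv ℝ (fun s => f (G.Z i s)) (-conj s)‖ *
          ‖fderiv ℝ (fun s => γ (G.Z i s)) (-conj s)‖ :=
      mul_le_mul_of_nonneg_left k4 (norm_nonneg _)
    have k11 := mul_le_mul_of_nonneg_right k8 (show 0 ≤ 1 / (2 * G.N) by positivity)
    have k12 : ε * a * m j / (40 * G.N) = ε * a * m j / 20 * (1 / (2 * G.N)) := by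
      rw [div_mul_div_comm, mul_one]
      congr 1
      ring
    rw [k12]
    rw [add_mul] at k11
    linarith
  -- continuity in the charts
  have hfdc : ∀ (u : ℂ → ℝ) (i : G.ι), HarmonicOnNhd u (G.step q r).Eᶜ →
      ContinuousOn (fun s => ‖fderiv ℝ (fun s => u (G.Z i s)) s‖) {s | 0 < s.im ∧ s.im < G.H} := by
    intro u i hu s hs
    have h1 := (ST.chart_harm hG i hEs hu hs.1 hs.2).1
    have h2 : ContDiffAt ℝ 1 (fderiv ℝ (fun s => u (G.Z i s))) s :=
      h1.fderiv_right (by norm_num)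
    exact (h2.continuousAt.norm).continuousWithinAt
  have hKc : ∀ i : G.ι, ContinuousOn (fun s => K (G.Z i s)) {s | 0 < s.im ∧ s.im < G.H} := by
    intro i s hs
    have h1 := (ST.chart_harm hG i hEs hK.harm hs.1 hs.2).1
    exact h1.continuousAt.continuousWithinAt
  have hsub : ∀ j, {s : ℂ | 1 / m j < s.im ∧ s.im < 2 / m j} ⊆ {s | 0 < s.im ∧ s.im < G.H} := by
    rintro j s ⟨h1, h2⟩
    obtain ⟨g0, g1, g2, g3, -⟩ := hstrip j s h1 h2
    exact ⟨g0, g3⟩
  have hKpos : ∀ (i : G.ι) (s : ℂ), 0 < s.im → s.im < G.H → 0 ≤ K (G.Z i s) := by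
    intro i s h1 h2
    refine (hKE.pos _ ?_).le
    exact hG.Z_notMem i (by rw [abs_of_pos h1]; exact h2) h1.ne'
  -- one chart and one strip
  have hstrip_cost : ∀ (i : G.ι) (j : Fin n),
      ENNReal.ofReal (cs / 2 * (ε * a * m j / (40 * G.N))) *
        ∫⁻ η in Ioo (1 / m j) (2 / m j),
          ENNReal.ofReal (∫ θ in (-Real.pi)..Real.pi, K (G.Z i (θ + η * I))) ≤
      ∫⁻ s in {s : ℂ | -Real.pi < s.re ∧ s.re < Real.pi ∧ 1 / m j < s.im ∧ s.im < 2 / m j},
        ENNReal.ofReal (‖fderiv ℝ (fun s => f (G.Z i s)) s‖ *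
          ‖fderiv ℝ (fun s => γ (G.Z i s)) s‖ * K (G.Z i s)) := by
    intro i j
    refine strip_cost (φ := fun s => ‖fderiv ℝ (fun s => f (G.Z i s)) s‖ *
      ‖fderiv ℝ (fun s => γ (G.Z i s)) s‖) (κ := fun s => K (G.Z i s)) hcs hcs1
      (by have := hm0 j; positivity)
      (((hfdc f i hf).mul (hfdc γ i hγ)).mono (hsub j)) ((hKc i).mono (hsub j))
      (fun s _ _ => by positivity) ?_ ?_ (fun s h1 h2 => hφD i j s h1 h2)
    · intro s h1 h2
      obtain ⟨g0, g1, g2, g3, -⟩ := hstrip j s h1 h2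
      exact hKpos i s g0 g3
    · intro s h1 h2
      obtain ⟨g0, g1, g2, g3, g4, g5, g6, -⟩ := hstrip j s h1 h2
      exact hshare r hr1 K L hK i s g6 g4
  -- one chart
  set J : ENNReal := ∫⁻ v in {v : ℂ | η₁ / G.N ≤ G.g v},
    ENNReal.ofReal (‖fderiv ℝ f v‖ * ‖fderiv ℝ γ v‖ * K v) with hJ
  have hdf : ∀ v ∉ G.E, DifferentiableAt ℝ f v := fun v hv =>
    ST.diffAt_of_harm (hf v (fun h => hv (hEs h)))
  have hdγ : ∀ v ∉ G.E, DifferentiableAt ℝ γ v := fun v hv =>
    ST.diffAt_of_harm (hγ v (fun h => hv (hEs h)))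
  have hchart : ∀ i : G.ι, ∑ j : Fin n,
      (∫⁻ s in {s : ℂ | -Real.pi < s.re ∧ s.re < Real.pi ∧ 1 / m j < s.im ∧ s.im < 2 / m j},
        ENNReal.ofReal (‖fderiv ℝ (fun s => f (G.Z i s)) s‖ *
          ‖fderiv ℝ (fun s => γ (G.Z i s)) s‖ * K (G.Z i s))) ≤ J := by
    intro i
    refine le_trans ?_ (cost_chart hG i hdf hdγ hη₁pos le_rfl)
    have hmeas : ∀ j : Fin n, MeasurableSet
        {s : ℂ | -Real.pi < s.re ∧ s.re < Real.pi ∧ 1 / m j < s.im ∧ s.im < 2 / m j} := by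
      intro j
      have ho : IsOpen {s : ℂ | -Real.pi < s.re ∧ s.re < Real.pi ∧ 1 / m j < s.im ∧
          s.im < 2 / m j} :=
        (isOpen_lt continuous_const Complex.continuous_re).inter
          ((isOpen_lt Complex.continuous_re continuous_const).inter
            ((isOpen_lt continuous_const Complex.continuous_im).inter
              (isOpen_lt Complex.continuous_im continuous_const)))
      exact ho.measurableSet
    have hdisj : Pairwise (Function.onFun Disjoint fun j : Fin n =>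
        {s : ℂ | -Real.pi < s.re ∧ s.re < Real.pi ∧ 1 / m j < s.im ∧ s.im < 2 / m j}) := by
      intro j k hjk
      have key : ∀ j k : Fin n, j < k → ∀ s : ℂ, 1 / m j < s.im → s.im < 2 / m k → False := by
        intro j k hjk s h1 h2
        have h3 := hmono j k hjk
        have h4 : 2 / m k ≤ 1 / m j := by
          rw [div_le_div_iff₀ (hm0 k) (hm0 j)]
          linarith
        linarith
      rw [Function.onFun, Set.disjoint_left]
      rintro s ⟨-, -, h1, h2⟩ ⟨-, -, h3, h4⟩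
      rcases lt_or_gt_of_ne hjk with h | h
      · exact key j k h s h1 h4
      · exact key k j h s h3 h2
    have hU := lintegral_iUnion (μ := volume) hmeas hdisj (fun s =>
      ENNReal.ofReal (‖fderiv ℝ (fun s => f (G.Z i s)) s‖ *
          ‖fderiv ℝ (fun s => γ (G.Z i s)) s‖ * K (G.Z i s)))
    rw [tsum_fintype] at hU
    rw [← hU]
    refine lintegral_mono_set (iUnion_subset fun j => ?_)
    rintro s ⟨h1, h2, h3, h4⟩
    obtain ⟨g0, g1, g2, g3, g4, g5, g6, g7, g8⟩ := hstrip j s h3 h4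
    exact ⟨h1, h2, g8, g3⟩
  -- the mass of one strip
  have hmass' : ∀ j : Fin n, ENNReal.ofReal (cm * L) * ENNReal.ofReal (1 / m j) ≤
      ∑ i : G.ι, ∫⁻ η in Ioo (1 / m j) (2 / m j),
        ENNReal.ofReal (∫ θ in (-Real.pi)..Real.pi, K (G.Z i (θ + η * I))) := by
    intro j
    have hc : ∀ i : G.ι, ContinuousOn
        (fun η : ℝ => ∫ θ in (-Real.pi)..Real.pi, K (G.Z i (θ + η * I)))
        (Ioo (1 / m j) (2 / m j)) := fun i =>
      ST.line_cont (κ := fun s => K (G.Z i s)) ((hKc i).mono (hsub j))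
    rw [← lintegral_finsetSum' _ (fun i _ =>
      ((hc i).aemeasurable measurableSet_Ioo).ennreal_ofReal)]
    have hvol : volume (Ioo (1 / m j) (2 / m j)) = ENNReal.ofReal (1 / m j) := by
      rw [Real.volume_Ioo]
      congr 1
      ring
    rw [← hvol, ← setLIntegral_const]
    refine setLIntegral_mono' measurableSet_Ioo (fun η hη => ?_)
    have hη0 : 0 < η := (one_div_pos.2 (hm0 j)).trans hη.1
    have hηH : η ≤ G.H / 4 := hη.2.le.trans (hmH j)
    have h1 := hmass K L hKE η hη0 hηH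
    rw [← ENNReal.ofReal_sum_of_nonneg]
    · exact ENNReal.ofReal_le_ofReal h1
    · intro i _
      refine intervalIntegral.integral_nonneg (by have := Real.pi_pos; linarith) (fun θ _ => ?_)
      have him : ((θ : ℂ) + η * I).im = η := by simp
      exact hKpos i _ (by rw [him]; exact hη0) (by rw [him]; linarith)
  -- total
  have htot : ENNReal.ofReal (T * L * Fintype.card G.ι) ≤ (Fintype.card G.ι : ENNReal) * J := by
    calc ENNReal.ofReal (T * L * Fintype.card G.ι)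
        ≤ ENNReal.ofReal (∑ j : Fin n, cs / 2 * (ε * a * m j / (40 * G.N)) *
            (cm * L * (1 / m j))) := by
          apply ENNReal.ofReal_le_ofReal
          have h1 : ∀ j : Fin n, cs / 2 * (ε * a * m j / (40 * G.N)) * (cm * L * (1 / m j)) =
              a * (ε * c₀) * L * Fintype.card G.ι := by
            intro j
            have := (hm0 j).ne'
            rw [hc₀]
            field_simp
            ring
          rw [Finset.sum_congr rfl (fun j _ => h1 j), Finset.sum_const, Finset.card_univ,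
            Fintype.card_fin, nsmul_eq_mul, hnc]
          have h2 : ((k : ℝ) + 1) ^ 2 * (a * (ε * c₀) * L * Fintype.card G.ι) =
              ((k : ℝ) + 1) * (ε * c₀) * L * Fintype.card G.ι := by
            rw [ha]
            field_simp
          rw [h2]
          exact mul_le_mul_of_nonneg_right (mul_le_mul_of_nonneg_right hkT hL) hιpos.le
      _ = ∑ j : Fin n, ENNReal.ofReal (cs / 2 * (ε * a * m j / (40 * G.N))) *
            (ENNReal.ofReal (cm * L) * ENNReal.ofReal (1 / m j)) := by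
          rw [ENNReal.ofReal_sum_of_nonneg]
          · refine Finset.sum_congr rfl (fun j _ => ?_)
            have := hm0 j
            rw [ENNReal.ofReal_mul (p := cs / 2 * (ε * a * m j / (40 * G.N))) (by positivity),
              ENNReal.ofReal_mul (p := cm * L) (by positivity)]
          · intro j _
            have := hm0 j
            positivity
      _ ≤ ∑ j : Fin n, ENNReal.ofReal (cs / 2 * (ε * a * m j / (40 * G.N))) *
            ∑ i : G.ι, ∫⁻ η in Ioo (1 / m j) (2 / m j),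
              ENNReal.ofReal (∫ θ in (-Real.pi)..Real.pi, K (G.Z i (θ + η * I))) :=
          Finset.sum_le_sum (fun j _ => mul_le_mul_right (hmass' j) _)
      _ = ∑ i : G.ι, ∑ j : Fin n, ENNReal.ofReal (cs / 2 * (ε * a * m j / (40 * G.N))) *
            ∫⁻ η in Ioo (1 / m j) (2 / m j),
              ENNReal.ofReal (∫ θ in (-Real.pi)..Real.pi, K (G.Z i (θ + η * I))) := by
          rw [Finset.sum_comm]
          exact Finset.sum_congr rfl (fun j _ => Finset.mul_sum _ _ _)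
      _ ≤ ∑ i : G.ι, J := by
          refine Finset.sum_le_sum (fun i _ => ?_)
          exact (Finset.sum_le_sum (fun j _ => hstrip_cost i j)).trans (hchart i)
      _ = (Fintype.card G.ι : ENNReal) * J := by
          rw [Finset.sum_const, Finset.card_univ, nsmul_eq_mul]
  have hcard : (Fintype.card G.ι : ENNReal) = ENNReal.ofReal (Fintype.card G.ι) := by
    rw [ENNReal.ofReal_natCast]
  have hTL : ENNReal.ofReal (T * L * Fintype.card G.ι) =
      (Fintype.card G.ι : ENNReal) * ENNReal.ofReal (T * L) := by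
    rw [mul_comm (T * L), ENNReal.ofReal_mul hιpos.le, ← hcard]
  rw [hTL] at htot
  refine (ENNReal.mul_le_mul_iff_right ?_ ?_).1 htot
  · simp
  · exact ENNReal.natCast_ne_top _

end Pool.Agent.NH
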