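import Pool.Agent.Lib.MP_00644e_an.Defs

/-! # Rows W0, W1: profile and averaging

PROOF W0. `ħ w = min 1 (max 0 ((1-|w|)/δ'))`; `κ = (1/π) ∫_0^π ħ((1+q) cos u) du`. `ħ((1+q) cos u) = 1` unless
`(1+q)|cos u| > 1 - δ'`. Choose `α > 0` with `2α ≤ δ π`, then `δ'`, `q` with `(1+q) cos α ≤ 1 - δ'`: the exceptional set is contained in
`[0,α) ∪ (π-α,π]`. 
PROOF W1. Split `[0,π]` in the `n` cells `[jπ/n, (j+1)π/n]`; on each cell `∫ Λ(n x) dx = 0` (period), so
`|∫_cell h(x) Λ(n x) dx| = |∫_cell (h x - h (jπ/n)) Λ(n x) dx| ≤ ω C π/n`. Sum. -/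

set_option autoImplicit false

open Complex Metric Set Filter Topology MeasureTheory InnerProductSpace ComplexConjugate

noncomputable section

namespace Pool.Agent.NH

theorem exists_profile {δ : ℝ} (hδ : 0 < δ) (hδ1 : δ < 1) :
    ∃ q > 0, ∃ ħ : ℝ → ℝ, ∃ κ : ℝ, Continuous ħ ∧ (∀ w, 0 ≤ ħ w ∧ ħ w ≤ 1) ∧
      (∀ w, 1 ≤ |w| → ħ w = 0) ∧ (∀ w, ħ (-w) = ħ w) ∧ 1 - δ ≤ κ ∧ κ ≤ 1 ∧
      ∫ u in (0 : ℝ)..Real.pi, ħ ((1 + q) * Real.cos u) = κ * Real.pi := by
  have hpi := Real.pi_pos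
  set α : ℝ := δ * Real.pi / 2 with hα
  have hα0 : 0 < α := by positivity
  have hα1 : α < Real.pi / 2 := by
    rw [hα]
    nlinarith
  have hc0 : 0 ≤ Real.cos α := Real.cos_nonneg_of_mem_Icc ⟨by linarith, hα1.le⟩
  have hc1 : Real.cos α < 1 := by
    have h := Real.cos_lt_cos_of_nonneg_of_le_pi (le_refl 0) (by linarith) hα0
    rwa [Real.cos_zero] at h
  set q : ℝ := (1 - Real.cos α) / 2 with hq
  have hq0 : 0 < q := by rw [hq]; linarith
  have hqc : (1 + q) * Real.cos α ≤ 1 - q := by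
    have h1 : q * Real.cos α ≤ q * 1 := mul_le_mul_of_nonneg_left hc1.le hq0.le
    have h2 : 2 * q = 1 - Real.cos α := by rw [hq]; ring
    nlinarith
  set f : ℝ → ℝ := fun w => min 1 (max 0 ((1 - |w|) / q)) with hf
  have hfc : Continuous f := by
    rw [hf]
    fun_prop
  have hf01 : ∀ w, 0 ≤ f w ∧ f w ≤ 1 := fun w =>
    ⟨le_min zero_le_one (le_max_left _ _), min_le_left _ _⟩
  have hf1 : ∀ w, |w| ≤ 1 - q → f w = 1 := by
    intro w hw
    have h1 : 1 ≤ (1 - |w|) / q := by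
      rw [le_div_iff₀ hq0]
      linarith
    have h2 : 1 ≤ max 0 ((1 - |w|) / q) := h1.trans (le_max_right _ _)
    exact min_eq_left h2
  set F : ℝ → ℝ := fun u => f ((1 + q) * Real.cos u) with hF
  have hFc : Continuous F := by
    rw [hF]
    fun_prop
  have hFi : ∀ a b : ℝ, IntervalIntegrable F volume a b := fun a b => hFc.intervalIntegrable a b
  have hsplit : ∫ u in (0 : ℝ)..Real.pi, F u = (∫ u in (0 : ℝ)..α, F u) +
      (∫ u in α..(Real.pi - α), F u) + ∫ u in (Real.pi - α)..Real.pi, F u := by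
    rw [intervalIntegral.integral_add_adjacent_intervals (hFi _ _) (hFi _ _),
      intervalIntegral.integral_add_adjacent_intervals (hFi _ _) (hFi _ _)]
  have h1 : 0 ≤ ∫ u in (0 : ℝ)..α, F u :=
    intervalIntegral.integral_nonneg hα0.le fun u _ => (hf01 _).1
  have h2 : 0 ≤ ∫ u in (Real.pi - α)..Real.pi, F u :=
    intervalIntegral.integral_nonneg (by linarith) fun u _ => (hf01 _).1
  have h3 : ∫ u in α..(Real.pi - α), F u = (Real.pi - α) - α := by
    have e : ∫ u in α..(Real.pi - α), F u = ∫ u in α..(Real.pi - α), (1 : ℝ) := by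
      apply intervalIntegral.integral_congr
      intro u hu
      rw [uIcc_of_le (by linarith)] at hu
      apply hf1
      rw [abs_mul, abs_of_pos (by linarith : (0 : ℝ) < 1 + q)]
      refine le_trans (mul_le_mul_of_nonneg_left ?_ (by linarith)) hqc
      rw [abs_le]
      constructor
      · have h5 := Real.cos_le_cos_of_nonneg_of_le_pi (by linarith [hu.1]) (by linarith) hu.2
        rwa [Real.cos_pi_sub] at h5
      · exact Real.cos_le_cos_of_nonneg_of_le_pi hα0.le (by linarith [hu.2]) hu.1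
    rw [e]
    simp
  have h4 : ∫ u in (0 : ℝ)..Real.pi, F u ≤ Real.pi := by
    have h5 := intervalIntegral.integral_mono_on hpi.le (hFi 0 Real.pi)
      (intervalIntegrable_const (c := (1 : ℝ))) fun u _ => (hf01 ((1 + q) * Real.cos u)).2
    simpa using h5
  refine ⟨q, hq0, f, (∫ u in (0 : ℝ)..Real.pi, F u) / Real.pi, hfc, hf01, ?_, ?_, ?_, ?_, ?_⟩
  · intro w hw
    have h5 : (1 - |w|) / q ≤ 0 := div_nonpos_of_nonpos_of_nonneg (by linarith) hq0.le
    show min 1 (max 0 ((1 - |w|) / q)) = 0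
    rw [max_eq_left h5]
    simp
  · intro w
    show min 1 (max 0 ((1 - |-w|) / q)) = min 1 (max 0 ((1 - |w|) / q))
    rw [abs_neg]
  · rw [le_div_iff₀ hpi, hsplit, h3]
    have h5 : 2 * α = δ * Real.pi := by rw [hα]; ring
    nlinarith
  · rw [div_le_one hpi]
    exact h4
  · rw [div_mul_cancel₀ _ hpi.ne']

theorem abs_integral_cells_le {h Λ : ℝ → ℝ} {C ω : ℝ} {n : ℕ} (hn : 0 < n)
    (hh : ContinuousOn h (Icc 0 Real.pi)) (hΛ : Continuous Λ) (hper : ∀ x, Λ (x + Real.pi) = Λ x)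
    (hmean : ∫ u in (0 : ℝ)..Real.pi, Λ u = 0) (hC : ∀ x, |Λ x| ≤ C)
    (hω : ∀ x ∈ Icc 0 Real.pi, ∀ y ∈ Icc 0 Real.pi, |x - y| ≤ Real.pi / n → |h x - h y| ≤ ω) :
    |∫ x in (0 : ℝ)..Real.pi, h x * Λ (n * x)| ≤ Real.pi * C * ω := by
  have hpi := Real.pi_pos
  have hn' : (0 : ℝ) < n := Nat.cast_pos.2 hn
  have hω0 : 0 ≤ ω := by
    have h1 := hω 0 ⟨le_rfl, hpi.le⟩ 0 ⟨le_rfl, hpi.le⟩ (by rw [sub_zero, abs_zero]; positivity)
    exact (abs_nonneg _).trans h1
  set a : ℕ → ℝ := fun k => k * (Real.pi / n) with ha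
  have ha0 : a 0 = 0 := by simp [ha]
  have han : a n = Real.pi := by
    rw [ha]
    field_simp
  have hstep : ∀ k, a (k + 1) = a k + Real.pi / n := by
    intro k
    rw [ha]
    push_cast
    ring
  have hmono : ∀ k, a k ≤ a (k + 1) := by
    intro k
    rw [hstep]
    have : 0 ≤ Real.pi / n := by positivity
    linarith
  have hnn : ∀ k, 0 ≤ a k := by
    intro k
    rw [ha]
    positivity
  have hle : ∀ k, k ≤ n → a k ≤ Real.pi := by
    intro k hk
    rw [← han]
    show (k : ℝ) * (Real.pi / n) ≤ n * (Real.pi / n)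
    exact mul_le_mul_of_nonneg_right (Nat.cast_le.2 hk) (by positivity)
  set G : ℝ → ℝ := fun x => h x * Λ (n * x) with hG
  have hsub : ∀ k, k < n → Icc (a k) (a (k + 1)) ⊆ Icc 0 Real.pi := fun k hk =>
    Icc_subset_Icc (hnn k) (hle (k + 1) hk)
  have hΛn : Continuous fun x : ℝ => Λ (n * x) := by fun_prop
  have hGi : ∀ k, k < n → IntervalIntegrable G volume (a k) (a (k + 1)) := by
    intro k hk
    apply ContinuousOn.intervalIntegrable
    rw [uIcc_of_le (hmono k)]
    exact (hh.mono (hsub k hk)).mul hΛn.continuousOn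
  have hsum : ∑ k ∈ Finset.range n, ∫ x in a k..a (k + 1), G x = ∫ x in (0 : ℝ)..Real.pi, G x := by
    rw [intervalIntegral.sum_integral_adjacent_intervals hGi, ha0, han]
  have hcell0 : ∀ k, ∫ x in a k..a (k + 1), Λ (n * x) = 0 := by
    intro k
    rw [intervalIntegral.integral_comp_mul_left _ hn'.ne']
    have e1 : (n : ℝ) * a (k + 1) = n * a k + Real.pi := by
      rw [hstep]
      field_simp
    rw [e1]
    have hp : Function.Periodic Λ Real.pi := hper
    rw [hp.intervalIntegral_add_eq (n * a k) 0, zero_add, hmean, smul_zero]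
  have hcell : ∀ k ∈ Finset.range n, |∫ x in a k..a (k + 1), G x| ≤ ω * C * (Real.pi / n) := by
    intro k hk
    have hk' := Finset.mem_range.1 hk
    have e : ∫ x in a k..a (k + 1), G x =
        ∫ x in a k..a (k + 1), (h x - h (a k)) * Λ (n * x) := by
      have e1 : ∫ x in a k..a (k + 1), (h x - h (a k)) * Λ (n * x) =
          (∫ x in a k..a (k + 1), G x) - ∫ x in a k..a (k + 1), h (a k) * Λ (n * x) := by
        rw [← intervalIntegral.integral_sub (hGi k hk')
          ((hΛn.const_mul _).intervalIntegrable _ _)]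
        congr 1
        funext x
        rw [hG]
        ring
      rw [e1, intervalIntegral.integral_const_mul, hcell0, mul_zero, sub_zero]
    rw [e]
    have h1 := intervalIntegral.norm_integral_le_of_norm_le_const (a := a k) (b := a (k + 1))
      (C := ω * C) (f := fun x => (h x - h (a k)) * Λ (n * x)) (by
        intro x hx
        rw [uIoc_of_le (hmono k)] at hx
        rw [Real.norm_eq_abs, abs_mul]
        refine mul_le_mul ?_ (hC _) (abs_nonneg _) hω0
        refine hω x (hsub k hk' ⟨hx.1.le, hx.2⟩) (a k) (hsub k hk' ⟨le_rfl, hmono k⟩) ?_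
        rw [abs_of_nonneg (by linarith [hx.1])]
        have := hx.2
        rw [hstep] at this
        linarith)
    rw [Real.norm_eq_abs, hstep, add_sub_cancel_left,
      abs_of_nonneg (show (0 : ℝ) ≤ Real.pi / (n : ℝ) by positivity)] at h1
    rw [hstep]
    exact h1
  rw [← hsum]
  refine (Finset.abs_sum_le_sum_abs _ _).trans ((Finset.sum_le_sum hcell).trans ?_)
  rw [Finset.sum_const, Finset.card_range, nsmul_eq_mul]
  apply le_of_eq
  field_simp

end Pool.Agent.NH
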