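import Pool.Agent.Lib.MP_00644e_an.Defs
import Pool.Agent.Lib.MP_00644e_an.W1
import Pool.Agent.Lib.MP_00644e_an.P1
import Pool.Agent.Lib.MP_00644e_an.G7

/-! # Row W2: porous step for the density

PROOF. `b' t = b t * ħ (F' t).re / κ`; `F' t` is real for real `t`. If `t ∉ G'.E` then `|F' t| > 1`, `ħ = 0`. Change of variables on the
components: `E = ⋃ B i ([-1,1])` disjoint, `t = B i (cos θ)`, `θ ∈ (0,π)` (injective, real derivative `-B i'(cos θ) sin θ`, real and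
of constant sign): for `φ : ℝ → ℝ` continuous and zero off `E`
`∫ φ(t) dt = ∑ i, ∫ θ in 0..π, φ (B i (cos θ)).re * |Z i' θ|` (`integral_image_eq_integral_abs_deriv_smul`, the end points are a null set);
and `F' (Z i θ) = (1+q) cos (2^r θ)` (`step_F_Z`). For `v` with `g v ≥ ρ` put `k_v t = b t * Im (1/(t-v))`; the functions
`θ ↦ k_v (Z i θ) |Z i' θ|` are equicontinuous on `[0,π]` uniformly in `v` (`|t - v| ≥ d` for `t ∈ E`, `g v ≥ ρ`: `g` is uniformly
continuous near the compact `E`; `b`, `Z i`, `deriv (Z i)` continuous). Apply `abs_integral_cells_le` with `n = 2^r`,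
`Λ u = ħ((1+q) cos u)/κ - 1` (period `π` because `ħ` is even, mean zero, `|Λ| ≤ 1 + 1/κ`). -/

set_option autoImplicit false

open Complex Metric Set Filter Topology MeasureTheory InnerProductSpace ComplexConjugate

noncomputable section

namespace Pool.Agent.NH

private theorem im_lt_H {G : Geo} (hG : G.OK) (θ : ℝ) : |((θ : ℂ)).im| < G.H := by
  simpa using hG.H_pos

private theorem cosR_mem {G : Geo} (hG : G.OK) (θ : ℝ) : ((Real.cos θ : ℝ) : ℂ) ∈ Sc G.c := by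
  have := hG.cos_mem (im_lt_H hG θ)
  rwa [← Complex.ofReal_cos] at this

private theorem Z_real {G : Geo} (hG : G.OK) (i : G.ι) (θ : ℝ) :
    G.Z i θ = (((G.Z i θ).re : ℝ) : ℂ) := by
  have h := hG.Z_conj i (im_lt_H hG θ)
  rw [Complex.conj_ofReal] at h
  exact (Complex.conj_eq_iff_re.1 h.symm).symm

private theorem hasDerivAt_Zre {G : Geo} (hG : G.OK) (i : G.ι) (θ : ℝ) :
    HasDerivAt (fun x : ℝ => (G.Z i x).re) (deriv (G.Z i) θ).re θ := by
  have h1 : HasDerivAt (G.Z i) (deriv (G.Z i) θ) (θ : ℂ) :=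
    (hG.analyticAt_Z i (im_lt_H hG θ)).differentiableAt.hasDerivAt
  exact h1.real_of_complex

private theorem deriv_Z_real {G : Geo} (hG : G.OK) (i : G.ι) (θ : ℝ) :
    deriv (G.Z i) θ = (((deriv (G.Z i) θ).re : ℝ) : ℂ) := by
  have h1 : HasDerivAt (G.Z i) (deriv (G.Z i) θ) (θ : ℂ) :=
    (hG.analyticAt_Z i (im_lt_H hG θ)).differentiableAt.hasDerivAt
  have h2 : HasDerivAt (fun x : ℝ => G.Z i x) (deriv (G.Z i) θ) θ := h1.comp_ofReal
  have h3 := (hasDerivAt_Zre hG i θ).ofReal_comp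
  have h4 : (fun x : ℝ => G.Z i x) = fun x : ℝ => (((G.Z i x).re : ℝ) : ℂ) :=
    funext fun x => Z_real hG i x
  rw [h4] at h2
  exact h2.unique h3

private theorem norm_deriv_Z {G : Geo} (hG : G.OK) (i : G.ι) (θ : ℝ) :
    ‖deriv (G.Z i) θ‖ = |(deriv (G.Z i) θ).re| := by
  rw [deriv_Z_real hG i θ]
  simp

private theorem F_Z_real {G : Geo} (hG : G.OK) (i : G.ι) (θ : ℝ) :
    G.F (((G.Z i θ).re : ℝ) : ℂ) = ((Real.cos θ : ℝ) : ℂ) := by
  rw [← Z_real hG i θ, hG.F_Z i (im_lt_H hG θ), Complex.ofReal_cos]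

private theorem cos_inj {θ θ' : ℝ} (h : θ ∈ Ioo 0 Real.pi) (h' : θ' ∈ Ioo 0 Real.pi)
    (he : ((Real.cos θ : ℝ) : ℂ) = ((Real.cos θ' : ℝ) : ℂ)) : θ = θ' :=
  Real.injOn_cos ⟨h.1.le, h.2.le⟩ ⟨h'.1.le, h'.2.le⟩ (Complex.ofReal_injective he)

private theorem injOn_Zre {G : Geo} (hG : G.OK) (i : G.ι) :
    InjOn (fun x : ℝ => (G.Z i x).re) (Ioo 0 Real.pi) := by
  intro x hx y hy hxy
  apply cos_inj hx hy
  rw [← F_Z_real hG i x, ← F_Z_real hG i y]
  simp only at hxy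
  rw [hxy]

private theorem disj_Zre {G : Geo} (hG : G.OK) {i j : G.ι} (hij : i ≠ j) :
    Disjoint ((fun x : ℝ => (G.Z i x).re) '' Ioo 0 Real.pi)
      ((fun x : ℝ => (G.Z j x).re) '' Ioo 0 Real.pi) := by
  rw [Set.disjoint_left]
  rintro t ⟨x, hx, rfl⟩ ⟨y, hy, hxy⟩
  simp only at hxy
  have h1 : x = y := by
    apply cos_inj hx hy
    rw [← F_Z_real hG i x, ← F_Z_real hG j y, hxy]
  subst h1
  have h2 : G.Z i x = G.Z j x := by
    rw [Z_real hG i x, Z_real hG j x, hxy]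
  apply hij
  apply hG.disj i j (Complex.cos x) (hG.cos_mem (im_lt_H hG x))
  exact h2

private theorem cover_Zre {G : Geo} (hG : G.OK) {t : ℝ} (ht : (t : ℂ) ∈ G.E) :
    t ∈ (⋃ i : G.ι, (fun x : ℝ => (G.Z i x).re) '' Ioo 0 Real.pi) ∪
      ((⋃ i : G.ι, {(G.Z i (0 : ℝ)).re}) ∪ (⋃ i : G.ι, {(G.Z i (Real.pi : ℝ)).re})) := by
  have hs : G.F t ∈ seg := ht
  obtain ⟨him, hre⟩ := hs
  have hFt : G.F t = (((G.F t).re : ℝ) : ℂ) := by
    apply Complex.ext <;> simp [him]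
  obtain ⟨h1, h2⟩ := abs_le.1 hre
  set θ := Real.arccos (G.F t).re with hθ
  have hcos : Real.cos θ = (G.F t).re := Real.cos_arccos h1 h2
  have hmem : G.F t ∈ Sc G.c := by
    right
    exact lt_of_le_of_lt hre hG.hc
  obtain ⟨i, hi⟩ := hG.compl t hmem
  have hZ : G.Z i θ = t := by
    unfold Geo.Z
    rw [← Complex.ofReal_cos, hcos, ← hFt]
    exact hi
  have hθ0 : 0 ≤ θ := Real.arccos_nonneg _
  have hθπ : θ ≤ Real.pi := Real.arccos_le_pi _
  rcases hθ0.eq_or_lt with h0 | h0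
  · right; left
    refine Set.mem_iUnion.2 ⟨i, ?_⟩
    simp only [Set.mem_singleton_iff]
    rw [h0, hZ]; simp
  · rcases hθπ.eq_or_lt with h0' | h0'
    · right; right
      refine Set.mem_iUnion.2 ⟨i, ?_⟩
      simp only [Set.mem_singleton_iff]
      rw [← h0', hZ]; simp
    · left
      refine Set.mem_iUnion.2 ⟨i, θ, ⟨h0, h0'⟩, ?_⟩
      simp only
      rw [hZ]; simp

private theorem Zre_mem_E {G : Geo} (hG : G.OK) (i : G.ι) (θ : ℝ) :
    (((G.Z i θ).re : ℝ) : ℂ) ∈ G.E := by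
  show G.F _ ∈ seg
  rw [F_Z_real hG i θ]
  exact ⟨Complex.ofReal_im _, by rw [Complex.ofReal_re]; exact Real.abs_cos_le_one θ⟩

theorem integral_density {G : Geo} (hG : G.OK) {φ : ℝ → ℝ} (hφ : Continuous φ)
    (h0 : ∀ t : ℝ, (t : ℂ) ∉ G.E → φ t = 0) :
    ∫ t : ℝ, φ t = ∑ i : G.ι, ∫ θ in (0 : ℝ)..Real.pi, φ (G.Z i θ).re * ‖deriv (G.Z i) θ‖ := by
  have hmeas : ∀ i : G.ι, MeasurableSet ((fun x : ℝ => (G.Z i x).re) '' Ioo 0 Real.pi) := by
    intro i
    exact measurableSet_Ioo.image_of_continuousOn_injOn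
      (fun x _ => (hasDerivAt_Zre hG i x).continuousAt.continuousWithinAt) (injOn_Zre hG i)
  have hint : ∀ i : G.ι, IntegrableOn φ ((fun x : ℝ => (G.Z i x).re) '' Ioo 0 Real.pi) := by
    intro i
    have h1 : IntegrableOn φ (Icc (-1) 1) := hφ.continuousOn.integrableOn_Icc
    refine h1.mono_set ?_
    rintro _ ⟨x, _, rfl⟩
    have h2 := hG.E_subset (Zre_mem_E hG i x)
    have h3 := h2.2
    simp only [Complex.ofReal_re] at h3
    exact abs_le.1 h3
  have hU : ∫ t in (⋃ i : G.ι, (fun x : ℝ => (G.Z i x).re) '' Ioo 0 Real.pi), φ t = ∫ t, φ t := by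
    apply setIntegral_eq_integral_of_ae_compl_eq_zero
    have hnull : (volume : Measure ℝ) ((⋃ i : G.ι, {(G.Z i (0 : ℝ)).re}) ∪
        (⋃ i : G.ι, {(G.Z i (Real.pi : ℝ)).re})) = 0 := by
      apply measure_union_null
      · exact measure_iUnion_null fun i => by simp
      · exact measure_iUnion_null fun i => by simp
    have hae := measure_eq_zero_iff_ae_notMem.1 hnull
    filter_upwards [hae] with t ht htn
    by_cases hE : (t : ℂ) ∈ G.E
    · rcases cover_Zre hG hE with h | h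
      · exact absurd h htn
      · exact absurd h ht
    · exact h0 t hE
  rw [← hU, integral_iUnion_fintype hmeas (fun i j hij => disj_Zre hG hij) hint]
  refine Finset.sum_congr rfl fun i _ => ?_
  rw [integral_image_eq_integral_abs_deriv_smul measurableSet_Ioo
    (fun x _ => (hasDerivAt_Zre hG i x).hasDerivWithinAt) (injOn_Zre hG i),
    intervalIntegral.integral_of_le Real.pi_pos.le, integral_Ioc_eq_integral_Ioo]
  refine setIntegral_congr_fun measurableSet_Ioo fun x _ => ?_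
  rw [norm_deriv_Z hG i x, smul_eq_mul, mul_comm]

theorem exists_dist {G : Geo} (hG : G.OK) {ρ : ℝ} (hρ : 0 < ρ) :
    ∃ d > 0, ∀ v, ρ ≤ G.g v → ∀ w ∈ G.E, d ≤ ‖w - v‖ := by
  have hU : IsOpen {v : ℂ | G.g v < ρ} := isOpen_lt hG.continuous_g continuous_const
  have hsub : G.E ⊆ {v : ℂ | G.g v < ρ} := fun w hw => by
    show G.g w < ρ
    rw [(hG.g_eq_zero_iff w).2 hw]
    exact hρ
  obtain ⟨d, hd, hdU⟩ := hG.isCompact_E.exists_thickening_subset_open hU hsub
  refine ⟨d, hd, fun v hv w hw => ?_⟩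
  by_contra hlt
  push Not at hlt
  have hmem : v ∈ Metric.thickening d G.E := by
    rw [Metric.mem_thickening_iff]
    exact ⟨w, hw, by rw [dist_comm, dist_eq_norm]; exact hlt⟩
  exact absurd (hdU hmem) (not_lt.2 hv)

/-- the kernel is continuous -/
private theorem W2b_psi_cont {E : Set ℂ} (hE : IsCompact E) {b : ℝ → ℝ} {M : ℝ} (hb : BOK E b M)
    {v : ℂ} (hv : v ∉ E) : Continuous fun t : ℝ => (b t : ℂ) / ((t : ℂ) - v) := by
  rw [continuous_iff_continuousAt]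
  intro t
  by_cases h : (t : ℂ) = v
  · have h1 : ∀ᶠ s : ℝ in 𝓝 t, (s : ℂ) ∈ Eᶜ := by
      have h2 : Eᶜ ∈ 𝓝 ((t : ℝ) : ℂ) := by
        rw [h]
        exact hE.isClosed.isOpen_compl.mem_nhds hv
      exact (Complex.continuous_ofReal.tendsto t).eventually h2
    have h3 : (fun s : ℝ => (b s : ℂ) / ((s : ℂ) - v)) =ᶠ[𝓝 t] fun _ => 0 := by
      filter_upwards [h1] with s hs
      rw [hb.supp s hs, Complex.ofReal_zero, zero_div]
    exact continuousAt_const.congr h3.symm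
  · have h1 : (t : ℂ) - v ≠ 0 := sub_ne_zero.2 h
    exact ((Complex.continuous_ofReal.comp hb.cont).continuousAt).div
      ((Complex.continuous_ofReal.sub continuous_const).continuousAt) h1

private theorem W2b_notMem {E : Set ℂ} (hEs : E ⊆ seg) {t : ℝ} (ht : t ∉ Icc (-1 : ℝ) 1) :
    (t : ℂ) ∉ E := by
  intro h
  have h1 := (hEs h).2
  rw [Complex.ofReal_re, abs_le] at h1
  exact ht h1

private theorem W2b_psi_int {E : Set ℂ} (hE : IsCompact E) (hEs : E ⊆ seg) {b : ℝ → ℝ} {M : ℝ}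
    (hb : BOK E b M) {v : ℂ} (hv : v ∉ E) :
    Integrable (fun t : ℝ => (b t : ℂ) / ((t : ℂ) - v)) := by
  refine (W2b_psi_cont hE hb hv).integrable_of_hasCompactSupport ?_
  refine HasCompactSupport.intro (K := Icc (-1 : ℝ) 1) isCompact_Icc fun t ht => ?_
  rw [hb.supp t (W2b_notMem hEs ht), Complex.ofReal_zero, zero_div]

private theorem W2b_Pb {E : Set ℂ} (hE : IsCompact E) (hEs : E ⊆ seg) {b : ℝ → ℝ} {M : ℝ}
    (hb : BOK E b M) {v : ℂ} (hv : v ∉ E) :
    Pb b v = (∫ t : ℝ, ((b t : ℂ) / ((t : ℂ) - v)).im) / Real.pi := by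
  unfold Pb
  congr 1
  exact (Complex.imCLM.integral_comp_comm (W2b_psi_int hE hEs hb hv)).symm

private theorem W2b_Z_mem {G : Geo} (hG : G.OK) (i : G.ι) (θ : ℝ) : G.Z i (θ : ℂ) ∈ G.E := by
  have h : |((θ : ℝ) : ℂ).im| < G.H := by
    rw [Complex.ofReal_im, abs_zero]
    exact hG.H_pos
  show G.F _ ∈ seg
  rw [hG.F_Z i h]
  refine ⟨?_, ?_⟩
  · rw [← Complex.ofReal_cos, Complex.ofReal_im]
  · rw [← Complex.ofReal_cos, Complex.ofReal_re]
    exact Real.abs_cos_le_one θ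

private theorem W2b_Z_re {G : Geo} (hG : G.OK) (i : G.ι) (θ : ℝ) :
    (((G.Z i (θ : ℂ)).re : ℝ) : ℂ) = G.Z i (θ : ℂ) := by
  refine Complex.ext (Complex.ofReal_re _) ?_
  rw [Complex.ofReal_im, (hG.E_subset (W2b_Z_mem hG i θ)).1]

private theorem W2b_Z_cont {G : Geo} (hG : G.OK) (i : G.ι) :
    Continuous fun θ : ℝ => (G.Z i (θ : ℂ)).re := by
  rw [continuous_iff_continuousAt]
  intro θ
  have h : |((θ : ℝ) : ℂ).im| < G.H := by
    rw [Complex.ofReal_im, abs_zero]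
    exact hG.H_pos
  have h1 := (hG.analyticAt_Z i h).continuousAt
  exact Complex.continuous_re.continuousAt.comp
    (ContinuousAt.comp (f := fun θ : ℝ => (θ : ℂ)) h1 Complex.continuous_ofReal.continuousAt)

private theorem W2b_dZ_cont {G : Geo} (hG : G.OK) (i : G.ι) :
    Continuous fun θ : ℝ => ‖deriv (G.Z i) (θ : ℂ)‖ := by
  rw [continuous_iff_continuousAt]
  intro θ
  have h : |((θ : ℝ) : ℂ).im| < G.H := by
    rw [Complex.ofReal_im, abs_zero]
    exact hG.H_pos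
  have h1 := (hG.analyticAt_Z i h).deriv.continuousAt
  exact continuous_norm.continuousAt.comp
    (ContinuousAt.comp (f := fun θ : ℝ => (θ : ℂ)) h1 Complex.continuous_ofReal.continuousAt)

/-- differences of the kernel -/
private theorem W2b_kernel {d : ℝ} (hd : 0 < d) {s s' : ℝ} {v : ℂ} (h : d ≤ ‖(s : ℂ) - v‖)
    (h' : d ≤ ‖(s' : ℂ) - v‖) :
    |(1 / ((s : ℂ) - v)).im - (1 / ((s' : ℂ) - v)).im| ≤ |s - s'| / d ^ 2 := by
  have h0 : (s : ℂ) - v ≠ 0 := norm_pos_iff.1 (hd.trans_le h)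
  have h0' : (s' : ℂ) - v ≠ 0 := norm_pos_iff.1 (hd.trans_le h')
  rw [← Complex.sub_im]
  refine (Complex.abs_im_le_norm _).trans ?_
  have e : 1 / ((s : ℂ) - v) - 1 / ((s' : ℂ) - v) =
      ((s' - s : ℝ) : ℂ) / (((s : ℂ) - v) * ((s' : ℂ) - v)) := by
    rw [div_sub_div _ _ h0 h0', one_mul, mul_one]
    congr 1
    push_cast
    ring
  rw [e, norm_div, norm_mul, Complex.norm_real, Real.norm_eq_abs, abs_sub_comm]
  refine div_le_div_of_nonneg_left (abs_nonneg _) (by positivity) ?_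
  rw [pow_two]
  exact mul_le_mul h h' hd.le (norm_nonneg _)

private theorem W2b_kernel_le {d : ℝ} (hd : 0 < d) {s : ℝ} {v : ℂ} (h : d ≤ ‖(s : ℂ) - v‖) :
    |(1 / ((s : ℂ) - v)).im| ≤ 1 / d := by
  refine (Complex.abs_im_le_norm _).trans ?_
  rw [norm_div, norm_one]
  exact one_div_le_one_div_of_le hd h

/-- equicontinuity -/
private theorem W2b_equi {β t : ℝ → ℝ} (hβ : Continuous β) (ht : Continuous t) {d : ℝ} (hd : 0 < d)
    {ω : ℝ} (hω : 0 < ω) :
    ∃ η > 0, ∀ v : ℂ, (∀ x, d ≤ ‖(t x : ℂ) - v‖) → ∀ x ∈ Icc 0 Real.pi, ∀ y ∈ Icc 0 Real.pi,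
      |x - y| < η → |β x * (1 / ((t x : ℂ) - v)).im - β y * (1 / ((t y : ℂ) - v)).im| ≤ ω := by
  obtain ⟨B, hB⟩ := isCompact_Icc.exists_bound_of_continuousOn (f := β) (s := Icc 0 Real.pi)
    hβ.continuousOn
  have hB0 : 0 ≤ B := (norm_nonneg _).trans (hB 0 ⟨le_rfl, Real.pi_pos.le⟩)
  have huβ := isCompact_Icc.uniformContinuousOn_of_continuous (s := Icc 0 Real.pi) hβ.continuousOn
  have hut := isCompact_Icc.uniformContinuousOn_of_continuous (s := Icc 0 Real.pi) ht.continuousOn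
  rw [Metric.uniformContinuousOn_iff] at huβ hut
  obtain ⟨η₁, hη₁, h₁⟩ := huβ (ω * d / 2) (by positivity)
  obtain ⟨η₂, hη₂, h₂⟩ := hut (ω * d ^ 2 / (2 * (B + 1))) (by positivity)
  refine ⟨min η₁ η₂, lt_min hη₁ hη₂, fun v hv x hx y hy hxy => ?_⟩
  have h3 : |β x - β y| < ω * d / 2 := h₁ x hx y hy (lt_of_lt_of_le hxy (min_le_left _ _))
  have h4 : |t x - t y| < ω * d ^ 2 / (2 * (B + 1)) :=
    h₂ x hx y hy (lt_of_lt_of_le hxy (min_le_right _ _))
  have e : β x * (1 / ((t x : ℂ) - v)).im - β y * (1 / ((t y : ℂ) - v)).im =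
      (β x - β y) * (1 / ((t x : ℂ) - v)).im +
        β y * ((1 / ((t x : ℂ) - v)).im - (1 / ((t y : ℂ) - v)).im) := by ring
  rw [e]
  refine (abs_add_le _ _).trans ?_
  rw [abs_mul, abs_mul]
  have h5 : |β x - β y| * |(1 / ((t x : ℂ) - v)).im| ≤ ω * d / 2 * (1 / d) :=
    mul_le_mul h3.le (W2b_kernel_le hd (hv x)) (abs_nonneg _) (by positivity)
  have h6 : |β y| * |(1 / ((t x : ℂ) - v)).im - (1 / ((t y : ℂ) - v)).im| ≤
      (B + 1) * ((ω * d ^ 2 / (2 * (B + 1))) / d ^ 2) := by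
    refine mul_le_mul ?_ ?_ (abs_nonneg _) (by positivity)
    · exact (hB y hy).trans (by linarith)
    · exact (W2b_kernel hd (hv x) (hv y)).trans (by gcongr)
  have h7 : ω * d / 2 * (1 / d) = ω / 2 := by field_simp
  have h8 : (B + 1) * ((ω * d ^ 2 / (2 * (B + 1))) / d ^ 2) = ω / 2 := by field_simp
  rw [h7] at h5
  rw [h8] at h6
  linarith

theorem porous_b {G : Geo} (hG : G.OK) {q : ℝ} (hq : 0 < q) {ħ : ℝ → ℝ} (hc : Continuous ħ)
    (h01 : ∀ w, 0 ≤ ħ w ∧ ħ w ≤ 1) (hs : ∀ w, 1 ≤ |w| → ħ w = 0) (he : ∀ w, ħ (-w) = ħ w) {κ : ℝ}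
    (hκ : 0 < κ) (hκi : ∫ u in (0 : ℝ)..Real.pi, ħ ((1 + q) * Real.cos u) = κ * Real.pi)
    {b : ℝ → ℝ} {M : ℝ} (hb : BOK G.E b M) {ρ δ : ℝ} (hρ : 0 < ρ) (hδ : 0 < δ) :
    ∃ r₀ : ℕ, ∀ r ≥ r₀, BOK (G.step q r).E (fun t => b t * ħ ((G.step q r).F t).re / κ) (M / κ) ∧
      ∀ v, ρ ≤ G.g v → |Pb (fun t => b t * ħ ((G.step q r).F t).re / κ) v - Pb b v| ≤ δ := by
  have hM : 0 ≤ M := (abs_nonneg _).trans (hb.bdd 0)
  -- the first part
  have hB1 : ∀ r, BOK (G.step q r).E (fun t => b t * ħ ((G.step q r).F t).re / κ) (M / κ) := by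
    intro r
    have hG' := hG.step hq r
    refine ⟨?_, ?_, ?_⟩
    · have h1 : Continuous fun t : ℝ => ((G.step q r).F (t : ℂ)).re :=
        Complex.continuous_re.comp (hG'.diff.continuous.comp Complex.continuous_ofReal)
      exact (hb.cont.mul (hc.comp h1)).div_const κ
    · intro t ht
      have h1 : ((G.step q r).F (t : ℂ)).im = 0 := by
        have h2 := hG'.real (t : ℂ)
        rw [Complex.conj_ofReal] at h2
        exact Complex.conj_eq_iff_im.1 h2.symm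
      have h2 : ¬ |((G.step q r).F (t : ℂ)).re| ≤ 1 := fun h => ht ⟨h1, h⟩
      show b t * ħ ((G.step q r).F t).re / κ = 0
      rw [hs _ (not_le.1 h2).le, mul_zero, zero_div]
    · intro t
      show |b t * ħ ((G.step q r).F t).re / κ| ≤ M / κ
      rw [abs_div, abs_mul, abs_of_pos hκ, abs_of_nonneg (h01 _).1]
      have h1 : |b t| * ħ ((G.step q r).F t).re ≤ M * 1 :=
        mul_le_mul (hb.bdd t) (h01 _).2 (h01 _).1 hM
      rw [mul_one] at h1
      exact div_le_div_of_nonneg_right h1 hκ.le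
  -- the second part
  obtain ⟨d, hd, hdist⟩ := exists_dist hG hρ
  have hne := hG.ne
  set C : ℝ := 1 + 1 / κ with hC
  have hC0 : 0 < C := by positivity
  set c : ℝ := (Fintype.card G.ι : ℝ) with hcard
  have hc0 : 0 < c := by
    rw [hcard]
    exact_mod_cast Fintype.card_pos
  set ω : ℝ := δ / (c * C) with hω
  have hω0 : 0 < ω := by positivity
  have hβ : ∀ i : G.ι, Continuous fun θ : ℝ => b (G.Z i (θ : ℂ)).re * ‖deriv (G.Z i) (θ : ℂ)‖ :=
    fun i => (hb.cont.comp (W2b_Z_cont hG i)).mul (W2b_dZ_cont hG i)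
  choose η hη0 hη using fun i : G.ι => W2b_equi (hβ i) (W2b_Z_cont hG i) hd hω0
  obtain ⟨r₀, hr₀⟩ : ∃ r₀ : ℕ, ∀ r ≥ r₀, ∀ i : G.ι, Real.pi / 2 ^ r < η i := by
    have h1 : Tendsto (fun r : ℕ => Real.pi / 2 ^ r) atTop (𝓝 0) :=
      tendsto_const_nhds.div_atTop (tendsto_pow_atTop_atTop_of_one_lt (by norm_num))
    have h2 : ∀ᶠ r : ℕ in atTop, ∀ i : G.ι, Real.pi / 2 ^ r < η i :=
      Filter.eventually_all.2 fun i => h1.eventually_lt_const (hη0 i)
    obtain ⟨r₀, hr₀⟩ := Filter.eventually_atTop.1 h2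
    exact ⟨r₀, hr₀⟩
  refine ⟨r₀, fun r hr => ⟨hB1 r, fun v hv => ?_⟩⟩
  have hG' := hG.step hq r
  have hvE : v ∉ G.E := by
    intro h
    rw [← hG.g_eq_zero_iff] at h
    linarith
  have hvE' : v ∉ (G.step q r).E := fun h => hvE (hG.step_E_subset hq r h)
  set b' : ℝ → ℝ := fun t => b t * ħ ((G.step q r).F t).re / κ with hb'
  have hi := W2b_psi_int hG.isCompact_E hG.E_subset hb hvE
  have hi' := W2b_psi_int hG'.isCompact_E hG'.E_subset (hB1 r) hvE'
  have hct := W2b_psi_cont hG.isCompact_E hb hvE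
  have hct' := W2b_psi_cont hG'.isCompact_E (hB1 r) hvE'
  set φ : ℝ → ℝ := fun t => ((b' t : ℂ) / ((t : ℂ) - v)).im - ((b t : ℂ) / ((t : ℂ) - v)).im with hφ
  have hφc : Continuous φ :=
    (Complex.continuous_im.comp hct').sub (Complex.continuous_im.comp hct)
  have hφ0 : ∀ t : ℝ, (t : ℂ) ∉ G.E → φ t = 0 := by
    intro t ht
    rw [hφ, hb']
    simp only [hb.supp t ht, Complex.ofReal_zero, zero_div, Complex.zero_im, zero_mul, sub_zero]
  have hPb : Pb b' v - Pb b v = (∫ t, φ t) / Real.pi := by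
    rw [W2b_Pb hG'.isCompact_E hG'.E_subset (hB1 r) hvE', W2b_Pb hG.isCompact_E hG.E_subset hb hvE,
      ← sub_div]
    congr 1
    exact (integral_sub (Complex.imCLM.integrable_comp hi') (Complex.imCLM.integrable_comp hi)).symm
  set Λ : ℝ → ℝ := fun u => ħ ((1 + q) * Real.cos u) / κ - 1 with hΛ
  have hcell : ∀ i : G.ι, |∫ θ in (0 : ℝ)..Real.pi, φ (G.Z i θ).re * ‖deriv (G.Z i) θ‖| ≤
      Real.pi * C * ω := by
    intro i
    have hk : ∀ x : ℝ, d ≤ ‖(((G.Z i (x : ℂ)).re : ℝ) : ℂ) - v‖ := by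
      intro x
      rw [W2b_Z_re hG]
      exact hdist v hv _ (W2b_Z_mem hG i x)
    have e : ∀ θ : ℝ, φ (G.Z i θ).re * ‖deriv (G.Z i) θ‖ =
        ((b (G.Z i (θ : ℂ)).re * ‖deriv (G.Z i) (θ : ℂ)‖) *
          (1 / ((((G.Z i (θ : ℂ)).re : ℝ) : ℂ) - v)).im) * Λ ((2 ^ r : ℕ) * θ) := by
      intro θ
      have h : |((θ : ℝ) : ℂ).im| < G.H := by
        rw [Complex.ofReal_im, abs_zero]
        exact hG.H_pos
      have h1 : ((G.step q r).F (((G.Z i (θ : ℂ)).re : ℝ) : ℂ)).re =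
          (1 + q) * Real.cos ((2 ^ r : ℕ) * θ) := by
        rw [W2b_Z_re hG, hG.step_F_Z r i h]
        have h2 : (2 : ℂ) ^ r * ((θ : ℝ) : ℂ) = (((2 ^ r : ℕ) * θ : ℝ) : ℂ) := by
          push_cast
          ring
        rw [h2, ← Complex.ofReal_cos, ← Complex.ofReal_mul, Complex.ofReal_re]
      have h3 : ∀ (x : ℝ) (z : ℂ), ((x : ℂ) / z).im = x * (1 / z).im := by
        intro x z
        rw [div_eq_mul_one_div, Complex.im_ofReal_mul]
      simp only [hφ, hb', hΛ]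
      rw [h3, h3, h1]
      ring
    have hcos : ∀ x : ℝ, Real.cos (x + Real.pi) = -Real.cos x := Real.cos_add_pi
    have hΛc : Continuous Λ :=
      ((hc.comp (continuous_const.mul Real.continuous_cos)).div_const κ).sub continuous_const
    have hΛp : ∀ x, Λ (x + Real.pi) = Λ x := by
      intro x
      simp only [hΛ]
      rw [hcos, mul_neg, he]
    have hΛm : ∫ u in (0 : ℝ)..Real.pi, Λ u = 0 := by
      simp only [hΛ]
      rw [intervalIntegral.integral_sub, intervalIntegral.integral_div, hκi,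
        intervalIntegral.integral_const, smul_eq_mul]
      · field_simp
        ring
      · exact Continuous.intervalIntegrable
          ((hc.comp (continuous_const.mul Real.continuous_cos)).div_const κ) _ _
      · exact intervalIntegrable_const
    have hΛC : ∀ x, |Λ x| ≤ C := by
      intro x
      have h5 := h01 ((1 + q) * Real.cos x)
      have h6 : ħ ((1 + q) * Real.cos x) / κ ≤ 1 / κ := div_le_div_of_nonneg_right h5.2 hκ.le
      have h7 : 0 ≤ ħ ((1 + q) * Real.cos x) / κ := div_nonneg h5.1 hκ.le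
      have h8 : 0 < 1 / κ := by positivity
      simp only [hΛ, hC]
      rw [abs_le]
      constructor <;> linarith
    have h9 := abs_integral_cells_le (h := fun θ : ℝ =>
        (b (G.Z i (θ : ℂ)).re * ‖deriv (G.Z i) (θ : ℂ)‖) *
          (1 / ((((G.Z i (θ : ℂ)).re : ℝ) : ℂ) - v)).im) (Λ := Λ) (C := C) (ω := ω) (n := 2 ^ r)
      (by positivity) ?_ hΛc hΛp hΛm hΛC ?_
    · rw [intervalIntegral.integral_congr (g := fun x : ℝ =>
        ((b (G.Z i (x : ℂ)).re * ‖deriv (G.Z i) (x : ℂ)‖) *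
          (1 / ((((G.Z i (x : ℂ)).re : ℝ) : ℂ) - v)).im) * Λ ((2 ^ r : ℕ) * x))
        (fun θ _ => e θ)]
      exact h9
    · refine Continuous.continuousOn ((hβ i).mul (Complex.continuous_im.comp ?_))
      refine Continuous.div continuous_const
        ((Complex.continuous_ofReal.comp (W2b_Z_cont hG i)).sub continuous_const) fun x => ?_
      exact norm_pos_iff.1 (hd.trans_le (hk x))
    · intro x hx y hy hxy
      refine hη i v hk x hx y hy (lt_of_le_of_lt hxy ?_)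
      have h10 := hr₀ r hr i
      push_cast
      exact h10
  rw [hPb, integral_density hG hφc hφ0, abs_div, abs_of_pos Real.pi_pos, div_le_iff₀ Real.pi_pos]
  refine (Finset.abs_sum_le_sum_abs _ _).trans ?_
  refine (Finset.sum_le_sum fun i _ => hcell i).trans ?_
  rw [Finset.sum_const, Finset.card_univ, nsmul_eq_mul, ← hcard, hω]
  have h11 : c * (Real.pi * C * (δ / (c * C))) = δ * Real.pi := by field_simp
  rw [h11]

end Pool.Agent.NH
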