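import Pool.Agent.Lib.MP_00644e_an.Defs
import Pool.Agent.Lib.MP_00644e_an.ST
import Pool.Agent.Lib.MP_00644e_an.E2
import Pool.Agent.Lib.MP_00644e_an.P3
import Pool.Agent.Lib.MP_00644e_an.P4
import Pool.Agent.Lib.MP_00644e_an.W2
/-! # Row R1: one step of the construction

PROOF. `exists_profile` with `δ = 2^{-(k+4)}` gives `q, ħ, κ`; `ε = 2^{-(k+6)}`; `stage` with `T = k` gives `A, B, ρ₀, τ₀, r₀`.
`τ' = min τ₀ (min S.τ 2^{-(k+1)})`, `ρ' = min ρ₀ (min S.ρ 2^{-(k+1)})`. `exists_even`, `exists_density` (bound 3): `a`, `β`. `e₁ = S.e + ε a`,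
`b₁ = S.b + ε β`: bounds `1 - 2^{-k} + 3ε`. `porous_e` and `porous_b` with `δ = τ'/2^{k+5}`, `ρ'`; `r` large for everything, also for `small`
(`N' = 2^r N → ∞`) and `gle'` (`step_g_le`). `S' = ⟨G.step q r, e', b', ρ', τ'⟩`. `e' ≤ 1 - 2^{-k} + 3ε + δ ≤ 1 - 2^{-(k+1)}`,
`(1 - 2^{-k} + 3ε)/κ ≤ 1 - 2^{-(k+1)}`. On `{ρ' ≤ g}`: `e₁ + Pb b₁ = S.f + ε pat` (`Pb_add_mul`), `|S'.f - (S.f + ε pat)| ≤ 2δ` and
`|ε pat| ≤ 6 ‖om (F v)‖ = 6 exp(-N g v)` (`norm_omF`). `cost`: `|f - (S.f + ε pat)| ≤ τ'/2 + 2δ ≤ τ'`. -/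

set_option autoImplicit false

open Complex Metric Set Filter Topology MeasureTheory InnerProductSpace ComplexConjugate

noncomputable section

namespace Pool.Agent.NH

/-- A state of the construction. -/
structure St where
  /-- geometry -/
  G : Geo
  /-- continuous part -/
  e : ℂ → ℝ
  /-- density of the odd part -/
  b : ℝ → ℝ
  /-- radius bound of the protected region -/
  ρ : ℝ
  /-- tolerance -/
  τ : ℝ

/-- The function of the state. -/
def St.f (S : St) (v : ℂ) : ℝ := S.e v + Pb S.b v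

/-- Invariants at stage `k`. -/
structure St.OK (k : ℕ) (S : St) : Prop where
  G : S.G.OK
  e : EOK S.G.E S.e (1 - 1 / 2 ^ k)
  b : BOK S.G.E S.b (1 - 1 / 2 ^ k)
  ρ0 : 0 < S.ρ
  ρ1 : S.ρ ≤ 1 / 2 ^ k
  τ0 : 0 < S.τ
  τ1 : S.τ ≤ 1 / 2 ^ k

/-- The relation between consecutive states. -/
structure Step (k : ℕ) (S S' : St) : Prop where
  sub : S'.G.E ⊆ S.G.E
  ρle : S'.ρ ≤ S.ρ
  τle : S'.τ ≤ S.τ
  gle : ∀ v, S.G.g v ≤ S'.G.g v
  gle' : ∀ v, S'.G.g v ≤ S.G.g v + S'.τ / 2 ^ (k + 4)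
  move : ∀ v, S'.ρ ≤ S.G.g v →
    |S'.f v - S.f v| ≤ S'.τ / 2 ^ (k + 4) + Real.exp (-(S.G.N * S.G.g v)) / 2 ^ k
  small : Real.exp (-(S'.G.N * S'.ρ)) ≤ S'.τ / 2 ^ (k + 4)
  cost : ∀ (f γ K : ℂ → ℝ) (L : ℝ), HarmonicOnNhd f S'.G.Eᶜ → HarmonicOnNhd γ S'.G.Eᶜ →
    (∀ v, S'.ρ ≤ S.G.g v → |f v - S'.f v| ≤ S'.τ / 2) →
    (∀ v, S'.ρ ≤ S.G.g v → |γ v - S.G.g v| ≤ S'.τ) → PosH S'.G.E K L →
    ENNReal.ofReal (k * L) ≤ ∫⁻ v in {v | S'.ρ ≤ S.G.g v},
      ENNReal.ofReal (‖fderiv ℝ f v‖ * ‖fderiv ℝ γ v‖ * K v)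

theorem BOK.mono_r1 {E : Set ℂ} {b : ℝ → ℝ} {M M' : ℝ} (h : BOK E b M) (hM : M ≤ M') :
    BOK E b M' :=
  ⟨h.cont, h.supp, fun t => (h.bdd t).trans hM⟩

theorem EOK.mono_r1 {E : Set ℂ} {e : ℂ → ℝ} {M M' : ℝ} (h : EOK E e M) (hM : M ≤ M') :
    EOK E e M' :=
  ⟨h.cont, h.harm, fun t => (h.bdd t).trans hM⟩

theorem EOK.add_mul_r1 {E : Set ℂ} {e a : ℂ → ℝ} {M M' ε : ℝ} (h : EOK E e M) (ha : EOK E a M')
    (hε : 0 ≤ ε) : EOK E (fun v => e v + ε * a v) (M + ε * M') := by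
  refine ⟨h.cont.add (continuous_const.mul ha.cont), ?_, ?_⟩
  · intro v hv
    have h1 := h.harm v hv
    have h2 := (ha.harm v hv).const_smul (c := ε)
    exact h1.add h2
  · intro v
    calc |e v + ε * a v| ≤ |e v| + |ε * a v| := abs_add_le _ _
      _ = |e v| + ε * |a v| := by rw [abs_mul, abs_of_nonneg hε]
      _ ≤ M + ε * M' := add_le_add (h.bdd v) (mul_le_mul_of_nonneg_left (ha.bdd v) hε)

theorem BOK.add_mul_r1 {E : Set ℂ} {b β : ℝ → ℝ} {M M' ε : ℝ} (h : BOK E b M)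
    (hβ : BOK E β M') (hε : 0 ≤ ε) : BOK E (fun t => b t + ε * β t) (M + ε * M') := by
  refine ⟨h.cont.add (continuous_const.mul hβ.cont), ?_, ?_⟩
  · intro t ht
    rw [h.supp t ht, hβ.supp t ht]
    ring
  · intro v
    calc |b v + ε * β v| ≤ |b v| + |ε * β v| := abs_add_le _ _
      _ = |b v| + ε * |β v| := by rw [abs_mul, abs_of_nonneg hε]
      _ ≤ M + ε * M' := add_le_add (h.bdd v) (mul_le_mul_of_nonneg_left (hβ.bdd v) hε)

theorem exists_step (k : ℕ) {S : St} (hS : S.OK k) : ∃ S' : St, S'.OK (k + 1) ∧ Step k S S' := by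
  have hG := hS.G
  have hN : 1 ≤ S.G.N := hG.hN
  have h2k : (0 : ℝ) < 1 / 2 ^ k := by positivity
  have h2k1 : (1 : ℝ) / 2 ^ k ≤ 1 := by
    rw [div_le_one (by positivity)]
    exact one_le_pow₀ (by norm_num)
  set x : ℝ := 1 / 2 ^ k with hx
  have p1 : (1 : ℝ) / 2 ^ (k + 1) = x / 2 := by rw [hx, pow_succ]; ring
  have p4 : (1 : ℝ) / 2 ^ (k + 4) = x / 16 := by rw [hx, pow_add]; ring
  have p5 : (1 : ℝ) / 2 ^ (k + 5) = x / 32 := by rw [hx, pow_add]; ring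
  have p6 : (1 : ℝ) / 2 ^ (k + 6) = x / 64 := by rw [hx, pow_add]; ring
  obtain ⟨q, hq, ħ, κ, hħc, hħ01, hħs, hħe, hκ1, hκ2, hκi⟩ :=
    exists_profile (δ := x / 16) (by positivity) (by linarith)
  have hκ : 0 < κ := by linarith
  have hε : (0 : ℝ) < x / 64 := by positivity
  obtain ⟨A, B, hAB, ρ₀, hρ₀, τ₀, hτ₀, r₀, hstage⟩ :=
    stage hG hS.e hS.b hε hq (k : ℝ)
  have hA3 : ∀ w : ℂ, ‖w‖ ≤ 1 → ‖ev A w‖ ≤ 3 := fun w hw =>
    (hAB w hw).1.trans (by linarith)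
  have hB3 : ∀ w : ℂ, ‖w‖ ≤ 1 → ‖ev B w‖ ≤ 3 := fun w hw =>
    (hAB w hw).2.trans (by linarith)
  have hB0 : B.coeff 0 = 0 := by
    have h1 := (hAB 0 (by simp)).2
    rw [norm_zero, mul_zero] at h1
    have h2 : ev B 0 = 0 := norm_le_zero_iff.1 h1
    unfold ev at h2
    rw [Polynomial.aeval_def, Polynomial.eval₂_at_zero] at h2
    have h3 : ((B.coeff 0 : ℝ) : ℂ) = 0 := h2
    exact_mod_cast h3
  obtain ⟨a, haE, ha⟩ := exists_even hG A hA3
  obtain ⟨β, hβE, hβ⟩ := exists_density hG B hB0 hB3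
  set τ' : ℝ := min τ₀ (min S.τ (x / 2)) with hτ'
  set ρ' : ℝ := min ρ₀ (min S.ρ (x / 2)) with hρ'
  have hτ'0 : 0 < τ' := lt_min hτ₀ (lt_min hS.τ0 (by positivity))
  have hρ'0 : 0 < ρ' := lt_min hρ₀ (lt_min hS.ρ0 (by positivity))
  have hτ'τ₀ : τ' ≤ τ₀ := min_le_left _ _
  have hτ'S : τ' ≤ S.τ := (min_le_right _ _).trans (min_le_left _ _)
  have hτ'x : τ' ≤ x / 2 := (min_le_right _ _).trans (min_le_right _ _)
  have hρ'ρ₀ : ρ' ≤ ρ₀ := min_le_left _ _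
  have hρ'S : ρ' ≤ S.ρ := (min_le_right _ _).trans (min_le_left _ _)
  have hρ'x : ρ' ≤ x / 2 := (min_le_right _ _).trans (min_le_right _ _)
  set δ : ℝ := τ' * (x / 32) with hδ
  have hδ0 : 0 < δ := by positivity
  have he1 := hS.e.add_mul_r1 haE hε.le
  have hb1 := hS.b.add_mul_r1 hβE hε.le
  obtain ⟨r₁, h₁⟩ := porous_e hG hq he1 (by nlinarith) hδ0
  obtain ⟨r₂, h₂⟩ := porous_b hG hq hħc hħ01 hħs hħe hκ hκi hb1 hρ'0 hδ0
  -- the choice of `r`
  have htend : Tendsto (fun r : ℕ => (2 : ℝ) ^ r) atTop atTop :=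
    tendsto_pow_atTop_atTop_of_one_lt (by norm_num)
  obtain ⟨r₃, h₃⟩ := (htend.eventually_ge_atTop
    (G0 ((1 + 2 * q : ℝ) : ℂ) / (τ' * (x / 16)))).exists_forall_of_atTop
  obtain ⟨r₄, h₄⟩ := (htend.eventually_ge_atTop
    (-Real.log (τ' * (x / 16)) / ρ')).exists_forall_of_atTop
  set r : ℕ := max (max r₀ r₁) (max r₂ (max r₃ r₄)) with hr
  have hr0 : r₀ ≤ r := (le_max_left _ _).trans (le_max_left _ _)
  have hr1 : r₁ ≤ r := (le_max_right _ _).trans (le_max_left _ _)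
  have hr2 : r₂ ≤ r := (le_max_left _ _).trans (le_max_right _ _)
  have hr3 : r₃ ≤ r := ((le_max_left _ _).trans (le_max_right _ _)).trans (le_max_right _ _)
  have hr4 : r₄ ≤ r := ((le_max_right _ _).trans (le_max_right _ _)).trans (le_max_right _ _)
  obtain ⟨e', he'E, he'⟩ := h₁ r hr1
  obtain ⟨hb'E, hb'⟩ := h₂ r hr2
  have h₃ := h₃ r hr3
  have h₄ := h₄ r hr4
  have hNr : (2 : ℝ) ^ r ≤ 2 ^ r * S.G.N := by
    have : (0 : ℝ) < 2 ^ r := by positivity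
    nlinarith
  -- the new function
  have hpat : ∀ v, v ∉ S.G.E → (S.e v + x / 64 * a v) + Pb (fun t => S.b t + x / 64 * β t) v =
      S.e v + Pb S.b v + x / 64 * S.G.pat A B v := by
    intro v hv
    rw [Pb_add_mul hG.isCompact_E hG.E_subset hS.b hβE (x / 64) hv, Geo.pat, ha v hv, hβ v hv]
    ring
  have hnot : ∀ v, ρ' ≤ S.G.g v → v ∉ S.G.E := by
    intro v hv hvE
    rw [(hG.g_eq_zero_iff v).2 hvE] at hv
    linarith
  have hclose : ∀ v, ρ' ≤ S.G.g v →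
      |(e' v + Pb (fun t => (S.b t + x / 64 * β t) * ħ ((S.G.step q r).F t).re / κ) v) -
        (S.e v + Pb S.b v + x / 64 * S.G.pat A B v)| ≤ τ' * (x / 16) := by
    intro v hv
    rw [← hpat v (hnot v hv)]
    have h1 := he' v
    have h2 := hb' v hv
    have h3 : (e' v + Pb (fun t => (S.b t + x / 64 * β t) * ħ ((S.G.step q r).F t).re / κ) v) -
        ((S.e v + x / 64 * a v) + Pb (fun t => S.b t + x / 64 * β t) v) =
        (e' v - (S.e v + x / 64 * a v)) +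
        (Pb (fun t => (S.b t + x / 64 * β t) * ħ ((S.G.step q r).F t).re / κ) v -
          Pb (fun t => S.b t + x / 64 * β t) v) := by ring
    rw [h3]
    refine (abs_add_le _ _).trans ?_
    have h4 : τ' * (x / 16) = δ + δ := by rw [hδ]; ring
    rw [h4]
    exact add_le_add h1 h2
  have hpatb : ∀ v, v ∉ S.G.E → |S.G.pat A B v| ≤ 6 * Real.exp (-(S.G.N * S.G.g v)) := by
    intro v hv
    have h1 := hG.norm_omF hv
    have h2 : ‖om (S.G.F v)‖ ≤ 1 := by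
      rw [h1, Real.exp_le_one_iff]
      have := hG.g_nonneg v
      nlinarith
    have h3 := hAB _ h2
    rw [Geo.pat]
    refine (abs_add_le _ _).trans ?_
    have h4 := (Complex.abs_re_le_norm (ev A (om (S.G.F v)))).trans h3.1
    have h5 := (Complex.abs_im_le_norm (ev B (om (S.G.F v)))).trans h3.2
    rw [h1] at h4 h5
    linarith
  refine ⟨⟨S.G.step q r, e', fun t => (S.b t + x / 64 * β t) * ħ ((S.G.step q r).F t).re / κ,
    ρ', τ'⟩, ⟨hG.step hq r, ?_, ?_, hρ'0, ?_, hτ'0, ?_⟩, ?_⟩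
  · refine he'E.mono_r1 ?_
    rw [p1]
    have : δ ≤ x / 64 := by
      rw [hδ]
      have : τ' * (x / 32) ≤ (1 / 2) * (x / 32) :=
        mul_le_mul_of_nonneg_right (by linarith) (by positivity)
      linarith
    linarith
  · refine hb'E.mono_r1 ?_
    rw [p1, div_le_iff₀ hκ]
    have h1 : (1 - x / 2) * (1 - x / 16) ≤ (1 - x / 2) * κ :=
      mul_le_mul_of_nonneg_left hκ1 (by linarith)
    nlinarith
  · rw [p1]
    exact hρ'x
  · rw [p1]
    exact hτ'x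
  · refine ⟨hG.step_E_subset hq r, hρ'S, hτ'S, hG.g_le_step hq r, ?_, ?_, ?_, ?_⟩
    · intro v
      refine (hG.step_g_le hq r v).trans ?_
      have h1 : G0 ((1 + 2 * q : ℝ) : ℂ) / (2 ^ r * S.G.N) ≤ τ' / 2 ^ (k + 4) := by
        have h2 : τ' / 2 ^ (k + 4) = τ' * (x / 16) := by rw [← p4]; ring
        rw [h2, div_le_iff₀ (by positivity)]
        rw [div_le_iff₀ (by positivity)] at h₃
        have h3 : τ' * (x / 16) * 2 ^ r ≤ τ' * (x / 16) * (2 ^ r * S.G.N) :=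
          mul_le_mul_of_nonneg_left hNr (by positivity)
        linarith
      linarith
    · intro v hv
      have h1 := hclose v hv
      have h2 := hpatb v (hnot v hv)
      have h3 : τ' / 2 ^ (k + 4) = τ' * (x / 16) := by rw [← p4]; ring
      have h4 : Real.exp (-(S.G.N * S.G.g v)) / 2 ^ k = Real.exp (-(S.G.N * S.G.g v)) * x := by
        rw [hx]; ring
      rw [h3, h4]
      have h5 : |(e' v + Pb (fun t => (S.b t + x / 64 * β t) * ħ ((S.G.step q r).F t).re / κ) v) -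
          (S.e v + Pb S.b v)| ≤ τ' * (x / 16) + |x / 64 * S.G.pat A B v| := by
        have h6 : (e' v + Pb (fun t => (S.b t + x / 64 * β t) *
            ħ ((S.G.step q r).F t).re / κ) v) - (S.e v + Pb S.b v) =
            ((e' v + Pb (fun t => (S.b t + x / 64 * β t) * ħ ((S.G.step q r).F t).re / κ) v) -
            (S.e v + Pb S.b v + x / 64 * S.G.pat A B v)) + x / 64 * S.G.pat A B v := by ring
        rw [h6]
        exact (abs_add_le _ _).trans (add_le_add h1 le_rfl)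
      refine h5.trans ?_
      rw [abs_mul, abs_of_nonneg hε.le]
      have h7 : x / 64 * |S.G.pat A B v| ≤ x / 64 * (6 * Real.exp (-(S.G.N * S.G.g v))) :=
        mul_le_mul_of_nonneg_left h2 hε.le
      have h8 : 0 < Real.exp (-(S.G.N * S.G.g v)) := Real.exp_pos _
      have h9 : 0 < x * Real.exp (-(S.G.N * S.G.g v)) := by positivity
      linarith
    · have h2 : τ' / 2 ^ (k + 4) = τ' * (x / 16) := by rw [← p4]; ring
      rw [h2]
      have h3 : (0 : ℝ) < τ' * (x / 16) := by positivity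
      rw [← Real.le_log_iff_exp_le h3]
      rw [div_le_iff₀ hρ'0] at h₄
      have h5 : 2 ^ r * ρ' ≤ 2 ^ r * S.G.N * ρ' := mul_le_mul_of_nonneg_right hNr hρ'0.le
      change -(2 ^ r * S.G.N * ρ') ≤ _
      linarith
    · intro f γ K L hf hγ hfS hγS hK
      refine (hstage r hr0 f γ K L hf hγ ?_ ?_ hK).trans ?_
      · intro v hv
        have hv' : ρ' ≤ S.G.g v := hρ'ρ₀.trans hv
        have h1 := hfS v hv'
        have h2 := hclose v hv'
        refine le_trans ?_ hτ'τ₀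
        have h3 : f v - (S.e v + Pb S.b v + x / 64 * S.G.pat A B v) =
          (f v - (e' v + Pb (fun t => (S.b t + x / 64 * β t) *
            ħ ((S.G.step q r).F t).re / κ) v)) +
          ((e' v + Pb (fun t => (S.b t + x / 64 * β t) * ħ ((S.G.step q r).F t).re / κ) v) -
            (S.e v + Pb S.b v + x / 64 * S.G.pat A B v)) := by ring
        rw [h3]
        refine (abs_add_le _ _).trans ?_
        have h4 : |f v - (e' v + Pb (fun t => (S.b t + x / 64 * β t) *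
            ħ ((S.G.step q r).F t).re / κ) v)| ≤ τ' / 2 := h1
        have h5 : τ' * (x / 16) ≤ τ' * (1 / 2) :=
          mul_le_mul_of_nonneg_left (by linarith) hτ'0.le
        linarith
      · intro v hv
        exact (hγS v (hρ'ρ₀.trans hv)).trans hτ'τ₀
      · exact lintegral_mono_set fun v hv => hρ'ρ₀.trans hv

theorem exists_seq : ∃ S : ℕ → St, ∀ k, (S k).OK k ∧ Step k (S k) (S (k + 1)) := by
  have h0 : St.OK 0 (⟨geo0, fun _ => 0, fun _ => 0, 1, 1⟩ : St) := by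
    refine ⟨geo0_ok, ⟨continuous_const, ?_, ?_⟩, ⟨continuous_const, ?_, ?_⟩, one_pos, ?_,
      one_pos, ?_⟩
    · intro v _
      exact harmonicAt_const 0
    · intro v; simp
    · intro t _; rfl
    · intro t; simp
    · simp
    · simp
  choose next hnext using fun (k : ℕ) (S : {S : St // S.OK k}) => exists_step k S.2
  let seq : (k : ℕ) → {S : St // S.OK k} := fun k =>
    Nat.rec ⟨_, h0⟩ (fun k S => ⟨next k S, (hnext k S).1⟩) k
  exact ⟨fun k => (seq k).1, fun k => ⟨(seq k).2, (hnext k (seq k)).2⟩⟩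

end Pool.Agent.NH
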