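import Pool.Agent.Lib.MP_00644e_an.Defs
import Pool.Agent.Lib.MP_00644e_an.R1
/-! # Row R2: the limit (theorem in the v-plane)

PROOF. `S` from `exists_seq`; `E = ⋂ k, (S k).G.E` (compact, nonempty: nested nonempty compact sets, `B i 0 ∈ E`). `g v = ⨆ k` or the limit of
`(S k).G.g v` (monotone, increments `≤ 2^{-k-4}`): continuous (uniform limit), `0` on `E`, positive off `E`, harmonic off `E`
(`v ∉ E`: `v ∉ (S k₀).G.E` for some `k₀`, locally uniform limit, T6). `R k = {v | (S (k+1)).ρ ≤ (S k).G.g v}` increases to `Eᶜ`.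
For `v ∈ R k`, `j > k`: `v ∈ R (j-1)`, so `N_j g_j v ≥ N_j (S j).ρ` and `exp (-(N_j g_j v)) ≤ (S j).τ/2^{j+3}` (`small` at step `j-1`), hence by `move`
`|f_{j+1} v - f_j v| ≤ (S (k+1)).τ / 2^{j+2}`, and the sum over `j > k` is `≤ (S (k+1)).τ/2^{k+2}`. So `f v = lim f_j v` exists off `E`, uniformly on `R k`,
harmonic, `|f| ≤ 2` (`EOK`, `Pb_bound`), `|f - f_{k+1}| ≤ (S (k+1)).τ/2` on `R k`, and `|g - g_k| ≤ ∑_{j≥k} (S (j+1)).τ/2^{j+4} ≤ (S (k+1)).τ`.
`K` with `PosH E K L` satisfies `PosH (S (k+1)).G.E K L`. `cost` of step `k`: the integral over `Eᶜ ⊇ R k` is `≥ k L` for every `k`. -/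

set_option autoImplicit false

open Complex Metric Set Filter Topology MeasureTheory InnerProductSpace ComplexConjugate

noncomputable section

namespace Pool.Agent.NH

private theorem r2_geo {a : ℕ → ℝ} {k : ℕ} {C : ℝ}
    (h : ∀ n, |a (k + n + 1) - a (k + n)| ≤ C / 2 / 2 ^ n) :
    ∃ l, Tendsto a atTop (𝓝 l) ∧ |l - a k| ≤ C := by
  have h' : ∀ n, dist (a (k + n)) (a (k + (n + 1))) ≤ C / 2 / 2 ^ n := by
    intro n
    rw [dist_comm, Real.dist_eq]
    exact h n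
  have hc : CauchySeq fun n => a (k + n) := cauchySeq_of_le_geometric_two h'
  obtain ⟨l, hl⟩ := cauchySeq_tendsto_of_complete hc
  have hl' : Tendsto a atTop (𝓝 l) := by
    refine (tendsto_add_atTop_iff_nat k).1 ?_
    simpa only [add_comm] using hl
  refine ⟨l, hl', ?_⟩
  have := dist_le_of_le_geometric_two_of_tendsto₀ h' hl
  rw [dist_comm, Real.dist_eq] at this
  simpa using this

section

variable {S : ℕ → St} (hS : ∀ k, (S k).OK k ∧ Step k (S k) (S (k + 1)))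

include hS

private theorem r2_sub {k j : ℕ} (h : k ≤ j) : (S j).G.E ⊆ (S k).G.E :=
  antitone_nat_of_succ_le (f := fun k => (S k).G.E) (fun k => (hS k).2.sub) h

private theorem r2_rho {k j : ℕ} (h : k ≤ j) : (S j).ρ ≤ (S k).ρ :=
  antitone_nat_of_succ_le (f := fun k => (S k).ρ) (fun k => (hS k).2.ρle) h

private theorem r2_tau {k j : ℕ} (h : k ≤ j) : (S j).τ ≤ (S k).τ :=
  antitone_nat_of_succ_le (f := fun k => (S k).τ) (fun k => (hS k).2.τle) h

private theorem r2_g {k j : ℕ} (h : k ≤ j) (v : ℂ) : (S k).G.g v ≤ (S j).G.g v :=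
  monotone_nat_of_le_succ (f := fun k => (S k).G.g v) (fun k => (hS k).2.gle v) h

private theorem r2_glim (v : ℂ) : ∃ l, Tendsto (fun j => (S j).G.g v) atTop (𝓝 l) ∧
    ∀ k, (S k).G.g v ≤ l ∧ l ≤ (S k).G.g v + (S (k + 1)).τ / 2 ^ (k + 3) := by
  have key : ∀ k, ∃ l, Tendsto (fun j => (S j).G.g v) atTop (𝓝 l) ∧
      |l - (S k).G.g v| ≤ (S (k + 1)).τ / 2 ^ (k + 3) := by
    intro k
    refine r2_geo (a := fun j => (S j).G.g v) (k := k) fun n => ?_
    have h1 := (hS (k + n)).2.gle v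
    have h2 := (hS (k + n)).2.gle' v
    have h3 : (S (k + n + 1)).τ ≤ (S (k + 1)).τ := r2_tau hS (by omega)
    rw [abs_of_nonneg (by linarith)]
    have h4 : (S (k + n + 1)).τ / 2 ^ (k + n + 4) ≤ (S (k + 1)).τ / 2 ^ (k + n + 4) :=
      div_le_div_of_nonneg_right h3 (by positivity)
    have h5 : (S (k + 1)).τ / 2 ^ (k + n + 4) = (S (k + 1)).τ / 2 ^ (k + 3) / 2 / 2 ^ n := by
      rw [div_div, div_div]
      congr 1
      ring
    linarith
  obtain ⟨l, hl, -⟩ := key 0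
  refine ⟨l, hl, fun k => ?_⟩
  obtain ⟨l', hl', hk⟩ := key k
  rw [tendsto_nhds_unique hl' hl] at hk
  constructor
  · exact ge_of_tendsto hl ((eventually_ge_atTop k).mono fun j hj => r2_g hS hj v)
  · have := (abs_le.1 hk).2
    linarith

private theorem r2_flim {k : ℕ} {v : ℂ} (hv : (S (k + 1)).ρ ≤ (S k).G.g v) :
    Tendsto (fun j => (S j).f v) atTop (𝓝 (limUnder atTop fun j => (S j).f v)) ∧
      |(limUnder atTop fun j => (S j).f v) - (S (k + 1)).f v| ≤ (S (k + 1)).τ / 2 ^ (k + 2) := by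
  have key : ∃ l, Tendsto (fun j => (S j).f v) atTop (𝓝 l) ∧
      |l - (S (k + 1)).f v| ≤ (S (k + 1)).τ / 2 ^ (k + 2) := by
    refine r2_geo (a := fun j => (S j).f v) (k := k + 1) fun n => ?_
    have hN := (hS (k + 1 + n)).1.G.hN
    have h1 : (S (k + 1 + n)).ρ ≤ (S (k + 1 + n)).G.g v :=
      ((r2_rho hS (by omega)).trans hv).trans (r2_g hS (by omega) v)
    have h2 : (S (k + 1 + n + 1)).ρ ≤ (S (k + 1 + n)).G.g v :=
      (r2_rho hS (by omega)).trans h1
    have h3 := (hS (k + 1 + n)).2.move v h2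
    have h4 := (hS (k + n)).2.small
    rw [show k + n + 1 = k + 1 + n by omega] at h4
    have h5 : Real.exp (-((S (k + 1 + n)).G.N * (S (k + 1 + n)).G.g v)) ≤
        (S (k + 1 + n)).τ / 2 ^ (k + n + 4) := by
      refine le_trans (Real.exp_le_exp.2 ?_) h4
      exact neg_le_neg (mul_le_mul_of_nonneg_left h1 (by linarith))
    have h6 : (S (k + 1 + n)).τ ≤ (S (k + 1)).τ := r2_tau hS (by omega)
    have h7 : (S (k + 1 + n + 1)).τ ≤ (S (k + 1)).τ := r2_tau hS (by omega)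
    have hτ : 0 < (S (k + 1)).τ := (hS (k + 1)).1.τ0
    have h8 : Real.exp (-((S (k + 1 + n)).G.N * (S (k + 1 + n)).G.g v)) / 2 ^ (k + 1 + n) ≤
        (S (k + 1)).τ / 2 ^ (k + n + 4) := by
      have h9 : (1 : ℝ) ≤ 2 ^ (k + 1 + n) := one_le_pow₀ (by norm_num)
      refine (div_le_self (Real.exp_pos _).le h9).trans (h5.trans ?_)
      exact div_le_div_of_nonneg_right h6 (by positivity)
    have h10 : (S (k + 1 + n + 1)).τ / 2 ^ (k + 1 + n + 4) ≤ (S (k + 1)).τ / 2 ^ (k + n + 4) := by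
      refine div_le_div₀ hτ.le h7 (by positivity) ?_
      exact pow_le_pow_right₀ (by norm_num) (by omega)
    have h11 : (S (k + 1)).τ / 2 ^ (k + 2) / 2 / 2 ^ n = 2 * ((S (k + 1)).τ / 2 ^ (k + n + 4)) := by
      rw [pow_add, pow_add, pow_add]
      field_simp
    rw [h11]
    linarith
  obtain ⟨l, hl, hk⟩ := key
  rw [hl.limUnder_eq]
  exact ⟨hl, hk⟩

private theorem r2_mono {k n : ℕ} {v : ℂ} (hv : (S (k + 1)).ρ ≤ (S k).G.g v) :
    (S (k + n + 1)).ρ ≤ (S (k + n)).G.g v :=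
  ((r2_rho hS (by omega)).trans hv).trans (r2_g hS (by omega) v)

private theorem r2_cover {v : ℂ} (hv : v ∉ ⋂ k, (S k).G.E) :
    ∃ k, (S (k + 1)).ρ < (S k).G.g v := by
  rw [mem_iInter] at hv
  push Not at hv
  obtain ⟨k₀, hk₀⟩ := hv
  have h1 : 0 < (S k₀).G.g v := (hS k₀).1.G.g_pos hk₀
  have h2 : Tendsto (fun k : ℕ => (1 : ℝ) / 2 ^ k) atTop (𝓝 0) := by
    have := tendsto_pow_atTop_nhds_zero_of_lt_one (r := (1 / 2 : ℝ)) (by norm_num) (by norm_num)
    simpa [div_pow] using this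
  obtain ⟨k, hk, hk'⟩ := ((h2.eventually (gt_mem_nhds h1)).and (eventually_ge_atTop k₀)).exists
  refine ⟨k, ?_⟩
  have h3 := (hS (k + 1)).1.ρ1
  have h4 : (1 : ℝ) / 2 ^ (k + 1) ≤ 1 / 2 ^ k :=
    one_div_le_one_div_of_le (by positivity) (pow_le_pow_right₀ (by norm_num) (by omega))
  exact (h3.trans_lt (h4.trans_lt hk)).trans_le (r2_g hS hk' v)

private theorem r2_tau_le (k : ℕ) : (S (k + 1)).τ ≤ 1 / 2 ^ k := by
  refine (hS (k + 1)).1.τ1.trans ?_
  exact one_div_le_one_div_of_le (by positivity) (pow_le_pow_right₀ (by norm_num) (by omega))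

end

theorem main_v : ∃ (E : Set ℂ) (g f : ℂ → ℝ), IsCompact E ∧ E.Nonempty ∧ E ⊆ seg ∧
    Continuous g ∧ HarmonicOnNhd g Eᶜ ∧ (∀ v ∈ E, g v = 0) ∧ (∀ v ∉ E, 0 < g v) ∧
    (∃ C : ℝ, ∀ v, G0 v ≤ g v ∧ g v ≤ G0 v + C) ∧ HarmonicOnNhd f Eᶜ ∧ (∀ v ∉ E, |f v| ≤ 2) ∧
    ∀ (K : ℂ → ℝ) (L : ℝ), 0 < L → PosH E K L →
      ∫⁻ v in Eᶜ, ENNReal.ofReal (‖fderiv ℝ f v‖ * ‖fderiv ℝ g v‖ * K v) = ⊤ := by
  obtain ⟨S, hS⟩ := exists_seq
  choose g hg hgk using r2_glim hS
  set f : ℂ → ℝ := fun v => limUnder atTop fun j => (S j).f v with hf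
  have hfk : ∀ k v, (S (k + 1)).ρ ≤ (S k).G.g v → Tendsto (fun j => (S j).f v) atTop (𝓝 (f v)) ∧
      |f v - (S (k + 1)).f v| ≤ (S (k + 1)).τ / 2 ^ (k + 2) := fun k v hv => r2_flim hS hv
  set E : Set ℂ := ⋂ k, (S k).G.E with hE
  have hEk : ∀ k, E ⊆ (S k).G.E := fun k => iInter_subset _ k
  have hρ : ∀ k, 0 < (S k).ρ := fun k => (hS k).1.ρ0
  have hτ : ∀ k, 0 < (S k).τ := fun k => (hS k).1.τ0
  have hτ1 : ∀ k, (S (k + 1)).τ ≤ 1 := fun k => (r2_tau_le hS k).trans (by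
    rw [div_le_one (by positivity)]; exact one_le_pow₀ (by norm_num))
  have hcomp : IsCompact E := by
    refine (hS 0).1.G.isCompact_E.of_isClosed_subset ?_ (hEk 0)
    exact isClosed_iInter fun k => (hS k).1.G.isCompact_E.isClosed
  have hne : E.Nonempty := by
    refine IsCompact.nonempty_iInter_of_sequence_nonempty_isCompact_isClosed
      (fun k => (S k).G.E) (fun k => (hS k).2.sub) (fun k => ?_) (hS 0).1.G.isCompact_E
      (fun k => (hS k).1.G.isCompact_E.isClosed)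
    obtain ⟨i⟩ := (hS k).1.G.ne
    refine ⟨(S k).G.B i 0, ?_⟩
    have h1 : (0 : ℂ) ∈ Sc (S k).G.c := Or.inr (by
      have := (hS k).1.G.hc
      simp; linarith)
    show (S k).G.F ((S k).G.B i 0) ∈ seg
    rw [(hS k).1.G.FB i 0 h1]
    constructor <;> simp
  have hdist : ∀ k v, |g v - (S k).G.g v| ≤ 1 / 2 ^ k := by
    intro k v
    have h1 := hgk v k
    rw [abs_of_nonneg (by linarith [h1.1])]
    have h2 : (S (k + 1)).τ / 2 ^ (k + 3) ≤ (S (k + 1)).τ :=
      div_le_self (hτ _).le (one_le_pow₀ (by norm_num))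
    have h3 := r2_tau_le hS k
    linarith [h1.2]
  have hlim0 : Tendsto (fun k : ℕ => (1 : ℝ) / 2 ^ k) atTop (𝓝 0) := by
    have := tendsto_pow_atTop_nhds_zero_of_lt_one (r := (1 / 2 : ℝ)) (by norm_num) (by norm_num)
    simpa [div_pow] using this
  have hunif : TendstoUniformly (fun k => (S k).G.g) g atTop := by
    rw [Metric.tendstoUniformly_iff]
    intro ε hε
    filter_upwards [hlim0.eventually (gt_mem_nhds hε)] with k hk v
    rw [Real.dist_eq]
    exact (hdist k v).trans_lt hk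
  have hgc : Continuous g := hunif.continuous
    (Frequently.of_forall fun k => (hS k).1.G.continuous_g)
  have hgh : HarmonicOnNhd g Eᶜ := by
    intro v₀ hv₀
    have hv₁ : v₀ ∉ ⋂ k, (S k).G.E := hv₀
    rw [mem_iInter] at hv₁
    push Not at hv₁
    obtain ⟨k₀, hk₀⟩ := hv₁
    refine harmonicOnNhd_of_tendstoLocallyUniformlyOn (U := ((S k₀).G.E)ᶜ)
      (u := fun n => (S (n + k₀)).G.g) (f := g) (hS k₀).1.G.isCompact_E.isClosed.isOpen_compl
      (fun n => ?_) ?_ v₀ hk₀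
    · exact (hS (n + k₀)).1.G.harmonic_g.mono (compl_subset_compl.2 (r2_sub hS (by omega)))
    · refine TendstoUniformlyOn.tendstoLocallyUniformlyOn ?_
      rw [Metric.tendstoUniformlyOn_iff]
      intro ε hε
      have h1 := (tendsto_add_atTop_iff_nat k₀).2 hlim0
      filter_upwards [h1.eventually (gt_mem_nhds hε)] with n hn v _
      rw [Real.dist_eq]
      exact (hdist (n + k₀) v).trans_lt hn
  have hfh : HarmonicOnNhd f Eᶜ := by
    intro v₀ hv₀
    obtain ⟨k, hk⟩ := r2_cover hS (v := v₀) hv₀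
    refine harmonicOnNhd_of_tendstoLocallyUniformlyOn (U := {v | (S (k + 1)).ρ < (S k).G.g v})
      (u := fun n => (S (k + n + 1)).f) (f := f)
      (isOpen_lt continuous_const (hS k).1.G.continuous_g) (fun n => ?_) ?_ v₀ hk
    · have hOK := (hS (k + n + 1)).1
      have h1 : HarmonicOnNhd (S (k + n + 1)).f ((S (k + n + 1)).G.E)ᶜ :=
        hOK.e.harm.add (Pb_harmonic hOK.G.isCompact_E hOK.G.E_subset hOK.b)
      refine h1.mono fun v hv hvE => ?_
      have h2 : (S (k + 1)).ρ < (S k).G.g v := hv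
      have h3 : (S k).G.g v ≤ (S (k + n + 1)).G.g v := r2_g hS (by omega) v
      rw [(hOK.G.g_eq_zero_iff v).2 hvE] at h3
      linarith [hρ (k + 1)]
    · refine TendstoUniformlyOn.tendstoLocallyUniformlyOn ?_
      rw [Metric.tendstoUniformlyOn_iff]
      intro ε hε
      have h1 := (tendsto_add_atTop_iff_nat k).2 hlim0
      filter_upwards [h1.eventually (gt_mem_nhds hε)] with n hn v hv
      rw [Real.dist_eq]
      have h2 := (hfk (k + n) v (r2_mono hS (le_of_lt hv))).2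
      refine h2.trans_lt (lt_of_le_of_lt ?_ hn)
      have h3 := r2_tau_le hS (k + n)
      have h4 : (S (k + n + 1)).τ / 2 ^ (k + n + 2) ≤ (S (k + n + 1)).τ :=
        div_le_self (hτ _).le (one_le_pow₀ (by norm_num))
      rw [add_comm n k]
      linarith
  refine ⟨E, g, f, hcomp, hne, (hEk 0).trans (hS 0).1.G.E_subset, hgc, hgh, ?_, ?_, ?_, hfh, ?_, ?_⟩
  · intro v hv
    have h1 : ∀ k, (S k).G.g v = 0 := fun k => ((hS k).1.G.g_eq_zero_iff v).2 (hEk k hv)
    have h2 := hg v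
    simp only [h1] at h2
    exact tendsto_nhds_unique h2 tendsto_const_nhds
  · intro v hv
    obtain ⟨k, hk⟩ := r2_cover hS (v := v) hv
    exact ((hρ (k + 1)).trans hk).trans_le (hgk v k).1
  · obtain ⟨C, hC⟩ := (hS 0).1.G.exists_g_le
    refine ⟨C + 1, fun v => ⟨((hS 0).1.G.G0_le_g v).trans (hgk v 0).1, ?_⟩⟩
    have h1 := abs_le.1 (hdist 0 v)
    have h2 := hC v
    have h3 := h1.2
    norm_num at h3
    linarith
  · intro v hv
    obtain ⟨k, hk⟩ := r2_cover hS (v := v) hv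
    have h1 := (hfk k v hk.le).1
    refine le_of_tendsto' h1.abs fun j => ?_
    have hOK := (hS j).1
    have h2 := hOK.e.bdd v
    have h3 := Pb_bound hOK.G.isCompact_E hOK.G.E_subset hOK.b v
    have h4 : |(S j).f v| ≤ |(S j).e v| + |Pb (S j).b v| := abs_add_le _ _
    have h5 : (0 : ℝ) < 1 / 2 ^ j := by positivity
    linarith
  · intro K L hL hK
    have hall : ∀ k : ℕ, ENNReal.ofReal (k * L) ≤
        ∫⁻ v in Eᶜ, ENNReal.ofReal (‖fderiv ℝ f v‖ * ‖fderiv ℝ g v‖ * K v) := by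
      intro k
      have hsub : ((S (k + 1)).G.E)ᶜ ⊆ Eᶜ := compl_subset_compl.2 (hEk (k + 1))
      refine ((hS k).2.cost f g K L (hfh.mono hsub) (hgh.mono hsub) (fun v hv => ?_)
        (fun v _ => ?_) ⟨hK.harm.mono hsub, fun v hv => hK.pos v (hsub hv), hK.lim⟩).trans ?_
      · refine (hfk k v hv).2.trans ?_
        refine div_le_div_of_nonneg_left (hτ _).le (by norm_num) ?_
        calc (2 : ℝ) = 2 ^ 1 := by norm_num
          _ ≤ 2 ^ (k + 2) := pow_le_pow_right₀ (by norm_num) (by omega)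
      · have h1 := hgk v k
        rw [abs_of_nonneg (by linarith [h1.1])]
        have h2 : (S (k + 1)).τ / 2 ^ (k + 3) ≤ (S (k + 1)).τ :=
          div_le_self (hτ _).le (one_le_pow₀ (by norm_num))
        linarith [h1.2]
      · refine lintegral_mono_set fun v hv hvE => ?_
        have h1 : (S (k + 1)).ρ ≤ (S k).G.g v := hv
        rw [((hS k).1.G.g_eq_zero_iff v).2 (hEk k hvE)] at h1
        linarith [hρ (k + 1)]
    have hlim : Tendsto (fun k : ℕ => ENNReal.ofReal (k * L)) atTop (𝓝 ⊤) :=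
      ENNReal.tendsto_ofReal_atTop.comp
        (tendsto_natCast_atTop_atTop.atTop_mul_const hL)
    exact top_le_iff.1 (le_of_tendsto' hlim hall)

end Pool.Agent.NH
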