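import Pool.Agent.Lib.MP_00644e_an.Defs
import Pool.Agent.Lib.MP_00644e_an.R2
import Pool.Agent.Lib.MP_00644e_an.F2
import Pool.Agent.Lib.MP_00644e_an.F3
import Pool.Agent.Lib.MP_00644e_an.F4
/-! # Row F5: the final theorem

PROOF. `main_v` gives `E, g, f`; `e₀ ∈ E`, `Ω = Om E e₀`, `w₀ = 0`. `f (e₀ + 1/z)` is bounded harmonic on `Ω \ {0}`, extend it to `0` (`exists_extension`) and
put `v = 3 +` extension: harmonic, `1 ≤ v ≤ 5` (at `0` by continuity). A Green's function with pole `0` equals `g (e₀ + 1/z)` on the open set `Ω \ {0}`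
(`isGreen_unique`), so it has the same gradient there. Martin kernels: `IsMartinKernel.harmonic`. For positive harmonic `K`: `posH_of_Om` with `L = K 0 > 0`,
`main_v`, `lintegral_Om`; off `E` the composed functions are locally equal to `f`, `g`, `K'` (`e₀ + 1/(1/(v-e₀)) = v`).
`‖gradient u z‖ = ‖fderiv ℝ u z‖` (`gradient = toDual.symm fderiv`, an isometry). -/

set_option autoImplicit false

open Complex Metric Set Filter Topology MeasureTheory InnerProductSpace ComplexConjugate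

noncomputable section

namespace Pool.Agent.NH

/-- The inverse of the Moebius map. -/
private theorem F5_inv {e₀ w : ℂ} (hw : w ≠ e₀) : e₀ + 1 / (1 / (w - e₀)) = w := by
  have h : w - e₀ ≠ 0 := sub_ne_zero.mpr hw
  field_simp
  ring

private theorem F5_an {e₀ z : ℂ} (hz : z ≠ 0) : AnalyticAt ℂ (fun z : ℂ => e₀ + 1 / z) z := by
  exact analyticAt_const.add (analyticAt_const.div analyticAt_id hz)

private theorem F5_diff {u : ℂ → ℝ} {z : ℂ} (h : HarmonicAt u z) : DifferentiableAt ℝ u z :=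
  h.1.differentiableAt (by norm_num)

private theorem F5_grad (u : ℂ → ℝ) (z : ℂ) : ‖gradient u z‖ = ‖fderiv ℝ u z‖ := by
  unfold gradient
  exact LinearIsometryEquiv.norm_map _ _

theorem final : ∃ (Ω : Set ℂ) (w₀ : ℂ) (v : ℂ → ℝ), IsOpen Ω ∧ IsConnected Ω ∧
    (∀ z ∉ Ω, z.im = 0) ∧ w₀ ∈ Ω ∧ (∀ z ∈ Ω, ∃ g, IsGreen Ω z g) ∧
    HarmonicOnNhd v Ω ∧ (∀ z ∈ Ω, 1 ≤ v z ∧ v z ≤ 5) ∧
    ∀ g : ℂ → ℝ, IsGreen Ω w₀ g → ∀ K : ℂ → ℝ,
      (IsMartinKernel Ω w₀ K ∨ (HarmonicOnNhd K Ω ∧ ∀ z ∈ Ω, 0 < K z)) →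
      ∫⁻ z in Ω, ENNReal.ofReal (‖gradient v z‖ * K z * ‖gradient g z‖) = ⊤ := by
  obtain ⟨E, g, f, hEc, hEne, hEs, hgc, hgh, hg0, hgp, hgC, hfh, hfb, hmain⟩ := main_v
  obtain ⟨e₀, h0⟩ := hEne
  have hO : IsOpen (Om E e₀) := isOpen_Om hEc
  have hC : IsConnected (Om E e₀) := isConnected_Om hEc hEs h0
  have hmem0 : (0 : ℂ) ∈ Om E e₀ := Or.inl rfl
  -- points of `Om` different from zero
  have hmem : ∀ z ∈ Om E e₀, z ≠ 0 → e₀ + 1 / z ∉ E := fun z hz hne => by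
    rcases hz with hz | hz
    · exact absurd hz hne
    · exact hz
  obtain ⟨R, hR, hRb⟩ := Metric.isOpen_iff.mp hO 0 hmem0
  have hpun : ∀ z ∈ ball (0 : ℂ) R \ {0}, z ∈ Om E e₀ ∧ z ≠ 0 := fun z hz =>
    ⟨hRb hz.1, fun h => hz.2 h⟩
  have hfφ : ∀ z ∈ Om E e₀, z ≠ 0 → HarmonicAt (fun z : ℂ => f (e₀ + 1 / z)) z :=
    fun z hz hne => harmonicAt_comp (φ := fun z : ℂ => e₀ + 1 / z)
      (hfh _ (hmem z hz hne)) (F5_an hne)
  obtain ⟨h, hh, hhe⟩ := exists_extension (c := (0 : ℂ)) (C := 2) hR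
    (u := fun z : ℂ => f (e₀ + 1 / z))
    (fun z hz => hfφ z (hpun z hz).1 (hpun z hz).2)
    (fun z hz => hfb _ (hmem z (hpun z hz).1 (hpun z hz).2))
  -- the function `v`
  set v : ℂ → ℝ := fun z => 3 + (if z = 0 then h 0 else f (e₀ + 1 / z)) with hv
  have hv_ne : ∀ z : ℂ, z ≠ 0 → v z = 3 + f (e₀ + 1 / z) := fun z hz => by
    simp only [hv, if_neg hz]
  have hv_ball : ∀ z ∈ ball (0 : ℂ) R, v z = 3 + h z := fun z hz => by
    by_cases hz0 : z = 0
    · subst hz0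
      simp [hv]
    · rw [hv_ne z hz0, hhe z ⟨hz, hz0⟩]
  have hvh : HarmonicOnNhd v (Om E e₀) := by
    intro z hz
    by_cases hz0 : z = 0
    · subst hz0
      have h1 : HarmonicAt (fun z => (3 : ℝ) + h z) 0 :=
        (harmonicAt_const (3 : ℝ)).add (hh 0 (mem_ball_self hR))
      refine (harmonicAt_congr_nhds ?_).mpr h1
      filter_upwards [isOpen_ball.mem_nhds (mem_ball_self hR)] with w hw
      exact hv_ball w hw
    · have h1 : HarmonicAt (fun z : ℂ => (3 : ℝ) + f (e₀ + 1 / z)) z :=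
        (harmonicAt_const (3 : ℝ)).add (hfφ z hz hz0)
      refine (harmonicAt_congr_nhds ?_).mpr h1
      filter_upwards [isOpen_ne.mem_nhds hz0] with w hw
      exact hv_ne w hw
  have hh0 : |h 0| ≤ 2 := by
    have hc : ContinuousAt (fun z => |h z|) 0 :=
      ((F5_diff (hh 0 (mem_ball_self hR))).continuousAt).abs
    have ht : Tendsto (fun z => |h z|) (𝓝[≠] (0 : ℂ)) (𝓝 |h 0|) := hc.mono_left nhdsWithin_le_nhds
    refine le_of_tendsto ht ?_
    have hb : ball (0 : ℂ) R ∈ 𝓝[≠] (0 : ℂ) := nhdsWithin_le_nhds (ball_mem_nhds _ hR)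
    filter_upwards [hb, self_mem_nhdsWithin] with w hw hw0
    rw [hhe w ⟨hw, hw0⟩]
    exact hfb _ (hmem w (hRb hw) hw0)
  refine ⟨Om E e₀, 0, v, hO, hC, fun z hz => im_eq_zero_of_notMem_Om hEs h0 hz, hmem0,
    fun z hz => exists_isGreen hEc hEs h0 hgc hgh hg0 hgp hgC hz, hvh, ?_, ?_⟩
  · intro z hz
    have hb : |v z - 3| ≤ 2 := by
      by_cases hz0 : z = 0
      · subst hz0
        have : v 0 - 3 = h 0 := by simp [hv]
        rw [this]
        exact hh0
      · rw [hv_ne z hz0]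
        have := hfb _ (hmem z hz hz0)
        simpa using this
    have := abs_le.mp hb
    constructor <;> linarith [this.1, this.2]
  · intro G hG K hK
    have hKp : HarmonicOnNhd K (Om E e₀) ∧ ∀ z ∈ Om E e₀, 0 < K z := by
      rcases hK with hK | hK
      · exact IsMartinKernel.harmonic hO hC hmem0 hK
      · exact hK
    have hGe : ∀ z ∈ Om E e₀ \ {0}, G z = g (e₀ + 1 / z) :=
      isGreen_unique hG (isGreen_zero hEc hEs h0 hgc hgh hg0 hgp hgC)
    have hP := posH_of_Om hEc h0 hKp.1 hKp.2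
    have hI := hmain _ _ (hKp.2 0 hmem0) hP
    have hL := lintegral_Om (K := K) hEc h0 (f := v) (g := G)
      (fun z hz _ => F5_diff (hvh z hz)) (fun z hz hz0 => F5_diff (hG.harm z ⟨hz, hz0⟩))
    rw [eq_top_iff, ← hI]
    have hEo : IsOpen Eᶜ := hEc.isClosed.isOpen_compl
    have hne : ∀ w ∈ Eᶜ, w ≠ e₀ := fun w hw h => hw (h ▸ h0)
    have hOm : ∀ w ∈ Eᶜ, 1 / (w - e₀) ∈ Om E e₀ \ {0} := fun w hw => by
      refine ⟨Or.inr ?_, ?_⟩
      · rw [F5_inv (hne w hw)]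
        exact hw
      · have : w - e₀ ≠ 0 := sub_ne_zero.mpr (hne w hw)
        simpa using this
    calc ∫⁻ w in Eᶜ, ENNReal.ofReal (‖fderiv ℝ f w‖ * ‖fderiv ℝ g w‖ * K (1 / (w - e₀)))
        = ∫⁻ w in Eᶜ, ENNReal.ofReal (‖fderiv ℝ (fun w => v (1 / (w - e₀))) w‖ *
            ‖fderiv ℝ (fun w => G (1 / (w - e₀))) w‖ * K (1 / (w - e₀))) := by
          refine setLIntegral_congr_fun hEo.measurableSet ?_
          intro w hw
          have h1 : (fun w => v (1 / (w - e₀))) =ᶠ[𝓝 w] fun w => 3 + f w := by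
            filter_upwards [hEo.mem_nhds hw] with x hx
            rw [hv_ne _ (hOm x hx).2, F5_inv (hne x hx)]
          have h2 : (fun w => G (1 / (w - e₀))) =ᶠ[𝓝 w] g := by
            filter_upwards [hEo.mem_nhds hw] with x hx
            rw [hGe _ (hOm x hx), F5_inv (hne x hx)]
          simp only
          rw [h1.fderiv_eq, h2.fderiv_eq, fderiv_const_add]
      _ ≤ ∫⁻ z in Om E e₀, ENNReal.ofReal (‖fderiv ℝ v z‖ * ‖fderiv ℝ G z‖ * K z) := hL
      _ = ∫⁻ z in Om E e₀, ENNReal.ofReal (‖gradient v z‖ * K z * ‖gradient G z‖) := by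
          refine lintegral_congr fun z => ?_
          rw [F5_grad, F5_grad]
          congr 1
          ring

end Pool.Agent.NH
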